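import Mathlib

set_option autoImplicit false

/-!
# Averages of products of many functions (Gillis) and translation invariant recurrence
-/

namespace Pool.Agent.V11104.Gillis

open Finset MeasureTheory Function

/-- the tangent inequality for powers -/
lemma tangent (m : ℕ) (x y : ℝ) (hx : 0 ≤ x) (hy : 0 ≤ y) :
    y ^ (m + 1) + (m + 1) * y ^ m * (x - y) ≤ x ^ (m + 1) := by
  induction m with
  | zero => simp
  | succ m ih =>
    have h1 : 0 ≤ ((m : ℝ) + 1) * y ^ m * (x - y) ^ 2 := by positivity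
    have h2 := mul_le_mul_of_nonneg_left ih hx
    push_cast
    have e1 : x ^ (m + 1 + 1) = x * x ^ (m + 1) := by ring
    have e2 : x * (y ^ (m + 1) + (m + 1) * y ^ m * (x - y)) =
      y ^ (m + 1 + 1) + ((m : ℝ) + 1 + 1) * y ^ (m + 1) * (x - y) +
        ((m : ℝ) + 1) * y ^ m * (x - y) ^ 2 := by ring
    rw [e1]
    linarith

/-- the number of injective maps -/
lemma card_inj (m N : ℕ) :
    ((univ : Finset (Fin m → Fin N)).filter (fun t => Injective t)).card = N.descFactorial m := by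
  classical
  have h := Fintype.card_embedding_eq (α := Fin m) (β := Fin N)
  rw [Fintype.card_fin, Fintype.card_fin] at h
  rw [← h, ← Fintype.card_subtype]
  exact Fintype.card_congr (Equiv.subtypeInjectiveEquivEmbedding _ _)

lemma card_ninj (m N : ℕ) :
    ((((univ : Finset (Fin m → Fin N)).filter (fun t => ¬ Injective t)).card : ℕ) : ℝ) =
      (N : ℝ) ^ m - N.descFactorial m := by
  classical
  have h := Finset.card_filter_add_card_filter_not (s := (univ : Finset (Fin m → Fin N)))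
    (fun t => Injective t)
  rw [card_inj, Finset.card_univ, Fintype.card_fun, Fintype.card_fin, Fintype.card_fin] at h
  have h2 : ((N.descFactorial m : ℕ) : ℝ) +
      ((((univ : Finset (Fin m → Fin N)).filter (fun t => ¬ Injective t)).card : ℕ) : ℝ) =
      (N : ℝ) ^ m := by exact_mod_cast h
  linarith

/-- few maps are not injective -/
lemma few (m N : ℕ) (hN : 0 < N) (hmN : m ≤ N) :
    (N : ℝ) ^ m - N.descFactorial m ≤ (m : ℝ) ^ 2 / N * (N : ℝ) ^ m := by
  have hN' : (0 : ℝ) < N := by exact_mod_cast hN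
  have h1 : (((N + 1 - m) ^ m : ℕ) : ℝ) ≤ (N.descFactorial m : ℝ) := by
    exact_mod_cast Nat.pow_sub_le_descFactorial N m
  have h2 : ((N : ℝ) - m) ^ m ≤ (((N + 1 - m) ^ m : ℕ) : ℝ) := by
    rw [Nat.cast_pow, Nat.cast_sub (by omega)]
    have : (m : ℝ) ≤ N := by exact_mod_cast hmN
    refine pow_le_pow_left₀ (by linarith) ?_ _
    push_cast
    linarith
  have h3 : 1 + (m : ℝ) * (-(m / N : ℝ)) ≤ (1 + -(m / N : ℝ)) ^ m := by
    refine one_add_mul_le_pow ?_ m
    have : (m : ℝ) / N ≤ 1 := by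
      rw [div_le_one hN']
      exact_mod_cast hmN
    linarith
  have h4 : ((N : ℝ) - m) ^ m = (N : ℝ) ^ m * (1 + -(m / N : ℝ)) ^ m := by
    rw [← mul_pow]
    congr 1
    field_simp
    ring
  have h5 := mul_le_mul_of_nonneg_left h3 (by positivity : (0 : ℝ) ≤ (N : ℝ) ^ m)
  have h6 : (N : ℝ) ^ m * (1 + (m : ℝ) * (-(m / N : ℝ))) =
      (N : ℝ) ^ m - (m : ℝ) ^ 2 / N * (N : ℝ) ^ m := by
    field_simp
    ring
  linarith

/-- the pointwise inequality -/
lemma pointwise (N m : ℕ) (f : Fin N → ℝ) (h0 : ∀ i, 0 ≤ f i) (h1 : ∀ i, f i ≤ 1) (δ : ℝ)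
    (hδ : 0 ≤ δ) :
    ((N : ℝ) * δ) ^ (m + 1) + (m + 1) * ((N : ℝ) * δ) ^ m * (∑ i, f i - N * δ) ≤
      ∑ t ∈ (univ : Finset (Fin (m + 1) → Fin N)).filter (fun t => Injective t),
        ∏ j, f (t j) + ((N : ℝ) ^ (m + 1) - N.descFactorial (m + 1)) := by
  classical
  refine (tangent m (∑ i, f i) (N * δ) (Finset.sum_nonneg fun i _ => h0 i)
    (by positivity)).trans ?_
  rw [Fintype.sum_pow, ← Finset.sum_filter_add_sum_filter_not univ (fun t => Injective t)]
  gcongr
  refine (Finset.sum_le_card_nsmul _ _ 1 fun t _ => Finset.prod_le_one (fun i _ => h0 _)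
    fun i _ => h1 _).trans ?_
  rw [nsmul_eq_mul, mul_one, card_ninj]

/-- the averaging step -/
lemma choose (N m : ℕ) (hmN : m + 1 ≤ N) (I : (Fin (m + 1) → Fin N) → ℝ) (δ ε : ℝ)
    (hε : ((m : ℝ) + 1) ^ 2 / N ≤ ε) (hI0 : ∀ t, 0 ≤ I t)
    (h : ((N : ℝ) * δ) ^ (m + 1) ≤
      ∑ t ∈ (univ : Finset (Fin (m + 1) → Fin N)).filter (fun t => Injective t), I t +
        ((N : ℝ) ^ (m + 1) - N.descFactorial (m + 1))) :
    ∃ t : Fin (m + 1) → Fin N, Injective t ∧ δ ^ (m + 1) - ε ≤ I t := by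
  classical
  by_contra hcon
  push Not at hcon
  have hN : 0 < N := by omega
  have hN' : (0 : ℝ) < N := by exact_mod_cast hN
  have hinj : Injective (Fin.castLE hmN) := Fin.castLE_injective hmN
  have hne : ((univ : Finset (Fin (m + 1) → Fin N)).filter (fun t => Injective t)).Nonempty :=
    ⟨_, Finset.mem_filter.2 ⟨Finset.mem_univ _, hinj⟩⟩
  have hpos : 0 < δ ^ (m + 1) - ε := lt_of_le_of_lt (hI0 _) (hcon _ hinj)
  have h1 : ∑ t ∈ (univ : Finset (Fin (m + 1) → Fin N)).filter (fun t => Injective t), I t <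
      ∑ t ∈ (univ : Finset (Fin (m + 1) → Fin N)).filter (fun t => Injective t),
        (δ ^ (m + 1) - ε) := by
    refine Finset.sum_lt_sum_of_nonempty hne fun t ht => hcon t (Finset.mem_filter.1 ht).2
  rw [Finset.sum_const, nsmul_eq_mul, card_inj] at h1
  have h2 : ((N.descFactorial (m + 1) : ℕ) : ℝ) ≤ (N : ℝ) ^ (m + 1) := by
    exact_mod_cast Nat.descFactorial_le_pow N (m + 1)
  have h3 := mul_le_mul_of_nonneg_right h2 hpos.le
  have h4 := few (m + 1) N hN hmN
  push_cast at h4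
  have h5 := mul_le_mul_of_nonneg_right hε (by positivity : (0 : ℝ) ≤ (N : ℝ) ^ (m + 1))
  rw [mul_pow] at h
  nlinarith

/-- **Gillis.** Among many functions with values in `[0, 1]` and integral `δ` there are `m + 1`
whose product has integral almost `δ ^ (m + 1)`. -/
theorem gillis {X : Type*} [MeasurableSpace X] (μ : Measure X) [IsProbabilityMeasure μ]
    (N m : ℕ) (hmN : m + 1 ≤ N) (ε : ℝ) (hε : ((m : ℝ) + 1) ^ 2 / N ≤ ε) (f : Fin N → X → ℝ)
    (hf : ∀ i, Measurable (f i)) (h0 : ∀ i x, 0 ≤ f i x) (h1 : ∀ i x, f i x ≤ 1) (δ : ℝ)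
    (hδ : 0 ≤ δ) (hint : ∀ i, ∫ x, f i x ∂μ = δ) :
    ∃ t : Fin (m + 1) → Fin N, Injective t ∧ δ ^ (m + 1) - ε ≤ ∫ x, ∏ j, f (t j) x ∂μ := by
  classical
  have hb : ∀ g : X → ℝ, Measurable g → (∀ x, 0 ≤ g x) → (∀ x, g x ≤ 1) → Integrable g μ := by
    intro g hg g0 g1
    refine Integrable.of_bound hg.aestronglyMeasurable 1 (Filter.Eventually.of_forall fun x => ?_)
    rw [Real.norm_eq_abs, abs_of_nonneg (g0 x)]
    exact g1 x
  have hfi : ∀ i, Integrable (f i) μ := fun i => hb _ (hf i) (h0 i) (h1 i)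
  have hpm : ∀ t : Fin (m + 1) → Fin N, Measurable (fun x => ∏ j, f (t j) x) := fun t =>
    Finset.measurable_prod _ fun j _ => hf _
  have hp : ∀ t : Fin (m + 1) → Fin N, Integrable (fun x => ∏ j, f (t j) x) μ := fun t =>
    hb _ (hpm t) (fun x => Finset.prod_nonneg fun j _ => h0 _ x)
      (fun x => Finset.prod_le_one (fun j _ => h0 _ x) fun j _ => h1 _ x)
  refine choose N m hmN (fun t => ∫ x, ∏ j, f (t j) x ∂μ) δ ε hε
    (fun t => integral_nonneg fun x => Finset.prod_nonneg fun j _ => h0 _ x) ?_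
  have key : ∫ x, (((N : ℝ) * δ) ^ (m + 1) + (m + 1) * ((N : ℝ) * δ) ^ m *
      (∑ i, f i x - N * δ)) ∂μ ≤ ∫ x, (∑ t ∈ (univ : Finset (Fin (m + 1) → Fin N)).filter
        (fun t => Injective t), ∏ j, f (t j) x +
          ((N : ℝ) ^ (m + 1) - N.descFactorial (m + 1))) ∂μ := by
    refine integral_mono ?_ ?_ fun x => pointwise N m (fun i => f i x) (fun i => h0 i x)
      (fun i => h1 i x) δ hδ
    · refine (integrable_const _).add (Integrable.const_mul ?_ _)
      exact (integrable_finsetSum _ fun i _ => hfi i).sub (integrable_const _)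
    · exact (integrable_finsetSum _ fun t _ => hp t).add (integrable_const _)
  have hS : Integrable (fun x => ∑ i, f i x) μ := integrable_finsetSum _ fun i _ => hfi i
  have hS' : Integrable (fun x => ∑ i, f i x - (N : ℝ) * δ) μ := hS.sub (integrable_const _)
  have hP : Integrable (fun x => ∑ t ∈ (univ : Finset (Fin (m + 1) → Fin N)).filter
      (fun t => Injective t), ∏ j, f (t j) x) μ := integrable_finsetSum _ fun t _ => hp t
  have e1 : ∫ x, (((N : ℝ) * δ) ^ (m + 1) + (m + 1) * ((N : ℝ) * δ) ^ m *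
      (∑ i, f i x - N * δ)) ∂μ = ((N : ℝ) * δ) ^ (m + 1) := by
    rw [integral_add (integrable_const _) (hS'.const_mul _), integral_const_mul,
      integral_sub hS (integrable_const _), integral_finsetSum _ (fun i _ => hfi i)]
    simp only [hint, Finset.sum_const, Finset.card_univ, Fintype.card_fin, nsmul_eq_mul,
      integral_const, probReal_univ, smul_eq_mul, one_mul, sub_self, mul_zero, add_zero]
  have e2 : ∫ x, (∑ t ∈ (univ : Finset (Fin (m + 1) → Fin N)).filter
        (fun t => Injective t), ∏ j, f (t j) x +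
          ((N : ℝ) ^ (m + 1) - N.descFactorial (m + 1))) ∂μ =
      ∑ t ∈ (univ : Finset (Fin (m + 1) → Fin N)).filter (fun t => Injective t),
        ∫ x, ∏ j, f (t j) x ∂μ + ((N : ℝ) ^ (m + 1) - N.descFactorial (m + 1)) := by
    rw [integral_add hP (integrable_const _), integral_finsetSum _ (fun t _ => hp t),
      integral_const, probReal_univ, one_smul]
  rw [e1, e2] at key
  exact key

/-- The version for windows of integers. -/
theorem gillis_fin (W : Finset ℤ) (hW : W.Nonempty)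
    (N m : ℕ) (hmN : m + 1 ≤ N) (ε : ℝ) (hε : ((m : ℝ) + 1) ^ 2 / N ≤ ε) (f : Fin N → ℤ → ℝ)
    (h0 : ∀ i x, 0 ≤ f i x) (h1 : ∀ i x, f i x ≤ 1) (δ : ℝ)
    (hδ : 0 ≤ δ) (hint : ∀ i, δ * W.card ≤ ∑ x ∈ W, f i x) :
    ∃ t : Fin (m + 1) → Fin N, Injective t ∧
      (δ ^ (m + 1) - ε) * W.card ≤ ∑ x ∈ W, ∏ j, f (t j) x := by
  classical
  have hc : (0 : ℝ) < W.card := by exact_mod_cast hW.card_pos
  have hN' : (0 : ℝ) < N := by
    have : 0 < N := by omega
    exact_mod_cast this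
  obtain ⟨t, ht, h⟩ := choose N m hmN (fun t => (∑ x ∈ W, ∏ j, f (t j) x) / W.card) δ ε hε
    (fun t => div_nonneg (Finset.sum_nonneg fun x _ => Finset.prod_nonneg fun j _ => h0 _ x)
      hc.le) (by
    have key : ∑ x ∈ W, (((N : ℝ) * δ) ^ (m + 1) + (m + 1) * ((N : ℝ) * δ) ^ m *
        (∑ i, f i x - N * δ)) ≤ ∑ x ∈ W, (∑ t ∈ (univ : Finset (Fin (m + 1) → Fin N)).filter
          (fun t => Injective t), ∏ j, f (t j) x +
            ((N : ℝ) ^ (m + 1) - N.descFactorial (m + 1))) :=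
      Finset.sum_le_sum fun x _ => pointwise N m (fun i => f i x) (fun i => h0 i x)
        (fun i => h1 i x) δ hδ
    rw [Finset.sum_add_distrib, ← Finset.mul_sum, Finset.sum_sub_distrib, Finset.sum_comm (s := W)
      (t := univ), Finset.sum_add_distrib, Finset.sum_comm (s := W), Finset.sum_const,
      Finset.sum_const, Finset.sum_const, nsmul_eq_mul, nsmul_eq_mul, nsmul_eq_mul] at key
    have h2 : (N : ℝ) * (δ * W.card) ≤ ∑ i : Fin N, ∑ x ∈ W, f i x := by
      refine le_trans (le_of_eq ?_) (Finset.sum_le_sum fun i _ => hint i)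
      rw [Finset.sum_const, Finset.card_univ, Fintype.card_fin, nsmul_eq_mul]
    have h3 : 0 ≤ ((m : ℝ) + 1) * ((N : ℝ) * δ) ^ m *
        (∑ i : Fin N, ∑ x ∈ W, f i x - (W.card : ℝ) * ((N : ℝ) * δ)) := by
      refine mul_nonneg (by positivity) ?_
      linarith
    rw [← Finset.sum_div]
    have h4 : ((N : ℝ) * δ) ^ (m + 1) * W.card ≤
        (∑ t ∈ (univ : Finset (Fin (m + 1) → Fin N)).filter (fun t => Injective t),
          ∑ x ∈ W, ∏ j, f (t j) x) +
          ((N : ℝ) ^ (m + 1) - N.descFactorial (m + 1)) * W.card := by linarith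
    rw [← sub_nonneg] at h4 ⊢
    have e : (∑ t ∈ (univ : Finset (Fin (m + 1) → Fin N)).filter (fun t => Injective t),
        ∑ x ∈ W, ∏ j, f (t j) x) / (W.card : ℝ) +
          ((N : ℝ) ^ (m + 1) - N.descFactorial (m + 1)) - ((N : ℝ) * δ) ^ (m + 1) =
        ((∑ t ∈ (univ : Finset (Fin (m + 1) → Fin N)).filter (fun t => Injective t),
          ∑ x ∈ W, ∏ j, f (t j) x) +
          ((N : ℝ) ^ (m + 1) - N.descFactorial (m + 1)) * W.card -
            ((N : ℝ) * δ) ^ (m + 1) * W.card) / W.card := by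
      field_simp
    rw [e]
    exact div_nonneg h4 hc.le)
  refine ⟨t, ht, ?_⟩
  rwa [le_div_iff₀ hc] at h

end Pool.Agent.V11104.Gillis
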