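import Mathlib
import Pool.Agent.V11104.Gillis

set_option autoImplicit false

/-!
# Recurrence of all orders in large sets of times
-/

namespace Pool.Agent.V11104.KR

open Finset MeasureTheory Function Pool.Agent.V11104.Gillis

lemma image_emb (S : Finset ℕ) (N m : ℕ) (hS : S.card = N) (t : Fin m → Fin N)
    (ht : Injective t) (F : ℕ → ℝ) :
    (univ.image (fun j => S.orderEmbOfFin hS (t j))) ⊆ S ∧
      (univ.image (fun j => S.orderEmbOfFin hS (t j))).card = m ∧
      ∏ q ∈ univ.image (fun j => S.orderEmbOfFin hS (t j)), F q =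
        ∏ j, F (S.orderEmbOfFin hS (t j)) := by
  have hinj : Injective (fun j => S.orderEmbOfFin hS (t j)) :=
    (S.orderEmbOfFin hS).injective.comp ht
  refine ⟨?_, ?_, ?_⟩
  · intro q hq
    obtain ⟨j, -, rfl⟩ := Finset.mem_image.1 hq
    exact Finset.orderEmbOfFin_mem S hS _
  · rw [Finset.card_image_of_injective _ hinj, Finset.card_univ, Fintype.card_fin]
  · rw [Finset.prod_image fun a _ b _ h => hinj h]

section mps

universe u

variable {X : Type u} [MeasurableSpace X] (μ : Measure X) [IsProbabilityMeasure μ] (T : X → X)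
  (hT : MeasurePreserving T μ μ) (f : X → ℝ) (hf : Measurable f) (h0 : ∀ y, 0 ≤ f y)
  (h1 : ∀ y, f y ≤ 1)

include hT hf in
/-- invariance under translations -/
lemma mps_trans (Q : Finset ℕ) (a : ℕ) :
    ∫ y, ∏ q ∈ Q.image (fun q => q + a), f (T^[q] y) ∂μ = ∫ y, ∏ q ∈ Q, f (T^[q] y) ∂μ := by
  have hTa := hT.iterate a
  have hg : Measurable (fun y => ∏ q ∈ Q, f (T^[q] y)) :=
    Finset.measurable_prod _ fun q _ => hf.comp (hT.iterate q).measurable
  have e : (fun y => ∏ q ∈ Q.image (fun q => q + a), f (T^[q] y)) =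
      fun y => (fun y => ∏ q ∈ Q, f (T^[q] y)) (T^[a] y) := by
    funext y
    rw [Finset.prod_image fun u _ v _ h => by simpa using h]
    refine Finset.prod_congr rfl fun q _ => ?_
    rw [Function.iterate_add_apply]
  rw [e, ← integral_map hTa.measurable.aemeasurable hg.aestronglyMeasurable, hTa.map_eq]

include hT hf h0 h1 in
/-- Among many times there are `m` with a large joint return. -/
theorem mps_exists (k N : ℕ) (ε : ℝ) (hε : 0 < ε) (hkN : k ≤ N) (hN : ((k : ℝ)) ^ 2 / N ≤ ε)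
    (S : Finset ℕ) (hS : S.card = N) (m : ℕ) (hm : m ≤ k) :
    ∃ Q ⊆ S, Q.card = m ∧
      (∫ y, f y ∂μ) ^ Q.card - ε ≤ ∫ y, ∏ q ∈ Q, f (T^[q] y) ∂μ := by
  rcases Nat.eq_zero_or_pos m with hm0 | hm0
  · subst hm0
    refine ⟨∅, by simp, rfl, ?_⟩
    simp [hε.le]
  obtain ⟨m', rfl⟩ : ∃ m', m = m' + 1 := ⟨m - 1, by omega⟩
  have hmk : ((m' : ℝ) + 1) ^ 2 / N ≤ ε := by
    refine le_trans ?_ hN
    have : ((m' : ℝ) + 1) ≤ k := by exact_mod_cast hm
    gcongr
  obtain ⟨t, ht, h⟩ := gillis μ N m' (by omega) ε hmk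
    (fun i y => f (T^[S.orderEmbOfFin hS i] y))
    (fun i => hf.comp (hT.iterate _).measurable) (fun i y => h0 _) (fun i y => h1 _)
    (∫ y, f y ∂μ) (integral_nonneg h0) (fun i => by
      have hTa := hT.iterate (S.orderEmbOfFin hS i)
      have h2 := integral_map (μ := μ) hTa.measurable.aemeasurable
        (hf.aestronglyMeasurable (μ := Measure.map (T^[S.orderEmbOfFin hS i]) μ))
      rw [hTa.map_eq] at h2
      exact h2.symm)
  have hi := fun y => image_emb S N (m' + 1) hS t ht (fun q => f (T^[q] y))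
  refine ⟨_, (image_emb S N (m' + 1) hS t ht (fun _ => 0)).1,
    (image_emb S N (m' + 1) hS t ht (fun _ => 0)).2.1, ?_⟩
  rw [(image_emb S N (m' + 1) hS t ht (fun _ => 0)).2.1]
  refine h.trans (le_of_eq ?_)
  refine integral_congr_ae (Filter.Eventually.of_forall fun y => ?_)
  exact (hi y).2.2.symm

end mps

section density

open Classical in
/-- `E ⊆ ℤ` has upper Banach density at least `δ`: there are intervals of arbitrarily large length
`N` that contain at least `(δ - η) N` elements of `E`, for every `η > 0`. -/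
def UBD (E : Set ℤ) (δ : ℝ) : Prop :=
  ∀ η : ℝ, 0 < η → ∀ L : ℕ, ∃ (b : ℤ) (N : ℕ), L ≤ N ∧ 0 < N ∧
    (δ - η) * N ≤ (((Finset.Ico b (b + N)).filter (fun n => n ∈ E)).card : ℝ)

/-- The set of the `n` with `n + q ∈ E` for all `q ∈ Q`. -/
def common (E : Set ℤ) (Q : Finset ℕ) : Set ℤ := {n | ∀ q ∈ Q, n + (q : ℤ) ∈ E}

open Classical in
lemma card_shift (E : Set ℤ) (b : ℤ) (N : ℕ) (a : ℤ) :
    ((Finset.Ico b (b + N)).filter (fun n => n + a ∈ E)).card =
      ((Finset.Ico (b + a) (b + a + N)).filter (fun n => n ∈ E)).card := by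
  refine Finset.card_bij (fun n _ => n + a) ?_ ?_ ?_
  · intro n hn
    simp only [Finset.mem_filter, Finset.mem_Ico] at hn ⊢
    exact ⟨⟨by omega, by omega⟩, hn.2⟩
  · intro n _ n' _ h
    omega
  · intro n hn
    simp only [Finset.mem_filter, Finset.mem_Ico] at hn ⊢
    refine ⟨n - a, ⟨⟨by omega, by omega⟩, ?_⟩, by omega⟩
    rw [sub_add_cancel]
    exact hn.2

/-- invariance under translations -/
lemma dens_trans (E : Set ℤ) (Q : Finset ℕ) (a : ℕ) (δ : ℝ) :
    UBD (common E (Q.image (fun q => q + a))) δ ↔ UBD (common E Q) δ := by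
  classical
  have e : common E (Q.image (fun q => q + a)) = {n | n + (a : ℤ) ∈ common E Q} := by
    ext n
    simp only [common, Set.mem_ofPred_eq, Finset.mem_image, forall_exists_index, and_imp,
      forall_apply_eq_imp_iff₂]
    refine forall₂_congr fun q _ => ?_
    have : n + ((q + a : ℕ) : ℤ) = n + (a : ℤ) + (q : ℤ) := by push_cast; ring
    rw [this]
  rw [e]
  constructor
  · intro h η hη L
    obtain ⟨b, N, hL, hN, hc⟩ := h η hη L
    refine ⟨b + a, N, hL, hN, hc.trans (le_of_eq ?_)⟩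
    have := card_shift (common E Q) b N a
    simp only [Set.mem_ofPred_eq] at this ⊢
    exact_mod_cast this
  · intro h η hη L
    obtain ⟨b, N, hL, hN, hc⟩ := h η hη L
    refine ⟨b - a, N, hL, hN, hc.trans (le_of_eq ?_)⟩
    have := card_shift (common E Q) (b - a) N a
    rw [sub_add_cancel] at this
    simp only [Set.mem_ofPred_eq] at this ⊢
    exact_mod_cast this.symm

open Classical in
/-- a window of `E` and a shift -/
lemma shift_low (E : Set ℤ) (b : ℤ) (N : ℕ) (q : ℕ) :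
    (((Finset.Ico b (b + N)).filter (fun n => n ∈ E)).card : ℝ) - q ≤
      (((Finset.Ico b (b + N)).filter (fun n => n + (q : ℤ) ∈ E)).card : ℝ) := by
  rw [card_shift]
  have h : (Finset.Ico b (b + N)).filter (fun n => n ∈ E) ⊆
      (Finset.Ico b (b + q)) ∪ (Finset.Ico (b + q) (b + q + N)).filter (fun n => n ∈ E) := by
    intro n hn
    simp only [Finset.mem_filter, Finset.mem_Ico, Finset.mem_union] at hn ⊢
    by_cases hb : n < b + q
    · exact Or.inl ⟨hn.1.1, hb⟩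
    · exact Or.inr ⟨⟨by omega, by omega⟩, hn.2⟩
  have h2 := (Finset.card_le_card h).trans (Finset.card_union_le _ _)
  have h3 : (Finset.Ico b (b + q)).card = q := by simp
  rw [h3] at h2
  have h4 : (((Finset.Ico b (b + N)).filter (fun n => n ∈ E)).card : ℝ) ≤
      q + (((Finset.Ico (b + q) (b + q + N)).filter (fun n => n ∈ E)).card : ℝ) := by
    exact_mod_cast h2
  linarith

/-- Among many times there are `m` with a large joint return. -/
theorem dens_exists (E : Set ℤ) (δ : ℝ) (hδ : 0 < δ) (hE : UBD E δ)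
    (k N : ℕ) (ε : ℝ) (hε : 0 < ε) (hkN : k ≤ N) (hN : ((k : ℝ)) ^ 2 / N ≤ ε)
    (S : Finset ℕ) (hS : S.card = N) (m : ℕ) (hm : m ≤ k) :
    ∃ Q ⊆ S, Q.card = m ∧ UBD (common E Q) (δ ^ Q.card - ε) := by
  classical
  rcases Nat.eq_zero_or_pos m with hm0 | hm0
  · subst hm0
    refine ⟨∅, by simp, rfl, ?_⟩
    intro η hη L
    refine ⟨0, L + 1, by omega, by omega, ?_⟩
    have e : (Finset.Ico (0 : ℤ) (0 + ((L + 1 : ℕ) : ℤ))).filter (fun n => n ∈ common E ∅) =
        Finset.Ico (0 : ℤ) (0 + ((L + 1 : ℕ) : ℤ)) := by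
      refine Finset.filter_true_of_mem fun n _ => ?_
      intro q hq
      exact absurd hq (Finset.notMem_empty q)
    rw [e, Int.card_Ico]
    have h1 : ((0 + ((L + 1 : ℕ) : ℤ) - 0).toNat : ℝ) = ((L + 1 : ℕ) : ℝ) := by
      have : (0 + ((L + 1 : ℕ) : ℤ) - 0).toNat = L + 1 := by omega
      rw [this]
    rw [h1, Finset.card_empty, pow_zero]
    have h2 : (0 : ℝ) ≤ ((L + 1 : ℕ) : ℝ) := by positivity
    nlinarith
  obtain ⟨m', rfl⟩ : ∃ m', m = m' + 1 := ⟨m - 1, by omega⟩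
  by_contra hcon
  push Not at hcon
  have hbad : ∀ Q : Finset ℕ, Q ⊆ S → Q.card = m' + 1 → ∃ η : ℝ, 0 < η ∧ ∃ L : ℕ,
      ∀ (b : ℤ) (M : ℕ), L ≤ M → 0 < M →
        (((Finset.Ico b (b + M)).filter (fun n => n ∈ common E Q)).card : ℝ) <
          (δ ^ (m' + 1) - ε - η) * M := by
    intro Q hQ hQm
    have h := hcon Q hQ hQm
    unfold UBD at h
    push Not at h
    obtain ⟨η, hη, L, h⟩ := h
    refine ⟨η, hη, L, fun b M hL hM => ?_⟩
    have := h b M hL hM
    rw [hQm] at this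
    exact this
  choose! η hη L hL using hbad
  -- a common `η0` and `L0`
  obtain ⟨η0, hη0, hη0'⟩ : ∃ η0 : ℝ, 0 < η0 ∧ ∀ Q : Finset ℕ, Q ⊆ S → Q.card = m' + 1 →
      η0 ≤ η Q := by
    refine ⟨(insert (1 : ℝ) ((S.powersetCard (m' + 1)).image η)).min' (Finset.insert_nonempty _ _),
      ?_, ?_⟩
    · rw [Finset.lt_min'_iff]
      intro y hy
      rcases Finset.mem_insert.1 hy with rfl | hy
      · exact one_pos
      · obtain ⟨Q, hQ, rfl⟩ := Finset.mem_image.1 hy
        rw [Finset.mem_powersetCard] at hQ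
        exact hη Q hQ.1 hQ.2
    · intro Q hQ hQm
      refine Finset.min'_le _ _ (Finset.mem_insert_of_mem (Finset.mem_image_of_mem _ ?_))
      exact Finset.mem_powersetCard.2 ⟨hQ, hQm⟩
  obtain ⟨L0, hL0⟩ : ∃ L0 : ℕ, ∀ Q : Finset ℕ, Q ⊆ S → Q.card = m' + 1 → L Q ≤ L0 := by
    refine ⟨(S.powersetCard (m' + 1)).sup L, fun Q hQ hQm => ?_⟩
    exact Finset.le_sup (f := L) (Finset.mem_powersetCard.2 ⟨hQ, hQm⟩)
  -- the loss
  obtain ⟨ρ, hρ, hρδ, hρ'⟩ : ∃ ρ : ℝ, 0 < ρ ∧ ρ ≤ δ ∧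
      δ ^ (m' + 1) - η0 ≤ (δ - ρ) ^ (m' + 1) := by
    have hc : 0 < ((m' : ℝ) + 1) * δ ^ m' := by positivity
    refine ⟨min δ (η0 / (((m' : ℝ) + 1) * δ ^ m')), lt_min hδ (by positivity), min_le_left _ _,
      ?_⟩
    set ρ := min δ (η0 / (((m' : ℝ) + 1) * δ ^ m')) with hρ
    have h1 : ρ ≤ δ := min_le_left _ _
    have h2 : ρ ≤ η0 / (((m' : ℝ) + 1) * δ ^ m') := min_le_right _ _
    have h3 := tangent m' (δ - ρ) δ (by linarith) hδ.le
    rw [le_div_iff₀ hc] at h2
    have e : δ - ρ - δ = -ρ := by ring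
    rw [e] at h3
    nlinarith
  obtain ⟨s, hs⟩ : ∃ s : ℕ, ∀ q ∈ S, q ≤ s := ⟨S.sup id, fun q hq => Finset.le_sup (f := id) hq⟩
  obtain ⟨b, M, hML, hM, hcount⟩ := hE (ρ / 2) (by positivity) (max L0 (⌈2 * s / ρ⌉₊))
  have hM' : (0 : ℝ) < M := by exact_mod_cast hM
  have hsM : (s : ℝ) ≤ ρ / 2 * M := by
    have h1 : 2 * (s : ℝ) / ρ ≤ M :=
      (Nat.le_ceil _).trans (by exact_mod_cast (le_max_right _ _).trans hML)
    rw [div_le_iff₀ hρ] at h1
    linarith
  have hWc : (Finset.Ico b (b + M)).card = M := by simp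
  have hmk : ((m' : ℝ) + 1) ^ 2 / N ≤ ε := by
    refine le_trans ?_ hN
    have : ((m' : ℝ) + 1) ≤ k := by exact_mod_cast hm
    gcongr
  obtain ⟨t, ht, h⟩ := gillis_fin (Finset.Ico b (b + M))
    (by rw [← Finset.card_pos, hWc]; exact hM) N m' (by omega) ε hmk
    (fun i n => if n + ((S.orderEmbOfFin hS i : ℕ) : ℤ) ∈ E then 1 else 0)
    (fun i n => by positivity) (fun i n => by split_ifs <;> norm_num) (δ - ρ) (by linarith)
    (fun i => by
      rw [Finset.sum_boole, hWc]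
      have h1 := shift_low E b M (S.orderEmbOfFin hS i)
      have h2 : ((S.orderEmbOfFin hS i : ℕ) : ℝ) ≤ s := by
        exact_mod_cast hs _ (Finset.orderEmbOfFin_mem S hS i)
      refine le_trans ?_ h1
      nlinarith)
  obtain ⟨g1, g2, -⟩ := image_emb S N (m' + 1) hS t ht (fun _ => 0)
  set Q := univ.image (fun j => S.orderEmbOfFin hS (t j)) with hQ
  have h5 := hL Q g1 g2 b M ((hL0 Q g1 g2).trans ((le_max_left _ _).trans hML)) hM
  have h6 : ∑ n ∈ Finset.Ico b (b + M), ∏ j, (if n + ((S.orderEmbOfFin hS (t j) : ℕ) : ℤ) ∈ E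
      then (1 : ℝ) else 0) =
      (((Finset.Ico b (b + M)).filter (fun n => n ∈ common E Q)).card : ℝ) := by
    rw [← Finset.sum_boole]
    refine Finset.sum_congr rfl fun n _ => ?_
    have hiff : (∀ j ∈ (univ : Finset (Fin (m' + 1))),
        n + ((S.orderEmbOfFin hS (t j) : ℕ) : ℤ) ∈ E) ↔ n ∈ common E Q := by
      simp only [common, hQ, Set.mem_ofPred_eq, Finset.mem_image, Finset.mem_univ, true_and,
        forall_exists_index, forall_apply_eq_imp_iff, forall_const]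
    by_cases hn : n ∈ common E Q
    · rw [if_pos hn, Finset.prod_boole, if_pos (hiff.2 hn)]
    · rw [if_neg hn, Finset.prod_boole, if_neg fun h => hn (hiff.1 h)]
  have h7 : ∑ n ∈ Finset.Ico b (b + M), ∏ j, (if n + ((S.orderEmbOfFin hS (t j) : ℕ) : ℤ) ∈ E
      then (1 : ℝ) else 0) =
    ∑ x ∈ Finset.Ico b (b + M), ∏ j, (fun i n => if n + ((S.orderEmbOfFin hS i : ℕ) : ℤ) ∈ E
      then (1 : ℝ) else 0) (t j) x := rfl
  rw [← h7, h6, hWc] at h
  have h8 : (δ ^ (m' + 1) - ε - η Q) * M ≤ ((δ - ρ) ^ (m' + 1) - ε) * M := by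
    apply mul_le_mul_of_nonneg_right _ hM'.le
    linarith [hη0' Q g1 g2]
  linarith

end density

end Pool.Agent.V11104.KR
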