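import Mathlib

/-!
# Weak interpolation sets for uniquely ergodic systems: definitions
-/

set_option autoImplicit false

open MeasureTheory

namespace Pool.Agent.V11104

/-- A measurable self-map is uniquely ergodic if it has exactly one invariant probability
measure. -/
def UniquelyErgodic {X : Type*} [MeasurableSpace X] (T : X → X) : Prop :=
  ∃! μ : Measure X, IsProbabilityMeasure μ ∧ MeasurePreserving T μ μ

/-- `S` is a weak interpolation set of order `k` for the class of uniquely ergodic topological
dynamical systems: every function `f : S → {0, …, k-1}` is of the form `n ↦ F (T^n x)` for some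
uniquely ergodic continuous self-map `T` of a compact metric space `X`, some transitive point `x`
(dense forward orbit) and some continuous `F : X → ℂ`. -/
def WeakInterpolation (k : ℕ) (S : Set ℕ) : Prop :=
  ∀ f : S → Fin k, ∃ (X : Type) (_ : MetricSpace X) (_ : CompactSpace X)
    (_ : MeasurableSpace X) (_ : BorelSpace X) (T : X → X) (x : X) (F : C(X, ℂ)),
    Continuous T ∧ UniquelyErgodic T ∧ Dense (Set.range fun n : ℕ => T^[n] x) ∧
      ∀ n : S, F (T^[(n : ℕ)] x) = ((f n : ℕ) : ℂ)

end Pool.Agent.V11104
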