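import Mathlib
import Pool.Agent.V11104.WIDefs

/-!
# Uniform averages in uniquely ergodic systems, visits along progressions of prime step
-/

set_option autoImplicit false
set_option linter.unusedSectionVars false

open MeasureTheory Filter Topology Set BoundedContinuousFunction

namespace Pool.Agent.V11104.UE

/-- empirical measure of a piece of an orbit -/
noncomputable def emp {X : Type*} [MeasurableSpace X] (f : X → X) (x : X) (n : ℕ) : Measure X :=
  ((n : ENNReal)⁻¹) • ∑ i ∈ Finset.range n, Measure.dirac (f^[i] x)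

section
variable {X : Type*} [MeasurableSpace X] {f : X → X} {x : X} {n : ℕ}

lemma emp_prob (hn : 0 < n) : IsProbabilityMeasure (emp f x n) := by
  constructor
  unfold emp
  simp only [Measure.smul_apply, Measure.coe_finsetSum, Finset.sum_apply, measure_univ,
    Finset.sum_const, Finset.card_range, nsmul_eq_mul, mul_one, smul_eq_mul]
  exact ENNReal.inv_mul_cancel (by exact_mod_cast hn.ne') (ENNReal.natCast_ne_top n)

lemma emp_eq_zero {G : Set X} (hG : MeasurableSet G) (h : ∀ i, f^[i] x ∉ G) :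
    emp f x n G = 0 := by
  unfold emp
  simp only [Measure.smul_apply, Measure.coe_finsetSum, Finset.sum_apply, smul_eq_mul]
  rw [Finset.sum_eq_zero, mul_zero]
  intro i _
  rw [Measure.dirac_apply' _ hG, indicator_of_notMem (h i)]

lemma emp_integral [TopologicalSpace X] [BorelSpace X] (g : X →ᵇ ℝ) :
    ∫ y, g y ∂(emp f x n) = (n : ℝ)⁻¹ * ∑ i ∈ Finset.range n, g (f^[i] x) := by
  unfold emp
  rw [integral_smul_measure, integral_finsetSum_measure]
  · simp only [ENNReal.toReal_inv, ENNReal.toReal_natCast, smul_eq_mul]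
    congr 1
    refine Finset.sum_congr rfl fun i _ => ?_
    exact integral_dirac' _ _ g.continuous.stronglyMeasurable
  · intro i _
    exact g.integrable _
end

/-- Krylov-Bogoliubov along orbit pieces of varying points. -/
theorem kb {X : Type*} [TopologicalSpace X] [CompactSpace X] [T2Space X] [HasOuterApproxClosed X]
    [MeasurableSpace X] [BorelSpace X] {f : X → X} (hf : Continuous f) (x : ℕ → X) (n : ℕ → ℕ)
    (hn : Tendsto n atTop atTop) (hpos : ∀ L, 0 < n L) :
    ∃ (P : Measure X) (U : Ultrafilter ℕ), IsProbabilityMeasure P ∧ MeasurePreserving f P P ∧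
      (U : Filter ℕ) ≤ atTop ∧
      (∀ g : X →ᵇ ℝ, Tendsto (fun L => ((n L : ℕ) : ℝ)⁻¹ * ∑ i ∈ Finset.range (n L),
        g (f^[i] (x L))) U (𝓝 (∫ y, g y ∂P))) ∧
      (∀ G : Set X, IsOpen G → (∀ L, ∀ i, f^[i] (x L) ∉ G) → P G = 0) := by
  have hprob : ∀ L, IsProbabilityMeasure (emp f (x L) (n L)) := fun L => emp_prob (hpos L)
  set Q : ℕ → ProbabilityMeasure X := fun L => ⟨emp f (x L) (n L), hprob L⟩ with hQ
  set U : Ultrafilter ℕ := hyperfilter ℕ with hU
  have hUle : (U : Filter ℕ) ≤ atTop := by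
    rw [hU, ← Nat.cofinite_eq_atTop]; exact hyperfilter_le_cofinite
  obtain ⟨P, -, hP⟩ := isCompact_univ.ultrafilter_le_nhds (U.map Q) (by simp)
  have hlim : Tendsto Q U (𝓝 P) := hP
  have hint : ∀ g : X →ᵇ ℝ, Tendsto (fun L => ((n L : ℕ) : ℝ)⁻¹ * ∑ i ∈ Finset.range (n L),
        g (f^[i] (x L))) U (𝓝 (∫ y, g y ∂(P : Measure X))) := by
    intro g
    have h1 := (ProbabilityMeasure.tendsto_iff_forall_integral_tendsto.1 hlim) g
    refine h1.congr fun L => ?_
    exact emp_integral (f := f) (x := x L) (n := n L) g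
  refine ⟨P, U, inferInstance, ⟨hf.measurable, ?_⟩, hUle, hint, ?_⟩
  · have hmapP : IsProbabilityMeasure (Measure.map f (P : Measure X)) :=
      Measure.isProbabilityMeasure_map hf.measurable.aemeasurable
    refine ext_of_forall_integral_eq_of_IsFiniteMeasure fun g => ?_
    rw [integral_map hf.measurable.aemeasurable g.continuous.aestronglyMeasurable]
    have h1 := hint g
    have h2 := hint (g.compContinuous ⟨f, hf⟩)
    have h3 := h2.sub h1
    have h4 : Tendsto (fun L => ((n L : ℕ) : ℝ)⁻¹ * ∑ i ∈ Finset.range (n L),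
        (g.compContinuous ⟨f, hf⟩) (f^[i] (x L)) -
        ((n L : ℕ) : ℝ)⁻¹ * ∑ i ∈ Finset.range (n L), g (f^[i] (x L))) U (𝓝 0) := by
      have h5 : ∀ L, ‖((n L : ℕ) : ℝ)⁻¹ * ∑ i ∈ Finset.range (n L),
          (g.compContinuous ⟨f, hf⟩) (f^[i] (x L)) -
          ((n L : ℕ) : ℝ)⁻¹ * ∑ i ∈ Finset.range (n L), g (f^[i] (x L))‖ ≤ 2 * ‖g‖ / n L := by
        intro L
        have e1 : ∑ i ∈ Finset.range (n L), (g.compContinuous ⟨f, hf⟩) (f^[i] (x L))
            = ∑ i ∈ Finset.range (n L), g (f^[i + 1] (x L)) := by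
          refine Finset.sum_congr rfl fun i _ => ?_
          simp only [BoundedContinuousFunction.compContinuous_apply, ContinuousMap.coe_mk]
          rw [← Function.iterate_succ_apply' f]
        rw [e1, ← mul_sub, ← Finset.sum_sub_distrib,
          Finset.sum_range_sub (fun i => g (f^[i] (x L))) (n L), norm_mul, norm_inv,
          Real.norm_natCast, div_eq_inv_mul]
        have e3 : ‖g (f^[n L] (x L)) - g (f^[0] (x L))‖ ≤ 2 * ‖g‖ := by
          have a1 := g.norm_coe_le_norm (f^[n L] (x L))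
          have a2 := g.norm_coe_le_norm (f^[0] (x L))
          have a3 := norm_sub_le (g (f^[n L] (x L))) (g (f^[0] (x L)))
          linarith
        gcongr
      have h6 : Tendsto (fun L => 2 * ‖g‖ / (n L : ℝ)) U (𝓝 0) := by
        have : Tendsto (fun L => 2 * ‖g‖ / (n L : ℝ)) atTop (𝓝 0) :=
          tendsto_const_nhds.div_atTop (tendsto_natCast_atTop_atTop.comp hn)
        exact this.mono_left hUle
      exact squeeze_zero_norm h5 h6
    have h7 := tendsto_nhds_unique h3 h4
    have h8 : ∫ y, (g.compContinuous ⟨f, hf⟩) y ∂(P : Measure X)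
        = ∫ y, g (f y) ∂(P : Measure X) := rfl
    rw [h8] at h7
    linarith
  · intro G hG hc
    have h1 := ProbabilityMeasure.le_liminf_measure_open_of_tendsto hlim hG
    have h2 : liminf (fun L => (Q L : Measure X) G) (U : Filter ℕ) = 0 := by
      have : (fun L => (Q L : Measure X) G) = fun _ => (0 : ENNReal) := by
        funext L
        exact emp_eq_zero hG.measurableSet (hc L)
      rw [this]
      exact tendsto_const_nhds.liminf_eq
    exact le_antisymm (h1.trans h2.le) bot_le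

section ue

variable {X : Type*} [TopologicalSpace X] [CompactSpace X] [T2Space X] [HasOuterApproxClosed X]
    [MeasurableSpace X] [BorelSpace X] {T : X → X}

/-- Uniform convergence of Birkhoff averages in uniquely ergodic systems. -/
theorem uniform_average (hT : Continuous T) (hU : UniquelyErgodic T) :
    ∃ μ : Measure X, IsProbabilityMeasure μ ∧ MeasurePreserving T μ μ ∧
      (∀ g : X →ᵇ ℝ, ∀ ε : ℝ, 0 < ε → ∃ N : ℕ, ∀ n : ℕ, N ≤ n → ∀ y : X,
        |((n : ℕ) : ℝ)⁻¹ * ∑ i ∈ Finset.range n, g (T^[i] y) - ∫ y, g y ∂μ| < ε) ∧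
      (∀ C : Set X, IsClosed C → C.Nonempty → MapsTo T C C → μ Cᶜ = 0) := by
  obtain ⟨μ, ⟨hμ1, hμ2⟩, huniq⟩ := hU
  refine ⟨μ, hμ1, hμ2, ?_, ?_⟩
  · intro g ε hε
    by_contra hcon
    push Not at hcon
    choose n hn y hy using hcon
    have hn' : Tendsto (fun N => n (N + 1)) atTop atTop :=
      tendsto_atTop_mono (fun N => (Nat.le_succ N).trans (hn (N + 1))) tendsto_id
    obtain ⟨P, U, hP1, hP2, hUle, hint, -⟩ := kb hT (fun N => y (N + 1)) (fun N => n (N + 1)) hn'
      (fun N => lt_of_lt_of_le (Nat.succ_pos N) (hn (N + 1)))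
    have hPμ : P = μ := huniq P ⟨hP1, hP2⟩
    have h1 := hint g
    rw [hPμ] at h1
    have h2 := (Metric.tendsto_nhds.1 h1) ε hε
    obtain ⟨N, hN⟩ := h2.exists
    have h3 := hy (N + 1)
    rw [Real.dist_eq] at hN
    linarith
  · rintro C hC ⟨y, hy⟩ hmaps
    obtain ⟨P, U, hP1, hP2, hUle, -, hzero⟩ := kb hT (fun _ => y) (fun N => N + 1)
      (tendsto_add_atTop_nat 1) (fun N => Nat.succ_pos N)
    have hPμ : P = μ := huniq P ⟨hP1, hP2⟩
    rw [← hPμ]
    exact hzero _ hC.isOpen_compl fun _ i => by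
      simpa using hmaps.iterate i hy

end ue

/-! ### Counting -/

open Classical in
lemma crt_count (Q : Finset ℕ) (hQ : ∀ q ∈ Q, q.Prime) (r : ℕ → ℕ) :
    ((Finset.range (∏ q ∈ Q, q)).filter
      fun n : ℕ => ∀ q ∈ Q, (n : ZMod q) ≠ (r q : ZMod q)).card ≤ ∏ q ∈ Q, (q - 1) := by
  let a : Q → ℕ := fun i => i.1
  have hne : ∀ i : Q, NeZero (a i) := fun i => ⟨(hQ i.1 i.2).ne_zero⟩
  have hcop : Pairwise (Function.onFun Nat.Coprime a) := by
    intro i j hij
    exact (Nat.coprime_primes (hQ i.1 i.2) (hQ j.1 j.2)).2 fun h => hij (Subtype.ext h)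
  have hprod : ∏ i : Q, a i = ∏ q ∈ Q, q := Finset.prod_coe_sort Q fun q => q
  have h1 : ((Finset.range (∏ q ∈ Q, q)).filter
      fun n : ℕ => ∀ q ∈ Q, (n : ZMod q) ≠ (r q : ZMod q)).card
      ≤ (Fintype.piFinset fun i : Q => (Finset.univ.erase ((r i.1 : ℕ) : ZMod (a i)))).card := by
    refine Finset.card_le_card_of_injOn (fun n i => (n : ZMod (a i))) ?_ ?_
    · intro n hn
      simp only [Finset.coe_filter, Finset.mem_range, mem_ofPred_eq] at hn
      simp only [Fintype.coe_piFinset, Finset.coe_erase, Finset.coe_univ, Set.mem_pi,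
        Set.mem_univ, forall_const, Set.mem_sdiff, Set.mem_singleton_iff, true_and]
      exact fun i => hn.2 i.1 i.2
    · intro n hn m hm heq
      simp only [Finset.coe_filter, Finset.mem_range, mem_ofPred_eq] at hn hm
      have h2 : ZMod.prodEquivPi a hcop ((n : ℕ) : ZMod (∏ i, a i))
          = ZMod.prodEquivPi a hcop ((m : ℕ) : ZMod (∏ i, a i)) := by
        funext i
        rw [map_natCast, map_natCast]
        exact congrFun heq i
      have h3 := (ZMod.prodEquivPi a hcop).injective h2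
      rw [ZMod.natCast_eq_natCast_iff', hprod, Nat.mod_eq_of_lt hn.1, Nat.mod_eq_of_lt hm.1] at h3
      exact h3
  refine h1.trans (le_of_eq ?_)
  rw [Fintype.card_piFinset]
  rw [← Finset.prod_coe_sort Q fun q => q - 1]
  refine Finset.prod_congr rfl fun i _ => ?_
  rw [Finset.card_erase_of_mem (Finset.mem_univ _), Finset.card_univ, ZMod.card]

lemma exists_primes (L : ℕ) {δ : ℝ} (hδ : 0 < δ) : ∃ Q : Finset ℕ, (∀ q ∈ Q, q.Prime ∧ L ≤ q) ∧
    ((∏ q ∈ Q, (q - 1) : ℕ) : ℝ) ≤ δ * ((∏ q ∈ Q, q : ℕ) : ℝ) := by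
  classical
  let φ : ℕ → ℝ := Set.indicator {p : ℕ | p.Prime} fun n : ℕ => (1 : ℝ) / n
  have hφ0 : ∀ n, 0 ≤ φ n := fun n => Set.indicator_nonneg (fun _ _ => by positivity) n
  have htend : Tendsto (fun n : ℕ => ∑ i ∈ Finset.range n, φ i) atTop atTop :=
    (not_summable_iff_tendsto_nat_atTop_of_nonneg hφ0).1 not_summable_one_div_on_primes
  obtain ⟨K, hK⟩ := (htend.eventually_ge_atTop
    (∑ i ∈ Finset.range L, φ i + (-Real.log δ))).exists
  let Q : Finset ℕ := (Finset.range K).filter fun q => q.Prime ∧ L ≤ q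
  refine ⟨Q, fun q hq => (Finset.mem_filter.1 hq).2, ?_⟩
  have hsum : -Real.log δ ≤ ∑ q ∈ Q, (1 : ℝ) / q := by
    have h1 : ∑ i ∈ Finset.range K, φ i ≤ ∑ i ∈ Finset.range L, φ i + ∑ q ∈ Q, (1 : ℝ) / q := by
      have h2 : ∑ i ∈ Finset.range K, φ i
          = ∑ i ∈ (Finset.range K).filter (fun i => i < L), φ i
            + ∑ i ∈ (Finset.range K).filter (fun i => ¬ i < L), φ i :=
        (Finset.sum_filter_add_sum_filter_not _ _ _).symm
      have h3 : ∑ i ∈ (Finset.range K).filter (fun i => i < L), φ i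
          ≤ ∑ i ∈ Finset.range L, φ i := by
        refine Finset.sum_le_sum_of_subset_of_nonneg (fun i hi => ?_) fun i _ _ => hφ0 i
        rw [Finset.mem_filter] at hi
        exact Finset.mem_range.2 hi.2
      have h4 : ∑ i ∈ (Finset.range K).filter (fun i => ¬ i < L), φ i
          = ∑ q ∈ Q, (1 : ℝ) / q := by
        have h5 : Q = ((Finset.range K).filter (fun i => ¬ i < L)).filter fun q => q.Prime := by
          ext q
          simp only [Q, Finset.mem_filter, Finset.mem_range, not_lt]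
          tauto
        have h6 : ∑ q ∈ ((Finset.range K).filter (fun i => ¬ i < L)).filter (fun q => q.Prime),
            (1 : ℝ) / q = ∑ q ∈ (Finset.range K).filter (fun i => ¬ i < L),
              if q.Prime then (1 : ℝ) / q else 0 := Finset.sum_filter _ _
        rw [h5, h6]
        refine Finset.sum_congr rfl fun i _ => ?_
        simp only [φ, Set.indicator_apply, mem_ofPred_eq]
      rw [h2, h4]
      linarith
    linarith
  have hfac : ∀ q ∈ Q, ((q - 1 : ℕ) : ℝ) ≤ Real.exp (-(1 / (q : ℝ))) * q := by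
    intro q hq
    have hqp : q.Prime := (Finset.mem_filter.1 hq).2.1
    have hq0 : (0 : ℝ) < q := by exact_mod_cast hqp.pos
    have h1 : ((q - 1 : ℕ) : ℝ) = (q : ℝ) - 1 := by
      rw [Nat.cast_sub hqp.one_le]; simp
    have h2 := Real.add_one_le_exp (-(1 / (q : ℝ)))
    calc ((q - 1 : ℕ) : ℝ) = (-(1 / (q : ℝ)) + 1) * q := by rw [h1]; field_simp; ring
      _ ≤ _ := by gcongr
  calc ((∏ q ∈ Q, (q - 1) : ℕ) : ℝ) = ∏ q ∈ Q, ((q - 1 : ℕ) : ℝ) := by push_cast; rfl
    _ ≤ ∏ q ∈ Q, (Real.exp (-(1 / (q : ℝ))) * q) :=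
        Finset.prod_le_prod (fun q _ => by positivity) hfac
    _ = Real.exp (-∑ q ∈ Q, (1 : ℝ) / q) * ((∏ q ∈ Q, q : ℕ) : ℝ) := by
        rw [Finset.prod_mul_distrib, ← Real.exp_sum, Finset.sum_neg_distrib]
        push_cast
        rfl
    _ ≤ δ * ((∏ q ∈ Q, q : ℕ) : ℝ) := by
        gcongr
        rw [← Real.le_log_iff_exp_le hδ]
        linarith

/-! ### Visits to a cylinder along a progression of prime step -/

section visits

variable {X : Type*} [TopologicalSpace X] [CompactSpace X] [T2Space X] [HasOuterApproxClosed X]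
    [MeasurableSpace X] [BorelSpace X] {T : X → X}

/-- Either along some progression of large prime step the positivity set of `g` is visited
(within bounded time, from every starting point), or `∫ g = 0`. -/
theorem exists_prime_visits (hT : Continuous T) {μ : Measure X} [IsProbabilityMeasure μ]
    (havg : ∀ g : X →ᵇ ℝ, ∀ ε : ℝ, 0 < ε → ∃ N : ℕ, ∀ n : ℕ, N ≤ n → ∀ y : X,
        |((n : ℕ) : ℝ)⁻¹ * ∑ i ∈ Finset.range n, g (T^[i] y) - ∫ y, g y ∂μ| < ε)
    (hclosed : ∀ C : Set X, IsClosed C → C.Nonempty → MapsTo T C C → μ Cᶜ = 0)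
    (g : X →ᵇ ℝ) (hg0 : ∀ y, 0 ≤ g y) (hgpos : 0 < ∫ y, g y ∂μ) (L : ℕ) :
    ∃ q : ℕ, q.Prime ∧ L ≤ q ∧ ∃ N : ℕ, ∀ y : X, ∃ t < N, 0 < g (T^[q * t] y) := by
  by_contra hcon
  push Not at hcon
  set c := ∫ y, g y ∂μ with hc
  -- points never visiting along `q ℕ`
  have hy : ∀ q : ℕ, q.Prime → L ≤ q → ∃ y : X, ∀ t, g (T^[q * t] y) = 0 := by
    intro q hq hLq
    have hcl : ∀ N : ℕ, IsClosed {y : X | ∀ t < N, g (T^[q * t] y) ≤ 0} := by
      intro N
      simp only [Set.ofPred_forall]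
      exact isClosed_iInter fun t => isClosed_iInter fun _ =>
        isClosed_le (g.continuous.comp (hT.iterate _)) continuous_const
    have hne := IsCompact.nonempty_iInter_of_sequence_nonempty_isCompact_isClosed
      (fun N : ℕ => {y : X | ∀ t < N, g (T^[q * t] y) ≤ 0})
      (fun N y hy t ht => hy t (Nat.lt_succ_of_lt ht))
      (fun N => hcon q hq hLq N) (hcl 0).isCompact hcl
    obtain ⟨y, hy⟩ := hne
    refine ⟨y, fun t => le_antisymm ?_ (hg0 _)⟩
    exact (Set.mem_iInter.1 hy (t + 1)) t (Nat.lt_succ_self t)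
  -- constants
  have hB : ∀ y, g y ≤ ‖g‖ := fun y => (le_abs_self _).trans (g.norm_coe_le_norm y)
  have hBpos : 0 < ‖g‖ := by
    have h1 : c ≤ ∫ _, ‖g‖ ∂μ := integral_mono (g.integrable _) (integrable_const _) hB
    simp only [integral_const, probReal_univ, one_smul] at h1
    linarith
  obtain ⟨N, hN⟩ := havg g (c / 2) (by linarith)
  set δ : ℝ := min (c / (4 * ‖g‖)) (1 / ((N : ℝ) + 1)) with hδ
  have hδpos : 0 < δ := lt_min (by positivity) (by positivity)
  obtain ⟨Q, hQ, hQδ⟩ := exists_primes L hδpos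
  set P : ℕ := ∏ q ∈ Q, q with hP
  have hPpos : 0 < P := Finset.prod_pos fun q hq => (hQ q hq).1.pos
  have hPr : (0 : ℝ) < P := by exact_mod_cast hPpos
  have hNP : N ≤ P := by
    have h1 : (1 : ℝ) ≤ ((∏ q ∈ Q, (q - 1) : ℕ) : ℝ) := by
      have : 0 < ∏ q ∈ Q, (q - 1) :=
        Finset.prod_pos fun q hq => by have := (hQ q hq).1.two_le; omega
      exact_mod_cast this
    have h2 : (1 : ℝ) ≤ 1 / ((N : ℝ) + 1) * P :=
      h1.trans (hQδ.trans (by gcongr; exact min_le_right _ _))
    rw [one_div, inv_mul_eq_div, one_le_div (by positivity)] at h2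
    have h3 : (N : ℝ) ≤ P := by linarith
    exact_mod_cast h3
  -- the closed invariant sets
  let C : ℕ → Set X := fun q => {y | ∃ r ∈ Finset.range q, ∀ t : ℕ, g (T^[q * t + r] y) = 0}
  have hCcl : ∀ q, IsClosed (C q) := by
    intro q
    have : C q = ⋃ r ∈ Finset.range q, {y | ∀ t : ℕ, g (T^[q * t + r] y) = 0} := by
      ext y; simp [C]
    rw [this]
    refine Set.Finite.isClosed_biUnion (Finset.finite_toSet _) fun r _ => ?_
    simp only [Set.ofPred_forall]
    exact isClosed_iInter fun t =>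
      isClosed_eq (g.continuous.comp (hT.iterate _)) continuous_const
  have hCne : ∀ q ∈ Q, (C q).Nonempty := by
    intro q hq
    obtain ⟨y, hy⟩ := hy q (hQ q hq).1 (hQ q hq).2
    exact ⟨y, 0, Finset.mem_range.2 (hQ q hq).1.pos, fun t => by simpa using hy t⟩
  have hCinv : ∀ q ∈ Q, MapsTo T (C q) (C q) := by
    rintro q hq y ⟨r, hr, hyr⟩
    rw [Finset.mem_range] at hr
    rcases Nat.eq_zero_or_pos r with h0 | h0
    · refine ⟨q - 1, Finset.mem_range.2 (by have := (hQ q hq).1.pos; omega), fun t => ?_⟩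
      rw [← Function.iterate_succ_apply]
      have h1 : (q * t + (q - 1)).succ = q * (t + 1) + r := by
        have := (hQ q hq).1.pos
        rw [h0, Nat.mul_succ]
        omega
      rw [h1]
      exact hyr (t + 1)
    · refine ⟨r - 1, Finset.mem_range.2 (by omega), fun t => ?_⟩
      rw [← Function.iterate_succ_apply]
      have h1 : (q * t + (r - 1)).succ = q * t + r := by omega
      rw [h1]
      exact hyr t
  obtain ⟨z, hz⟩ : ∃ z, ∀ q ∈ Q, z ∈ C q := by
    by_contra h
    push Not at h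
    have h1 : (⋃ q ∈ Q, (C q)ᶜ) = Set.univ := by
      rw [Set.eq_univ_iff_forall]
      intro z
      obtain ⟨q, hq, hzq⟩ := h z
      exact Set.mem_biUnion hq hzq
    have h2 : μ (⋃ q ∈ Q, (C q)ᶜ) = 0 := by
      exact (measure_biUnion_null_iff (s := fun q => (C q)ᶜ) Q.countable_toSet).2
        fun q hq => hclosed _ (hCcl q) (hCne q hq) (hCinv q hq)
    rw [h1, measure_univ] at h2
    exact one_ne_zero h2
  choose! r hr hzr using hz
  have hvanish : ∀ n : ℕ, (∃ q ∈ Q, (n : ZMod q) = (r q : ZMod q)) → g (T^[n] z) = 0 := by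
    rintro n ⟨q, hq, hn⟩
    rw [ZMod.natCast_eq_natCast_iff', Nat.mod_eq_of_lt (Finset.mem_range.1 (hr q hq))] at hn
    have h1 : n = q * (n / q) + r q := by rw [← hn]; exact (Nat.div_add_mod n q).symm
    rw [h1]
    exact hzr q hq _
  classical
  have hsum : ∑ i ∈ Finset.range P, g (T^[i] z) ≤ ‖g‖ * (δ * P) := by
    calc ∑ i ∈ Finset.range P, g (T^[i] z)
        ≤ ∑ i ∈ Finset.range P, if (∀ q ∈ Q, (i : ZMod q) ≠ (r q : ZMod q)) then ‖g‖ else 0 := by
          refine Finset.sum_le_sum fun i _ => ?_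
          split_ifs with h
          · exact hB _
          · push Not at h
            exact (hvanish i h).le
      _ = (((Finset.range P).filter
            fun i : ℕ => ∀ q ∈ Q, (i : ZMod q) ≠ (r q : ZMod q)).card : ℝ) * ‖g‖ := by
          rw [← Finset.sum_filter, Finset.sum_const, nsmul_eq_mul]
      _ ≤ ((∏ q ∈ Q, (q - 1) : ℕ) : ℝ) * ‖g‖ := by
          gcongr
          exact crt_count Q (fun q hq => (hQ q hq).1) r
      _ ≤ (δ * P) * ‖g‖ := by gcongr
      _ = ‖g‖ * (δ * P) := mul_comm _ _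
  have h1 := abs_lt.1 (hN P hNP z)
  have h2 : ((P : ℕ) : ℝ)⁻¹ * ∑ i ∈ Finset.range P, g (T^[i] z) ≤ c / 4 := by
    calc ((P : ℕ) : ℝ)⁻¹ * ∑ i ∈ Finset.range P, g (T^[i] z)
        ≤ ((P : ℕ) : ℝ)⁻¹ * (‖g‖ * (δ * P)) := by gcongr
      _ = ‖g‖ * δ := by field_simp
      _ ≤ ‖g‖ * (c / (4 * ‖g‖)) := by gcongr; exact min_le_left _ _
      _ = c / 4 := by field_simp
  linarith [h1.1]

end visits

end Pool.Agent.V11104.UE
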