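import Mathlib
import Pool.Agent.V11104.UE

/-!
# Piecewise syndetic sets are not weak interpolation sets of order 2
-/

set_option autoImplicit false

open MeasureTheory Filter Topology Set BoundedContinuousFunction

namespace Pool.Agent.V11104.UE

/-- Positive exactly on `t > 1/3` (for `true`), on `t < 2/3` (for `false`). -/
noncomputable def ramp (b : Bool) (t : ℝ) : ℝ := if b then max 0 (t - 1 / 3) else max 0 (2 / 3 - t)

lemma continuous_ramp (b : Bool) : Continuous (ramp b) := by
  cases b
  · exact continuous_const.max (continuous_const.sub continuous_id)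
  · exact continuous_const.max (continuous_id.sub continuous_const)

lemma ramp_nonneg (b : Bool) (t : ℝ) : 0 ≤ ramp b t := by
  cases b <;> exact le_max_left _ _

lemma ramp_decide_pos (t : ℝ) : 0 < ramp (decide (1 / 3 < t)) t := by
  by_cases h : 1 / 3 < t
  · simp only [ramp, h, decide_true, if_true]
    exact lt_max_of_lt_right (by linarith)
  · simp only [ramp, h, decide_false]
    exact lt_max_of_lt_right (by push Not at h; linarith)

lemma of_ramp_true {t : ℝ} (h : 0 < ramp true t) : 1 / 3 < t := by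
  simp only [ramp, if_true, lt_max_iff, lt_irrefl, false_or] at h
  linarith

lemma of_ramp_false {t : ℝ} (h : 0 < ramp false t) : t < 2 / 3 := by
  simp only [ramp, Bool.false_eq_true, if_false, lt_max_iff, lt_irrefl, false_or] at h
  linarith

section
variable {X : Type*} [TopologicalSpace X] [CompactSpace X]

/-- The function whose positivity set is the (fuzzy) cylinder of the word `w`. -/
noncomputable def cyl {T : X → X} (hT : Continuous T) (G : C(X, ℝ)) {L : ℕ} (w : Fin L → Bool) :
    X →ᵇ ℝ :=
  BoundedContinuousFunction.mkOfCompact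
    ⟨fun y => ∏ j : Fin L, ramp (w j) (G (T^[(j : ℕ)] y)), by
      refine continuous_finsetProd _ fun j _ => ?_
      exact (continuous_ramp _).comp (G.continuous.comp (hT.iterate _))⟩

lemma cyl_apply {T : X → X} (hT : Continuous T) (G : C(X, ℝ)) {L : ℕ} (w : Fin L → Bool) (y : X) :
    cyl hT G w y = ∏ j : Fin L, ramp (w j) (G (T^[(j : ℕ)] y)) := rfl

lemma cyl_nonneg {T : X → X} (hT : Continuous T) (G : C(X, ℝ)) {L : ℕ} (w : Fin L → Bool)
    (y : X) : 0 ≤ cyl hT G w y := by
  rw [cyl_apply]
  exact Finset.prod_nonneg fun _ _ => ramp_nonneg _ _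

lemma exists_cyl_pos [MeasurableSpace X] [BorelSpace X] {μ : Measure X} [IsProbabilityMeasure μ]
    {T : X → X} (hT : Continuous T) (G : C(X, ℝ)) (L : ℕ) :
    ∃ w : Fin L → Bool, 0 < ∫ y, cyl hT G w y ∂μ := by
  by_contra hcon
  push Not at hcon
  have h1 : ∫ y, ∑ w : Fin L → Bool, cyl hT G w y ∂μ ≤ 0 := by
    rw [integral_finsetSum _ fun w _ => (cyl hT G w).integrable μ]
    exact Finset.sum_nonpos fun w _ => hcon w
  have hpos : ∀ y, 0 < ∑ w : Fin L → Bool, cyl hT G w y := by
    intro y
    have h2 : 0 < cyl hT G (fun j : Fin L => decide (1 / 3 < G (T^[(j : ℕ)] y))) y := by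
      rw [cyl_apply]
      exact Finset.prod_pos fun j _ => ramp_decide_pos _
    exact h2.trans_le (Finset.single_le_sum (f := fun w : Fin L → Bool => cyl hT G w y)
      (fun w _ => cyl_nonneg hT G w y) (Finset.mem_univ _))
  have hint : Integrable (fun y => ∑ w : Fin L → Bool, cyl hT G w y) μ :=
    integrable_finsetSum _ fun w _ => (cyl hT G w).integrable μ
  have h3 := (integral_pos_iff_support_of_nonneg (fun y => (hpos y).le) hint).2 (by
    have : Function.support (fun y => ∑ w : Fin L → Bool, cyl hT G w y) = Set.univ := by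
      rw [Set.eq_univ_iff_forall]
      exact fun y => (hpos y).ne'
    rw [this, measure_univ]
    exact one_pos)
  linarith
end

/-- **Main theorem A.** If a set `S` has, for some `L`, arbitrarily long (and arbitrarily late)
intervals on which it meets every window of length `L`, then it is not a weak interpolation set
of order `2` for uniquely ergodic systems. -/
theorem not_weakInterpolation_two {S : Set ℕ} {L : ℕ}
    (hS : ∀ E M : ℕ, ∃ a, E ≤ a ∧ ∀ m, a ≤ m → m < a + M → ∃ n ∈ S, m ≤ n ∧ n < m + L) :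
    ¬ WeakInterpolation 2 S := by
  classical
  intro hW
  -- enumeration of all codes
  obtain ⟨e, he⟩ := exists_surjective_nat ((Fin L → Bool) × ℕ × ℕ)
  let len : ℕ → ℕ := fun j => (e j).2.1 * (e j).2.2 + L
  choose A hA1 hA2 using hS
  -- positions of the segments
  let a : ℕ → ℕ := fun j =>
    Nat.rec (motive := fun _ => ℕ) (A 0 (len 0)) (fun j r => A (r + len j) (len (j + 1))) j
  have ha_succ : ∀ j, a (j + 1) = A (a j + len j) (len (j + 1)) := fun j => rfl
  have ha_le : ∀ j, a j + len j ≤ a (j + 1) := fun j => by rw [ha_succ]; exact hA1 _ _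
  have ha_synd : ∀ j, ∀ m, a j ≤ m → m < a j + len j → ∃ n ∈ S, m ≤ n ∧ n < m + L := by
    intro j
    cases j with
    | zero => exact hA2 0 (len 0)
    | succ j => rw [ha_succ]; exact hA2 _ _
  have ha_lt : ∀ {i j}, i < j → a i + len i ≤ a j := by
    intro i j hij
    induction j with
    | zero => omega
    | succ j ih =>
      rcases Nat.lt_succ_iff_lt_or_eq.1 hij with h | h
      · exact (ih h).trans ((Nat.le_add_right _ _).trans (ha_le j))
      · subst h; exact ha_le i
  have huniq : ∀ {n i j}, a i ≤ n → n < a i + len i → a j ≤ n → n < a j + len j → i = j := by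
    intro n i j h1 h2 h3 h4
    rcases lt_trichotomy i j with h | h | h
    · have := ha_lt h; omega
    · exact h
    · have := ha_lt h; omega
  -- the function to be interpolated
  let fval : ℕ → ℕ → Fin 2 := fun j n =>
    if h : (n - a j) % (e j).2.1 < L then (if (e j).1 ⟨(n - a j) % (e j).2.1, h⟩ then 0 else 1)
    else 0
  have hfex : ∀ n : S, ∃ v : Fin 2, ∀ j, a j ≤ (n : ℕ) → (n : ℕ) < a j + len j →
      v = fval j (n : ℕ) := by
    intro n
    rcases Classical.em (∃ j : ℕ, a j ≤ (n : ℕ) ∧ (n : ℕ) < a j + len j) with h | h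
    · obtain ⟨j, h1, h2⟩ := h
      exact ⟨fval j (n : ℕ), fun i h3 h4 => by rw [huniq h1 h2 h3 h4]⟩
    · exact ⟨0, fun j h1 h2 => absurd ⟨j, h1, h2⟩ h⟩
  choose f hf using hfex
  obtain ⟨X, _, _, _, _, T, x, F, hT, hU, -, hF⟩ := hW f
  let G : C(X, ℝ) := ⟨fun y => (F y).re, Complex.continuous_re.comp F.continuous⟩
  obtain ⟨μ, hμ1, hμ2, havg, hclosed⟩ := uniform_average hT hU
  obtain ⟨w, hw⟩ := exists_cyl_pos (μ := μ) hT G L
  obtain ⟨q, hq, hLq, N, hN⟩ := exists_prime_visits hT havg hclosed (cyl hT G w)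
    (cyl_nonneg hT G w) hw L
  obtain ⟨j, hj⟩ := he (w, q, N)
  obtain ⟨t, htN, ht⟩ := hN (T^[a j] x)
  have hlen : len j = q * N + L := by simp only [len, hj]
  have hqt : q * t + q ≤ q * N := by
    calc q * t + q = q * (t + 1) := by ring
      _ ≤ q * N := Nat.mul_le_mul_left q htN
  have hq0 := hq.pos
  obtain ⟨s, hsS, hs1, hs2⟩ := ha_synd j (a j + q * t) (Nat.le_add_right _ _) (by omega)
  obtain ⟨i, rfl⟩ : ∃ i, s = a j + q * t + i := ⟨s - (a j + q * t), by omega⟩
  have hiL : i < L := by omega
  have hfs := hf ⟨a j + q * t + i, hsS⟩ j (by simp only; omega) (by simp only; omega)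
  have hmod : (a j + q * t + i - a j) % (e j).2.1 = i := by
    rw [hj]
    have : a j + q * t + i - a j = i + q * t := by omega
    simp only
    rw [this, Nat.add_mul_mod_self_left, Nat.mod_eq_of_lt (by omega)]
  have hval : f ⟨a j + q * t + i, hsS⟩ = if w ⟨i, hiL⟩ then 0 else 1 := by
    rw [hfs]
    simp only [fval]
    have hlt : (a j + q * t + i - a j) % (e j).2.1 < L := by rw [hmod]; exact hiL
    rw [dif_pos hlt]
    have h1 : (e j).1 ⟨(a j + q * t + i - a j) % (e j).2.1, hlt⟩ = w ⟨i, hiL⟩ := by
      have h2 : (e j).1 = w := by rw [hj]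
      rw [h2]
      congr 1
      exact Fin.ext hmod
    rw [h1]
  have hFs := hF ⟨a j + q * t + i, hsS⟩
  rw [hval] at hFs
  have hiter : T^[a j + q * t + i] x = T^[i] (T^[q * t] (T^[a j] x)) := by
    rw [← Function.iterate_add_apply, ← Function.iterate_add_apply]
    rw [show a j + q * t + i = i + q * t + a j by ring]
  have hfac : 0 < ramp (w ⟨i, hiL⟩) (G (T^[i] (T^[q * t] (T^[a j] x)))) := by
    rw [cyl_apply] at ht
    have h1 := Finset.prod_ne_zero_iff.1 ht.ne' ⟨i, hiL⟩ (Finset.mem_univ _)
    exact lt_of_le_of_ne (ramp_nonneg _ _) (Ne.symm h1)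
  simp only at hFs
  rw [hiter] at hFs
  have hG : G (T^[i] (T^[q * t] (T^[a j] x)))
      = (F (T^[i] (T^[q * t] (T^[a j] x)))).re := rfl
  rw [hG, hFs] at hfac
  cases hb : w ⟨i, hiL⟩
  · rw [hb] at hfac
    have := of_ramp_false hfac
    norm_num at this
  · rw [hb] at hfac
    have := of_ramp_true hfac
    norm_num at this

end Pool.Agent.V11104.UE
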