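import Mathlib
import Pool.Agent.V11104.UE
import Pool.Agent.V11104.WIA

/-!
# Weak interpolation sets of order `k ≥ 2` have upper Banach density `< 1/k`
-/

set_option autoImplicit false

open MeasureTheory Filter Topology Set BoundedContinuousFunction

namespace Pool.Agent.V11104.UE

section
variable {X : Type*} [TopologicalSpace X] [CompactSpace X]

/-- narrow bump at the value `i` -/
noncomputable def bumpG (F : C(X, ℂ)) (i : ℕ) : X →ᵇ ℝ :=
  BoundedContinuousFunction.mkOfCompact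
    ⟨fun y => max 0 (1 - 4 * ‖F y - i‖), by fun_prop⟩

/-- wide bump at the value `i` -/
noncomputable def bumpH (F : C(X, ℂ)) (i : ℕ) : X →ᵇ ℝ :=
  BoundedContinuousFunction.mkOfCompact
    ⟨fun y => max 0 (min 1 (2 - 4 * ‖F y - i‖)), by fun_prop⟩

variable (F : C(X, ℂ)) (i : ℕ) (y : X)

lemma bumpG_apply : bumpG F i y = max 0 (1 - 4 * ‖F y - i‖) := rfl
lemma bumpH_apply : bumpH F i y = max 0 (min 1 (2 - 4 * ‖F y - i‖)) := rfl

lemma bumpG_nonneg : 0 ≤ bumpG F i y := by rw [bumpG_apply]; exact le_max_left _ _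
lemma bumpH_nonneg : 0 ≤ bumpH F i y := by rw [bumpH_apply]; exact le_max_left _ _

lemma bumpG_le_bumpH : bumpG F i y ≤ bumpH F i y := by
  rw [bumpG_apply, bumpH_apply]
  refine max_le_max le_rfl (le_min ?_ ?_)
  · have := norm_nonneg (F y - i); linarith
  · linarith

lemma bumpH_le_one : bumpH F i y ≤ 1 := by
  rw [bumpH_apply]
  exact max_le zero_le_one (min_le_left _ _)

lemma bumpG_eq_one (h : F y = i) : bumpG F i y = 1 := by
  rw [bumpG_apply, h]; simp

lemma bumpH_eq_one (h : ‖F y - i‖ ≤ 1 / 4) : bumpH F i y = 1 := by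
  rw [bumpH_apply, min_eq_left (by linarith)]; simp

lemma of_bumpG_pos (h : 0 < bumpG F i y) : ‖F y - i‖ < 1 / 4 := by
  rw [bumpG_apply] at h
  simp only [lt_max_iff, lt_irrefl, false_or] at h
  linarith

lemma of_bumpH_pos (h : 0 < bumpH F i y) : ‖F y - i‖ < 1 / 2 := by
  rw [bumpH_apply] at h
  simp only [lt_max_iff, lt_irrefl, false_or, lt_min_iff] at h
  linarith

lemma sum_bumpH_le (k : ℕ) : ∑ i ∈ Finset.range k, bumpH F i y ≤ 1 := by
  by_cases hex : ∃ i ∈ Finset.range k, bumpH F i y ≠ 0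
  · obtain ⟨i, hi, hne⟩ := hex
    have hpos := lt_of_le_of_ne (bumpH_nonneg F i y) (Ne.symm hne)
    rw [Finset.sum_eq_single i]
    · exact bumpH_le_one F i y
    · intro j hj hji
      by_contra hne'
      have hpos' := lt_of_le_of_ne (bumpH_nonneg F j y) (Ne.symm hne')
      have h1 := of_bumpH_pos F i y hpos
      have h2 := of_bumpH_pos F j y hpos'
      have h3 : ‖((i : ℂ) - j)‖ < 1 := by
        calc ‖((i : ℂ) - j)‖ = ‖(F y - j) - (F y - i)‖ := by congr 1; ring
          _ ≤ ‖F y - j‖ + ‖F y - i‖ := norm_sub_le _ _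
          _ < 1 := by linarith
      have h4 : ‖((i : ℂ) - j)‖ = |((i : ℤ) - (j : ℤ) : ℤ)| := by
        rw [show ((i : ℂ) - j) = (((i : ℤ) - (j : ℤ) : ℤ) : ℂ) by push_cast; ring]
        rw [Complex.norm_intCast]
        push_cast
        ring
      rw [h4] at h3
      have h5 : |(i : ℤ) - (j : ℤ)| < 1 := by exact_mod_cast h3
      have h6 : (i : ℤ) - j = 0 := Int.abs_lt_one_iff.1 h5
      omega
    · intro h; exact absurd hi h
  · push Not at hex
    rw [Finset.sum_eq_zero hex]
    exact zero_le_one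

end

lemma WeakInterpolation.mono {S : Set ℕ} {k l : ℕ} (hkl : l ≤ k) (h : WeakInterpolation k S) :
    WeakInterpolation l S := by
  intro f
  obtain ⟨X, a1, a2, a3, a4, T, x, F, h1, h2, h3, h4⟩ := h fun n => Fin.castLE hkl (f n)
  exact ⟨X, a1, a2, a3, a4, T, x, F, h1, h2, h3, fun n => by rw [h4 n]; rfl⟩

open Classical in
theorem no_dense {S : Set ℕ} {k : ℕ} (hk : 2 ≤ k) (hW : WeakInterpolation k S)
    (hS : ∀ ε : ℝ, 0 < ε → ∀ E M : ℕ, ∃ a N : ℕ, E ≤ a ∧ M ≤ N ∧
      (1 / (k : ℝ) - ε) * N ≤ ((Finset.range N).filter (fun i => a + i ∈ S)).card) : False := by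
  have hk0 : (0 : ℝ) < k := by exact_mod_cast (by omega : 0 < k)
  choose A B hA hB hAB using fun (j E : ℕ) => hS (1 / ((j : ℝ) + 1)) (by positivity) E (j + 1)
  let E : ℕ → ℕ := fun j => Nat.rec (motive := fun _ => ℕ) 0 (fun j r => A j r + B j r) j
  let a : ℕ → ℕ := fun j => A j (E j)
  let N : ℕ → ℕ := fun j => B j (E j)
  have hE_succ : ∀ j, E (j + 1) = a j + N j := fun j => rfl
  have hEa : ∀ j, E j ≤ a j := fun j => hA j (E j)
  have hNj : ∀ j, j + 1 ≤ N j := fun j => hB j (E j)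
  have hcard : ∀ j : ℕ, (1 / (k : ℝ) - 1 / ((j : ℝ) + 1)) * N j
      ≤ ((Finset.range (N j)).filter (fun i => a j + i ∈ S)).card := fun j => hAB j (E j)
  have hEmono : Monotone E := by
    refine monotone_nat_of_le_succ fun j => ?_
    rw [hE_succ]; have := hEa j; omega
  have hEj : ∀ j, j ≤ E j := by
    intro j
    induction j with
    | zero => exact Nat.zero_le _
    | succ j ih => rw [hE_succ]; have := hEa j; have := hNj j; omega
  have hdisj : ∀ {i j}, i < j → a i + N i ≤ a j := by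
    intro i j hij
    rw [← hE_succ]
    exact (hEmono hij).trans (hEa j)
  have huniq : ∀ {n i j}, a i ≤ n → n < a i + N i → a j ≤ n → n < a j + N j → i = j := by
    intro n i j h1 h2 h3 h4
    rcases lt_trichotomy i j with h | h | h
    · have := hdisj h; omega
    · exact h
    · have := hdisj h; omega
  have hfex : ∀ n : S, ∃ v : Fin k, ∀ j, a j ≤ (n : ℕ) → (n : ℕ) < a j + N j →
      v = ⟨j % k, Nat.mod_lt _ (by omega)⟩ := by
    intro n
    rcases Classical.em (∃ j : ℕ, a j ≤ (n : ℕ) ∧ (n : ℕ) < a j + N j) with h | h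
    · obtain ⟨j, h1, h2⟩ := h
      refine ⟨⟨j % k, Nat.mod_lt _ (by omega)⟩, fun i h3 h4 => ?_⟩
      have := huniq h1 h2 h3 h4
      subst this
      rfl
    · exact ⟨⟨0, by omega⟩, fun j h1 h2 => absurd ⟨j, h1, h2⟩ h⟩
  choose f hf using hfex
  obtain ⟨X, _, _, _, _, T, x, F, hT, hU, -, hF⟩ := hW f
  obtain ⟨μ, hμ1, hμ2, havg, hclosed⟩ := uniform_average hT hU
  -- value of `F` on the points of `S` in the `j`-th interval
  have hFv : ∀ j i, i < N j → a j + i ∈ S → F (T^[i] (T^[a j] x)) = ((j % k : ℕ) : ℂ) := by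
    intro j i hi hiS
    have h1 := hF ⟨a j + i, hiS⟩
    rw [hf ⟨a j + i, hiS⟩ j (by simp only; omega) (by simp only; omega)] at h1
    rw [← Function.iterate_add_apply, Nat.add_comm i (a j)]
    exact h1
  -- each narrow bump has integral at least 1/k
  have hG : ∀ i, i < k → 1 / (k : ℝ) ≤ ∫ y, bumpG F i y ∂μ := by
    intro i hi
    by_contra hlt
    push Not at hlt
    set δ := 1 / (k : ℝ) - ∫ y, bumpG F i y ∂μ with hδ
    have hδ0 : 0 < δ := by rw [hδ]; linarith
    obtain ⟨N0, hN0⟩ := havg (bumpG F i) (δ / 2) (by positivity)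
    obtain ⟨t, ht⟩ := exists_nat_gt (2 / δ)
    set j := i + k * (t + N0) with hj
    have hjk : j % k = i := by rw [hj, Nat.add_mul_mod_self_left, Nat.mod_eq_of_lt hi]
    have hjt : t + N0 ≤ j := by
      rw [hj]
      calc t + N0 ≤ k * (t + N0) := Nat.le_mul_of_pos_left _ (by omega)
        _ ≤ _ := Nat.le_add_left _ _
    have h1 := hN0 (N j) (by have := hNj j; omega) (T^[a j] x)
    have h2 : ((Finset.range (N j)).filter (fun n => a j + n ∈ S)).card
        ≤ ∑ n ∈ Finset.range (N j), bumpG F i (T^[n] (T^[a j] x)) := by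
      rw [Finset.card_filter]
      push_cast
      refine Finset.sum_le_sum fun n hn => ?_
      split_ifs with hS'
      · rw [bumpG_eq_one]
        rw [hFv j n (Finset.mem_range.1 hn) hS', hjk]
      · exact bumpG_nonneg F i _
    have h3 := hcard j
    have hNpos : (0 : ℝ) < N j := by exact_mod_cast (by have := hNj j; omega : 0 < N j)
    have h4 : 1 / (k : ℝ) - 1 / ((j : ℝ) + 1)
        ≤ ((N j : ℕ) : ℝ)⁻¹ * ∑ n ∈ Finset.range (N j), bumpG F i (T^[n] (T^[a j] x)) := by
      rw [le_inv_mul_iff₀ hNpos, mul_comm]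
      exact h3.trans h2
    have h5 : 1 / ((j : ℝ) + 1) < δ / 2 := by
      have hj' : (t : ℝ) ≤ j := by exact_mod_cast (by omega : t ≤ j)
      rw [div_lt_iff₀ (by positivity)]
      rw [div_lt_iff₀ hδ0] at ht
      nlinarith
    have h6 := (abs_lt.1 h1).2
    linarith
  have hGH : ∀ i, ∫ y, bumpG F i y ∂μ ≤ ∫ y, bumpH F i y ∂μ := fun i =>
    integral_mono ((bumpG F i).integrable μ) ((bumpH F i).integrable μ)
      fun y => bumpG_le_bumpH F i y
  have hsum : ∑ i ∈ Finset.range k, ∫ y, bumpH F i y ∂μ ≤ 1 := by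
    rw [← integral_finsetSum _ fun i _ => (bumpH F i).integrable μ]
    calc ∫ y, ∑ i ∈ Finset.range k, bumpH F i y ∂μ ≤ ∫ _, (1 : ℝ) ∂μ :=
          integral_mono (integrable_finsetSum _ fun i _ => (bumpH F i).integrable μ)
            (integrable_const _) fun y => sum_bumpH_le F y k
      _ = 1 := by simp
  have hH0 : ∫ y, bumpH F 0 y ∂μ ≤ 1 / (k : ℝ) := by
    obtain ⟨l, rfl⟩ : ∃ l, k = l + 1 := ⟨k - 1, by omega⟩
    rw [Finset.sum_range_succ'] at hsum
    have h1 : (l : ℝ) * (1 / ((l + 1 : ℕ) : ℝ))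
        ≤ ∑ i ∈ Finset.range l, ∫ y, bumpH F (i + 1) y ∂μ := by
      calc (l : ℝ) * (1 / ((l + 1 : ℕ) : ℝ))
          = ∑ i ∈ Finset.range l, (1 / ((l + 1 : ℕ) : ℝ)) := by simp
        _ ≤ _ := Finset.sum_le_sum fun i hi =>
            (hG (i + 1) (by have := Finset.mem_range.1 hi; omega)).trans (hGH (i + 1))
    have h2 : (l : ℝ) * (1 / ((l + 1 : ℕ) : ℝ)) + 1 / ((l + 1 : ℕ) : ℝ) = 1 := by
      push_cast
      field_simp
    linarith
  -- visits to the zero bump
  obtain ⟨L0, hL0⟩ := havg (bumpG F 0) (1 / (k : ℝ)) (by positivity)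
  set L := L0 + 1 with hL
  have hvisit : ∀ y, ∃ i < L, ‖F (T^[i] y)‖ < 1 / 4 := by
    intro y
    have h1 := (abs_lt.1 (hL0 L (by omega) y)).1
    have h2 := hG 0 (by omega)
    have h3 : 0 < ((L : ℕ) : ℝ)⁻¹ * ∑ i ∈ Finset.range L, bumpG F 0 (T^[i] y) := by linarith
    have h4 : 0 < ∑ i ∈ Finset.range L, bumpG F 0 (T^[i] y) :=
      pos_of_mul_pos_right h3 (by positivity)
    obtain ⟨i, hi, hpos⟩ := Finset.exists_lt_of_sum_lt (s := Finset.range L) (f := fun _ => (0 : ℝ))
      (g := fun i => bumpG F 0 (T^[i] y)) (by simpa using h4)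
    refine ⟨i, Finset.mem_range.1 hi, ?_⟩
    have := of_bumpG_pos F 0 _ hpos
    simpa using this
  -- piecewise syndeticity
  refine not_weakInterpolation_two (S := S) (L := L) ?_ (WeakInterpolation.mono hk hW)
  intro E' M
  set K := M + L with hK
  have hKpos : (0 : ℝ) < K := by exact_mod_cast (by omega : 0 < K)
  obtain ⟨N2, hN2⟩ := havg (bumpH F 0) (1 / (4 * (K : ℝ))) (by positivity)
  set j := k * (N2 + 4 * K + E') with hj
  have hjk : j % k = 0 := by rw [hj]; exact Nat.mul_mod_right _ _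
  have hjt : N2 + 4 * K + E' ≤ j := Nat.le_mul_of_pos_left _ (by omega)
  have hNjj := hNj j
  have hNpos : (0 : ℝ) < N j := by exact_mod_cast (by omega : 0 < N j)
  set D := (Finset.range (N j)).filter
    (fun i => a j + i ∉ S ∧ ‖F (T^[i] (T^[a j] x))‖ < 1 / 4) with hD
  have h2 : ((((Finset.range (N j)).filter (fun n => a j + n ∈ S)).card : ℝ) + (D.card : ℝ))
      ≤ ∑ n ∈ Finset.range (N j), bumpH F 0 (T^[n] (T^[a j] x)) := by
    rw [hD, Finset.card_filter, Finset.card_filter]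
    push_cast
    rw [← Finset.sum_add_distrib]
    refine Finset.sum_le_sum fun n hn => ?_
    by_cases hnS : a j + n ∈ S
    · have h3 : bumpH F 0 (T^[n] (T^[a j] x)) = 1 := by
        apply bumpH_eq_one
        rw [hFv j n (Finset.mem_range.1 hn) hnS, hjk]
        simp
      rw [h3]
      simp [hnS]
    · by_cases hn4 : ‖F (T^[n] (T^[a j] x))‖ < 1 / 4
      · have h3 : bumpH F 0 (T^[n] (T^[a j] x)) = 1 := by
          apply bumpH_eq_one
          simpa using hn4.le
        rw [h3, if_neg hnS, if_pos ⟨hnS, hn4⟩]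
        simp
      · have := bumpH_nonneg F 0 (T^[n] (T^[a j] x))
        rw [if_neg hnS, if_neg (fun h => hn4 h.2)]
        simpa using this
  have h3 := hcard j
  have h4 := (abs_lt.1 (hN2 (N j) (by omega) (T^[a j] x))).2
  have h5 : ∑ n ∈ Finset.range (N j), bumpH F 0 (T^[n] (T^[a j] x))
      < (1 / (k : ℝ) + 1 / (4 * (K : ℝ))) * N j := by
    have h6 : ((N j : ℕ) : ℝ)⁻¹ * ∑ n ∈ Finset.range (N j), bumpH F 0 (T^[n] (T^[a j] x))
        < 1 / (k : ℝ) + 1 / (4 * (K : ℝ)) := by linarith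
    rwa [inv_mul_lt_iff₀ hNpos, mul_comm] at h6
  have h6 : 1 / ((j : ℝ) + 1) ≤ 1 / (4 * (K : ℝ)) := by
    apply one_div_le_one_div_of_le (by positivity)
    have : ((4 * K : ℕ) : ℝ) ≤ j := by exact_mod_cast (by omega : 4 * K ≤ j)
    push_cast at this
    linarith
  have h7 : (D.card : ℝ) < N j / (2 * (K : ℝ)) := by
    have h8 : (1 / (4 * (K : ℝ))) * N j + (1 / (4 * (K : ℝ))) * N j = N j / (2 * (K : ℝ)) := by
      field_simp; ring
    nlinarith [mul_le_mul_of_nonneg_right h6 hNpos.le]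
  -- a block free of `D`
  have h8 : ∃ b < N j / K, ∀ d ∈ D, d / K ≠ b := by
    by_contra hcon
    push Not at hcon
    have h9 : Finset.range (N j / K) ⊆ D.image (fun d => d / K) := by
      intro b hb
      obtain ⟨d, hd, hdb⟩ := hcon b (Finset.mem_range.1 hb)
      exact Finset.mem_image.2 ⟨d, hd, hdb⟩
    have h10 := (Finset.card_le_card h9).trans Finset.card_image_le
    rw [Finset.card_range] at h10
    have hK0 : 0 < K := by omega
    have h11 : N j < (N j / K + 1) * K := by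
      have := Nat.lt_mul_div_succ (N j) hK0
      calc N j < K * (N j / K + 1) := this
        _ = _ := by ring
    have h12 : (N j : ℝ) < ((N j / K : ℕ) + 1) * K := by exact_mod_cast h11
    have h13 : ((N j / K : ℕ) : ℝ) ≤ D.card := by exact_mod_cast h10
    have h14 : ((4 * K : ℕ) : ℝ) ≤ N j := by exact_mod_cast (by omega : 4 * K ≤ N j)
    push_cast at h14
    rw [lt_div_iff₀ (by positivity)] at h7
    nlinarith
  obtain ⟨b, hb, hbD⟩ := h8
  have hK0 : 0 < K := by omega
  have hbN : b * K + K ≤ N j := by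
    calc b * K + K = (b + 1) * K := by ring
      _ ≤ (N j / K) * K := Nat.mul_le_mul_right _ hb
      _ ≤ N j := Nat.div_mul_le_self _ _
  refine ⟨a j + b * K, ?_, ?_⟩
  · have := hEa j; have := hEj j; omega
  · intro m hm1 hm2
    obtain ⟨i, hiL, hi⟩ := hvisit (T^[m] x)
    have hr : ∃ r, m + i = a j + r ∧ b * K ≤ r ∧ r < b * K + K := ⟨m + i - a j, by omega, by omega,
      by omega⟩
    obtain ⟨r, hr1, hr2, hr3⟩ := hr
    refine ⟨m + i, ?_, by omega, by omega⟩
    by_contra hnS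
    have hrD : r ∈ D := by
      rw [hD, Finset.mem_filter]
      refine ⟨Finset.mem_range.2 (by omega), by rwa [← hr1], ?_⟩
      rw [← Function.iterate_add_apply, Nat.add_comm r (a j), ← hr1, Nat.add_comm m i,
        Function.iterate_add_apply]
      exact hi
    apply hbD r hrD
    rw [Nat.div_eq_iff hK0]
    constructor
    · omega
    · have : b * K + K = (b + 1) * K := by ring
      omega

end Pool.Agent.V11104.UE
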