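import Mathlib

/-!
# Concatenation of periodic samples: basic estimates
-/

set_option autoImplicit false

open MeasureTheory Filter Topology Set

namespace Pool.Agent.V11104.XR

/-- two-sided binary sequences -/
abbrev X := ℤ → Bool

/-- the shift by `n` -/
def sh (n : ℤ) (x : X) : X := fun i => x (i + n)

lemma sh_zero (x : X) : sh 0 x = x := by funext i; simp [sh]

lemma sh_sh (m n : ℤ) (x : X) : sh m (sh n x) = sh (m + n) x := by
  funext i; simp only [sh]; congr 1; ring

lemma measurable_sh (n : ℤ) : Measurable (sh n) :=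
  measurable_pi_lambda _ fun i => measurable_pi_apply (i + n)

lemma continuous_sh (n : ℤ) : Continuous (sh n) :=
  continuous_pi fun i => continuous_apply (i + n)

/-- concatenation of blocks of length `2 ^ J` -/
def conc (J : ℕ) (x y : X) : X := fun i => if (i / 2 ^ J) % 2 = 0 then x i else y i

lemma measurable_conc (J : ℕ) : Measurable fun q : X × X => conc J q.1 q.2 := by
  refine measurable_pi_lambda _ fun i => ?_
  by_cases h : (i / 2 ^ J) % 2 = 0
  · simp only [conc, h, if_true]
    exact (measurable_pi_apply i).comp measurable_fst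
  · simp only [conc, h, if_false]
    exact (measurable_pi_apply i).comp measurable_snd

/-- the probabilities of concatenation -/
noncomputable def p (J : ℕ) : ℝ := 2 / (J + 3)

lemma p_pos (J : ℕ) : 0 < p J := by unfold p; positivity

lemma p_le_one (J : ℕ) : p J ≤ 1 := by
  unfold p
  rw [div_le_one (by positivity)]
  have : (0 : ℝ) ≤ J := Nat.cast_nonneg J
  linarith

lemma p_anti : Antitone p := by
  intro i j hij
  unfold p
  apply div_le_div_of_nonneg_left (by norm_num) (by positivity)
  have : (i : ℝ) ≤ j := by exact_mod_cast hij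
  linarith

/-- law of a shifted concatenation -/
noncomputable def T (J : ℕ) (R : ℤ) (ρ : Measure X) : Measure X :=
  (ρ.prod ρ).map fun q => sh R (conc J q.1 q.2)

/-- average of the laws of the shifted concatenations -/
noncomputable def nu (J : ℕ) (ρ : Measure X) : Measure X :=
  ENNReal.ofReal ((2 : ℝ) ^ (J + 1))⁻¹ • ∑ R ∈ Finset.range (2 ^ (J + 1)), T J (R : ℤ) ρ

lemma measurable_shconc (J : ℕ) (R : ℤ) : Measurable fun q : X × X => sh R (conc J q.1 q.2) :=
  (measurable_sh R).comp (measurable_conc J)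

instance (J : ℕ) (R : ℤ) (ρ : Measure X) [IsProbabilityMeasure ρ] :
    IsProbabilityMeasure (T J R ρ) :=
  Measure.isProbabilityMeasure_map (measurable_shconc J R).aemeasurable

instance (J : ℕ) (ρ : Measure X) [IsProbabilityMeasure ρ] : IsProbabilityMeasure (nu J ρ) := by
  constructor
  rw [nu, Measure.smul_apply, Measure.coe_finsetSum, Finset.sum_apply, smul_eq_mul]
  simp only [measure_univ, Finset.sum_const, Finset.card_range, nsmul_eq_mul, mul_one]
  rw [← ENNReal.ofReal_natCast, ← ENNReal.ofReal_mul (by positivity)]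
  push_cast
  rw [inv_mul_cancel₀ (by positivity), ENNReal.ofReal_one]

/-- the approximating measures -/
noncomputable def mu : ℕ → Measure X
  | 0 => ENNReal.ofReal (1 / 2) • Measure.dirac (fun _ => false) +
      ENNReal.ofReal (1 / 2) • Measure.dirac (fun _ => true)
  | J + 1 => ENNReal.ofReal (1 - p J) • mu J + ENNReal.ofReal (p J) • nu J (mu J)

lemma mu_prob (J : ℕ) : IsProbabilityMeasure (mu J) := by
  induction J with
  | zero =>
    constructor
    rw [mu, Measure.add_apply, Measure.smul_apply, Measure.smul_apply, measure_univ, measure_univ,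
      smul_eq_mul, mul_one, ← ENNReal.ofReal_add (by norm_num) (by norm_num)]
    norm_num
  | succ J ih =>
    constructor
    rw [mu, Measure.add_apply, Measure.smul_apply, Measure.smul_apply, measure_univ, measure_univ,
      smul_eq_mul, smul_eq_mul, mul_one, mul_one,
      ← ENNReal.ofReal_add (by have := p_le_one J; linarith) (p_pos J).le]
    norm_num

instance (J : ℕ) : IsProbabilityMeasure (mu J) := mu_prob J

/-- `x` is `2 ^ J`-periodic -/
def Per (J : ℕ) (x : X) : Prop := ∀ i, x (i + 2 ^ J) = x i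

lemma measurableSet_per (J : ℕ) : MeasurableSet {x : X | Per J x} := by
  have : {x : X | Per J x} = ⋂ i, {x : X | x (i + 2 ^ J) = x i} := by ext x; simp [Per]
  rw [this]
  exact MeasurableSet.iInter fun i => measurableSet_eq_fun (measurable_pi_apply _)
    (measurable_pi_apply _)

lemma Per.sh {J : ℕ} {x : X} (h : Per J x) (n : ℤ) : Per J (sh n x) := by
  intro i
  simp only [XR.sh]
  rw [show i + 2 ^ J + n = i + n + 2 ^ J by ring, h]

lemma Per.succ {J : ℕ} {x : X} (h : Per J x) : Per (J + 1) x := by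
  intro i
  rw [show i + 2 ^ (J + 1) = i + 2 ^ J + 2 ^ J by ring, h, h]

lemma Per.conc {J : ℕ} {x y : X} (hx : Per J x) (hy : Per J y) : Per (J + 1) (conc J x y) := by
  intro i
  have h2 : (i + 2 ^ (J + 1)) / 2 ^ J = i / 2 ^ J + 2 := by
    rw [show i + 2 ^ (J + 1) = i + 2 * 2 ^ J by ring]
    exact Int.add_mul_ediv_right _ _ (by positivity)
  simp only [XR.conc, h2, Int.add_emod_right]
  split_ifs
  · exact hx.succ i
  · exact hy.succ i

/-- invariance under all shifts -/
def Inv (ρ : Measure X) : Prop := ∀ n : ℤ, MeasurePreserving (sh n) ρ ρ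

lemma inv_of_one {ρ : Measure X} (h : ρ.map (sh 1) = ρ) : Inv ρ := by
  have h1 : MeasurePreserving (sh 1) ρ ρ := ⟨measurable_sh 1, h⟩
  have h1' : MeasurePreserving (sh (-1)) ρ ρ := by
    refine ⟨measurable_sh _, ?_⟩
    conv_lhs => rw [← h]
    rw [Measure.map_map (measurable_sh _) (measurable_sh _)]
    have : sh (-1) ∘ sh 1 = id := by funext x; simp [sh_sh, sh_zero]
    rw [this, Measure.map_id]
  intro n
  induction n using Int.induction_on with
  | zero =>
    have : sh 0 = id := by funext x; exact sh_zero x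
    rw [this]; exact MeasurePreserving.id _
  | succ n ih =>
    have : sh ((n : ℤ) + 1) = sh (n : ℤ) ∘ sh 1 := by funext x; simp [sh_sh]
    rw [this]; exact ih.comp h1
  | pred n ih =>
    have : sh (-(n : ℤ) - 1) = sh (-(n : ℤ)) ∘ sh (-1) := by
      funext x; simp [sh_sh, sub_eq_add_neg]
    rw [this]; exact ih.comp h1'

lemma map_T (J : ℕ) (R n : ℤ) (ρ : Measure X) : (T J R ρ).map (sh n) = T J (n + R) ρ := by
  rw [T, Measure.map_map (measurable_sh n) (measurable_shconc J R), T]
  congr 1
  funext q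
  simp [sh_sh]

lemma T_period {J : ℕ} {ρ : Measure X} [IsProbabilityMeasure ρ] (hper : ∀ᵐ x ∂ρ, Per J x) (R : ℤ) :
    T J (R + 2 ^ (J + 1)) ρ = T J R ρ := by
  unfold T
  apply Measure.map_congr
  have h1 : ∀ᵐ q ∂(ρ.prod ρ), Per J q.1 :=
    (measurePreserving_fst (μ := ρ) (ν := ρ)).quasiMeasurePreserving.ae hper
  have h2 : ∀ᵐ q ∂(ρ.prod ρ), Per J q.2 :=
    (measurePreserving_snd (μ := ρ) (ν := ρ)).quasiMeasurePreserving.ae hper
  filter_upwards [h1, h2] with q hq1 hq2
  have h3 := Per.conc hq1 hq2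
  funext i
  simp only [sh]
  rw [← add_assoc]
  exact h3 _

lemma nu_inv {J : ℕ} {ρ : Measure X} [IsProbabilityMeasure ρ] (hper : ∀ᵐ x ∂ρ, Per J x) :
    (nu J ρ).map (sh 1) = nu J ρ := by
  rw [nu, Measure.map_smul, ← Measure.mapₗ_apply_of_measurable (measurable_sh 1), map_sum]
  congr 1
  have h1 : ∀ R : ℕ, Measure.mapₗ (sh 1) (T J (R : ℤ) ρ) = T J ((R + 1 : ℕ) : ℤ) ρ := by
    intro R
    rw [Measure.mapₗ_apply_of_measurable (measurable_sh 1), map_T]
    congr 1; push_cast; ring
  simp only [h1]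
  have h2 := Finset.sum_range_succ (fun R : ℕ => T J (R : ℤ) ρ) (2 ^ (J + 1))
  have h3 := Finset.sum_range_succ' (fun R : ℕ => T J (R : ℤ) ρ) (2 ^ (J + 1))
  have h4 : T J ((2 ^ (J + 1) : ℕ) : ℤ) ρ = T J ((0 : ℕ) : ℤ) ρ := by
    have := T_period (J := J) hper 0
    push_cast
    rwa [zero_add] at this
  rw [h4] at h2
  rw [h2] at h3
  -- cancel the finite measure
  ext s hs
  have h5 := congrArg (fun m : Measure X => m s) h3
  simp only [Measure.add_apply] at h5
  exact ((ENNReal.add_left_inj (measure_ne_top _ _)).1 h5).symm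

lemma nu_per {J : ℕ} {ρ : Measure X} [IsProbabilityMeasure ρ] (hper : ∀ᵐ x ∂ρ, Per J x) :
    ∀ᵐ x ∂(nu J ρ), Per (J + 1) x := by
  rw [ae_iff]
  have hm : MeasurableSet {x : X | ¬ Per (J + 1) x} := (measurableSet_per (J + 1)).compl
  rw [nu, Measure.smul_apply, Measure.coe_finsetSum, Finset.sum_apply, Finset.sum_eq_zero, smul_zero]
  intro R _
  rw [T, Measure.map_apply (measurable_shconc J _) hm]
  have h1 : ∀ᵐ q ∂(ρ.prod ρ), Per J q.1 :=
    (measurePreserving_fst (μ := ρ) (ν := ρ)).quasiMeasurePreserving.ae hper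
  have h2 : ∀ᵐ q ∂(ρ.prod ρ), Per J q.2 :=
    (measurePreserving_snd (μ := ρ) (ν := ρ)).quasiMeasurePreserving.ae hper
  have h3 : ∀ᵐ q ∂(ρ.prod ρ), Per (J + 1) (sh (R : ℤ) (conc J q.1 q.2)) := by
    filter_upwards [h1, h2] with q hq1 hq2
    exact (Per.conc hq1 hq2).sh _
  exact ae_iff.1 h3

lemma mu_inv_per (J : ℕ) : (mu J).map (sh 1) = mu J ∧ ∀ᵐ x ∂(mu J), Per J x := by
  induction J with
  | zero =>
    constructor
    · rw [mu, Measure.map_add _ _ (measurable_sh 1), Measure.map_smul, Measure.map_smul,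
        Measure.map_dirac' (measurable_sh 1), Measure.map_dirac' (measurable_sh 1)]
      rfl
    · have hm : MeasurableSet {a : X | ¬ Per 0 a} := (measurableSet_per 0).compl
      rw [ae_iff, mu, Measure.add_apply, Measure.smul_apply, Measure.smul_apply,
        Measure.dirac_apply' _ hm, Measure.dirac_apply' _ hm]
      simp [Per]
  | succ J ih =>
    obtain ⟨h1, h2⟩ := ih
    constructor
    · rw [mu, Measure.map_add _ _ (measurable_sh 1), Measure.map_smul, Measure.map_smul, h1,
        nu_inv h2]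
    · have h3 : ∀ᵐ x ∂(mu J), Per (J + 1) x := h2.mono fun x hx => hx.succ
      have h4 := nu_per (J := J) h2
      rw [ae_iff] at h3 h4 ⊢
      rw [mu, Measure.add_apply, Measure.smul_apply, Measure.smul_apply, h3, h4]
      simp

lemma mu_inv (J : ℕ) : Inv (mu J) := inv_of_one (mu_inv_per J).1
lemma mu_per (J : ℕ) : ∀ᵐ x ∂(mu J), Per J x := (mu_inv_per J).2

end Pool.Agent.V11104.XR
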