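import Mathlib
import Pool.Agent.V11104.XR1

/-!
# Concatenation of periodic samples: correlation estimate
-/

set_option autoImplicit false

open MeasureTheory Filter Topology Set

namespace Pool.Agent.V11104.XR

/-- `f` depends only on the coordinates in `[a, a + w)` -/
def Dep (f : X → ℝ) (a : ℤ) (w : ℕ) : Prop :=
  ∀ x y : X, (∀ i, a ≤ i → i < a + w → x i = y i) → f x = f y

/-- a bounded measurable function -/
structure Nice (f : X → ℝ) : Prop where
  meas : Measurable f
  bd : ∀ x, |f x| ≤ 1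

lemma Nice.integrable {f : X → ℝ} (hf : Nice f) (ρ : Measure X) [IsProbabilityMeasure ρ] :
    Integrable f ρ :=
  Integrable.of_bound hf.meas.aestronglyMeasurable 1 (Eventually.of_forall hf.bd)

lemma abs_integral_le {Ω : Type*} [MeasurableSpace Ω] {μ : Measure Ω} [IsProbabilityMeasure μ]
    {f : Ω → ℝ} (h : ∀ x, |f x| ≤ 1) : |∫ x, f x ∂μ| ≤ 1 := by
  have := norm_integral_le_of_norm_le_const (μ := μ) (C := 1) (f := f)
    (Eventually.of_forall fun x => h x)
  simpa using this

lemma integral_mp {A B : Type*} [MeasurableSpace A] [MeasurableSpace B] {μ : Measure A}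
    {ν : Measure B} {φ : A → B} (h : MeasurePreserving φ μ ν) {f : B → ℝ} (hf : Measurable f) :
    ∫ x, f (φ x) ∂μ = ∫ y, f y ∂ν := by
  rw [← h.map_eq, integral_map h.measurable.aemeasurable]
  exact hf.aestronglyMeasurable

/-- the correlation -/
noncomputable def cor (ρ : Measure X) (f g : X → ℝ) (n : ℤ) : ℝ := ∫ x, f x * g (sh n x) ∂ρ

lemma cor_nice {f g : X → ℝ} (hf : Nice f) (hg : Nice g) (n : ℤ) :
    Nice fun x => f x * g (sh n x) := by
  refine ⟨hf.meas.mul (hg.meas.comp (measurable_sh n)), fun x => ?_⟩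
  rw [abs_mul]
  exact mul_le_one₀ (hf.bd x) (abs_nonneg _) (hg.bd _)

/-- same parity of blocks -/
def same (J : ℕ) (a : ℤ) (n : ℤ) (R : ℕ) : Prop :=
  ((a + R) / 2 ^ J) % 2 = ((a + R + n) / 2 ^ J) % 2

instance (J : ℕ) (a n : ℤ) (R : ℕ) : Decidable (same J a n R) := by
  unfold same; infer_instance

/-- the shifts for which the window starting at `a + n` crosses a boundary -/
def bad (J : ℕ) (a : ℤ) (w : ℕ) (n : ℤ) : Finset ℕ :=
  (Finset.range (2 ^ (J + 1))).filter fun R =>
    ∃ k ∈ Finset.range w, (2 : ℤ) ^ J ∣ a + k + R + n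

lemma card_bad_le (J : ℕ) (a : ℤ) (w : ℕ) (n : ℤ) : (bad J a w n).card ≤ 2 * w := by
  have h1 : bad J a w n ⊆ (Finset.range w).biUnion fun k =>
      (Finset.range (2 ^ (J + 1))).filter fun R : ℕ => (2 : ℤ) ^ J ∣ a + k + R + n := by
    intro R hR
    rw [bad, Finset.mem_filter] at hR
    obtain ⟨hR1, k, hk, hd⟩ := hR
    exact Finset.mem_biUnion.2 ⟨k, hk, Finset.mem_filter.2 ⟨hR1, hd⟩⟩
  have h2 : ∀ k ∈ Finset.range w, ((Finset.range (2 ^ (J + 1))).filter fun R : ℕ =>
      (2 : ℤ) ^ J ∣ a + k + R + n).card ≤ 2 := by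
    intro k _
    have h3 : ((Finset.range (2 ^ (J + 1))).filter fun R : ℕ =>
      (2 : ℤ) ^ J ∣ a + k + R + n).card ≤ (Finset.range 2).card := by
      refine Finset.card_le_card_of_injOn (fun R => R / 2 ^ J) ?_ ?_
      · intro R hR
        rw [Finset.mem_coe, Finset.mem_filter, Finset.mem_range] at hR
        rw [Finset.mem_coe, Finset.mem_range]
        rw [Nat.div_lt_iff_lt_mul (by positivity)]
        rw [← pow_succ']
        exact hR.1
      · intro R hR R' hR' hq
        rw [Finset.mem_coe, Finset.mem_filter] at hR hR'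
        have h4 : (2 : ℤ) ^ J ∣ (R : ℤ) - R' := by
          have h8 : (R : ℤ) - R' = (a + k + R + n) - (a + k + R' + n) := by ring
          rw [h8]
          exact dvd_sub hR.2 hR'.2
        have h5 : R % 2 ^ J = R' % 2 ^ J := by
          have h6 : ((2 ^ J : ℕ) : ℤ) ∣ (R' : ℤ) - R := by
            push_cast
            rw [← neg_sub]; exact (dvd_neg).2 h4
          exact (Nat.modEq_iff_dvd).2 h6
        have h7 : R / 2 ^ J = R' / 2 ^ J := hq
        rw [← Nat.div_add_mod R (2 ^ J), ← Nat.div_add_mod R' (2 ^ J), h7, h5]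
    simpa using h3
  calc (bad J a w n).card ≤ _ := Finset.card_le_card h1
    _ ≤ ∑ k ∈ Finset.range w, _ := Finset.card_biUnion_le
    _ ≤ ∑ k ∈ Finset.range w, 2 := Finset.sum_le_sum h2
    _ = 2 * w := by simp [mul_comm]

lemma same_block {J : ℕ} {a : ℤ} {w : ℕ} {n : ℤ} {R : ℕ} (hR : R ∈ Finset.range (2 ^ (J + 1)))
    (h : R ∉ bad J a w n) {i : ℤ} (h1 : a ≤ i) (h2 : i < a + w) :
    (i + R + n) / 2 ^ J = (a + R + n) / 2 ^ J := by
  have hpos : (0 : ℤ) < 2 ^ J := by positivity
  apply le_antisymm _ (Int.ediv_le_ediv hpos (by linarith))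
  by_contra hcon
  push Not at hcon
  apply h
  rw [bad, Finset.mem_filter]
  refine ⟨hR, ?_⟩
  set q := (a + R + n) / 2 ^ J with hq
  have h3 : q + 1 ≤ (i + R + n) / 2 ^ J := hcon
  have h4 : (q + 1) * 2 ^ J ≤ i + R + n := by
    have := Int.ediv_mul_le (i + R + n) hpos.ne'
    nlinarith
  have h5 : a + R + n < (q + 1) * 2 ^ J := Int.lt_ediv_add_one_mul_self _ hpos
  obtain ⟨k, hk⟩ : ∃ k : ℕ, (q + 1) * 2 ^ J - R - n = a + k :=
    ⟨((q + 1) * 2 ^ J - R - n - a).toNat, by rw [Int.toNat_of_nonneg (by linarith)]; ring⟩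
  refine ⟨k, ?_, q + 1, ?_⟩
  · rw [Finset.mem_range]
    have : (k : ℤ) < w := by linarith
    exact_mod_cast this
  · linarith

lemma conc_window {J : ℕ} {a : ℤ} {w : ℕ} {n : ℤ} {R : ℕ} (hR : R ∈ Finset.range (2 ^ (J + 1)))
    (h : R ∉ bad J a w n) (x y : X) {f : X → ℝ} (hf : Dep f a w) :
    f (sh (n + R) (conc J x y)) =
      if ((a + R + n) / 2 ^ J) % 2 = 0 then f (sh (n + R) x) else f (sh (n + R) y) := by
  split_ifs with hb
  · apply hf
    intro i h1 h2
    simp only [sh, conc]
    rw [show i + (n + (R : ℤ)) = i + R + n by ring, same_block hR h h1 h2, if_pos hb]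
  · apply hf
    intro i h1 h2
    simp only [sh, conc]
    rw [show i + (n + (R : ℤ)) = i + R + n by ring, same_block hR h h1 h2, if_neg hb]

section
variable {J : ℕ} {ρ : Measure X} [IsProbabilityMeasure ρ] {f g : X → ℝ} {a : ℤ} {w : ℕ}

lemma integral_nu {h : X → ℝ} (hh : Nice h) :
    ∫ x, h x ∂(nu J ρ) = ((2 : ℝ) ^ (J + 1))⁻¹ *
      ∑ R ∈ Finset.range (2 ^ (J + 1)), ∫ q : X × X, h (sh (R : ℤ) (conc J q.1 q.2)) ∂(ρ.prod ρ) := by
  rw [nu, integral_smul_measure, integral_finsetSum_measure]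
  · rw [ENNReal.toReal_ofReal (by positivity), smul_eq_mul]
    congr 1
    refine Finset.sum_congr rfl fun R _ => ?_
    rw [T, integral_map (measurable_shconc J _).aemeasurable]
    exact hh.meas.aestronglyMeasurable
  · intro R _
    exact hh.integrable _

/-- the value of the integral for a good shift -/
lemma good_value (hinv : Inv ρ) (hf : Nice f) (hg : Nice g) (hfd : Dep f a w) (hgd : Dep g a w)
    {n : ℤ} {R : ℕ} (hR : R ∈ Finset.range (2 ^ (J + 1))) (h0 : R ∉ bad J a w 0)
    (hn : R ∉ bad J a w n) :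
    ∫ q : X × X, f (sh (R : ℤ) (conc J q.1 q.2)) * g (sh n (sh (R : ℤ) (conc J q.1 q.2)))
      ∂(ρ.prod ρ) = if same J a n R then cor ρ f g n else (∫ x, f x ∂ρ) * ∫ x, g x ∂ρ := by
  have e1 : ∀ q : X × X, f (sh (R : ℤ) (conc J q.1 q.2)) =
      if ((a + R) / 2 ^ J) % 2 = 0 then f (sh (R : ℤ) q.1) else f (sh (R : ℤ) q.2) := by
    intro q
    have := conc_window hR h0 q.1 q.2 hfd
    simpa using this
  have e2 : ∀ q : X × X, g (sh n (sh (R : ℤ) (conc J q.1 q.2))) =
      if ((a + R + n) / 2 ^ J) % 2 = 0 then g (sh n (sh (R : ℤ) q.1))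
        else g (sh n (sh (R : ℤ) q.2)) := by
    intro q
    rw [sh_sh, sh_sh, sh_sh]
    exact conc_window hR hn q.1 q.2 hgd
  simp only [e1, e2]
  have hm : Measurable fun x => f x * g (sh n x) := (cor_nice hf hg n).meas
  have hfR : Measurable fun x => f (sh (R : ℤ) x) := hf.meas.comp (measurable_sh _)
  have hgR : Measurable fun x => g (sh n (sh (R : ℤ) x)) :=
    hg.meas.comp ((measurable_sh _).comp (measurable_sh _))
  have hmR : Measurable fun x => f (sh (R : ℤ) x) * g (sh n (sh (R : ℤ) x)) := hfR.mul hgR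
  have i1 : ∫ q : X × X, f (sh (R : ℤ) q.1) * g (sh n (sh (R : ℤ) q.1)) ∂(ρ.prod ρ)
      = cor ρ f g n := by
    rw [integral_mp (measurePreserving_fst (μ := ρ) (ν := ρ)) hmR]
    exact integral_mp (hinv (R : ℤ)) hm
  have i2 : ∫ q : X × X, f (sh (R : ℤ) q.2) * g (sh n (sh (R : ℤ) q.2)) ∂(ρ.prod ρ)
      = cor ρ f g n := by
    rw [integral_mp (measurePreserving_snd (μ := ρ) (ν := ρ)) hmR]
    exact integral_mp (hinv (R : ℤ)) hm
  have j1 : ∫ x, f (sh (R : ℤ) x) ∂ρ = ∫ x, f x ∂ρ := integral_mp (hinv (R : ℤ)) hf.meas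
  have j2 : ∫ x, g (sh n (sh (R : ℤ) x)) ∂ρ = ∫ x, g x ∂ρ :=
    (integral_mp (f := fun x => g (sh n x)) (hinv (R : ℤ))
      (hg.meas.comp (measurable_sh n))).trans (integral_mp (hinv n) hg.meas)
  by_cases hb1 : ((a + R) / 2 ^ J) % 2 = 0 <;> by_cases hb2 : ((a + R + n) / 2 ^ J) % 2 = 0
  · have hs : same J a n R := by rw [same, hb1, hb2]
    simp only [hb1, hb2, if_true, hs]
    exact i1
  · have hs : ¬ same J a n R := by rw [same, hb1]; exact fun h => hb2 h.symm
    simp only [hb1, hb2, if_true, hs, if_false]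
    rw [integral_prod_mul (fun x => f (sh (R : ℤ) x)) (fun y => g (sh n (sh (R : ℤ) y))), j1, j2]
  · have hs : ¬ same J a n R := by rw [same, hb2]; exact hb1
    simp only [hb1, hb2, if_true, hs, if_false]
    have : ∀ q : X × X, f (sh (R : ℤ) q.2) * g (sh n (sh (R : ℤ) q.1))
        = g (sh n (sh (R : ℤ) q.1)) * f (sh (R : ℤ) q.2) := fun q => mul_comm _ _
    simp only [this]
    rw [integral_prod_mul (fun x => g (sh n (sh (R : ℤ) x))) (fun y => f (sh (R : ℤ) y)), j1, j2,
      mul_comm]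
  · have hs : same J a n R := by
      rw [same]
      have h1 := Int.emod_two_eq_zero_or_one ((a + R) / 2 ^ J)
      have h2 := Int.emod_two_eq_zero_or_one ((a + R + n) / 2 ^ J)
      omega
    simp only [hb1, hb2, hs, if_true, if_false]
    exact i2

/-- proportion of the shifts for which the two windows lie in blocks of different parity -/
noncomputable def theta (J : ℕ) (a n : ℤ) : ℝ :=
  ((2 : ℝ) ^ (J + 1))⁻¹ * ((Finset.range (2 ^ (J + 1))).filter fun R => ¬ same J a n R).card

lemma theta_nonneg (J : ℕ) (a n : ℤ) : 0 ≤ theta J a n := by unfold theta; positivity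

lemma theta_le_one (J : ℕ) (a n : ℤ) : theta J a n ≤ 1 := by
  unfold theta
  rw [inv_mul_le_iff₀ (by positivity), mul_one]
  have := Finset.card_filter_le (Finset.range (2 ^ (J + 1))) fun R => ¬ same J a n R
  rw [Finset.card_range] at this
  exact_mod_cast this

lemma same_add (J : ℕ) (a n : ℤ) (R : ℕ) : same J a (n + 2 ^ J) R ↔ ¬ same J a n R := by
  unfold same
  have h1 : (a + R + (n + 2 ^ J)) / 2 ^ J = (a + R + n) / 2 ^ J + 1 := by
    rw [show a + R + (n + 2 ^ J) = a + R + n + 1 * 2 ^ J by ring]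
    exact Int.add_mul_ediv_right _ _ (by positivity)
  rw [h1]
  omega

lemma theta_add (J : ℕ) (a n : ℤ) : theta J a n + theta J a (n + 2 ^ J) = 1 := by
  unfold theta
  rw [← mul_add, inv_mul_eq_one₀ (by positivity)]
  simp only [same_add, not_not]
  have := Finset.card_filter_add_card_filter_not (s := Finset.range (2 ^ (J + 1)))
    (fun R => same J a n R)
  rw [Finset.card_range] at this
  have h2 : ((Finset.card ((Finset.range (2 ^ (J + 1))).filter fun R => same J a n R) : ℝ) +
    Finset.card ((Finset.range (2 ^ (J + 1))).filter fun R => ¬ same J a n R)) = 2 ^ (J + 1) := by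
    exact_mod_cast this
  linarith

/-- **Core estimate.** -/
theorem cor_nu (hinv : Inv ρ) (hf : Nice f) (hg : Nice g) (hfd : Dep f a w) (hgd : Dep g a w)
    (n : ℤ) : |cor (nu J ρ) f g n - ((1 - theta J a n) * cor ρ f g n +
      theta J a n * ((∫ x, f x ∂ρ) * ∫ x, g x ∂ρ))| ≤ 4 * w / 2 ^ J := by
  set A := cor ρ f g n with hA
  set B := (∫ x, f x ∂ρ) * ∫ x, g x ∂ρ with hB
  have hA1 : |A| ≤ 1 := abs_integral_le (cor_nice hf hg n).bd
  have hB1 : |B| ≤ 1 := by
    rw [hB, abs_mul]
    exact mul_le_one₀ (abs_integral_le hf.bd) (abs_nonneg _) (abs_integral_le hg.bd)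
  set I : ℕ → ℝ := fun R => ∫ q : X × X, f (sh (R : ℤ) (conc J q.1 q.2)) *
    g (sh n (sh (R : ℤ) (conc J q.1 q.2))) ∂(ρ.prod ρ) with hI
  have hI1 : ∀ R, |I R| ≤ 1 := fun R => abs_integral_le fun q => (cor_nice hf hg n).bd _
  have h1 : cor (nu J ρ) f g n = ((2 : ℝ) ^ (J + 1))⁻¹ * ∑ R ∈ Finset.range (2 ^ (J + 1)), I R :=
    integral_nu (cor_nice hf hg n)
  have h2 : (1 - theta J a n) * A + theta J a n * B = ((2 : ℝ) ^ (J + 1))⁻¹ *
      ∑ R ∈ Finset.range (2 ^ (J + 1)), (if same J a n R then A else B) := by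
    rw [Finset.sum_ite, Finset.sum_const, Finset.sum_const, nsmul_eq_mul, nsmul_eq_mul]
    have := Finset.card_filter_add_card_filter_not (s := Finset.range (2 ^ (J + 1)))
      (fun R => same J a n R)
    rw [Finset.card_range] at this
    have h3 : (Finset.card ((Finset.range (2 ^ (J + 1))).filter fun R => same J a n R) : ℝ)
      = 2 ^ (J + 1) - Finset.card ((Finset.range (2 ^ (J + 1))).filter fun R => ¬ same J a n R) := by
      rw [eq_sub_iff_add_eq]
      exact_mod_cast this
    rw [h3]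
    unfold theta
    field_simp
  rw [h1, h2, ← mul_sub, ← Finset.sum_sub_distrib, abs_mul, abs_of_pos (by positivity),
    inv_mul_le_iff₀ (by positivity)]
  have h4 : ∀ R ∈ Finset.range (2 ^ (J + 1)), |I R - (if same J a n R then A else B)|
      ≤ 2 * ((if R ∈ bad J a w 0 then 1 else 0) + (if R ∈ bad J a w n then 1 else 0)) := by
    intro R hR
    by_cases hb0 : R ∈ bad J a w 0
    · have h5 : |I R - (if same J a n R then A else B)| ≤ 2 := by
        have h6 : |(if same J a n R then A else B)| ≤ 1 := by split_ifs <;> assumption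
        have := abs_sub (I R) (if same J a n R then A else B)
        have := hI1 R
        linarith
      rw [if_pos hb0]
      have : (0 : ℝ) ≤ if R ∈ bad J a w n then 1 else 0 := by split_ifs <;> norm_num
      linarith
    by_cases hbn : R ∈ bad J a w n
    · have h5 : |I R - (if same J a n R then A else B)| ≤ 2 := by
        have h6 : |(if same J a n R then A else B)| ≤ 1 := by split_ifs <;> assumption
        have := abs_sub (I R) (if same J a n R then A else B)
        have := hI1 R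
        linarith
      rw [if_neg hb0, if_pos hbn]
      linarith
    · have : I R = if same J a n R then A else B := good_value hinv hf hg hfd hgd hR hb0 hbn
      rw [this, sub_self, abs_zero, if_neg hb0, if_neg hbn]
      norm_num
  calc |∑ R ∈ Finset.range (2 ^ (J + 1)), (I R - if same J a n R then A else B)|
      ≤ ∑ R ∈ Finset.range (2 ^ (J + 1)), |I R - if same J a n R then A else B| :=
        Finset.abs_sum_le_sum_abs _ _
    _ ≤ ∑ R ∈ Finset.range (2 ^ (J + 1)),
        2 * ((if R ∈ bad J a w 0 then 1 else 0) + (if R ∈ bad J a w n then 1 else 0)) :=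
        Finset.sum_le_sum h4
    _ = 2 * ((bad J a w 0).card + (bad J a w n).card) := by
        rw [← Finset.mul_sum, Finset.sum_add_distrib, Finset.sum_ite_mem, Finset.sum_ite_mem]
        have h5 : Finset.range (2 ^ (J + 1)) ∩ bad J a w 0 = bad J a w 0 :=
          Finset.inter_eq_right.2 (Finset.filter_subset _ _)
        have h6 : Finset.range (2 ^ (J + 1)) ∩ bad J a w n = bad J a w n :=
          Finset.inter_eq_right.2 (Finset.filter_subset _ _)
        rw [h5, h6]
        simp
    _ ≤ 2 * (2 * w + 2 * w) := by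
        have h5 : ((bad J a w 0).card : ℝ) ≤ 2 * w := by exact_mod_cast card_bad_le J a w 0
        have h6 : ((bad J a w n).card : ℝ) ≤ 2 * w := by exact_mod_cast card_bad_le J a w n
        linarith
    _ = 2 ^ (J + 1) * (4 * w / 2 ^ J) := by
        rw [pow_succ]; field_simp; ring

end

end Pool.Agent.V11104.XR
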