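import Mathlib
import Pool.Agent.V11104.XR2

/-!
# Decay of the averaged correlations, limit measure
-/

set_option autoImplicit false

open MeasureTheory Filter Topology Set BoundedContinuousFunction

namespace Pool.Agent.V11104.XR

lemma integral_mu_succ (J : ℕ) {h : X → ℝ} (hh : Nice h) :
    ∫ x, h x ∂(mu (J + 1)) = (1 - p J) * ∫ x, h x ∂(mu J) + p J * ∫ x, h x ∂(nu J (mu J)) := by
  rw [mu, integral_add_measure, integral_smul_measure, integral_smul_measure,
    ENNReal.toReal_ofReal (by have := p_le_one J; linarith), ENNReal.toReal_ofReal (p_pos J).le,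
    smul_eq_mul, smul_eq_mul]
  · exact (hh.integrable _).smul_measure ENNReal.ofReal_ne_top
  · exact (hh.integrable _).smul_measure ENNReal.ofReal_ne_top

lemma nice_one : Nice fun _ => (1 : ℝ) := ⟨measurable_const, fun _ => by norm_num⟩

lemma integral_nu_sub {J : ℕ} {ρ : Measure X} [IsProbabilityMeasure ρ] (hinv : Inv ρ) {f : X → ℝ}
    (hf : Nice f) {a : ℤ} {w : ℕ} (hfd : Dep f a w) :
    |∫ x, f x ∂(nu J ρ) - ∫ x, f x ∂ρ| ≤ 4 * w / 2 ^ J := by
  have h := cor_nu (J := J) hinv hf nice_one hfd (fun _ _ _ => rfl : Dep (fun _ => (1 : ℝ)) a w) 0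
  have e1 : ∀ ρ' : Measure X, cor ρ' f (fun _ => (1 : ℝ)) 0 = ∫ x, f x ∂ρ' := by
    intro ρ'; simp [cor]
  rw [e1, e1] at h
  have e2 : (1 - theta J a 0) * ∫ x, f x ∂ρ + theta J a 0 * ((∫ x, f x ∂ρ) * ∫ _, (1 : ℝ) ∂ρ)
      = ∫ x, f x ∂ρ := by
    simp; ring
  rwa [e2] at h

lemma integral_mu_step (J : ℕ) {f : X → ℝ} (hf : Nice f) {a : ℤ} {w : ℕ} (hfd : Dep f a w) :
    |∫ x, f x ∂(mu (J + 1)) - ∫ x, f x ∂(mu J)| ≤ p J * (4 * w / 2 ^ J) := by
  rw [integral_mu_succ J hf]
  have h := integral_nu_sub (J := J) (mu_inv J) hf hfd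
  have e : (1 - p J) * ∫ x, f x ∂(mu J) + p J * ∫ x, f x ∂(nu J (mu J)) - ∫ x, f x ∂(mu J)
      = p J * (∫ x, f x ∂(nu J (mu J)) - ∫ x, f x ∂(mu J)) := by ring
  rw [e, abs_mul, abs_of_pos (p_pos J)]
  exact mul_le_mul_of_nonneg_left h (p_pos J).le

lemma integral_mu_far (J k : ℕ) {f : X → ℝ} (hf : Nice f) {a : ℤ} {w : ℕ} (hfd : Dep f a w) :
    |∫ x, f x ∂(mu (J + k)) - ∫ x, f x ∂(mu J)| ≤ p J * (8 * w / 2 ^ J) * (1 - (1 / 2) ^ k) := by
  induction k with
  | zero => simp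
  | succ k ih =>
    have h1 := integral_mu_step (J + k) hf hfd
    have h2 : p (J + k) * (4 * w / 2 ^ (J + k)) ≤ p J * (8 * w / 2 ^ J) *
        ((1 / 2) ^ k - (1 / 2) ^ (k + 1)) := by
      have h3 : p (J + k) ≤ p J := p_anti (Nat.le_add_right _ _)
      have h4 : p J * (8 * w / 2 ^ J) * ((1 / 2 : ℝ) ^ k - (1 / 2) ^ (k + 1))
          = p J * (4 * w / 2 ^ (J + k)) := by
        rw [pow_succ, pow_add, one_div, inv_pow]
        field_simp
        ring
      rw [h4]
      exact mul_le_mul_of_nonneg_right h3 (by positivity)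
    rw [← add_assoc]
    have h5 : |∫ x, f x ∂(mu (J + k + 1)) - ∫ x, f x ∂(mu J)| ≤
        |∫ x, f x ∂(mu (J + k + 1)) - ∫ x, f x ∂(mu (J + k))| +
        |∫ x, f x ∂(mu (J + k)) - ∫ x, f x ∂(mu J)| := abs_sub_le _ _ _
    linarith

/-- covariance -/
noncomputable def cv (ρ : Measure X) (f g : X → ℝ) (n : ℤ) : ℝ :=
  cor ρ f g n - (∫ x, f x ∂ρ) * ∫ x, g x ∂ρ

section
variable {f g : X → ℝ} {a : ℤ} {w : ℕ}

lemma prod_sub_le {x y x' y' : ℝ} (hx : |x| ≤ 1) (hy' : |y'| ≤ 1) :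
    |x * y - x' * y'| ≤ |x - x'| + |y - y'| := by
  have e : x * y - x' * y' = x * (y - y') + (x - x') * y' := by ring
  rw [e]
  refine (abs_add_le _ _).trans ?_
  rw [abs_mul, abs_mul]
  have h1 := mul_le_mul_of_nonneg_right hx (abs_nonneg (y - y'))
  have h2 := mul_le_mul_of_nonneg_left hy' (abs_nonneg (x - x'))
  linarith

lemma cv_step (J : ℕ) (hf : Nice f) (hg : Nice g) (hfd : Dep f a w) (hgd : Dep g a w) (n : ℤ) :
    |cv (mu (J + 1)) f g n| ≤ (1 - p J * theta J a n) * |cv (mu J) f g n|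
      + 12 * p J * w / 2 ^ J := by
  set α := ∫ x, f x ∂(mu J) with hα
  set β := ∫ x, g x ∂(mu J) with hβ
  set α' := ∫ x, f x ∂(mu (J + 1)) with hα'
  set β' := ∫ x, g x ∂(mu (J + 1)) with hβ'
  set A := cor (mu J) f g n with hA
  set B := cor (nu J (mu J)) f g n with hB
  set θ := theta J a n with hθ
  have h1 : cor (mu (J + 1)) f g n = (1 - p J) * A + p J * B :=
    integral_mu_succ J (cor_nice hf hg n)
  have h2 : |B - ((1 - θ) * A + θ * (α * β))| ≤ 4 * w / 2 ^ J :=
    cor_nu (mu_inv J) hf hg hfd hgd n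
  have h3 : |α' * β' - α * β| ≤ p J * (4 * w / 2 ^ J) + p J * (4 * w / 2 ^ J) :=
    (prod_sub_le (abs_integral_le hf.bd) (abs_integral_le hg.bd)).trans
      (add_le_add (integral_mu_step J hf hfd) (integral_mu_step J hg hgd))
  have h4 : cv (mu (J + 1)) f g n = (1 - p J * θ) * cv (mu J) f g n +
      p J * (B - ((1 - θ) * A + θ * (α * β))) - (α' * β' - α * β) := by
    rw [cv, cv, h1]; ring
  have hθ0 := theta_nonneg J a n
  have hθ1 := theta_le_one J a n
  have hp0 := (p_pos J).le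
  have hp1 := p_le_one J
  have h5 : 0 ≤ 1 - p J * θ := by nlinarith
  rw [h4]
  calc |(1 - p J * θ) * cv (mu J) f g n +
      p J * (B - ((1 - θ) * A + θ * (α * β))) - (α' * β' - α * β)|
      ≤ |(1 - p J * θ) * cv (mu J) f g n| + |p J * (B - ((1 - θ) * A + θ * (α * β)))|
        + |α' * β' - α * β| := by
          refine (abs_sub _ _).trans ?_
          have := abs_add_le ((1 - p J * θ) * cv (mu J) f g n)
            (p J * (B - ((1 - θ) * A + θ * (α * β))))
          linarith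
    _ ≤ (1 - p J * θ) * |cv (mu J) f g n| + p J * (4 * w / 2 ^ J) +
        (p J * (4 * w / 2 ^ J) + p J * (4 * w / 2 ^ J)) := by
          rw [abs_mul, abs_mul, abs_of_nonneg h5, abs_of_nonneg hp0]
          have := mul_le_mul_of_nonneg_left h2 hp0
          linarith
    _ = _ := by ring

lemma cv_period (J : ℕ) (f g : X → ℝ) (n : ℤ) :
    cv (mu J) f g (n + 2 ^ J) = cv (mu J) f g n := by
  unfold cv cor
  congr 1
  apply integral_congr_ae
  filter_upwards [mu_per J] with x hx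
  have : sh (n + 2 ^ J) x = sh n x := by
    funext i
    simp only [sh]
    rw [← add_assoc]
    exact hx _
  rw [this]

/-- averaged covariance -/
noncomputable def ms (J : ℕ) (f g : X → ℝ) : ℝ :=
  ((2 : ℝ) ^ J)⁻¹ * ∑ n ∈ Finset.range (2 ^ J), |cv (mu J) f g n|

lemma ms_step (J : ℕ) (hf : Nice f) (hg : Nice g) (hfd : Dep f a w) (hgd : Dep g a w) :
    ms (J + 1) f g ≤ (1 - p J / 2) * ms J f g + 12 * p J * w / 2 ^ J := by
  have h1 : ∑ n ∈ Finset.range (2 ^ (J + 1)), |cv (mu (J + 1)) f g n| ≤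
      (2 - p J) * ∑ n ∈ Finset.range (2 ^ J), |cv (mu J) f g n| + 24 * p J * w := by
    have e0 : 2 ^ (J + 1) = 2 ^ J + 2 ^ J := by ring
    rw [e0, Finset.sum_range_add, ← Finset.sum_add_distrib, Finset.mul_sum]
    have h2 : ∀ n ∈ Finset.range (2 ^ J),
        |cv (mu (J + 1)) f g (n : ℤ)| + |cv (mu (J + 1)) f g ((2 ^ J + n : ℕ) : ℤ)| ≤
        (2 - p J) * |cv (mu J) f g n| + 24 * p J * w / 2 ^ J := by
      intro n _
      have h3 := cv_step J hf hg hfd hgd (n : ℤ)
      have h4 := cv_step J hf hg hfd hgd ((n : ℤ) + 2 ^ J)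
      rw [cv_period] at h4
      have h5 := theta_add J a n
      have h6 : theta J a ((n : ℤ) + 2 ^ J) = 1 - theta J a n := by linarith
      rw [h6] at h4
      have e1 : ((2 ^ J + n : ℕ) : ℤ) = (n : ℤ) + 2 ^ J := by push_cast; ring
      rw [e1]
      have e2 : 24 * p J * w / 2 ^ J = 12 * p J * w / 2 ^ J + 12 * p J * w / 2 ^ J := by ring
      rw [e2]
      have e3 : (1 - p J * theta J a n) * |cv (mu J) f g n| +
        (1 - p J * (1 - theta J a n)) * |cv (mu J) f g n| = (2 - p J) * |cv (mu J) f g n| := by ring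
      linarith
    refine (Finset.sum_le_sum h2).trans ?_
    rw [Finset.sum_add_distrib, Finset.sum_const, Finset.card_range, nsmul_eq_mul]
    have e4 : ((2 ^ J : ℕ) : ℝ) * (24 * p J * w / 2 ^ J) = 24 * p J * w := by
      push_cast; field_simp
    rw [e4]
  unfold ms
  rw [inv_mul_le_iff₀ (by positivity)]
  refine h1.trans (le_of_eq ?_)
  rw [pow_succ]
  field_simp
  ring

lemma ms_nonneg (J : ℕ) (f g : X → ℝ) : 0 ≤ ms J f g := by
  unfold ms; exact mul_nonneg (by positivity) (Finset.sum_nonneg fun _ _ => abs_nonneg _)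

lemma ms_bound (J : ℕ) (hf : Nice f) (hg : Nice g) (hfd : Dep f a w) (hgd : Dep g a w) :
    (J + 2) * ms J f g ≤ 4 + 48 * w * (1 - (1 / 2) ^ J) := by
  induction J with
  | zero =>
    have h0 : |cv (mu 0) f g 0| ≤ 2 := by
      unfold cv
      refine (abs_sub _ _).trans ?_
      have h1 : |cor (mu 0) f g 0| ≤ 1 := abs_integral_le (cor_nice hf hg 0).bd
      have h2 : |(∫ x, f x ∂(mu 0)) * ∫ x, g x ∂(mu 0)| ≤ 1 := by
        rw [abs_mul]
        exact mul_le_one₀ (abs_integral_le hf.bd) (abs_nonneg _) (abs_integral_le hg.bd)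
      linarith
    unfold ms
    simp only [pow_zero, Finset.range_one, Finset.sum_singleton, Nat.cast_zero, inv_one, one_mul]
    norm_num
    linarith
  | succ J ih =>
    have h1 := ms_step J hf hg hfd hgd
    have h2 : ((J : ℝ) + 3) * ms (J + 1) f g ≤ (J + 2) * ms J f g + 24 * w / 2 ^ J := by
      have h3 : (0 : ℝ) < J + 3 := by positivity
      calc ((J : ℝ) + 3) * ms (J + 1) f g
          ≤ (J + 3) * ((1 - p J / 2) * ms J f g + 12 * p J * w / 2 ^ J) :=
            mul_le_mul_of_nonneg_left h1 h3.le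
        _ = (J + 2) * ms J f g + 24 * w / 2 ^ J := by
            unfold p
            field_simp
            ring
    have e1 : (((J + 1 : ℕ) : ℝ) + 2) = J + 3 := by push_cast; ring
    rw [e1]
    have e2 : 24 * (w : ℝ) / 2 ^ J = 48 * w * ((1 / 2) ^ J - (1 / 2) ^ (J + 1)) := by
      rw [pow_succ, one_div, inv_pow]
      field_simp
      ring
    rw [e2] at h2
    linarith

end

/-- the limit measure -/
theorem exists_limit : ∃ μ : Measure X, IsProbabilityMeasure μ ∧ Inv μ ∧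
    ∀ (f : X → ℝ) (a : ℤ) (w : ℕ), Nice f → Continuous f → Dep f a w → ∀ J,
      |∫ x, f x ∂μ - ∫ x, f x ∂(mu J)| ≤ p J * (8 * w / 2 ^ J) := by
  set Q : ℕ → ProbabilityMeasure X := fun J => ⟨mu J, mu_prob J⟩ with hQ
  set U : Ultrafilter ℕ := hyperfilter ℕ with hU
  have hUtop : (U : Filter ℕ) ≤ atTop := by
    rw [← Nat.cofinite_eq_atTop]; exact hyperfilter_le_cofinite
  obtain ⟨μ, -, hμ⟩ := (isCompact_univ (X := ProbabilityMeasure X)).ultrafilter_le_nhds (U.map Q)
    (by simp)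
  have hlim : Tendsto Q U (𝓝 μ) := hμ
  have hint := (ProbabilityMeasure.tendsto_iff_forall_integral_tendsto).1 hlim
  refine ⟨(μ : Measure X), inferInstance, ?_, ?_⟩
  · apply inv_of_one
    have : IsProbabilityMeasure ((μ : Measure X).map (sh 1)) :=
      Measure.isProbabilityMeasure_map (measurable_sh 1).aemeasurable
    apply ext_of_forall_integral_eq_of_IsFiniteMeasure
    intro h
    rw [integral_map (measurable_sh 1).aemeasurable
      h.continuous.measurable.aestronglyMeasurable]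
    have h1 := hint h
    have h2 := hint (h.compContinuous ⟨sh 1, continuous_sh 1⟩)
    have h3 : ∀ J, ∫ x, (h.compContinuous ⟨sh 1, continuous_sh 1⟩) x ∂((Q J : Measure X))
        = ∫ x, h x ∂((Q J : Measure X)) := by
      intro J
      exact integral_mp (mu_inv J 1) h.continuous.measurable
    simp only [h3] at h2
    exact tendsto_nhds_unique h2 h1
  · intro f a w hf hfc hfd J
    set h : X →ᵇ ℝ := BoundedContinuousFunction.mkOfCompact ⟨f, hfc⟩ with hh
    have h1 : Tendsto (fun K => ∫ x, f x ∂(mu K)) U (𝓝 (∫ x, f x ∂(μ : Measure X))) := hint h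
    have h2 : Tendsto (fun K => |∫ x, f x ∂(mu K) - ∫ x, f x ∂(mu J)|) U
        (𝓝 |∫ x, f x ∂(μ : Measure X) - ∫ x, f x ∂(mu J)|) := (h1.sub_const _).abs
    refine le_of_tendsto h2 ?_
    have h3 : ∀ᶠ K in (U : Filter ℕ), J ≤ K := hUtop (eventually_ge_atTop J)
    filter_upwards [h3] with K hK
    obtain ⟨k, rfl⟩ := Nat.exists_eq_add_of_le hK
    refine (integral_mu_far J k hf hfd).trans ?_
    have h4 : (0 : ℝ) ≤ (1 / 2) ^ k := by positivity
    have h5 : 0 ≤ p J * (8 * w / 2 ^ J) := mul_nonneg (p_pos J).le (by positivity)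
    nlinarith

end Pool.Agent.V11104.XR
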