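import Mathlib
import Pool.Agent.V11104.XR3

/-!
# The limit measure is weakly mixing
-/

set_option autoImplicit false

open MeasureTheory Filter Topology Set

namespace Pool.Agent.V11104.XR

/-- the limit measure -/
noncomputable def lim : Measure X := exists_limit.choose

instance : IsProbabilityMeasure lim := exists_limit.choose_spec.1

lemma lim_inv : Inv lim := exists_limit.choose_spec.2.1

lemma lim_approx {f : X → ℝ} {a : ℤ} {w : ℕ} (hf : Nice f) (hfc : Continuous f) (hfd : Dep f a w)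
    (J : ℕ) : |∫ x, f x ∂lim - ∫ x, f x ∂(mu J)| ≤ p J * (8 * w / 2 ^ J) :=
  exists_limit.choose_spec.2.2 f a w hf hfc hfd J

section
variable {f g : X → ℝ} {a : ℤ} {w : ℕ}

lemma cv_lim_sub (hf : Nice f) (hg : Nice g) (hfc : Continuous f) (hgc : Continuous g)
    (hfd : Dep f a w) (hgd : Dep g a w) {J n : ℕ} (hn : n < 2 ^ J) :
    |cv lim f g n - cv (mu J) f g n| ≤ 24 * (w + 1) * p J := by
  have hd : Dep (fun x => f x * g (sh n x)) a (w + n) := by
    intro x y hxy
    show f x * g (sh n x) = f y * g (sh n y)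
    rw [hfd x y fun i h1 h2 => hxy i h1 (by push_cast; linarith [Int.natCast_nonneg n]),
      hgd (sh n x) (sh n y) fun i h1 h2 => hxy (i + n) (by linarith [Int.natCast_nonneg n])
        (by push_cast; linarith)]
  have h1 := lim_approx (cor_nice hf hg n) (hfc.mul (hgc.comp (continuous_sh n))) hd J
  have h2 := lim_approx hf hfc hfd J
  have h3 := lim_approx hg hgc hgd J
  have h4 := prod_sub_le (x := ∫ x, f x ∂lim) (y := ∫ x, g x ∂lim) (x' := ∫ x, f x ∂(mu J))
    (y' := ∫ x, g x ∂(mu J)) (abs_integral_le hf.bd) (abs_integral_le hg.bd)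
  have hp := (p_pos J).le
  have hpow : (1 : ℝ) ≤ 2 ^ J := one_le_pow₀ (by norm_num)
  have hnJ : (n : ℝ) ≤ 2 ^ J := by exact_mod_cast hn.le
  have h5 : p J * (8 * ((w + n : ℕ) : ℝ) / 2 ^ J) ≤ p J * (8 * (w + 1)) := by
    apply mul_le_mul_of_nonneg_left _ hp
    rw [div_le_iff₀ (by positivity)]
    push_cast
    have : (w : ℝ) ≤ w * 2 ^ J := le_mul_of_one_le_right (Nat.cast_nonneg _) hpow
    nlinarith
  have h6 : p J * (8 * (w : ℝ) / 2 ^ J) ≤ p J * (8 * (w + 1)) := by
    apply mul_le_mul_of_nonneg_left _ hp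
    rw [div_le_iff₀ (by positivity)]
    have : (w : ℝ) ≤ w * 2 ^ J := le_mul_of_one_le_right (Nat.cast_nonneg _) hpow
    nlinarith
  have e1 : cv lim f g n - cv (mu J) f g n =
      (∫ x, f x * g (sh n x) ∂lim - ∫ x, f x * g (sh n x) ∂(mu J)) -
      ((∫ x, f x ∂lim) * (∫ x, g x ∂lim) - (∫ x, f x ∂(mu J)) * ∫ x, g x ∂(mu J)) := by
    unfold cv cor; ring
  rw [e1]
  refine (abs_sub _ _).trans ?_
  linarith

lemma avg_cv_lim (hf : Nice f) (hg : Nice g) (hfc : Continuous f) (hgc : Continuous g)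
    (hfd : Dep f a w) (hgd : Dep g a w) (J : ℕ) :
    ((2 : ℝ) ^ J)⁻¹ * ∑ n ∈ Finset.range (2 ^ J), |cv lim f g n| ≤ 100 * (w + 1) / (J + 2) := by
  have h1 : ∑ n ∈ Finset.range (2 ^ J), |cv lim f g n| ≤
      ∑ n ∈ Finset.range (2 ^ J), (|cv (mu J) f g n| + 24 * (w + 1) * p J) := by
    refine Finset.sum_le_sum fun n hn => ?_
    have h2 := cv_lim_sub hf hg hfc hgc hfd hgd (Finset.mem_range.1 hn)
    have h3 := abs_sub_abs_le_abs_sub (cv lim f g n) (cv (mu J) f g n)
    linarith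
  rw [Finset.sum_add_distrib, Finset.sum_const, Finset.card_range, nsmul_eq_mul] at h1
  have h2 : ((2 : ℝ) ^ J)⁻¹ * ∑ n ∈ Finset.range (2 ^ J), |cv lim f g n| ≤
      ms J f g + 24 * (w + 1) * p J := by
    unfold ms
    rw [inv_mul_le_iff₀ (by positivity)]
    refine h1.trans (le_of_eq ?_)
    push_cast
    field_simp
  refine h2.trans ?_
  have h3 := ms_bound J hf hg hfd hgd
  have h4 : (0 : ℝ) < J + 2 := by positivity
  rw [le_div_iff₀ h4]
  have h5 : p J * (J + 2) ≤ 2 := by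
    unfold p
    rw [div_mul_eq_mul_div, div_le_iff₀ (by positivity)]
    linarith
  have h6 : (0 : ℝ) ≤ w := Nat.cast_nonneg _
  have h7 : (0 : ℝ) ≤ (1 / 2) ^ J := by positivity
  have h8 : (w : ℝ) * (1 - (1 / 2) ^ J) ≤ w := by nlinarith
  nlinarith

/-- averaged correlations go to zero -/
lemma tendsto_avg_cv (hf : Nice f) (hg : Nice g) (hfc : Continuous f) (hgc : Continuous g)
    (hfd : Dep f a w) (hgd : Dep g a w) :
    Tendsto (fun N : ℕ => (N : ℝ)⁻¹ * ∑ n ∈ Finset.range N, |cv lim f g n|) atTop (𝓝 0) := by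
  have h1 : Tendsto (fun N : ℕ => 200 * ((w : ℝ) + 1) / ((Nat.log 2 N : ℕ) + 3)) atTop (𝓝 0) := by
    have h2 : Tendsto (fun J : ℕ => 200 * ((w : ℝ) + 1) / ((J : ℕ) + 3)) atTop (𝓝 0) := by
      refine Tendsto.div_atTop tendsto_const_nhds ?_
      exact tendsto_atTop_add_const_right _ _ tendsto_natCast_atTop_atTop
    refine h2.comp ?_
    refine tendsto_atTop.2 fun b => ?_
    filter_upwards [eventually_ge_atTop (2 ^ b)] with N hN
    exact Nat.le_log_of_pow_le (by norm_num) hN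
  refine squeeze_zero' (Eventually.of_forall fun N => by positivity) ?_ h1
  filter_upwards [eventually_ge_atTop 1] with N hN
  set J := Nat.log 2 N with hJ
  have hJ1 : 2 ^ J ≤ N := Nat.pow_log_le_self 2 (by omega)
  have hJ2 : N < 2 ^ (J + 1) := Nat.lt_pow_succ_log_self (by norm_num) N
  have h3 := avg_cv_lim hf hg hfc hgc hfd hgd (J + 1)
  have h4 : ∑ n ∈ Finset.range N, |cv lim f g n| ≤
      ∑ n ∈ Finset.range (2 ^ (J + 1)), |cv lim f g n| :=
    Finset.sum_le_sum_of_subset_of_nonneg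
      (Finset.range_subset_range.2 hJ2.le) fun _ _ _ => abs_nonneg _
  have hS : 0 ≤ ∑ n ∈ Finset.range (2 ^ (J + 1)), |cv lim f g n| :=
    Finset.sum_nonneg fun _ _ => abs_nonneg _
  have h5 : (N : ℝ)⁻¹ ≤ ((2 : ℝ) ^ J)⁻¹ := by
    apply inv_anti₀ (by positivity)
    exact_mod_cast hJ1
  calc (N : ℝ)⁻¹ * ∑ n ∈ Finset.range N, |cv lim f g n|
      ≤ (N : ℝ)⁻¹ * ∑ n ∈ Finset.range (2 ^ (J + 1)), |cv lim f g n| :=
        mul_le_mul_of_nonneg_left h4 (by positivity)
    _ ≤ ((2 : ℝ) ^ J)⁻¹ * ∑ n ∈ Finset.range (2 ^ (J + 1)), |cv lim f g n| :=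
        mul_le_mul_of_nonneg_right h5 hS
    _ = 2 * (((2 : ℝ) ^ (J + 1))⁻¹ * ∑ n ∈ Finset.range (2 ^ (J + 1)), |cv lim f g n|) := by
        have e7 : ((2 : ℝ) ^ (J + 1))⁻¹ = ((2 : ℝ) ^ J)⁻¹ * 2⁻¹ := by rw [pow_succ, mul_inv]
        rw [e7]; ring
    _ ≤ 2 * (100 * (w + 1) / (((J + 1 : ℕ) : ℝ) + 2)) := by linarith
    _ = 200 * ((w : ℝ) + 1) / ((J : ℕ) + 3) := by push_cast; ring

end

/-- the indicator of a cylinder -/
lemma cylinder_props {A : Set X} (hA : A ∈ measurableCylinders (fun _ : ℤ => Bool)) :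
    MeasurableSet A ∧ Continuous (A.indicator fun _ => (1 : ℝ)) ∧
    ∃ M : ℕ, ∀ m : ℕ, M ≤ m → Dep (A.indicator fun _ => (1 : ℝ)) (-(m : ℤ)) (2 * m + 1) := by
  obtain ⟨s, S, hS, rfl⟩ := (mem_measurableCylinders A).1 hA
  have hcl : IsClopen (cylinder (α := fun _ : ℤ => Bool) s S) := by
    have hc : Continuous (s.restrict : (∀ i : ℤ, Bool) → ∀ i : s, Bool) :=
      continuous_pi fun i => continuous_apply _
    exact (isClopen_discrete S).preimage hc
  refine ⟨MeasurableSet.cylinder s hS, ?_, ?_⟩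
  · exact continuous_const.indicator (by simp [hcl.frontier_eq])
  · obtain ⟨M, hM⟩ : ∃ M : ℕ, ∀ i ∈ s, |i| ≤ (M : ℤ) := by
      refine ⟨s.sup fun i => i.natAbs, fun i hi => ?_⟩
      have : i.natAbs ≤ s.sup fun i => i.natAbs := Finset.le_sup (f := fun i : ℤ => i.natAbs) hi
      rw [Int.abs_eq_natAbs]
      exact_mod_cast this
    refine ⟨M, fun m hm x y hxy => ?_⟩
    have h1 : ∀ i ∈ s, x i = y i := by
      intro i hi
      have h2 := abs_le.1 (hM i hi)
      have h3 : (M : ℤ) ≤ m := by exact_mod_cast hm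
      exact hxy i (by linarith) (by push_cast; linarith)
    apply Set.indicator_const_eq_indicator_const
    simp only [mem_cylinder]
    have h2 : s.restrict x = s.restrict y := by
      funext i; exact h1 i i.2
    rw [h2]

lemma indicator_nice {A : Set X} (hA : MeasurableSet A) : Nice (A.indicator fun _ => (1 : ℝ)) := by
  refine ⟨measurable_const.indicator hA, fun x => ?_⟩
  by_cases h : x ∈ A <;> simp [h]

lemma cv_indicator {A B : Set X} (hA : MeasurableSet A) (hB : MeasurableSet B) (n : ℤ) :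
    cv lim (A.indicator fun _ => (1 : ℝ)) (B.indicator fun _ => (1 : ℝ)) n =
      lim.real (A ∩ sh n ⁻¹' B) - lim.real A * lim.real B := by
  unfold cv cor
  have h1 : ∀ x, (A.indicator fun _ => (1 : ℝ)) x * (B.indicator fun _ => (1 : ℝ)) (sh n x)
      = (A ∩ sh n ⁻¹' B).indicator (fun _ => (1 : ℝ)) x := by
    intro x
    by_cases h1 : x ∈ A <;> by_cases h2 : sh n x ∈ B <;> simp [h1, h2, mem_preimage]
  simp only [h1]
  rw [integral_indicator (hA.inter (measurable_sh n hB)), integral_indicator hA,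
    integral_indicator hB]
  simp

lemma real_sub_le (A A' : Set X) : |lim.real A - lim.real A'| ≤ lim.real (symmDiff A A') := by
  have h1 : ∀ A A' : Set X, lim.real A ≤ lim.real A' + lim.real (symmDiff A A') := by
    intro A A'
    refine le_trans (measureReal_mono ?_) (measureReal_union_le A' (symmDiff A A'))
    intro x hx
    by_cases h : x ∈ A'
    · exact Or.inl h
    · exact Or.inr (Or.inl ⟨hx, h⟩)
  rw [abs_le]
  have h2 := h1 A A'
  have h3 := h1 A' A
  rw [symmDiff_comm A' A] at h3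
  constructor <;> linarith

/-- **The limit measure is weakly mixing.** -/
theorem lim_weakMixing (A B : Set X) (hA : MeasurableSet A) (hB : MeasurableSet B) :
    Tendsto (fun N : ℕ => (N : ℝ)⁻¹ * ∑ n ∈ Finset.range N,
      |lim.real (A ∩ sh n ⁻¹' B) - lim.real A * lim.real B|) atTop (𝓝 0) := by
  have hdense : lim.MeasureDense (measurableCylinders (fun _ : ℤ => Bool)) :=
    Measure.MeasureDense.of_generateFrom_isSetAlgebra_finite lim
      isSetAlgebra_measurableCylinders generateFrom_measurableCylinders.symm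
  rw [Metric.tendsto_atTop]
  intro ε hε
  have happ : ∀ A : Set X, MeasurableSet A → ∃ A' ∈ measurableCylinders (fun _ : ℤ => Bool),
      lim.real (symmDiff A A') < ε / 8 := by
    intro A hA
    obtain ⟨A', hA', hlt⟩ := hdense.approx A hA (measure_ne_top _ _) (ε / 8) (by positivity)
    refine ⟨A', hA', ?_⟩
    rw [Measure.real]
    exact (ENNReal.toReal_lt_of_lt_ofReal hlt)
  obtain ⟨A', hA', hAA⟩ := happ A hA
  obtain ⟨B', hB', hBB⟩ := happ B hB
  obtain ⟨hA1, hA2, M₁, hM₁⟩ := cylinder_props hA'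
  obtain ⟨hB1, hB2, M₂, hM₂⟩ := cylinder_props hB'
  have hlim := tendsto_avg_cv (indicator_nice hA1) (indicator_nice hB1) hA2 hB2
    (hM₁ (max M₁ M₂) (le_max_left _ _)) (hM₂ (max M₁ M₂) (le_max_right _ _))
  obtain ⟨N₀, hN₀⟩ := Metric.tendsto_atTop.1 hlim (ε / 2) (by positivity)
  refine ⟨N₀ + 1, fun N hN => ?_⟩
  have h1 := hN₀ N (by omega)
  have hNpos : (0 : ℝ) < N := by exact_mod_cast (by omega : 0 < N)
  rw [Real.dist_eq, sub_zero, abs_of_nonneg (by positivity)] at h1 ⊢
  have h2 : ∀ n ∈ Finset.range N, |lim.real (A ∩ sh n ⁻¹' B) - lim.real A * lim.real B| ≤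
      |cv lim (A'.indicator fun _ => (1 : ℝ)) (B'.indicator fun _ => (1 : ℝ)) n| + ε / 2 := by
    intro n _
    rw [cv_indicator hA1 hB1]
    have h3 : |lim.real (A ∩ sh n ⁻¹' B) - lim.real (A' ∩ sh n ⁻¹' B')| ≤
        lim.real (symmDiff A A') + lim.real (symmDiff B B') := by
      refine (real_sub_le _ _).trans ?_
      have h4 : lim.real (sh n ⁻¹' (symmDiff B B')) = lim.real (symmDiff B B') := by
        rw [Measure.real, (lim_inv n).measure_preimage
          ((hB.symmDiff hB1).nullMeasurableSet)]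
        rfl
      rw [← h4]
      refine le_trans (measureReal_mono ?_) (measureReal_union_le _ _)
      intro x hx
      simp only [Set.mem_symmDiff, mem_inter_iff, mem_preimage, mem_union] at hx ⊢
      tauto
    have h4 : |lim.real A * lim.real B - lim.real A' * lim.real B'| ≤
        lim.real (symmDiff A A') + lim.real (symmDiff B B') := by
      refine (prod_sub_le ?_ ?_).trans (add_le_add (real_sub_le _ _) (real_sub_le _ _))
      · rw [abs_of_nonneg measureReal_nonneg]; exact measureReal_le_one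
      · rw [abs_of_nonneg measureReal_nonneg]; exact measureReal_le_one
    have e1 : lim.real (A ∩ sh n ⁻¹' B) - lim.real A * lim.real B =
        (lim.real (A' ∩ sh n ⁻¹' B') - lim.real A' * lim.real B') +
        (lim.real (A ∩ sh n ⁻¹' B) - lim.real (A' ∩ sh n ⁻¹' B')) -
        (lim.real A * lim.real B - lim.real A' * lim.real B') := by ring
    rw [e1]
    refine (abs_sub _ _).trans ?_
    have := abs_add_le (lim.real (A' ∩ sh n ⁻¹' B') - lim.real A' * lim.real B')
      (lim.real (A ∩ sh n ⁻¹' B) - lim.real (A' ∩ sh n ⁻¹' B'))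
    linarith
  have h3 := Finset.sum_le_sum h2
  rw [Finset.sum_add_distrib, Finset.sum_const, Finset.card_range, nsmul_eq_mul] at h3
  calc (N : ℝ)⁻¹ * ∑ n ∈ Finset.range N, |lim.real (A ∩ sh n ⁻¹' B) - lim.real A * lim.real B|
      ≤ (N : ℝ)⁻¹ * (∑ n ∈ Finset.range N,
        |cv lim (A'.indicator fun _ => (1 : ℝ)) (B'.indicator fun _ => (1 : ℝ)) n| +
          N * (ε / 2)) := mul_le_mul_of_nonneg_left h3 (by positivity)
    _ = (N : ℝ)⁻¹ * ∑ n ∈ Finset.range N,
        |cv lim (A'.indicator fun _ => (1 : ℝ)) (B'.indicator fun _ => (1 : ℝ)) n| + ε / 2 := by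
        rw [mul_add]; congr 1; field_simp
    _ < ε := by linarith

end Pool.Agent.V11104.XR
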