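import Mathlib
import Pool.Agent.V11104.XR4

/-!
# The XOR automaton drives the limit measure to the point mass at zero
-/

set_option autoImplicit false

open MeasureTheory Filter Topology Set

namespace Pool.Agent.V11104.XR

/-- the XOR automaton -/
def F (x : X) : X := fun i => xor (x i) (x (i + 1))

/-- the zero configuration -/
def zero : X := fun _ => false

lemma continuous_F : Continuous F := by
  refine continuous_pi fun i => ?_
  have h : Continuous fun q : Bool × Bool => xor q.1 q.2 := continuous_of_discreteTopology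
  have h2 : Continuous fun x : X => (x i, x (i + 1)) :=
    (continuous_apply i).prodMk (continuous_apply (i + 1))
  exact h.comp h2

lemma F_pow (k : ℕ) (x : X) (i : ℤ) : F^[2 ^ k] x i = xor (x i) (x (i + 2 ^ k)) := by
  induction k generalizing x i with
  | zero => simp [F]
  | succ k ih =>
    rw [pow_succ, mul_two, Function.iterate_add_apply, ih, ih, ih]
    rw [show i + 2 ^ (k + 1) = i + 2 ^ k + 2 ^ k by ring]
    cases x i <;> cases x (i + 2 ^ k) <;> cases x (i + 2 ^ k + 2 ^ k) <;> rfl

lemma F_local (m : ℕ) (y : X) (i : ℤ) (h : ∀ l, i ≤ l → l ≤ i + m → y l = false) :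
    F^[m] y i = false := by
  induction m generalizing y with
  | zero => exact h i le_rfl (by simp)
  | succ m ih =>
    rw [Function.iterate_succ_apply]
    apply ih
    intro l h1 h2
    simp only [F]
    rw [h l h1 (by push_cast; linarith), h (l + 1) (by linarith) (by push_cast; linarith)]
    rfl

lemma F_sh (n : ℤ) (x : X) : F (sh n x) = sh n (F x) := by
  funext i
  simp only [F, sh]
  rw [show i + 1 + n = i + n + 1 by ring]

lemma F_iter_sh (m : ℕ) (n : ℤ) (x : X) : F^[m] (sh n x) = sh n (F^[m] x) := by
  induction m generalizing x with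
  | zero => rfl
  | succ m ih => rw [Function.iterate_succ_apply, Function.iterate_succ_apply, F_sh, ih]

/-- the window `[0, 2^(k+1))` is not `2^k`-periodic -/
def Bad (k : ℕ) : Set X := {x | ∃ l ∈ Finset.range (2 ^ k), x (l : ℤ) ≠ x ((l : ℤ) + 2 ^ k)}

lemma isClopen_Bad (k : ℕ) : IsClopen (Bad k) := by
  have : Bad k = ⋃ l ∈ Finset.range (2 ^ k), {x : X | x (l : ℤ) ≠ x ((l : ℤ) + 2 ^ k)} := by
    ext x; simp [Bad]
  rw [this]
  refine isClopen_biUnion_finset fun l _ => ?_
  have h : Continuous fun x : X => (x (l : ℤ), x ((l : ℤ) + 2 ^ k)) :=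
    (continuous_apply _).prodMk (continuous_apply _)
  exact (isClopen_discrete {q : Bool × Bool | q.1 ≠ q.2}).preimage h

lemma F_zero_of_not_bad {k n : ℕ} (h1 : 2 ^ k ≤ n) (h2 : n < 2 ^ (k + 1)) {x : X}
    (hx : x ∉ Bad k) : F^[n] x 0 = false := by
  obtain ⟨m, rfl⟩ := Nat.exists_eq_add_of_le h1
  rw [add_comm, Function.iterate_add_apply]
  apply F_local
  intro l hl1 hl2
  rw [F_pow]
  have hm : m < 2 ^ k := by rw [pow_succ] at h2; omega
  obtain ⟨l', rfl⟩ := Int.eq_ofNat_of_zero_le hl1
  have hl' : l' < 2 ^ k := by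
    have : (l' : ℤ) ≤ m := by linarith
    have : l' ≤ m := by exact_mod_cast this
    omega
  simp only [Bad, Set.mem_ofPred_eq, not_exists, not_and, not_not] at hx
  rw [← hx l' (Finset.mem_range.2 hl')]
  simp

lemma lim_Bad_le (k : ℕ) : lim.real (Bad k) ≤ 16 * p k := by
  have hm := (isClopen_Bad k).1.measurableSet
  have hc : Continuous ((Bad k).indicator fun _ => (1 : ℝ)) :=
    continuous_const.indicator (by simp [(isClopen_Bad k).frontier_eq])
  have hd : Dep ((Bad k).indicator fun _ => (1 : ℝ)) 0 (2 ^ (k + 1)) := by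
    intro x y hxy
    apply Set.indicator_const_eq_indicator_const
    have h1 : ∀ l ∈ Finset.range (2 ^ k), x (l : ℤ) = y (l : ℤ) ∧
        x ((l : ℤ) + 2 ^ k) = y ((l : ℤ) + 2 ^ k) := by
      intro l hl
      have hl' : (l : ℤ) < 2 ^ k := by exact_mod_cast Finset.mem_range.1 hl
      have hpos : (0 : ℤ) < 2 ^ k := by positivity
      have e : ((2 ^ (k + 1) : ℕ) : ℤ) = 2 ^ k + 2 ^ k := by push_cast; ring
      constructor
      · exact hxy _ (Int.natCast_nonneg _) (by rw [e]; linarith)
      · exact hxy _ (by have := Int.natCast_nonneg l; linarith) (by rw [e]; linarith)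
    simp only [Bad, Set.mem_ofPred_eq]
    constructor
    · rintro ⟨l, hl, hne⟩
      exact ⟨l, hl, by rwa [← (h1 l hl).1, ← (h1 l hl).2]⟩
    · rintro ⟨l, hl, hne⟩
      exact ⟨l, hl, by rwa [(h1 l hl).1, (h1 l hl).2]⟩
  have h := lim_approx (indicator_nice hm) hc hd k
  have e1 : ∀ ρ : Measure X, ∫ x, (Bad k).indicator (fun _ => (1 : ℝ)) x ∂ρ = ρ.real (Bad k) := by
    intro ρ; rw [integral_indicator hm]; simp
  rw [e1, e1] at h
  have e2 : (mu k).real (Bad k) = 0 := by
    have h2 : ∀ᵐ x ∂(mu k), x ∉ Bad k := by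
      filter_upwards [mu_per k] with x hx
      rintro ⟨l, _, hne⟩
      exact hne (hx _).symm
    rw [measureReal_eq_zero_iff]
    rw [ae_iff] at h2
    simpa using h2
  rw [e2, sub_zero, abs_of_nonneg measureReal_nonneg] at h
  refine h.trans (le_of_eq ?_)
  push_cast
  rw [pow_succ]
  field_simp
  ring

lemma lim_coord_le {k n : ℕ} (h1 : 2 ^ k ≤ n) (h2 : n < 2 ^ (k + 1)) (i : ℤ) :
    lim.real {x : X | F^[n] x i = true} ≤ 16 * p k := by
  have hm : MeasurableSet {x : X | F^[n] x 0 = true} := by
    have hc : Continuous fun x : X => F^[n] x 0 := (continuous_apply 0).comp (continuous_F.iterate n)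
    exact hc.measurable (measurableSet_singleton true)
  have e : {x : X | F^[n] x i = true} = sh i ⁻¹' {x : X | F^[n] x 0 = true} := by
    ext x
    simp only [Set.mem_ofPred_eq, mem_preimage, F_iter_sh, sh, zero_add]
  rw [e, Measure.real, (lim_inv i).measure_preimage hm.nullMeasurableSet]
  refine le_trans ?_ (lim_Bad_le k)
  refine measureReal_mono (μ := lim) ?_
  intro x hx
  by_contra hb
  have := F_zero_of_not_bad h1 h2 hb
  rw [Set.mem_ofPred_eq] at hx
  rw [hx] at this
  cases this

lemma nhds_zero {φ : C(X, ℝ)} {ε : ℝ} (hε : 0 < ε) : ∃ s : Finset ℤ, ∀ x : X,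
    (∀ i ∈ s, x i = false) → |φ x - φ zero| < ε := by
  have h : {x : X | |φ x - φ zero| < ε} ∈ 𝓝 zero := by
    have hc : Continuous fun x => |φ x - φ zero| := (φ.continuous.sub continuous_const).abs
    exact (isOpen_lt hc continuous_const).mem_nhds (by simpa using hε)
  rw [nhds_pi, Filter.mem_pi'] at h
  obtain ⟨s, t, ht, hsub⟩ := h
  refine ⟨s, fun x hx => ?_⟩
  apply hsub
  intro i hi
  rw [hx i hi]
  exact mem_of_mem_nhds (ht i)

/-- **Convergence to the point mass at zero.** -/
theorem lim_tendsto (φ : C(X, ℝ)) :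
    Tendsto (fun n : ℕ => ∫ x, φ x ∂(lim.map F^[n])) atTop (𝓝 (φ zero)) := by
  have hmap : ∀ n : ℕ, ∫ x, φ x ∂(lim.map F^[n]) = ∫ x, φ (F^[n] x) ∂lim := fun n =>
    integral_map (continuous_F.iterate n).measurable.aemeasurable
      φ.continuous.measurable.aestronglyMeasurable
  simp only [hmap]
  rw [Metric.tendsto_atTop]
  intro ε hε
  obtain ⟨s, hs⟩ := nhds_zero (φ := φ) (half_pos hε)
  set M := ‖φ‖ with hM
  have hM0 : 0 ≤ M := norm_nonneg _
  have hMb : ∀ x, |φ x - φ zero| ≤ 2 * M := by
    intro x
    have h1 := φ.norm_coe_le_norm x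
    have h2 := φ.norm_coe_le_norm zero
    rw [Real.norm_eq_abs] at h1 h2
    have := abs_sub (φ x) (φ zero)
    linarith
  -- choose k₀
  have hp0 : Tendsto p atTop (𝓝 0) := by
    unfold p
    refine Tendsto.div_atTop tendsto_const_nhds ?_
    exact tendsto_atTop_add_const_right _ _ tendsto_natCast_atTop_atTop
  obtain ⟨k₀, hk₀⟩ := Metric.tendsto_atTop.1 hp0 (ε / (2 * (32 * (M + 1) * (s.card + 1))))
    (by positivity)
  refine ⟨2 ^ k₀, fun n hn => ?_⟩
  set k := Nat.log 2 n with hk
  have hnpos : n ≠ 0 := by have : 0 < 2 ^ k₀ := by positivity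
                           omega
  have h1 : 2 ^ k ≤ n := Nat.pow_log_le_self 2 hnpos
  have h2 : n < 2 ^ (k + 1) := Nat.lt_pow_succ_log_self (by norm_num) n
  have hkk : k₀ ≤ k := Nat.le_log_of_pow_le (by norm_num) hn
  have hpk := hk₀ k hkk
  rw [Real.dist_eq, sub_zero, abs_of_pos (p_pos k)] at hpk
  -- bad set
  set G : Set X := {x | ∃ i ∈ s, F^[n] x i = true} with hG
  have hGm : MeasurableSet G := by
    have : G = ⋃ i ∈ s, {x : X | F^[n] x i = true} := by ext x; simp [hG]
    rw [this]
    refine Finset.measurableSet_biUnion _ fun i _ => ?_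
    have hc : Continuous fun x : X => F^[n] x i := (continuous_apply i).comp (continuous_F.iterate n)
    exact hc.measurable (measurableSet_singleton true)
  have hGle : lim.real G ≤ s.card * (16 * p k) := by
    have : G = ⋃ i ∈ s, {x : X | F^[n] x i = true} := by ext x; simp [hG]
    rw [this]
    refine (measureReal_biUnion_finset_le s _).trans ?_
    refine (Finset.sum_le_sum fun i _ => lim_coord_le h1 h2 i).trans ?_
    rw [Finset.sum_const, nsmul_eq_mul]
  have hint : Integrable (fun x => φ (F^[n] x)) lim := by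
    refine Integrable.of_bound (φ.continuous.comp (continuous_F.iterate n)).aestronglyMeasurable M
      (Eventually.of_forall fun x => φ.norm_coe_le_norm _)
  have e1 : ∫ x, φ (F^[n] x) ∂lim - φ zero = ∫ x, (φ (F^[n] x) - φ zero) ∂lim := by
    rw [integral_sub hint (integrable_const _)]
    simp
  rw [Real.dist_eq, e1]
  have h3 : |∫ x, (φ (F^[n] x) - φ zero) ∂lim| ≤
      ∫ x, (ε / 2 + G.indicator (fun _ => 2 * M) x) ∂lim := by
    refine (abs_integral_le_integral_abs).trans ?_
    refine integral_mono ((hint.sub (integrable_const _)).abs)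
      ((integrable_const _).add ((integrable_const _).indicator hGm)) fun x => ?_
    show |φ (F^[n] x) - φ zero| ≤ ε / 2 + G.indicator (fun _ => 2 * M) x
    by_cases hx : x ∈ G
    · rw [indicator_of_mem hx]
      have := hMb (F^[n] x)
      linarith
    · rw [indicator_of_notMem hx]
      have : ∀ i ∈ s, F^[n] x i = false := by
        intro i hi
        by_contra hne
        exact hx ⟨i, hi, by simpa using hne⟩
      have := hs _ this
      linarith
  have h4 : ∫ x, (ε / 2 + G.indicator (fun _ => 2 * M) x) ∂lim = ε / 2 + lim.real G * (2 * M) := by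
    rw [integral_add (integrable_const _) ((integrable_const _).indicator hGm),
      integral_indicator hGm]
    simp
  rw [h4] at h3
  refine h3.trans_lt ?_
  have h5 : lim.real G * (2 * M) ≤ s.card * (16 * p k) * (2 * M) :=
    mul_le_mul_of_nonneg_right hGle (by positivity)
  have h6 : (s.card : ℝ) * (16 * p k) * (2 * M) ≤ (32 * (M + 1) * (s.card + 1)) * p k := by
    have hc : (0 : ℝ) ≤ s.card := Nat.cast_nonneg _
    have hpp := (p_pos k).le
    have : (s.card : ℝ) * M ≤ (M + 1) * (s.card + 1) := by nlinarith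
    nlinarith
  have h7 : (32 * (M + 1) * (s.card + 1)) * p k < ε / 2 := by
    rw [lt_div_iff₀ (by positivity)] at hpk
    have : p k * (2 * (32 * (M + 1) * (s.card + 1))) = 2 * ((32 * (M + 1) * (s.card + 1)) * p k) := by
      ring
    linarith
  linarith

lemma measurableSet_one : MeasurableSet {x : X | x 0 = true} := by
  have h : Measurable fun x : X => x 0 := measurable_pi_apply 0
  exact h (measurableSet_singleton true)

/-- the density of ones is one half -/
lemma lim_ones : lim.real {x : X | x 0 = true} = 1 / 2 := by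
  set S : Set X := {x : X | x 0 = true} with hS
  have hSm : MeasurableSet S := measurableSet_one
  set h : X → ℝ := S.indicator fun _ => (1 : ℝ) with hh
  have hn : Nice h := indicator_nice hSm
  have hval : ∀ x, h x = if x 0 = true then 1 else 0 := by
    intro x
    by_cases hx : x 0 = true
    · rw [if_pos hx, hh, indicator_of_mem (show x ∈ S from hx)]
    · rw [if_neg hx, hh, indicator_of_notMem (show x ∉ S from hx)]
  have hc : Continuous h := by
    have : h = (fun b : Bool => if b = true then (1 : ℝ) else 0) ∘ fun x : X => x 0 := by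
      funext x; exact hval x
    rw [this]
    exact continuous_of_discreteTopology.comp (continuous_apply 0)
  have hd : Dep h 0 1 := by
    intro x y hxy
    rw [hval, hval, hxy 0 le_rfl (by norm_num)]
  have hnu : ∀ J, ∫ x, h x ∂(nu J (mu J)) = ∫ x, h x ∂(mu J) := by
    intro J
    rw [integral_nu hn]
    have h1 : ∀ R ∈ Finset.range (2 ^ (J + 1)), ∫ q : X × X, h (sh (R : ℤ) (conc J q.1 q.2))
        ∂((mu J).prod (mu J)) = ∫ x, h x ∂(mu J) := by
      intro R _
      by_cases hb : ((R : ℤ) / 2 ^ J) % 2 = 0
      · have h2 : ∀ q : X × X, h (sh (R : ℤ) (conc J q.1 q.2)) = h (sh (R : ℤ) q.1) := by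
          intro q
          rw [hval, hval]
          simp only [sh, conc, zero_add, hb, if_true]
        simp only [h2]
        rw [integral_mp (f := fun x => h (sh (R : ℤ) x))
          (measurePreserving_fst (μ := mu J) (ν := mu J)) (hn.meas.comp (measurable_sh _))]
        exact integral_mp (mu_inv J _) hn.meas
      · have h2 : ∀ q : X × X, h (sh (R : ℤ) (conc J q.1 q.2)) = h (sh (R : ℤ) q.2) := by
          intro q
          rw [hval, hval]
          simp only [sh, conc, zero_add, hb, if_false]
        simp only [h2]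
        rw [integral_mp (f := fun x => h (sh (R : ℤ) x))
          (measurePreserving_snd (μ := mu J) (ν := mu J)) (hn.meas.comp (measurable_sh _))]
        exact integral_mp (mu_inv J _) hn.meas
    rw [Finset.sum_congr rfl h1, Finset.sum_const, Finset.card_range, nsmul_eq_mul]
    push_cast
    field_simp
  have hmu : ∀ J, ∫ x, h x ∂(mu J) = 1 / 2 := by
    intro J
    induction J with
    | zero =>
      rw [mu, integral_add_measure ((hn.integrable _).smul_measure ENNReal.ofReal_ne_top)
        ((hn.integrable _).smul_measure ENNReal.ofReal_ne_top), integral_smul_measure,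
        integral_smul_measure, integral_dirac, integral_dirac, hval, hval]
      norm_num
    | succ J ih =>
      rw [integral_mu_succ J hn, hnu, ih]
      ring
  have h1 : ∀ J, |lim.real S - 1 / 2| ≤ p J * (8 * 1 / 2 ^ J) := by
    intro J
    have h2 := lim_approx hn hc hd J
    rw [hmu, integral_indicator hSm] at h2
    simpa using h2
  have h2 : |lim.real S - 1 / 2| ≤ 0 := by
    refine ge_of_tendsto' (x := atTop) (f := fun J : ℕ => 8 * (1 / 2 : ℝ) ^ J) ?_ fun J => ?_
    · have := (tendsto_pow_atTop_nhds_zero_of_lt_one (by norm_num : (0 : ℝ) ≤ 1 / 2)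
        (by norm_num)).const_mul 8
      simpa using this
    · refine (h1 J).trans ?_
      have h3 := p_le_one J
      have h4 : (8 : ℝ) * 1 / 2 ^ J = 8 * (1 / 2) ^ J := by rw [one_div, inv_pow]; ring
      rw [h4]
      have h5 : (0 : ℝ) ≤ 8 * (1 / 2) ^ J := by positivity
      nlinarith
  have := abs_eq_zero.1 (le_antisymm h2 (abs_nonneg _))
  linarith

lemma lim_ne_dirac : lim ≠ Measure.dirac zero := by
  intro h
  have h1 := lim_ones
  rw [h, Measure.real, Measure.dirac_apply' _ measurableSet_one] at h1
  simp [zero] at h1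

end Pool.Agent.V11104.XR
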