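import Mathlib

/-!
# Choquet simplices, Young class LU, the additive rule: definitions
-/

set_option autoImplicit false

open MeasureTheory Filter Topology

namespace Pool.Agent.V11104.SX

section
variable {E : Type*} [AddCommGroup E] [Module ℝ E] [TopologicalSpace E] [MeasurableSpace E]

/-- `ξ` is a Borel probability measure concentrated on the extreme points of `K` with
barycentre `x`. -/
def Represents (K : Set E) (ξ : Measure E) (x : E) : Prop :=
  IsProbabilityMeasure ξ ∧ ξ (K.extremePoints ℝ)ᶜ = 0 ∧ ∀ φ : E →L[ℝ] ℝ, ∫ y, φ y ∂ξ = φ x

/-- `K` is a metrizable Choquet simplex: a (nonempty) metrizable compact convex set, every point of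
which is the barycentre of exactly one Borel probability measure concentrated on the extreme
points. -/
structure IsMetrizableChoquetSimplex (K : Set E) : Prop where
  /-- nonempty -/
  nonempty : K.Nonempty
  /-- compact -/
  compact : IsCompact K
  /-- convex -/
  convex : Convex ℝ K
  /-- metrizable -/
  metrizable : TopologicalSpace.MetrizableSpace K
  /-- unique representing measures -/
  existsUnique : ∀ x ∈ K, ∃! ξ : Measure E, Represents K ξ x

open Classical in
/-- The extension of `f` (a function on the extreme points) by the additive rule: if the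
representing measure of `x` is carried by a finite set `s` of its atoms, the value is
`∑ e ∈ s, f e`; otherwise it is `∞`. -/
noncomputable def addExt (K : Set E) (f : E → ℕ∞) (x : E) : ℕ∞ :=
  if h : ∃ s : Finset E, ∃ ξ : Measure E, Represents K ξ x ∧ ξ (s : Set E)ᶜ = 0 ∧
    ∀ e ∈ s, ξ {e} ≠ 0 then ∑ e ∈ h.choose, f e else ⊤

end

/-- A function with values in `[-∞, ∞]` is upper semicontinuous. -/
def IsUSC {Y : Type*} [TopologicalSpace Y] (g : Y → EReal) : Prop :=
  ∀ t : ℝ, IsOpen {y | g y < (t : EReal)}

/-- A function is of Young class LU: the pointwise limit of a nondecreasing sequence of upper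
semicontinuous functions. -/
def IsLU {Y : Type*} [TopologicalSpace Y] (h : Y → EReal) : Prop :=
  ∃ g : ℕ → Y → EReal, (∀ n, IsUSC (g n)) ∧ (∀ n y, g n y ≤ g (n + 1) y) ∧
    ∀ y, Tendsto (fun n => g n y) atTop (𝓝 (h y))

end Pool.Agent.V11104.SX
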