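import Mathlib
import Pool.Agent.V11104.SXDefs

/-!
# The simplex: basic objects
-/

set_option autoImplicit false

open MeasureTheory Filter Topology Set

namespace Pool.Agent.V11104.SX

/-- the Cantor space -/
abbrev C := ℕ → Bool

/-- the monomial clopen sets -/
def U (s : Finset ℕ) : Set C := {c | ∀ i ∈ s, c i = true}

/-- the countable dense set -/
def pt (s : Finset ℕ) : C := fun i => decide (i ∈ s)

/-- the ambient space -/
abbrev E := (Finset ℕ → ℝ) × (Finset ℕ → ℝ)

lemma pt_inj : Function.Injective pt := by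
  intro s s' h
  ext i
  have := congrFun h i
  simpa [pt] using this

lemma U_inter (s s' : Finset ℕ) : U s ∩ U s' = U (s ∪ s') := by
  ext c
  simp only [U, mem_inter_iff, Set.mem_ofPred_eq, Finset.mem_union]
  constructor
  · rintro ⟨h1, h2⟩ i (hi | hi)
    · exact h1 i hi
    · exact h2 i hi
  · intro h
    exact ⟨fun i hi => h i (Or.inl hi), fun i hi => h i (Or.inr hi)⟩

lemma isClopen_U (s : Finset ℕ) : IsClopen (U s) := by
  have : U s = ⋂ i ∈ s, (fun c : C => c i) ⁻¹' {true} := by
    ext c; simp [U]
  rw [this]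
  refine isClopen_biInter_finset fun i _ => ?_
  exact (isClopen_discrete _).preimage (continuous_apply i)

lemma measurableSet_U (s : Finset ℕ) : MeasurableSet (U s) := (isClopen_U s).1.measurableSet

lemma generate_U : (inferInstance : MeasurableSpace C) = MeasurableSpace.generateFrom (range U) := by
  classical
  apply le_antisymm
  · refine iSup_le fun i => ?_
    rw [MeasurableSpace.comap_le_iff_le_map]
    intro B _
    have h1 : MeasurableSet[MeasurableSpace.generateFrom (range U)] {c : C | c i = true} := by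
      apply MeasurableSpace.measurableSet_generateFrom
      exact ⟨{i}, by ext c; simp [U]⟩
    show MeasurableSet[MeasurableSpace.generateFrom (range U)] ((fun c : C => c i) ⁻¹' B)
    have h2 : (fun c : C => c i) ⁻¹' B = (if true ∈ B then {c : C | c i = true} else ∅) ∪
        (if false ∈ B then {c : C | c i = true}ᶜ else ∅) := by
      ext c
      by_cases ht : true ∈ B <;> by_cases hf : false ∈ B <;> cases hc : c i <;> simp [ht, hf, hc]
    rw [h2]
    refine MeasurableSet.union ?_ ?_
    · split_ifs
      · exact h1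
      · exact @MeasurableSet.empty _ (MeasurableSpace.generateFrom (range U))
    · split_ifs
      · exact @MeasurableSet.compl _ _ (MeasurableSpace.generateFrom (range U)) h1
      · exact @MeasurableSet.empty _ (MeasurableSpace.generateFrom (range U))
  · apply MeasurableSpace.generateFrom_le
    rintro _ ⟨s, rfl⟩
    exact measurableSet_U s

lemma measure_ext_U {μ ν : Measure C} [IsFiniteMeasure μ] (h : ∀ s, μ (U s) = ν (U s)) :
    μ = ν := by
  have huniv : U ∅ = univ := by ext c; simp [U]
  refine ext_of_generate_finite (range U) generate_U ?_ ?_ ?_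
  · rintro _ ⟨s, rfl⟩ _ ⟨s', rfl⟩ _
    exact ⟨s ∪ s', (U_inter s s').symm⟩
  · rintro _ ⟨s, rfl⟩; exact h s
  · rw [← huniv]; exact h ∅

/-- the candidate extreme points -/
noncomputable def e (σ : ℝ) (c : C) : E :=
  (fun s => (U s).indicator (fun _ => (1 : ℝ)) c, fun s => ({pt s} : Set C).indicator (fun _ => σ) c)

@[simp] lemma e_fst (σ : ℝ) (c : C) (s : Finset ℕ) :
    (e σ c).1 s = (U s).indicator (fun _ => (1 : ℝ)) c := rfl
@[simp] lemma e_snd (σ : ℝ) (c : C) (s : Finset ℕ) :
    (e σ c).2 s = ({pt s} : Set C).indicator (fun _ => σ) c := rfl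

lemma measurable_e (σ : ℝ) : Measurable (e σ) := by
  refine Measurable.prodMk (measurable_pi_lambda _ fun s => ?_) (measurable_pi_lambda _ fun s => ?_)
  · exact measurable_const.indicator (measurableSet_U s)
  · exact measurable_const.indicator (measurableSet_singleton _)

/-- the simplex -/
def K : Set E := {x | ∃ ν : Measure C, IsProbabilityMeasure ν ∧ (∀ s, x.1 s = ν.real (U s)) ∧
  ∀ s, |x.2 s| ≤ ν.real {pt s}}

lemma e_mem_K {σ : ℝ} (hσ : |σ| ≤ 1) (c : C) : e σ c ∈ K := by
  refine ⟨Measure.dirac c, inferInstance, fun s => ?_, fun s => ?_⟩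
  · rw [e_fst, Measure.real, Measure.dirac_apply' _ (measurableSet_U s)]
    by_cases h : c ∈ U s <;> simp [h]
  · rw [e_snd, Measure.real, Measure.dirac_apply' _ (measurableSet_singleton _)]
    by_cases h : c ∈ ({pt s} : Set C)
    · rw [indicator_of_mem h, indicator_of_mem h]; simpa using hσ
    · rw [indicator_of_notMem h, indicator_of_notMem h]; simp

/-- the measure in the definition of `K` is determined by the first coordinates -/
lemma eq_dirac_of_fst {ν : Measure C} [IsProbabilityMeasure ν] {c : C}
    (h : ∀ s, ν.real (U s) = (U s).indicator (fun _ => (1 : ℝ)) c) : ν = Measure.dirac c := by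
  apply measure_ext_U
  intro s
  rw [Measure.dirac_apply' _ (measurableSet_U s)]
  have h1 := h s
  rw [Measure.real] at h1
  have h2 : ν (U s) = ENNReal.ofReal ((U s).indicator (fun _ => (1 : ℝ)) c) := by
    rw [← h1, ENNReal.ofReal_toReal (measure_ne_top _ _)]
  rw [h2]
  by_cases hc : c ∈ U s <;> simp [hc]

lemma mul_add_eq_one {a b x y : ℝ} (ha : 0 < a) (hb : 0 < b) (hab : a + b = 1) (hx : x ≤ 1)
    (hy : y ≤ 1) (h : a * x + b * y = 1) : x = 1 := by
  by_contra hne
  have hlt : x < 1 := lt_of_le_of_ne hx hne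
  nlinarith

lemma mul_add_eq_zero {a b x y : ℝ} (ha : 0 < a) (hb : 0 < b) (hx : 0 ≤ x)
    (hy : 0 ≤ y) (h : a * x + b * y = 0) : x = 0 := by
  by_contra hne
  have hlt : 0 < x := lt_of_le_of_ne hx (Ne.symm hne)
  nlinarith [mul_pos ha hlt, mul_nonneg hb.le hy]

/-- points over a point of the Cantor set: extreme if the second coordinates are extreme -/
lemma e_mem_extreme {σ : ℝ} {c : C} (h : |σ| = 1 ∨ (|σ| ≤ 1 ∧ c ∉ range pt)) :
    e σ c ∈ K.extremePoints ℝ := by
  have hσ : |σ| ≤ 1 := by
    rcases h with h | h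
    · exact h.le
    · exact h.1
  rw [mem_extremePoints_iff_left]
  refine ⟨e_mem_K hσ c, ?_⟩
  rintro x₁ ⟨ν₁, hν₁, h11, h12⟩ x₂ ⟨ν₂, hν₂, h21, h22⟩ ⟨a, b, ha, hb, hab, hx⟩
  have hfst : ∀ s, a * ν₁.real (U s) + b * ν₂.real (U s)
      = (U s).indicator (fun _ => (1 : ℝ)) c := by
    intro s
    have := congrFun (congrArg Prod.fst hx) s
    simp only [Prod.fst_add, Prod.smul_fst, Pi.add_apply, Pi.smul_apply, smul_eq_mul, e_fst] at this
    rw [← h11, ← h21, this]
  have hd1 : ν₁ = Measure.dirac c := by
    apply eq_dirac_of_fst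
    intro s
    have h3 := hfst s
    by_cases hc : c ∈ U s
    · rw [indicator_of_mem hc] at h3 ⊢
      exact mul_add_eq_one ha hb hab measureReal_le_one measureReal_le_one h3
    · rw [indicator_of_notMem hc] at h3 ⊢
      exact mul_add_eq_zero ha hb measureReal_nonneg measureReal_nonneg h3
  have hd2 : ν₂ = Measure.dirac c := by
    apply eq_dirac_of_fst
    intro s
    have h3 := hfst s
    rw [add_comm] at h3
    by_cases hc : c ∈ U s
    · rw [indicator_of_mem hc] at h3 ⊢
      exact mul_add_eq_one hb ha (by linarith) measureReal_le_one measureReal_le_one h3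
    · rw [indicator_of_notMem hc] at h3 ⊢
      exact mul_add_eq_zero hb ha measureReal_nonneg measureReal_nonneg h3
  have hdr : ∀ s, (Measure.dirac c).real {pt s}
      = ({pt s} : Set C).indicator (fun _ => (1 : ℝ)) c := by
    intro s
    rw [Measure.real, Measure.dirac_apply' _ (measurableSet_singleton _)]
    by_cases h : c ∈ ({pt s} : Set C)
    · rw [indicator_of_mem h, indicator_of_mem h]; simp
    · rw [indicator_of_notMem h, indicator_of_notMem h]; simp
  apply Prod.ext
  · funext s
    rw [h11, hd1, e_fst, Measure.real, Measure.dirac_apply' _ (measurableSet_U s)]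
    by_cases hc : c ∈ U s <;> simp [hc]
  · funext s
    have hsnd := congrFun (congrArg Prod.snd hx) s
    simp only [Prod.snd_add, Prod.smul_snd, Pi.add_apply, Pi.smul_apply, smul_eq_mul,
      e_snd] at hsnd
    have h1 := h12 s
    have h2 := h22 s
    rw [hd1, hdr] at h1
    rw [hd2, hdr] at h2
    rw [e_snd]
    by_cases hc : c ∈ ({pt s} : Set C)
    · rw [indicator_of_mem hc] at h1 h2 hsnd ⊢
      have hσ1 : |σ| = 1 := by
        rcases h with h | h
        · exact h
        · exact absurd ⟨s, (mem_singleton_iff.1 hc).symm⟩ h.2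
      have h1' := abs_le.1 h1
      have h2' := abs_le.1 h2
      rcases (abs_eq zero_le_one).1 hσ1 with hs | hs
      · rw [hs] at hsnd ⊢
        exact mul_add_eq_one ha hb hab h1'.2 h2'.2 hsnd
      · rw [hs] at hsnd ⊢
        have := mul_add_eq_one ha hb hab (x := -x₁.2 s) (y := -x₂.2 s) (by linarith) (by linarith)
          (by linarith)
        linarith
    · rw [indicator_of_notMem hc] at h1 ⊢
      exact abs_eq_zero.1 (le_antisymm h1 (abs_nonneg _))

end Pool.Agent.V11104.SX
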