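import Mathlib
import Pool.Agent.V11104.SXDefs
import Pool.Agent.V11104.SX1

/-!
# The simplex: compactness, convexity, extreme points
-/

set_option autoImplicit false

open MeasureTheory Filter Topology Set BoundedContinuousFunction

namespace Pool.Agent.V11104.SX

lemma convex_K : Convex ℝ K := by
  rintro x ⟨ν, hν, h1, h2⟩ y ⟨ν', hν', h1', h2'⟩ a b ha hb hab
  have hreal : ∀ B : Set C, (ENNReal.ofReal a • ν + ENNReal.ofReal b • ν').real B
      = a * ν.real B + b * ν'.real B := by
    intro B
    rw [Measure.real, Measure.add_apply, Measure.smul_apply, Measure.smul_apply, smul_eq_mul,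
      smul_eq_mul, ENNReal.toReal_add (by finiteness) (by finiteness), ENNReal.toReal_mul,
      ENNReal.toReal_mul, ENNReal.toReal_ofReal ha, ENNReal.toReal_ofReal hb]
    rfl
  refine ⟨ENNReal.ofReal a • ν + ENNReal.ofReal b • ν', ⟨?_⟩, fun s => ?_, fun s => ?_⟩
  · rw [Measure.add_apply, Measure.smul_apply, Measure.smul_apply, measure_univ, measure_univ,
      smul_eq_mul, smul_eq_mul, mul_one, mul_one, ← ENNReal.ofReal_add ha hb, hab,
      ENNReal.ofReal_one]
  · rw [hreal, ← h1, ← h1']
    rfl
  · rw [hreal]
    calc |(a • x + b • y).2 s| = |a * x.2 s + b * y.2 s| := rfl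
      _ ≤ |a * x.2 s| + |b * y.2 s| := abs_add_le _ _
      _ = a * |x.2 s| + b * |y.2 s| := by rw [abs_mul, abs_mul, abs_of_nonneg ha, abs_of_nonneg hb]
      _ ≤ _ := by
        have := mul_le_mul_of_nonneg_left (h2 s) ha
        have := mul_le_mul_of_nonneg_left (h2' s) hb
        linarith

/-- cylinders around the point `pt s` -/
def V (s : Finset ℕ) (n : ℕ) : Set C := {c | ∀ i < n, c i = pt s i}

lemma isClopen_V (s : Finset ℕ) (n : ℕ) : IsClopen (V s n) := by
  have : V s n = ⋂ i ∈ Finset.range n, (fun c : C => c i) ⁻¹' {pt s i} := by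
    ext c; simp [V]
  rw [this]
  refine isClopen_biInter_finset fun i _ => ?_
  exact (isClopen_discrete _).preimage (continuous_apply i)

lemma iInter_V (s : Finset ℕ) : ⋂ n, V s n = {pt s} := by
  ext c
  simp only [V, mem_iInter, Set.mem_ofPred_eq, mem_singleton_iff]
  constructor
  · intro h
    funext i
    exact h (i + 1) i (Nat.lt_succ_self i)
  · rintro rfl n i _; rfl

lemma antitone_V (s : Finset ℕ) : Antitone (V s) := by
  intro m n hmn c hc i hi
  exact hc i (hi.trans_le hmn)

/-- the mass of a clopen set is a continuous function of the measure -/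
lemma continuous_real_clopen {B : Set C} (hB : IsClopen B) :
    Continuous fun ν : ProbabilityMeasure C => (ν : Measure C).real B := by
  let g : C →ᵇ ℝ := BoundedContinuousFunction.mkOfCompact
    ⟨B.indicator (fun _ => (1 : ℝ)), (continuous_const.indicator (by simp [hB.frontier_eq]))⟩
  have h1 : (fun ν : ProbabilityMeasure C => (ν : Measure C).real B)
      = fun ν : ProbabilityMeasure C => ∫ c, g c ∂(ν : Measure C) := by
    funext ν
    show _ = ∫ c, B.indicator (fun _ => (1 : ℝ)) c ∂(ν : Measure C)
    rw [integral_indicator hB.1.measurableSet]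
    simp
  rw [h1]
  exact ProbabilityMeasure.continuous_integral_boundedContinuousFunction g

lemma le_singleton_iff (ν : Measure C) [IsProbabilityMeasure ν] (s : Finset ℕ) (r : ℝ) :
    r ≤ ν.real {pt s} ↔ ∀ n, r ≤ ν.real (V s n) := by
  constructor
  · intro h n
    refine h.trans (measureReal_mono ?_)
    rw [← iInter_V s]
    exact iInter_subset _ n
  · intro h
    have h1 : Tendsto (fun n => ν (V s n)) atTop (𝓝 (ν (⋂ n, V s n))) :=
      tendsto_measure_iInter_atTop (fun n => (isClopen_V s n).1.measurableSet.nullMeasurableSet)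
        (antitone_V s) ⟨0, measure_ne_top _ _⟩
    rw [iInter_V] at h1
    have h2 : Tendsto (fun n => ν.real (V s n)) atTop (𝓝 (ν.real {pt s})) :=
      (ENNReal.tendsto_toReal (measure_ne_top _ _)).comp h1
    exact ge_of_tendsto' h2 h

/-- the parametrising set -/
def Z : Set (ProbabilityMeasure C × (Finset ℕ → ℝ)) :=
  {p | ∀ s, |p.2 s| ≤ (p.1 : Measure C).real {pt s}}

lemma isCompact_Z : IsCompact Z := by
  have h1 : IsCompact ((univ : Set (ProbabilityMeasure C)) ×ˢ
      (univ.pi fun _ : Finset ℕ => Icc (-1 : ℝ) 1)) :=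
    isCompact_univ.prod (isCompact_univ_pi fun _ => isCompact_Icc)
  refine h1.of_isClosed_subset ?_ ?_
  · have : Z = ⋂ s : Finset ℕ, ⋂ n : ℕ, {p : ProbabilityMeasure C × (Finset ℕ → ℝ) |
        |p.2 s| ≤ (p.1 : Measure C).real (V s n)} := by
      ext p
      simp only [Z, Set.mem_ofPred_eq, mem_iInter]
      exact forall_congr' fun s => le_singleton_iff _ s _
    rw [this]
    refine isClosed_iInter fun s => isClosed_iInter fun n => isClosed_le ?_ ?_
    · exact ((continuous_apply s).comp continuous_snd).abs
    · exact (continuous_real_clopen (isClopen_V s n)).comp continuous_fst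
  · rintro ⟨ν, t⟩ h
    refine ⟨mem_univ _, fun s _ => ?_⟩
    have := (h s).trans (measureReal_le_one (μ := (ν : Measure C)))
    exact abs_le.1 this

/-- the parametrisation -/
noncomputable def Psi (p : ProbabilityMeasure C × (Finset ℕ → ℝ)) : E :=
  (fun s => (p.1 : Measure C).real (U s), p.2)

lemma continuous_Psi : Continuous Psi := by
  refine Continuous.prodMk (continuous_pi fun s => ?_) continuous_snd
  exact (continuous_real_clopen (isClopen_U s)).comp continuous_fst

lemma K_eq : K = Psi '' Z := by
  ext x
  constructor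
  · rintro ⟨ν, hν, h1, h2⟩
    exact ⟨(⟨ν, hν⟩, x.2), h2, Prod.ext (funext fun s => (h1 s).symm) rfl⟩
  · rintro ⟨⟨ν, t⟩, h, rfl⟩
    exact ⟨ν, ν.2, fun s => rfl, h⟩

lemma isCompact_K : IsCompact K := by
  rw [K_eq]; exact isCompact_Z.image continuous_Psi

/-- every extreme point is one of the points `e (±1) c` -/
lemma extreme_eq {x : E} (hx : x ∈ K.extremePoints ℝ) : ∃ c, x = e 1 c ∨ x = e (-1) c := by
  classical
  obtain ⟨⟨ν, hν, h1, h2⟩, hext⟩ := mem_extremePoints_iff_left.1 hx
  -- each coordinate is deterministic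
  have hdet : ∀ i, ν.real (U {i}) = 0 ∨ ν.real (U {i}) = 1 := by
    intro i
    by_contra hcon
    push Not at hcon
    set p := ν.real (U {i}) with hp
    have hp0 : 0 < p := lt_of_le_of_ne measureReal_nonneg (Ne.symm hcon.1)
    have hp1 : p < 1 := lt_of_le_of_ne measureReal_le_one hcon.2
    have hcompl : ν.real (U {i})ᶜ = 1 - p := by
      rw [measureReal_compl (measurableSet_U _), probReal_univ]
    have hreal : ∀ (A : Set C) (q : ℝ), 0 < q → ∀ B : Set C,
        (ENNReal.ofReal q⁻¹ • ν.restrict A).real B = q⁻¹ * (ν.restrict A).real B := by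
      intro A q hq B
      rw [Measure.real, Measure.smul_apply, smul_eq_mul, ENNReal.toReal_mul,
        ENNReal.toReal_ofReal (inv_pos.2 hq).le]
      rfl
    have hprob : ∀ (A : Set C), 0 < ν.real A →
        IsProbabilityMeasure (ENNReal.ofReal (ν.real A)⁻¹ • ν.restrict A) := by
      intro A hA
      constructor
      rw [Measure.smul_apply, Measure.restrict_apply_univ, smul_eq_mul,
        ENNReal.ofReal_inv_of_pos hA, Measure.real, ENNReal.ofReal_toReal (measure_ne_top _ _)]
      refine ENNReal.inv_mul_cancel ?_ (measure_ne_top _ _)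
      intro h0
      rw [Measure.real, h0] at hA
      simp at hA
    -- the conditioned point
    let xx : Set C → E := fun A => (fun s => (ν.real A)⁻¹ * (ν.restrict A).real (U s),
      fun s => (ν.real A)⁻¹ * (A.indicator (fun _ => x.2 s) (pt s)))
    have hxx : ∀ A : Set C, MeasurableSet A → 0 < ν.real A → xx A ∈ K := by
      intro A hAm hA
      refine ⟨_, hprob A hA, fun s => (hreal A _ hA _).symm, fun s => ?_⟩
      rw [hreal A _ hA]
      show |(ν.real A)⁻¹ * (A.indicator (fun _ => x.2 s) (pt s))| ≤ _
      rw [abs_mul, abs_of_pos (inv_pos.2 hA)]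
      refine mul_le_mul_of_nonneg_left ?_ (inv_pos.2 hA).le
      by_cases hs : pt s ∈ A
      · rw [indicator_of_mem hs, measureReal_restrict_apply (measurableSet_singleton _),
          inter_eq_left.2 (singleton_subset_iff.2 hs)]
        exact h2 s
      · rw [indicator_of_notMem hs, abs_zero]
        exact measureReal_nonneg
    have hA1 := hxx (U {i}) (measurableSet_U _) hp0
    have hA2 := hxx (U {i})ᶜ (measurableSet_U _).compl (by rw [hcompl]; linarith)
    have hseg : x ∈ openSegment ℝ (xx (U {i})) (xx (U {i})ᶜ) := by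
      refine ⟨p, 1 - p, hp0, by linarith, by ring, ?_⟩
      apply Prod.ext
      · funext s
        show p * ((ν.real (U {i}))⁻¹ * (ν.restrict (U {i})).real (U s)) +
          (1 - p) * ((ν.real (U {i})ᶜ)⁻¹ * (ν.restrict (U {i})ᶜ).real (U s)) = x.1 s
        rw [hcompl, ← hp, mul_inv_cancel_left₀ hp0.ne', mul_inv_cancel_left₀ (by linarith), h1,
          measureReal_restrict_apply (measurableSet_U s),
          measureReal_restrict_apply (measurableSet_U s),
          ← measureReal_inter_add_sdiff (μ := ν) (s := U s) (measurableSet_U {i}), Set.sdiff_eq]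
      · funext s
        show p * ((ν.real (U {i}))⁻¹ * ((U {i}).indicator (fun _ => x.2 s) (pt s))) +
          (1 - p) * ((ν.real (U {i})ᶜ)⁻¹ * ((U {i})ᶜ.indicator (fun _ => x.2 s) (pt s))) = x.2 s
        rw [hcompl, ← hp, mul_inv_cancel_left₀ hp0.ne', mul_inv_cancel_left₀ (by linarith)]
        by_cases hs : pt s ∈ U {i}
        · rw [indicator_of_mem hs, indicator_of_notMem (by simpa using hs), add_zero]
        · rw [indicator_of_notMem hs, indicator_of_mem (by simpa using hs), zero_add]
    have heq := hext _ hA1 _ hA2 hseg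
    have h3 := congrFun (congrArg Prod.fst heq) {i}
    have h4 : (xx (U {i})).1 {i} = 1 := by
      show (ν.real (U {i}))⁻¹ * (ν.restrict (U {i})).real (U {i}) = 1
      rw [measureReal_restrict_apply (measurableSet_U _), inter_self]
      exact inv_mul_cancel₀ hp0.ne'
    rw [h4, h1] at h3
    exact hcon.2 h3.symm
  -- the measure is a Dirac mass
  set c : C := fun i => decide (ν.real (U {i}) = 1) with hc
  have hU : ∀ s, ν.real (U s) = (U s).indicator (fun _ => (1 : ℝ)) c := by
    intro s
    by_cases hcs : c ∈ U s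
    · rw [indicator_of_mem hcs]
      have h3 : ∀ i ∈ s, ν (U {i})ᶜ = 0 := by
        intro i hi
        have h4 : ν.real (U {i}) = 1 := by simpa [hc] using hcs i hi
        have h5 : ν.real (U {i})ᶜ = 0 := by
          rw [measureReal_compl (measurableSet_U _), probReal_univ, h4, sub_self]
        exact (measureReal_eq_zero_iff (by finiteness)).1 h5
      have h6 : (U s)ᶜ ⊆ ⋃ i ∈ s, (U {i})ᶜ := by
        intro d hd
        simp only [U, mem_compl_iff, Set.mem_ofPred_eq, not_forall, mem_iUnion] at hd ⊢
        obtain ⟨i, hi, hdi⟩ := hd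
        exact ⟨i, hi, i, by simp, hdi⟩
      have h7 : ν (U s)ᶜ = 0 := measure_mono_null h6
        ((measure_biUnion_null_iff s.countable_toSet).2 h3)
      have h8 : ν.real (U s)ᶜ = 0 := (measureReal_eq_zero_iff (by finiteness)).2 h7
      rw [measureReal_compl (measurableSet_U _), probReal_univ] at h8
      linarith
    · rw [indicator_of_notMem hcs]
      have : ∃ i ∈ s, c i = false := by
        by_contra hcon
        push Not at hcon
        exact hcs fun i hi => by simpa using hcon i hi
      obtain ⟨i, hi, hci⟩ := this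
      have h4 : ν.real (U {i}) = 0 := by
        rcases hdet i with h | h
        · exact h
        · simp [hc, h] at hci
      refine le_antisymm ?_ measureReal_nonneg
      rw [← h4]
      refine measureReal_mono ?_
      intro d hd j hj
      rw [Finset.mem_singleton.1 hj]
      exact hd i hi
  have hdir := eq_dirac_of_fst hU
  have hfst : ∀ σ, x.1 = (e σ c).1 := by
    intro σ
    funext s
    rw [h1, hU]; rfl
  have hdr : ∀ s, ν.real {pt s} = ({pt s} : Set C).indicator (fun _ => (1 : ℝ)) c := by
    intro s
    rw [hdir, Measure.real, Measure.dirac_apply' _ (measurableSet_singleton _)]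
    by_cases h : c ∈ ({pt s} : Set C)
    · rw [indicator_of_mem h, indicator_of_mem h]; simp
    · rw [indicator_of_notMem h, indicator_of_notMem h]; simp
  have hsnd0 : ∀ s, pt s ≠ c → x.2 s = 0 := by
    intro s hs
    have h3 := h2 s
    rw [hdr, indicator_of_notMem (by simpa using hs.symm)] at h3
    exact abs_eq_zero.1 (le_antisymm h3 (abs_nonneg _))
  by_cases hcr : c ∈ range pt
  · obtain ⟨s₀, hs₀⟩ := hcr
    have hxe : x = e (x.2 s₀) c := by
      apply Prod.ext (hfst _)
      funext s
      rw [e_snd]
      by_cases hs : pt s = c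
      · have : s = s₀ := pt_inj (hs.trans hs₀.symm)
        subst this
        rw [indicator_of_mem (by simpa using hs.symm)]
      · rw [indicator_of_notMem (by simpa using Ne.symm hs), hsnd0 s hs]
    have hσ : |x.2 s₀| ≤ 1 := by
      have h3 := h2 s₀
      rw [hdr, indicator_of_mem (by simpa using hs₀.symm)] at h3
      exact h3
    set σ := x.2 s₀ with hσdef
    have hσ' := abs_le.1 hσ
    by_cases h1' : σ = 1
    · exact ⟨c, Or.inl (by rw [hxe, h1'])⟩
    by_cases h2' : σ = -1
    · exact ⟨c, Or.inr (by rw [hxe, h2'])⟩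
    exfalso
    have hlt1 : σ < 1 := lt_of_le_of_ne hσ'.2 h1'
    have hlt2 : -1 < σ := lt_of_le_of_ne hσ'.1 (Ne.symm h2')
    have hseg : x ∈ openSegment ℝ (e 1 c) (e (-1) c) := by
      refine ⟨(1 + σ) / 2, (1 - σ) / 2, by linarith, by linarith, by ring, ?_⟩
      rw [hxe]
      apply Prod.ext
      · funext s
        show (1 + σ) / 2 * (U s).indicator (fun _ => (1 : ℝ)) c +
          (1 - σ) / 2 * (U s).indicator (fun _ => (1 : ℝ)) c
            = (U s).indicator (fun _ => (1 : ℝ)) c
        ring
      · funext s
        show (1 + σ) / 2 * ({pt s} : Set C).indicator (fun _ => (1 : ℝ)) c +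
          (1 - σ) / 2 * ({pt s} : Set C).indicator (fun _ => (-1 : ℝ)) c
            = ({pt s} : Set C).indicator (fun _ => σ) c
        by_cases hs : c ∈ ({pt s} : Set C)
        · rw [indicator_of_mem hs, indicator_of_mem hs, indicator_of_mem hs]; ring
        · rw [indicator_of_notMem hs, indicator_of_notMem hs, indicator_of_notMem hs]; ring
    have h3 := hext _ (e_mem_K (by norm_num) c) _ (e_mem_K (by norm_num) c) hseg
    have h4 := congrFun (congrArg Prod.snd h3) s₀
    rw [e_snd, indicator_of_mem (by simpa using hs₀.symm)] at h4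
    exact h1' h4.symm
  · refine ⟨c, Or.inl (Prod.ext (hfst _) ?_)⟩
    funext s
    have hs : pt s ≠ c := fun h => hcr ⟨s, h⟩
    rw [e_snd, indicator_of_notMem (by simpa using hs.symm), hsnd0 s hs]

end Pool.Agent.V11104.SX
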