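import Mathlib
import Pool.Agent.V11104.SXDefs
import Pool.Agent.V11104.SX2

/-!
# The simplex: representing measures
-/

set_option autoImplicit false

open MeasureTheory Filter Topology Set

namespace Pool.Agent.V11104.SX

/-- continuous functionals on a product of lines depend on finitely many coordinates -/
lemma clm_pi_repr {ι : Type*} (ψ : (ι → ℝ) →L[ℝ] ℝ) :
    ∃ (S : Finset ι) (a : ι → ℝ), ∀ y, ψ y = ∑ i ∈ S, a i * y i := by
  classical
  have h : {y : ι → ℝ | |ψ y| < 1} ∈ 𝓝 (0 : ι → ℝ) := by
    have hc : Continuous fun y => |ψ y| := ψ.continuous.abs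
    exact (isOpen_lt hc continuous_const).mem_nhds (by simp)
  rw [nhds_pi, Filter.mem_pi'] at h
  obtain ⟨S, t, ht, hsub⟩ := h
  refine ⟨S, fun i => ψ (Pi.single i 1), fun y => ?_⟩
  have hz : ∀ z : ι → ℝ, (∀ i ∈ S, z i = 0) → ψ z = 0 := by
    intro z hz
    by_contra hne
    have hpos : 0 < |ψ z| := abs_pos.2 hne
    have h1 : (|ψ z|⁻¹ • z) ∈ Set.pi (S : Set ι) t := by
      intro i hi
      have : (|ψ z|⁻¹ • z) i = (0 : ι → ℝ) i := by simp [hz i hi]
      rw [this]
      exact mem_of_mem_nhds (ht i)
    have h2 := hsub h1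
    simp only [Set.mem_ofPred_eq, map_smul, smul_eq_mul, abs_mul, abs_inv, abs_abs] at h2
    rw [inv_mul_cancel₀ hpos.ne'] at h2
    exact lt_irrefl _ h2
  have h1 := hz (y - ∑ i ∈ S, y i • Pi.single i 1) (by
    intro i hi
    rw [Pi.sub_apply, Finset.sum_apply, Finset.sum_eq_single i]
    · simp
    · intro j _ hj
      simp [hj.symm]
    · intro h; exact absurd hi h)
  rw [map_sub, map_sum, sub_eq_zero] at h1
  rw [h1]
  refine Finset.sum_congr rfl fun i _ => ?_
  rw [map_smul, smul_eq_mul, mul_comm]

lemma clm_repr (φ : E →L[ℝ] ℝ) : ∃ (S T : Finset (Finset ℕ)) (a b : Finset ℕ → ℝ),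
    ∀ y : E, φ y = ∑ s ∈ S, a s * y.1 s + ∑ s ∈ T, b s * y.2 s := by
  obtain ⟨S, a, ha⟩ := clm_pi_repr (φ.comp (ContinuousLinearMap.inl ℝ (Finset ℕ → ℝ)
    (Finset ℕ → ℝ)))
  obtain ⟨T, b, hb⟩ := clm_pi_repr (φ.comp (ContinuousLinearMap.inr ℝ (Finset ℕ → ℝ)
    (Finset ℕ → ℝ)))
  refine ⟨S, T, a, b, fun y => ?_⟩
  rw [← ha, ← hb]
  simp only [ContinuousLinearMap.comp_apply, ContinuousLinearMap.inl_apply,
    ContinuousLinearMap.inr_apply]
  rw [← map_add]
  congr 1
  simp

lemma L_measurable_aux (i : ℕ) : Measurable fun y : E => decide (y.1 {i} = 1) := by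
  apply measurable_to_bool
  have : (fun y : E => decide (y.1 {i} = 1)) ⁻¹' {true} = {y : E | y.1 {i} = 1} := by
    ext y; simp
  rw [this]
  exact measurableSet_eq_fun ((measurable_pi_apply _).comp measurable_fst) measurable_const

/-- reading off the point of the Cantor set -/
noncomputable def L (y : E) : C := fun i => decide (y.1 {i} = 1)

lemma measurable_L : Measurable L := measurable_pi_lambda _ L_measurable_aux

@[simp] lemma L_e (σ : ℝ) (c : C) : L (e σ c) = c := by
  funext i
  have h1 : (e σ c).1 {i} = (U {i}).indicator (fun _ => (1 : ℝ)) c := rfl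
  by_cases h : c i = true
  · have h2 : (e σ c).1 {i} = 1 := by rw [h1, indicator_of_mem (by simpa [U] using h)]
    show decide ((e σ c).1 {i} = 1) = c i
    simp only [h2, h, decide_true]
  · have h2 : (e σ c).1 {i} = 0 := by rw [h1, indicator_of_notMem (by simpa [U] using h)]
    show decide ((e σ c).1 {i} = 1) = c i
    have h3 : c i = false := by simpa using h
    simp only [h2, h3, zero_ne_one, decide_false]

lemma e_inj (σ : ℝ) : Function.Injective (e σ) := fun c c' h => by
  rw [← L_e σ c, h, L_e]

lemma extreme_iff (y : E) : y ∈ K.extremePoints ℝ ↔ ∃ c, y = e 1 c ∨ y = e (-1) c := by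
  constructor
  · exact extreme_eq
  · rintro ⟨c, rfl | rfl⟩
    · exact e_mem_extreme (Or.inl (by norm_num))
    · exact e_mem_extreme (Or.inl (by norm_num))

lemma extreme_eq_union : K.extremePoints ℝ = range (e 1) ∪ range (e (-1)) := by
  ext y
  rw [extreme_iff]
  constructor
  · rintro ⟨c, rfl | rfl⟩
    · exact Or.inl ⟨c, rfl⟩
    · exact Or.inr ⟨c, rfl⟩
  · rintro (⟨c, rfl⟩ | ⟨c, rfl⟩)
    · exact ⟨c, Or.inl rfl⟩
    · exact ⟨c, Or.inr rfl⟩

lemma measurableSet_range_e (σ : ℝ) : MeasurableSet (range (e σ)) :=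
  ((measurable_e σ).measurableEmbedding (e_inj σ)).measurableSet_range

lemma measurableSet_extreme : MeasurableSet (K.extremePoints ℝ) := by
  rw [extreme_eq_union]
  exact (measurableSet_range_e 1).union (measurableSet_range_e (-1))

/-- representing measures via coordinates -/
lemma represents_iff (ξ : Measure E) (x : E) : Represents K ξ x ↔
    IsProbabilityMeasure ξ ∧ ξ (K.extremePoints ℝ)ᶜ = 0 ∧ (∀ s, ∫ y, y.1 s ∂ξ = x.1 s) ∧
      ∀ s, ∫ y, y.2 s ∂ξ = x.2 s := by
  constructor
  · rintro ⟨h1, h2, h3⟩
    refine ⟨h1, h2, fun s => ?_, fun s => ?_⟩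
    · exact h3 ((ContinuousLinearMap.proj s).comp (ContinuousLinearMap.fst ℝ (Finset ℕ → ℝ)
        (Finset ℕ → ℝ)))
    · exact h3 ((ContinuousLinearMap.proj s).comp (ContinuousLinearMap.snd ℝ (Finset ℕ → ℝ)
        (Finset ℕ → ℝ)))
  · rintro ⟨h1, h2, h3, h4⟩
    refine ⟨h1, h2, fun φ => ?_⟩
    obtain ⟨S, T, a, b, hφ⟩ := clm_repr φ
    have hae : ∀ᵐ y ∂ξ, y ∈ K := by
      have : ∀ᵐ y ∂ξ, y ∈ K.extremePoints ℝ := h2
      exact this.mono fun y hy => extremePoints_subset hy
    have hi1 : ∀ s, Integrable (fun y : E => y.1 s) ξ := by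
      intro s
      refine Integrable.of_bound (C := 1)
        ((measurable_pi_apply s).comp measurable_fst).aestronglyMeasurable ?_
      filter_upwards [hae] with y hy
      obtain ⟨ν, hν, h5, h6⟩ := hy
      rw [h5, Real.norm_eq_abs, abs_of_nonneg measureReal_nonneg]
      exact measureReal_le_one
    have hi2 : ∀ s, Integrable (fun y : E => y.2 s) ξ := by
      intro s
      refine Integrable.of_bound (C := 1)
        ((measurable_pi_apply s).comp measurable_snd).aestronglyMeasurable ?_
      filter_upwards [hae] with y hy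
      obtain ⟨ν, hν, h5, h6⟩ := hy
      exact (h6 s).trans measureReal_le_one
    simp only [hφ]
    rw [integral_add (integrable_finsetSum _ fun s _ => (hi1 s).const_mul _)
      (integrable_finsetSum _ fun s _ => (hi2 s).const_mul _),
      integral_finsetSum _ fun s _ => (hi1 s).const_mul _,
      integral_finsetSum _ fun s _ => (hi2 s).const_mul _]
    simp only [integral_const_mul, h3, h4]

/-- the countable dense set is measurable -/
lemma measurableSet_D : MeasurableSet (range pt) := (countable_range pt).measurableSet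

lemma restrict_D (ν : Measure C) :
    ν.restrict (range pt) = Measure.sum fun s => ν {pt s} • Measure.dirac (pt s) := by
  have h1 : range pt = ⋃ s, {pt s} := by ext c; simp [eq_comm]
  rw [h1, Measure.restrict_iUnion]
  · congr 1
    funext s
    exact Measure.restrict_singleton ν (pt s)
  · intro s s' hss
    exact disjoint_singleton.2 fun h => hss (pt_inj h)
  · exact fun s => measurableSet_singleton _

lemma measure_eq_of_real {ν ν' : Measure C} [IsFiniteMeasure ν] [IsFiniteMeasure ν'] {B : Set C}
    (h : ν.real B = ν'.real B) : ν B = ν' B := by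
  rw [Measure.real, Measure.real] at h
  exact (ENNReal.toReal_eq_toReal_iff' (measure_ne_top _ _) (measure_ne_top _ _)).1 h

lemma pair_unique {ν ν₁ ν₂ ν₁' ν₂' : Measure C} [IsFiniteMeasure ν₁] [IsFiniteMeasure ν₂]
    [IsFiniteMeasure ν₁'] [IsFiniteMeasure ν₂'] (h : ν₁ + ν₂ = ν) (h' : ν₁' + ν₂' = ν)
    (hb : ν₂ (range pt)ᶜ = 0) (hb' : ν₂' (range pt)ᶜ = 0)
    (hc : ∀ s, ν₁.real {pt s} - ν₂.real {pt s} = ν₁'.real {pt s} - ν₂'.real {pt s}) :
    ν₁ = ν₁' ∧ ν₂ = ν₂' := by
  have hadd : ∀ s, ν₁.real {pt s} + ν₂.real {pt s} = ν₁'.real {pt s} + ν₂'.real {pt s} := by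
    intro s
    rw [← measureReal_add_apply, ← measureReal_add_apply, h, h']
  have h1 : ∀ s, ν₁ {pt s} = ν₁' {pt s} := fun s =>
    measure_eq_of_real (by have := hadd s; have := hc s; linarith)
  have h2 : ∀ s, ν₂ {pt s} = ν₂' {pt s} := fun s =>
    measure_eq_of_real (by have := hadd s; have := hc s; linarith)
  have h3 : ν₂ = ν₂' := by
    rw [← Measure.restrict_add_restrict_compl (μ := ν₂) measurableSet_D,
      ← Measure.restrict_add_restrict_compl (μ := ν₂') measurableSet_D,
      Measure.restrict_eq_zero.2 hb, Measure.restrict_eq_zero.2 hb', restrict_D, restrict_D]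
    simp only [h2]
  refine ⟨?_, h3⟩
  have h4 : ν₁.restrict (range pt)ᶜ = ν₁'.restrict (range pt)ᶜ := by
    have h5 : (ν₁ + ν₂).restrict (range pt)ᶜ = (ν₁' + ν₂').restrict (range pt)ᶜ := by rw [h, h']
    rw [Measure.restrict_add, Measure.restrict_add, Measure.restrict_eq_zero.2 hb,
      Measure.restrict_eq_zero.2 hb', add_zero, add_zero] at h5
    exact h5
  rw [← Measure.restrict_add_restrict_compl (μ := ν₁) measurableSet_D,
      ← Measure.restrict_add_restrict_compl (μ := ν₁') measurableSet_D, h4, restrict_D, restrict_D]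
  simp only [h1]

/-- the set where some second coordinate is negative -/
def N : Set E := {y | ∃ s, y.2 s < 0}

lemma measurableSet_N : MeasurableSet N := by
  have : N = ⋃ s, {y : E | y.2 s < 0} := by ext y; simp [N]
  rw [this]
  exact MeasurableSet.iUnion fun s => measurableSet_lt
    ((measurable_pi_apply s).comp measurable_snd) measurable_const

lemma e_neg_eq {c : C} (hc : c ∉ range pt) (σ τ : ℝ) : e σ c = e τ c := by
  refine Prod.ext (funext fun s => rfl) ?_
  funext s
  have hs : c ∉ ({pt s} : Set C) := fun h => hc ⟨s, (mem_singleton_iff.1 h).symm⟩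
  rw [e_snd, e_snd, indicator_of_notMem hs, indicator_of_notMem hs]

lemma e_one_notMem_N (c : C) : e 1 c ∉ N := by
  rintro ⟨s, hs⟩
  rw [e_snd] at hs
  have : 0 ≤ ({pt s} : Set C).indicator (fun _ => (1 : ℝ)) c :=
    indicator_nonneg (fun _ _ => zero_le_one) _
  linarith

lemma e_neg_mem_N_iff (c : C) : e (-1) c ∈ N ↔ c ∈ range pt := by
  constructor
  · intro h
    by_contra hc
    rw [e_neg_eq hc (-1) 1] at h
    exact e_one_notMem_N c h
  · rintro ⟨s, rfl⟩
    refine ⟨s, ?_⟩
    rw [e_snd, indicator_of_mem (mem_singleton _)]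
    norm_num

/-- The measures on the Cantor set associated with a measure on the extreme points. -/
lemma rep_pair {x : E} {ν : Measure C} [IsProbabilityMeasure ν] (h1 : ∀ s, x.1 s = ν.real (U s))
    {ξ : Measure E} (hξ : Represents K ξ x) :
    ξ = (((ξ.restrict Nᶜ).map L).map (e 1)) + (((ξ.restrict N).map L).map (e (-1))) ∧
    (ξ.restrict Nᶜ).map L + (ξ.restrict N).map L = ν ∧
    ((ξ.restrict N).map L) (range pt)ᶜ = 0 ∧
    ∀ s, ((ξ.restrict Nᶜ).map L).real {pt s} - ((ξ.restrict N).map L).real {pt s} = x.2 s := by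
  obtain ⟨hprob, hconc, hc1, hc2⟩ := (represents_iff ξ x).1 hξ
  have hae : ∀ᵐ y ∂ξ, ∃ c, y = e 1 c ∨ y = e (-1) c := by
    have : ∀ᵐ y ∂ξ, y ∈ K.extremePoints ℝ := hconc
    exact this.mono fun y hy => (extreme_iff y).1 hy
  have hsum : ξ.restrict Nᶜ + ξ.restrict N = ξ := by
    rw [add_comm]; exact Measure.restrict_add_restrict_compl measurableSet_N
  refine ⟨?_, ?_, ?_, ?_⟩
  · rw [Measure.map_map (measurable_e _) measurable_L, Measure.map_map (measurable_e _)
      measurable_L]
    have hA : (ξ.restrict Nᶜ).map (e 1 ∘ L) = ξ.restrict Nᶜ := by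
      conv_rhs => rw [← Measure.map_id (μ := ξ.restrict Nᶜ)]
      apply Measure.map_congr
      rw [EventuallyEq, ae_restrict_iff' measurableSet_N.compl]
      filter_upwards [hae] with y hy hyN
      obtain ⟨c, rfl | rfl⟩ := hy
      · simp
      · have hc : c ∉ range pt := fun h => hyN ((e_neg_mem_N_iff c).2 h)
        simp only [Function.comp_apply, L_e, id]
        exact e_neg_eq hc _ _
    have hB : (ξ.restrict N).map (e (-1) ∘ L) = ξ.restrict N := by
      conv_rhs => rw [← Measure.map_id (μ := ξ.restrict N)]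
      apply Measure.map_congr
      rw [EventuallyEq, ae_restrict_iff' measurableSet_N]
      filter_upwards [hae] with y hy hyN
      obtain ⟨c, rfl | rfl⟩ := hy
      · exact absurd hyN (e_one_notMem_N c)
      · simp
    rw [hA, hB, hsum]
  · rw [← Measure.map_add _ _ measurable_L, hsum]
    have : IsProbabilityMeasure (ξ.map L) := Measure.isProbabilityMeasure_map
      measurable_L.aemeasurable
    apply measure_ext_U
    intro s
    apply measure_eq_of_real
    rw [← h1, ← hc1, map_measureReal_apply measurable_L (measurableSet_U s)]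
    have h5 : ∫ y, y.1 s ∂ξ = ∫ y, (L ⁻¹' (U s)).indicator (fun _ => (1 : ℝ)) y ∂ξ := by
      apply integral_congr_ae
      filter_upwards [hae] with y hy
      have : L y ∈ U s ↔ y ∈ L ⁻¹' (U s) := Iff.rfl
      obtain ⟨c, rfl | rfl⟩ := hy
      · rw [e_fst]
        by_cases hc : c ∈ U s
        · rw [indicator_of_mem hc, indicator_of_mem (by simpa using hc)]
        · rw [indicator_of_notMem hc, indicator_of_notMem (by simpa using hc)]
      · rw [e_fst]
        by_cases hc : c ∈ U s
        · rw [indicator_of_mem hc, indicator_of_mem (by simpa using hc)]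
        · rw [indicator_of_notMem hc, indicator_of_notMem (by simpa using hc)]
    rw [h5, integral_indicator (measurable_L (measurableSet_U s))]
    simp
  · rw [Measure.map_apply measurable_L measurableSet_D.compl,
      Measure.restrict_apply (measurable_L measurableSet_D.compl)]
    have : ∀ᵐ y ∂ξ, y ∉ L ⁻¹' (range pt)ᶜ ∩ N := by
      filter_upwards [hae] with y hy
      rintro ⟨h5, h6⟩
      obtain ⟨c, rfl | rfl⟩ := hy
      · exact e_one_notMem_N c h6
      · have h7 := (e_neg_mem_N_iff c).1 h6
        simp only [mem_preimage, L_e] at h5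
        exact h5 h7
    rw [ae_iff] at this
    have h8 : {y | ¬y ∉ L ⁻¹' (range pt)ᶜ ∩ N} = L ⁻¹' (range pt)ᶜ ∩ N := by
      ext y; simp only [Set.mem_ofPred_eq, not_not]
    rw [h8] at this
    exact this
  · intro s
    rw [map_measureReal_apply measurable_L (measurableSet_singleton _),
      map_measureReal_apply measurable_L (measurableSet_singleton _),
      measureReal_restrict_apply (measurable_L (measurableSet_singleton _)),
      measureReal_restrict_apply (measurable_L (measurableSet_singleton _)), ← hc2]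
    have hm1 : MeasurableSet (L ⁻¹' {pt s} ∩ Nᶜ) :=
      (measurable_L (measurableSet_singleton _)).inter measurableSet_N.compl
    have hm2 : MeasurableSet (L ⁻¹' {pt s} ∩ N) :=
      (measurable_L (measurableSet_singleton _)).inter measurableSet_N
    have h5 : ∫ y, y.2 s ∂ξ = ∫ y, ((L ⁻¹' {pt s} ∩ Nᶜ).indicator (fun _ => (1 : ℝ)) y -
        (L ⁻¹' {pt s} ∩ N).indicator (fun _ => (1 : ℝ)) y) ∂ξ := by
      apply integral_congr_ae
      filter_upwards [hae] with y hy
      obtain ⟨c, rfl | rfl⟩ := hy
      · rw [e_snd]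
        by_cases hc : c = pt s
        · subst hc
          rw [indicator_of_mem (mem_singleton _), indicator_of_mem (by
            exact ⟨by simp, e_one_notMem_N _⟩), indicator_of_notMem (by
            rintro ⟨-, h⟩; exact e_one_notMem_N _ h), sub_zero]
        · rw [indicator_of_notMem (by simpa using hc), indicator_of_notMem (by
            rintro ⟨h, -⟩; simp at h; exact hc h), indicator_of_notMem (by
            rintro ⟨h, -⟩; simp at h; exact hc h), sub_zero]
      · rw [e_snd]
        by_cases hc : c = pt s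
        · subst hc
          have hN : e (-1) (pt s) ∈ N := (e_neg_mem_N_iff _).2 ⟨s, rfl⟩
          rw [indicator_of_mem (mem_singleton _), indicator_of_notMem (by
            rintro ⟨-, h⟩; exact h hN), indicator_of_mem (by exact ⟨by simp, hN⟩), zero_sub]
        · rw [indicator_of_notMem (by simpa using hc), indicator_of_notMem (by
            rintro ⟨h, -⟩; simp at h; exact hc h), indicator_of_notMem (by
            rintro ⟨h, -⟩; simp at h; exact hc h), sub_zero]
    rw [h5, integral_sub ((integrable_const _).indicator hm1) ((integrable_const _).indicator hm2),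
      integral_indicator hm1, integral_indicator hm2]
    simp

lemma represents_unique {x : E} (hx : x ∈ K) {ξ ξ' : Measure E} (h : Represents K ξ x)
    (h' : Represents K ξ' x) : ξ = ξ' := by
  obtain ⟨ν, hν, h1, h2⟩ := hx
  obtain ⟨e1, a1, b1, c1⟩ := rep_pair h1 h
  obtain ⟨e2, a2, b2, c2⟩ := rep_pair h1 h'
  have i1 := h.1
  have i2 := h'.1
  obtain ⟨p1, p2⟩ := pair_unique a1 a2 b1 b2 (fun s => by rw [c1, c2])
  rw [e1, e2, p1, p2]

lemma exists_represents {x : E} (hx : x ∈ K) : ∃ ξ, Represents K ξ x := by
  obtain ⟨ν, hν, h1, h2⟩ := hx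
  set w₁ : Finset ℕ → ENNReal := fun s => ENNReal.ofReal ((ν.real {pt s} + x.2 s) / 2) with hw₁
  set w₂ : Finset ℕ → ENNReal := fun s => ENNReal.ofReal ((ν.real {pt s} - x.2 s) / 2) with hw₂
  have hab := fun s => abs_le.1 (h2 s)
  have hw : ∀ s, w₁ s + w₂ s = ν {pt s} := by
    intro s
    rw [hw₁, hw₂, ← ENNReal.ofReal_add (by have := (hab s).1; linarith)
      (by have := (hab s).2; linarith)]
    have : (ν.real {pt s} + x.2 s) / 2 + (ν.real {pt s} - x.2 s) / 2 = ν.real {pt s} := by ring
    rw [this, Measure.real, ENNReal.ofReal_toReal (measure_ne_top _ _)]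
  set D₁ : Measure C := Measure.sum fun s => w₁ s • Measure.dirac (pt s) with hD₁
  set D₂ : Measure C := Measure.sum fun s => w₂ s • Measure.dirac (pt s) with hD₂
  have hD : D₁ + D₂ = ν.restrict (range pt) := by
    rw [hD₁, hD₂, Measure.sum_add_sum, restrict_D]
    congr 1
    funext s
    rw [← add_smul, hw]
  set ν₁ : Measure C := ν.restrict (range pt)ᶜ + D₁ with hν₁
  have hν12 : ν₁ + D₂ = ν := by
    rw [hν₁, add_assoc, hD, add_comm]
    exact Measure.restrict_add_restrict_compl measurableSet_D
  have hf1 : IsFiniteMeasure ν₁ := by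
    refine isFiniteMeasure_of_le ν ?_
    rw [← hν12]; exact Measure.le_add_right le_rfl
  have hf2 : IsFiniteMeasure D₂ := by
    refine isFiniteMeasure_of_le ν ?_
    rw [← hν12]; exact Measure.le_add_left le_rfl
  have hsing : ∀ (w : Finset ℕ → ENNReal) (s : Finset ℕ),
      (Measure.sum fun s => w s • Measure.dirac (pt s)) {pt s} = w s := by
    intro w s
    rw [Measure.sum_apply _ (measurableSet_singleton _), tsum_eq_single s]
    · rw [Measure.smul_apply, Measure.dirac_apply' _ (measurableSet_singleton _)]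
      simp
    · intro s' hs'
      rw [Measure.smul_apply, Measure.dirac_apply' _ (measurableSet_singleton _),
        indicator_of_notMem (by simpa using fun h => hs' (pt_inj h))]
      simp
  have hD₂s : ∀ s, D₂.real {pt s} = (ν.real {pt s} - x.2 s) / 2 := by
    intro s
    rw [Measure.real, hD₂, hsing, hw₂, ENNReal.toReal_ofReal]
    have := (hab s).2; linarith
  have hν₁s : ∀ s, ν₁.real {pt s} = (ν.real {pt s} + x.2 s) / 2 := by
    intro s
    have h3 : ν₁.real {pt s} + D₂.real {pt s} = ν.real {pt s} := by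
      rw [← measureReal_add_apply, hν12]
    rw [hD₂s] at h3
    linarith
  refine ⟨ν₁.map (e 1) + D₂.map (e (-1)), ?_⟩
  rw [represents_iff]
  have hm1 := measurable_e 1
  have hm2 := measurable_e (-1)
  refine ⟨⟨?_⟩, ?_, ?_, ?_⟩
  · rw [Measure.add_apply, Measure.map_apply hm1 MeasurableSet.univ,
      Measure.map_apply hm2 MeasurableSet.univ, preimage_univ, preimage_univ,
      ← Measure.add_apply, hν12, measure_univ]
  · rw [Measure.add_apply, Measure.map_apply hm1 measurableSet_extreme.compl,
      Measure.map_apply hm2 measurableSet_extreme.compl]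
    have h3 : (e 1) ⁻¹' (K.extremePoints ℝ)ᶜ = ∅ := by
      ext c
      simp only [mem_preimage, mem_compl_iff, mem_empty_iff_false, iff_false, not_not]
      exact (extreme_iff _).2 ⟨c, Or.inl rfl⟩
    have h4 : (e (-1)) ⁻¹' (K.extremePoints ℝ)ᶜ = ∅ := by
      ext c
      simp only [mem_preimage, mem_compl_iff, mem_empty_iff_false, iff_false, not_not]
      exact (extreme_iff _).2 ⟨c, Or.inr rfl⟩
    rw [h3, h4]; simp
  · intro s
    have hms : Measurable fun y : E => y.1 s := (measurable_pi_apply s).comp measurable_fst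
    have hbd : ∀ σ c, ‖(e σ c).1 s‖ ≤ 1 := by
      intro σ c
      rw [e_fst]
      by_cases h : c ∈ U s <;> simp [h]
    have hi1 : Integrable (fun y : E => y.1 s) (ν₁.map (e 1)) := by
      rw [integrable_map_measure hms.aestronglyMeasurable hm1.aemeasurable]
      exact Integrable.of_bound (hms.comp hm1).aestronglyMeasurable 1
        (Eventually.of_forall fun c => hbd 1 c)
    have hi2 : Integrable (fun y : E => y.1 s) (D₂.map (e (-1))) := by
      rw [integrable_map_measure hms.aestronglyMeasurable hm2.aemeasurable]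
      exact Integrable.of_bound (hms.comp hm2).aestronglyMeasurable 1
        (Eventually.of_forall fun c => hbd (-1) c)
    rw [integral_add_measure hi1 hi2, integral_map hm1.aemeasurable hms.aestronglyMeasurable,
      integral_map hm2.aemeasurable hms.aestronglyMeasurable]
    simp only [e_fst]
    rw [integral_indicator (measurableSet_U s), integral_indicator (measurableSet_U s), h1]
    simp only [integral_const, MeasurableSet.univ, measureReal_restrict_apply, univ_inter,
      smul_eq_mul, mul_one]
    rw [← measureReal_add_apply, hν12]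
  · intro s
    have hms : Measurable fun y : E => y.2 s := (measurable_pi_apply s).comp measurable_snd
    have hbd : ∀ σ c, |σ| ≤ 1 → ‖(e σ c).2 s‖ ≤ 1 := by
      intro σ c hσ
      rw [e_snd]
      by_cases h : c ∈ ({pt s} : Set C)
      · rw [indicator_of_mem h]; exact hσ
      · rw [indicator_of_notMem h]; simp
    have hi1 : Integrable (fun y : E => y.2 s) (ν₁.map (e 1)) := by
      rw [integrable_map_measure hms.aestronglyMeasurable hm1.aemeasurable]
      exact Integrable.of_bound (hms.comp hm1).aestronglyMeasurable 1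
        (Eventually.of_forall fun c => hbd 1 c (by norm_num))
    have hi2 : Integrable (fun y : E => y.2 s) (D₂.map (e (-1))) := by
      rw [integrable_map_measure hms.aestronglyMeasurable hm2.aemeasurable]
      exact Integrable.of_bound (hms.comp hm2).aestronglyMeasurable 1
        (Eventually.of_forall fun c => hbd (-1) c (by norm_num))
    rw [integral_add_measure hi1 hi2, integral_map hm1.aemeasurable hms.aestronglyMeasurable,
      integral_map hm2.aemeasurable hms.aestronglyMeasurable]
    simp only [e_snd]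
    rw [integral_indicator (measurableSet_singleton _), integral_indicator
      (measurableSet_singleton _)]
    simp only [integral_const, MeasurableSet.univ, measureReal_restrict_apply, univ_inter,
      smul_eq_mul, mul_one]
    rw [hν₁s, hD₂s]
    ring

end Pool.Agent.V11104.SX
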