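import Mathlib
import Pool.Agent.V11104.SXDefs
import Pool.Agent.V11104.SX3

/-!
# The additive extension of an LU function need not be LU
-/

set_option autoImplicit false

open MeasureTheory Filter Topology Set

namespace Pool.Agent.V11104.SX

/-- the simplex is a metrizable Choquet simplex -/
theorem simplex_K : IsMetrizableChoquetSimplex K where
  nonempty := ⟨_, e_mem_K (σ := 0) (by norm_num) (pt ∅)⟩
  compact := isCompact_K
  convex := convex_K
  metrizable := inferInstance
  existsUnique x hx := by
    obtain ⟨ξ, hξ⟩ := exists_represents hx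
    exact ⟨ξ, hξ, fun ξ' h' => represents_unique hx h' hξ⟩

open Classical in
/-- the function on the extreme points -/
noncomputable def fval (y : E) : ℕ∞ := if ∃ s, y.2 s ≠ 0 then 1 else 3

lemma one_le_fval (y : E) : 1 ≤ fval y := by
  unfold fval
  split_ifs
  · exact le_rfl
  · exact_mod_cast (by norm_num : (1 : ℕ) ≤ 3)

lemma isLU_fval {S : Set E} : IsLU (fun y : S => (((fval (y : E) : ℕ∞) : ENNReal) : EReal)) := by
  refine ⟨fun _ y => (((fval (y : E) : ℕ∞) : ENNReal) : EReal), fun _ t => ?_, fun _ _ => le_rfl,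
    fun y => tendsto_const_nhds⟩
  have hopen : IsOpen {y : S | ∃ s, (y : E).2 s ≠ 0} := by
    have : {y : S | ∃ s, (y : E).2 s ≠ 0} = ⋃ s, {y : S | (y : E).2 s ≠ 0} := by ext y; simp
    rw [this]
    refine isOpen_iUnion fun s => ?_
    exact isOpen_ne_fun ((continuous_apply s).comp (continuous_snd.comp continuous_subtype_val))
      continuous_const
  have h1 : (((1 : ℕ∞) : ENNReal) : EReal) = ((1 : ℝ) : EReal) := by norm_num
  have h3 : (((3 : ℕ∞) : ENNReal) : EReal) = ((3 : ℝ) : EReal) := by norm_num; rfl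
  by_cases ht3 : 3 < t
  · have : {y : S | (((fval (y : E) : ℕ∞) : ENNReal) : EReal) < (t : EReal)} = univ := by
      ext y
      simp only [Set.mem_ofPred_eq, mem_univ, iff_true, fval]
      split_ifs
      · rw [h1]; exact_mod_cast (by linarith : (1 : ℝ) < t)
      · rw [h3]; exact_mod_cast ht3
    exact this ▸ isOpen_univ
  by_cases ht1 : 1 < t
  · have : {y : S | (((fval (y : E) : ℕ∞) : ENNReal) : EReal) < (t : EReal)}
        = {y : S | ∃ s, (y : E).2 s ≠ 0} := by
      ext y
      simp only [Set.mem_ofPred_eq, fval]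
      split_ifs with h
      · rw [h1]
        simp only [h, iff_true]
        exact_mod_cast ht1
      · rw [h3]
        simp only [h, iff_false, not_lt]
        exact_mod_cast not_lt.1 ht3
    exact this ▸ hopen
  · have : {y : S | (((fval (y : E) : ℕ∞) : ENNReal) : EReal) < (t : EReal)} = ∅ := by
      ext y
      simp only [Set.mem_ofPred_eq, mem_empty_iff_false, iff_false, not_lt, fval]
      split_ifs
      · rw [h1]; exact_mod_cast not_lt.1 ht1
      · rw [h3]; exact_mod_cast not_lt.1 ht3
    exact this ▸ isOpen_empty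

lemma addExt_eq {f : E → ℕ∞} {x : E} (hx : x ∈ K) {ξ : Measure E} (hξ : Represents K ξ x)
    {s : Finset E} (h1 : ξ (s : Set E)ᶜ = 0) (h2 : ∀ e ∈ s, ξ {e} ≠ 0) :
    addExt K f x = ∑ e ∈ s, f e := by
  have h : ∃ s : Finset E, ∃ ξ : Measure E, Represents K ξ x ∧ ξ (s : Set E)ᶜ = 0 ∧
    ∀ e ∈ s, ξ {e} ≠ 0 := ⟨s, ξ, hξ, h1, h2⟩
  rw [addExt, dif_pos h]
  obtain ⟨ξ', hξ', h1', h2'⟩ := h.choose_spec
  have : ξ' = ξ := represents_unique hx hξ' hξ
  subst this
  congr 1
  ext y
  constructor
  · intro hy
    by_contra hys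
    exact h2' y hy (measure_mono_null (singleton_subset_iff.2 (by simpa using hys)) h1)
  · intro hy
    by_contra hys
    exact h2 y hy (measure_mono_null (singleton_subset_iff.2 (by simpa using hys)) h1')

lemma dirac_extreme_compl {y : E} (hy : y ∈ K.extremePoints ℝ) :
    (Measure.dirac y) (K.extremePoints ℝ)ᶜ = 0 := by
  rw [Measure.dirac_apply' _ measurableSet_extreme.compl, indicator_of_notMem (by simpa using hy)]

lemma addExt_off {c : C} (hc : c ∉ range pt) : addExt K fval (e 0 c) = 3 := by
  have hex : e 0 c ∈ K.extremePoints ℝ := e_mem_extreme (Or.inr ⟨by norm_num, hc⟩)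
  have hrep : Represents K (Measure.dirac (e 0 c)) (e 0 c) := by
    refine ⟨inferInstance, dirac_extreme_compl hex, fun φ => ?_⟩
    rw [integral_dirac]
  rw [addExt_eq (extremePoints_subset hex) hrep (s := {e 0 c})]
  · rw [Finset.sum_singleton, fval, if_neg]
    rintro ⟨s, hs⟩
    apply hs
    rw [e_snd]
    by_cases h : c ∈ ({pt s} : Set C)
    · rw [indicator_of_mem h]
    · rw [indicator_of_notMem h]
  · rw [Measure.dirac_apply' _ (by simp)]
    simp
  · intro y hy
    rw [Finset.mem_singleton.1 hy, Measure.dirac_apply' _ (measurableSet_singleton _)]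
    simp

lemma fval_e_pt {σ : ℝ} (hσ : σ ≠ 0) (s : Finset ℕ) : fval (e σ (pt s)) = 1 := by
  rw [fval, if_pos]
  refine ⟨s, ?_⟩
  rw [e_snd, indicator_of_mem (mem_singleton _)]
  exact hσ

lemma e_one_ne (s : Finset ℕ) : e 1 (pt s) ≠ e (-1) (pt s) := by
  intro h
  have h1 := congrFun (congrArg Prod.snd h) s
  rw [e_snd, e_snd, indicator_of_mem (mem_singleton _), indicator_of_mem (mem_singleton _)] at h1
  norm_num at h1

lemma addExt_on (s₀ : Finset ℕ) : addExt K fval (e 0 (pt s₀)) = 2 := by
  classical
  set y₁ := e 1 (pt s₀) with hy₁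
  set y₂ := e (-1) (pt s₀) with hy₂
  have hex1 : y₁ ∈ K.extremePoints ℝ := (extreme_iff _).2 ⟨_, Or.inl rfl⟩
  have hex2 : y₂ ∈ K.extremePoints ℝ := (extreme_iff _).2 ⟨_, Or.inr rfl⟩
  set ξ : Measure E := (1 / 2 : ENNReal) • Measure.dirac y₁ + (1 / 2 : ENNReal) • Measure.dirac y₂
    with hξ
  have hhalf : (1 / 2 : ENNReal).toReal = 1 / 2 := by norm_num
  have hrep : Represents K ξ (e 0 (pt s₀)) := by
    refine ⟨⟨?_⟩, ?_, fun φ => ?_⟩
    · rw [hξ, Measure.add_apply, Measure.smul_apply, Measure.smul_apply, measure_univ,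
        measure_univ, smul_eq_mul, mul_one]
      exact ENNReal.add_halves 1
    · rw [hξ, Measure.add_apply, Measure.smul_apply, Measure.smul_apply,
        dirac_extreme_compl hex1, dirac_extreme_compl hex2]
      simp
    · have hi : ∀ y : E, Integrable (fun z => φ z) ((1 / 2 : ENNReal) • Measure.dirac y) := by
        intro y
        refine Integrable.smul_measure ?_ (by norm_num)
        exact integrable_dirac (by finiteness)
      rw [hξ, integral_add_measure (hi _) (hi _), integral_smul_measure, integral_smul_measure,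
        integral_dirac, integral_dirac, hhalf, ← map_smul, ← map_smul, ← map_add]
      congr 1
      apply Prod.ext
      · funext s
        show (1 / 2 : ℝ) * (U s).indicator (fun _ => (1 : ℝ)) (pt s₀) +
          (1 / 2 : ℝ) * (U s).indicator (fun _ => (1 : ℝ)) (pt s₀)
            = (U s).indicator (fun _ => (1 : ℝ)) (pt s₀)
        ring
      · funext s
        show (1 / 2 : ℝ) * ({pt s} : Set C).indicator (fun _ => (1 : ℝ)) (pt s₀) +
          (1 / 2 : ℝ) * ({pt s} : Set C).indicator (fun _ => (-1 : ℝ)) (pt s₀)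
            = ({pt s} : Set C).indicator (fun _ => (0 : ℝ)) (pt s₀)
        by_cases h : pt s₀ ∈ ({pt s} : Set C)
        · rw [indicator_of_mem h, indicator_of_mem h, indicator_of_mem h]; ring
        · rw [indicator_of_notMem h, indicator_of_notMem h, indicator_of_notMem h]; ring
  have hm : MeasurableSet ((({y₁, y₂} : Finset E) : Set E)ᶜ) :=
    (Finset.measurableSet _).compl
  rw [addExt_eq (e_mem_K (by norm_num) _) hrep (s := {y₁, y₂})]
  · rw [Finset.sum_pair (e_one_ne s₀), fval_e_pt one_ne_zero, fval_e_pt (by norm_num)]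
    norm_num
  · rw [hξ, Measure.add_apply, Measure.smul_apply, Measure.smul_apply, Measure.dirac_apply' _ hm,
      Measure.dirac_apply' _ hm, indicator_of_notMem (by simp), indicator_of_notMem (by simp)]
    simp
  · intro y hy
    rw [hξ, Measure.add_apply, Measure.smul_apply, Measure.smul_apply,
      Measure.dirac_apply' _ (measurableSet_singleton _),
      Measure.dirac_apply' _ (measurableSet_singleton _)]
    rcases Finset.mem_insert.1 hy with h | h
    · rw [indicator_of_mem (by simp [h])]
      simp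
    · rw [Finset.mem_singleton.1 h]
      simp

/-- the copy of the Cantor set in the simplex -/
noncomputable def j (c : C) : K := ⟨e 0 c, e_mem_K (by norm_num) c⟩

lemma continuous_j : Continuous j := by
  refine Continuous.subtype_mk ?_ _
  refine Continuous.prodMk (continuous_pi fun s => ?_) (continuous_pi fun s => ?_)
  · exact continuous_const.indicator (by simp [(isClopen_U s).frontier_eq])
  · have : (fun c => ({pt s} : Set C).indicator (fun _ => (0 : ℝ)) c) = fun _ => 0 := by
      funext c; simp
    rw [this]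
    exact continuous_const

lemma dense_pt : Dense (range pt) := by
  intro c
  rw [mem_closure_iff_seq_limit]
  refine ⟨fun n => pt ((Finset.range n).filter fun i => c i = true), fun n => ⟨_, rfl⟩, ?_⟩
  rw [tendsto_pi_nhds]
  intro i
  refine tendsto_const_nhds.congr' ?_
  filter_upwards [eventually_gt_atTop i] with n hn
  simp only [pt, Finset.mem_filter, Finset.mem_range, hn, true_and]
  cases c i <;> simp

lemma dense_compl_pt (s : Finset ℕ) : Dense ({pt s}ᶜ : Set C) := by
  intro c
  by_cases hc : c = pt s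
  · rw [mem_closure_iff_seq_limit]
    refine ⟨fun n => Function.update c n (!(c n)), fun n h => ?_, ?_⟩
    · have h1 : Function.update c n (!(c n)) n = pt s n := congrFun (mem_singleton_iff.1 h) n
      rw [Function.update_self, ← hc] at h1
      simp at h1
    · rw [tendsto_pi_nhds]
      intro i
      refine tendsto_const_nhds.congr' ?_
      filter_upwards [eventually_gt_atTop i] with n hn
      rw [Function.update_of_ne hn.ne]
  · exact subset_closure hc

/-- **Main theorem.** -/
theorem not_isLU_addExt :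
    ¬ IsLU (fun x : K => (((addExt K fval (x : E) : ℕ∞) : ENNReal) : EReal)) := by
  rintro ⟨g, hg1, hg2, hg3⟩
  have h2 : (((2 : ℕ∞) : ENNReal) : EReal) = ((2 : ℝ) : EReal) := by norm_num; rfl
  have h3 : (((3 : ℕ∞) : ENNReal) : EReal) = ((3 : ℝ) : EReal) := by norm_num; rfl
  have hD : range pt = ⋂ n, j ⁻¹' {y | g n y < ((5 / 2 : ℝ) : EReal)} := by
    ext c
    simp only [mem_iInter, mem_preimage, Set.mem_ofPred_eq]
    have hlim : Tendsto (fun n => g n (j c)) atTop
      (𝓝 (((addExt K fval ((j c : K) : E) : ℕ∞) : ENNReal) : EReal)) := hg3 (j c)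
    constructor
    · rintro ⟨s, rfl⟩ n
      have hmono : Monotone fun n => g n (j (pt s)) := monotone_nat_of_le_succ fun n => hg2 n _
      have h4 := hmono.ge_of_tendsto hlim n
      have h5 : addExt K fval ((j (pt s) : K) : E) = 2 := addExt_on s
      rw [h5, h2] at h4
      exact h4.trans_lt (by exact_mod_cast (by norm_num : (2 : ℝ) < 5 / 2))
    · intro h
      by_contra hc
      have h5 : addExt K fval ((j c : K) : E) = 3 := addExt_off hc
      rw [h5, h3] at hlim
      have h6 : ((3 : ℝ) : EReal) ≤ ((5 / 2 : ℝ) : EReal) := le_of_tendsto' hlim fun n => (h n).le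
      have h7 : (3 : ℝ) ≤ 5 / 2 := by exact_mod_cast h6
      norm_num at h7
  have hG1 : IsGδ (range pt) := by
    rw [hD]
    exact IsGδ.iInter_of_isOpen fun n => (hg1 n _).preimage continuous_j
  have hG2 : IsGδ (⋂ s, ({pt s}ᶜ : Set C)) :=
    IsGδ.iInter_of_isOpen fun s => isOpen_compl_singleton
  have hd2 : Dense (⋂ s, ({pt s}ᶜ : Set C)) :=
    dense_iInter_of_isOpen (fun s => isOpen_compl_singleton) dense_compl_pt
  obtain ⟨c, hc1, hc2⟩ := (dense_pt.inter_of_Gδ hG1 hG2 hd2).nonempty
  obtain ⟨s, rfl⟩ := hc1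
  exact mem_iInter.1 hc2 s rfl

end Pool.Agent.V11104.SX
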