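import Mathlib

/-!
# Characteristic classes of automorphisms: definitions
-/

set_option autoImplicit false

open MeasureTheory

namespace Pool.Agent.V11104.CC

/-- An automorphism of a standard probability space. -/
structure Sys where
  /-- the underlying space -/
  X : Type
  /-- the measurable structure -/
  [ms : MeasurableSpace X]
  /-- the space is standard Borel -/
  [sb : StandardBorelSpace X]
  /-- the probability measure -/
  μ : Measure X
  /-- the measure is a probability measure -/
  [prob : IsProbabilityMeasure μ]
  /-- the automorphism -/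
  T : X ≃ᵐ X
  /-- the automorphism preserves the measure -/
  mp : MeasurePreserving T μ μ

attribute [instance] Sys.ms Sys.sb Sys.prob

/-- `p` is a factor map from the automorphism `A` onto the automorphism `B`: it is measurable,
sends the measure of `A` to that of `B`, and is almost everywhere equivariant. -/
structure IsFactorMap (A B : Sys) (p : A.X → B.X) : Prop where
  /-- measure preserving -/
  mp : MeasurePreserving p A.μ B.μ
  /-- equivariant almost everywhere -/
  comm : ∀ᵐ x ∂A.μ, p (A.T x) = B.T (p x)

/-- `B` is a factor of `A`. -/
def IsFactor (A B : Sys) : Prop := ∃ p : A.X → B.X, IsFactorMap A B p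

/-- The identity map of the standard probability space `(Y, ν)`. -/
def idSys (Y : Type) [MeasurableSpace Y] [StandardBorelSpace Y] (ν : Measure Y)
    [IsProbabilityMeasure ν] : Sys where
  X := Y
  μ := ν
  T := MeasurableEquiv.refl Y
  mp := MeasurePreserving.id ν

/-- The product map of a family of automorphisms, acting on the product space. -/
def piMap {ι : Type} (A : ι → Sys) : (∀ i, (A i).X) ≃ᵐ (∀ i, (A i).X) :=
  MeasurableEquiv.piCongrRight fun i => (A i).T

/-- The product map of a countable family of automorphisms with respect to an invariant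
probability measure on the product space. It is a joining of the family if the marginals of the
measure are the given measures. -/
def piSys {ι : Type} [Countable ι] (A : ι → Sys) (ρ : Measure (∀ i, (A i).X))
    [IsProbabilityMeasure ρ] (h : MeasurePreserving (piMap A) ρ ρ) : Sys where
  X := ∀ i, (A i).X
  μ := ρ
  T := piMap A
  mp := h

/-- A characteristic class (containing all identity maps): a class of automorphisms closed under
passing to factors (in particular under isomorphism) and under countable joinings. -/
structure IsCharClass (F : Sys → Prop) : Prop where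
  /-- closed under factors -/
  factor : ∀ A B : Sys, F A → IsFactor A B → F B
  /-- closed under countable joinings -/
  joining : ∀ (ι : Type) [Countable ι] (A : ι → Sys) (ρ : Measure (∀ i, (A i).X))
    [IsProbabilityMeasure ρ] (h : MeasurePreserving (piMap A) ρ ρ), (∀ i, F (A i)) →
    (∀ i, ρ.map (fun z => z i) = (A i).μ) → F (piSys A ρ h)
  /-- contains the identity maps -/
  identity : ∀ (Y : Type) [MeasurableSpace Y] [StandardBorelSpace Y] (ν : Measure Y)
    [IsProbabilityMeasure ν], F (idSys Y ν)

/-- The product `A × Id_Y`. -/
noncomputable def prodId (A : Sys) (Y : Type) [MeasurableSpace Y] [StandardBorelSpace Y] (ν : Measure Y)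
    [IsProbabilityMeasure ν] : Sys where
  X := A.X × Y
  μ := A.μ.prod ν
  T := A.T.prodCongr (MeasurableEquiv.refl Y)
  mp := A.mp.prod (MeasurePreserving.id ν)

/-- `𝒜`, a collection of subsets of the space of `A`, is (the completion of) an invariant
sub-`σ`-algebra of `A` whose factor belongs to the class `F`: for some factor map `p` of `A` onto a
member of `F`, the members of `𝒜` are the measurable sets that are almost everywhere equal to a set
`p ⁻¹' C` with `C` measurable. -/
def IsFactorAlgIn (F : Sys → Prop) (A : Sys) (𝒜 : Set (Set A.X)) : Prop :=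
  ∃ S : Sys, F S ∧ ∃ p : A.X → S.X, IsFactorMap A S p ∧
    𝒜 = {B : Set A.X | MeasurableSet B ∧ ∃ C : Set S.X, MeasurableSet C ∧ B =ᵐ[A.μ] p ⁻¹' C}

/-- `𝒜` is the largest invariant sub-`σ`-algebra of `A` whose factor belongs to `F`. -/
def IsLargestAlg (F : Sys → Prop) (A : Sys) (𝒜 : Set (Set A.X)) : Prop :=
  IsFactorAlgIn F A 𝒜 ∧ ∀ ℬ : Set (Set A.X), IsFactorAlgIn F A ℬ → ℬ ⊆ 𝒜

/-- The product `𝒜 ⊗ 𝒞` of a `σ`-algebra `𝒜` on `X` with the `σ`-algebra `𝒞` of `Y` (modulo null
sets for the measure `ρ` on `X × Y`): the measurable sets that are almost everywhere equal to a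
member of the `σ`-algebra generated by the rectangles `E × D` with `E ∈ 𝒜` and `D` measurable. -/
def prodAlg {X Y : Type} [MeasurableSpace X] [MeasurableSpace Y] (ρ : Measure (X × Y))
    (𝒜 : Set (Set X)) : Set (Set (X × Y)) :=
  {B | MeasurableSet B ∧ ∃ C : Set (X × Y), B =ᵐ[ρ] C ∧
    MeasurableSet[MeasurableSpace.generateFrom
      {R : Set (X × Y) | ∃ E ∈ 𝒜, ∃ D : Set Y, MeasurableSet D ∧ R = E ×ˢ D}] C}

end Pool.Agent.V11104.CC
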