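import Mathlib
import Pool.Agent.V11104.CCDefs

/-!
# Characteristic classes: auxiliary results
-/

set_option autoImplicit false

open MeasureTheory Filter Topology ProbabilityTheory

namespace Pool.Agent.V11104.CC

section pw
variable {X : Type*} [MeasurableSpace X]

/-- integer iterates -/
def pw (T : X ≃ᵐ X) (n : ℤ) : X → X := ((T.toEquiv : Equiv.Perm X) ^ n : Equiv.Perm X)

lemma pw_zero (T : X ≃ᵐ X) : pw T 0 = id := by
  funext x; simp [pw]

lemma pw_add_one (T : X ≃ᵐ X) (n : ℤ) (x : X) : pw T (n + 1) x = pw T n (T x) := by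
  simp only [pw, zpow_add_one, Equiv.Perm.mul_apply]
  rfl

lemma pw_add_one' (T : X ≃ᵐ X) (n : ℤ) (x : X) : pw T (n + 1) x = T (pw T n x) := by
  simp only [pw, add_comm n 1, zpow_one_add, Equiv.Perm.mul_apply]
  rfl

lemma pw_sub_one' (T : X ≃ᵐ X) (n : ℤ) (x : X) : pw T (n - 1) x = T.symm (pw T n x) := by
  have h := pw_add_one' T (n - 1) x
  rw [sub_add_cancel] at h
  rw [h, T.symm_apply_apply]

lemma measurable_pw (T : X ≃ᵐ X) (n : ℤ) : Measurable (pw T n) := by
  induction n using Int.induction_on with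
  | zero => rw [pw_zero]; exact measurable_id
  | succ n ih =>
    have : pw T ((n : ℤ) + 1) = fun x => T (pw T n x) := funext fun x => pw_add_one' T n x
    rw [this]
    exact T.measurable.comp ih
  | pred n ih =>
    have : pw T (-(n : ℤ) - 1) = fun x => T.symm (pw T (-(n : ℤ)) x) :=
      funext fun x => pw_sub_one' T _ x
    rw [this]
    exact T.symm.measurable.comp ih

lemma mp_pw {μ : Measure X} (T : X ≃ᵐ X) (h : MeasurePreserving T μ μ) (n : ℤ) :
    MeasurePreserving (pw T n) μ μ := by
  induction n using Int.induction_on with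
  | zero => rw [pw_zero]; exact MeasurePreserving.id μ
  | succ n ih =>
    have : pw T ((n : ℤ) + 1) = fun x => T (pw T n x) := funext fun x => pw_add_one' T n x
    rw [this]
    exact h.comp ih
  | pred n ih =>
    have : pw T (-(n : ℤ) - 1) = fun x => T.symm (pw T (-(n : ℤ)) x) :=
      funext fun x => pw_sub_one' T _ x
    rw [this]
    exact (h.symm T).comp ih

end pw

lemma factor_pw {A B : Sys} {p : A.X → B.X} (hp : IsFactorMap A B p) (n : ℤ) :
    ∀ᵐ x ∂A.μ, p (pw A.T n x) = pw B.T n (p x) := by
  induction n using Int.induction_on with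
  | zero => simp [pw_zero]
  | succ n ih =>
    have h1 := (mp_pw A.T A.mp n).quasiMeasurePreserving.ae hp.comm
    filter_upwards [ih, h1] with x h2 h3
    rw [pw_add_one', pw_add_one', h3, h2]
  | pred n ih =>
    have h1 := (mp_pw A.T A.mp (-(n : ℤ) - 1)).quasiMeasurePreserving.ae hp.comm
    filter_upwards [ih, h1] with x h2 h3
    rw [← pw_add_one', sub_add_cancel, h2] at h3
    rw [pw_sub_one' B.T, h3, MeasurableEquiv.symm_apply_apply]

/-- the shift of two-sided real sequences -/
def shiftZ : (ℤ → ℝ) ≃ᵐ (ℤ → ℝ) where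
  toFun z n := z (n + 1)
  invFun z n := z (n - 1)
  left_inv z := by funext n; simp
  right_inv z := by funext n; simp
  measurable_toFun := measurable_pi_lambda _ fun n => measurable_pi_apply (n + 1)
  measurable_invFun := measurable_pi_lambda _ fun n => measurable_pi_apply (n - 1)

/-- the itinerary map of a function -/
def itin {X : Type*} [MeasurableSpace X] (T : X ≃ᵐ X) (G : X → ℝ) : X → ℤ → ℝ :=
  fun x n => G (pw T n x)

lemma measurable_itin {X : Type*} [MeasurableSpace X] (T : X ≃ᵐ X) {G : X → ℝ}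
    (hG : Measurable G) : Measurable (itin T G) :=
  measurable_pi_lambda _ fun n => hG.comp (measurable_pw T n)

lemma itin_comm {X : Type*} [MeasurableSpace X] (T : X ≃ᵐ X) (G : X → ℝ) (x : X) :
    itin T G (T x) = shiftZ (itin T G x) := by
  funext n
  show G (pw T n (T x)) = G (pw T (n + 1) x)
  rw [pw_add_one]

/-- the factor generated by the function `G` -/
noncomputable def genSys (A : Sys) (G : A.X → ℝ) (hG : Measurable G) : Sys :=
  haveI : IsProbabilityMeasure (A.μ.map (itin A.T G)) :=
    Measure.isProbabilityMeasure_map (measurable_itin A.T hG).aemeasurable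
  { X := ℤ → ℝ
    μ := A.μ.map (itin A.T G)
    T := shiftZ
    mp := by
      refine ⟨shiftZ.measurable, ?_⟩
      rw [Measure.map_map shiftZ.measurable (measurable_itin A.T hG)]
      have : shiftZ ∘ itin A.T G = itin A.T G ∘ A.T := by
        funext x; exact (itin_comm A.T G x).symm
      rw [this, ← Measure.map_map (measurable_itin A.T hG) A.T.measurable, A.mp.map_eq] }

lemma genSys_factor (A : Sys) (G : A.X → ℝ) (hG : Measurable G) :
    IsFactorMap A (genSys A G hG) (itin A.T G) :=
  ⟨⟨measurable_itin A.T hG, rfl⟩, Eventually.of_forall fun x => itin_comm A.T G x⟩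

/-- If a function `G` on `A` is, in a common extension `W` of `A` and of a member `J` of `F`,
a function of `J`, then `G` is measurable with respect to a factor of `A` that belongs to `F`. -/
theorem common_factor {F : Sys → Prop} (hF : IsCharClass F) {A J W : Sys} (hJ : F J)
    {a : W.X → A.X} {b : W.X → J.X} (ha : IsFactorMap W A a) (hb : IsFactorMap W J b)
    {G : A.X → ℝ} {g : J.X → ℝ} (hG : Measurable G) (hg : Measurable g)
    (hGg : ∀ᵐ w ∂W.μ, G (a w) = g (b w)) : F (genSys A G hG) := by
  refine hF.factor J _ hJ ⟨itin J.T g, ⟨measurable_itin J.T hg, ?_⟩,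
    Eventually.of_forall fun x => itin_comm J.T g x⟩
  have h1 : itin J.T g ∘ b =ᵐ[W.μ] itin A.T G ∘ a := by
    have h2 : ∀ᵐ w ∂W.μ, ∀ n : ℤ, g (pw J.T n (b w)) = G (pw A.T n (a w)) := by
      rw [ae_all_iff]
      intro n
      have h3 := (mp_pw W.T W.mp n).quasiMeasurePreserving.ae hGg
      filter_upwards [factor_pw ha n, factor_pw hb n, h3] with w h4 h5 h6
      rw [← h5, ← h6, h4]
    filter_upwards [h2] with w hw
    funext n
    exact hw n
  show J.μ.map (itin J.T g) = A.μ.map (itin A.T G)
  rw [← hb.mp.map_eq, Measure.map_map (measurable_itin J.T hg) hb.mp.measurable,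
    Measure.map_congr h1, ← Measure.map_map (measurable_itin A.T hG) ha.mp.measurable,
    ha.mp.map_eq]

lemma lln {Y : Type*} [MeasurableSpace Y] (ν : Measure Y) [IsProbabilityMeasure ν] {h : Y → ℝ}
    (hm : Measurable h) (hb : ∀ y, |h y| ≤ 1) :
    ∀ᵐ y ∂(Measure.infinitePi fun _ : ℕ => ν),
      Tendsto (fun N : ℕ => (∑ i ∈ Finset.range N, h (y i)) / N) atTop (𝓝 (∫ y, h y ∂ν)) := by
  have hind := iIndepFun_infinitePi (P := fun _ : ℕ => ν) (X := fun (_ : ℕ) y => h y)
    (fun _ => hm)
  have hev : ∀ i : ℕ, MeasurePreserving (fun y : ℕ → Y => y i) (Measure.infinitePi fun _ : ℕ => ν) ν :=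
    fun i => measurePreserving_eval_infinitePi (fun _ : ℕ => ν) i
  have h1 := strong_law_ae_real (μ := Measure.infinitePi fun _ : ℕ => ν)
    (fun (i : ℕ) (y : ℕ → Y) => h (y i)) ?_ ?_ ?_
  · have h2 : ∫ y, h (y 0) ∂(Measure.infinitePi fun _ : ℕ => ν) = ∫ y, h y ∂ν := by
      rw [← (hev 0).map_eq, integral_map (hev 0).measurable.aemeasurable]
      rw [(hev 0).map_eq]
      exact hm.aestronglyMeasurable
    rw [← h2]
    exact h1
  · exact Integrable.of_bound (hm.comp (measurable_pi_apply 0)).aestronglyMeasurable 1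
      (Eventually.of_forall fun y => hb _)
  · intro i j hij
    exact hind.indepFun hij
  · intro i
    refine ⟨(hm.comp (measurable_pi_apply i)).aemeasurable,
      (hm.comp (measurable_pi_apply 0)).aemeasurable, ?_⟩
    have h3 : ∀ i : ℕ, (Measure.infinitePi fun _ : ℕ => ν).map (fun y => h (y i)) = ν.map h := by
      intro i
      rw [← (hev i).map_eq, Measure.map_map hm (hev i).measurable, (hev i).map_eq]
      rfl
    rw [h3 i, h3 0]

lemma ae_eq_of_rect {X Y : Type*} [MeasurableSpace X] [MeasurableSpace Y] {μ : Measure X}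
    {ν : Measure Y} [IsProbabilityMeasure μ] [IsProbabilityMeasure ν] {f g : X × Y → ℝ}
    (hf : Integrable f (μ.prod ν)) (hg : Integrable g (μ.prod ν))
    (h : ∀ A : Set X, MeasurableSet A → ∀ D : Set Y, MeasurableSet D →
      ∫ z in A ×ˢ D, f z ∂(μ.prod ν) = ∫ z in A ×ˢ D, g z ∂(μ.prod ν)) :
    f =ᵐ[μ.prod ν] g := by
  have huniv : ∫ z, f z ∂(μ.prod ν) = ∫ z, g z ∂(μ.prod ν) := by
    have := h Set.univ MeasurableSet.univ Set.univ MeasurableSet.univ
    simpa using this
  refine ae_eq_of_forall_setIntegral_eq_of_sigmaFinite (fun s _ _ => hf.integrableOn)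
    (fun s _ _ => hg.integrableOn) fun s hs _ => ?_
  induction s, hs using MeasurableSpace.induction_on_inter generateFrom_prod.symm isPiSystem_prod with
  | empty => simp
  | basic t ht =>
    obtain ⟨A, hA, D, hD, rfl⟩ := ht
    exact h A hA D hD
  | compl t htm ih =>
    have h1 := integral_add_compl htm hf
    have h2 := integral_add_compl htm hg
    have h3 := ih (measure_lt_top _ _)
    linarith
  | iUnion f' hd hm ih =>
    rw [integral_iUnion hm hd hf.integrableOn, integral_iUnion hm hd hg.integrableOn]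
    exact tsum_congr fun i => ih i (measure_lt_top _ _)

lemma exists_prod_alg {X Y : Type*} {𝒜 mX : MeasurableSpace X} {mY : MeasurableSpace Y}
    (μ : Measure X) [IsProbabilityMeasure μ] (ν : Measure Y) [IsProbabilityMeasure ν]
    (h𝒜 : 𝒜 ≤ mX) {B : Set (X × Y)} (hB : MeasurableSet B)
    (h : ∀ D : Set Y, MeasurableSet D →
      StronglyMeasurable[𝒜] (fun x => ∫ y in D, B.indicator (fun _ => (1 : ℝ)) (x, y) ∂ν)) :
    ∃ C : Set (X × Y), MeasurableSet[𝒜.prod mY] C ∧ B =ᵐ[μ.prod ν] C := by
  have hm : 𝒜.prod mY ≤ mX.prod mY := sup_le_sup (MeasurableSpace.comap_mono h𝒜) le_rfl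
  set f : X × Y → ℝ := B.indicator (fun _ => (1 : ℝ)) with hf_def
  have hf : Integrable f (μ.prod ν) :=
    (integrable_const (1 : ℝ)).indicator hB
  set b : X × Y → ℝ := (μ.prod ν)[f | 𝒜.prod mY] with hb_def
  have hbi : Integrable b (μ.prod ν) := integrable_condExp
  have hbm : StronglyMeasurable[𝒜.prod mY] b := stronglyMeasurable_condExp
  have hbf : b =ᵐ[μ.prod ν] f := by
    refine ae_eq_of_rect hbi hf fun A hA D hD => ?_
    rw [setIntegral_prod _ hbi.integrableOn, setIntegral_prod _ hf.integrableOn]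
    have key : (fun x => ∫ y in D, b (x, y) ∂ν) =ᵐ[μ] fun x => ∫ y in D, f (x, y) ∂ν := by
      have hi1 : Integrable (fun x => ∫ y in D, b (x, y) ∂ν) μ := by
        have : Integrable b (μ.prod (ν.restrict D)) := by
          rw [← Measure.restrict_univ (μ := μ), Measure.prod_restrict]
          exact hbi.integrableOn
        exact this.integral_prod_left
      have hi2 : Integrable (fun x => ∫ y in D, f (x, y) ∂ν) μ := by
        have : Integrable f (μ.prod (ν.restrict D)) := by
          rw [← Measure.restrict_univ (μ := μ), Measure.prod_restrict]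
          exact hf.integrableOn
        exact this.integral_prod_left
      refine ae_eq_of_forall_setIntegral_eq_of_sigmaFinite' h𝒜
        (fun s _ _ => hi1.integrableOn) (fun s _ _ => hi2.integrableOn) (fun s hs _ => ?_)
        ?_ (h D hD).aestronglyMeasurable
      · rw [← setIntegral_prod _ hbi.integrableOn, ← setIntegral_prod _ hf.integrableOn]
        refine setIntegral_condExp hm hf ?_
        exact @MeasurableSet.prod _ _ 𝒜 mY _ _ hs hD
      · exact (@StronglyMeasurable.integral_prod_right' X Y ℝ 𝒜 mY (ν.restrict D) _ _ _ b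
          hbm).aestronglyMeasurable
    exact setIntegral_congr_ae hA (key.mono fun x hx _ => hx)
  refine ⟨b ⁻¹' {1}, hbm.measurable (measurableSet_singleton 1), ?_⟩
  filter_upwards [hbf] with z hz
  apply propext
  show B z ↔ b z = 1
  rw [hz, hf_def]
  by_cases hzB : z ∈ B
  · rw [Set.indicator_of_mem hzB]
    exact ⟨fun _ => rfl, fun _ => hzB⟩
  · rw [Set.indicator_of_notMem hzB]
    exact ⟨fun h => absurd h hzB, fun h => by norm_num at h⟩

end Pool.Agent.V11104.CC
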