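import Mathlib
import Pool.Agent.V11104.CCDefs
import Pool.Agent.V11104.CC1

/-!
# The characteristic factor of a product with an identity map
-/

set_option autoImplicit false
set_option linter.unusedSectionVars false

open MeasureTheory Filter Topology ProbabilityTheory

namespace Pool.Agent.V11104.CC

/-- the (complete) sub-`σ`-algebra of a factor map -/
@[reducible] def factorAlg {X Z : Type*} [MeasurableSpace X] [MeasurableSpace Z] (μ : Measure X)
    (p : X → Z) : MeasurableSpace X where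
  MeasurableSet' B := MeasurableSet B ∧ ∃ C : Set Z, MeasurableSet C ∧ B =ᵐ[μ] p ⁻¹' C
  measurableSet_empty := ⟨MeasurableSet.empty, ∅, MeasurableSet.empty, by simp⟩
  measurableSet_compl B hB := by
    obtain ⟨h1, C, hC, h2⟩ := hB
    exact ⟨h1.compl, Cᶜ, hC.compl, by rw [Set.preimage_compl]; exact h2.compl⟩
  measurableSet_iUnion B hB := by
    choose h1 C hC h2 using hB
    refine ⟨MeasurableSet.iUnion h1, ⋃ i, C i, MeasurableSet.iUnion hC, ?_⟩
    rw [Set.preimage_iUnion]
    exact Filter.EventuallyEq.countable_iUnion h2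

lemma isFactorAlgIn_factorAlg {F : Sys → Prop} {A S : Sys} {p : A.X → S.X} (hS : F S)
    (hp : IsFactorMap A S p) :
    IsFactorAlgIn F A {B | MeasurableSet B ∧ ∃ C : Set S.X, MeasurableSet C ∧ B =ᵐ[A.μ] p ⁻¹' C} :=
  ⟨S, hS, p, hp, rfl⟩

section
variable {F : Sys → Prop} (hF : IsCharClass F) {A : Sys} {Y : Type} [MeasurableSpace Y]
  [StandardBorelSpace Y] (ν : Measure Y) [IsProbabilityMeasure ν]

/-- the infinite power of the measure -/
noncomputable abbrev powν : Measure (ℕ → Y) := Measure.infinitePi fun _ : ℕ => ν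

/-- the family of copies of `S` and of `Id_Y` -/
def fam (S : Sys) : ℕ ⊕ ℕ → Sys := Sum.elim (fun _ => S) (fun _ => idSys Y ν)

/-- the joint factor map -/
def jmap (S : Sys) (p : A.X × Y → S.X) : A.X × (ℕ → Y) → ∀ i : ℕ ⊕ ℕ, (fam ν S i).X :=
  fun w i => match i with
    | Sum.inl i => p (w.1, w.2 i)
    | Sum.inr i => w.2 i

lemma measurable_jmap {S : Sys} {p : A.X × Y → S.X} (hp : Measurable p) :
    Measurable (jmap ν S p) := by
  refine measurable_pi_lambda _ fun i => ?_
  rcases i with i | i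
  · show Measurable fun w : A.X × (ℕ → Y) => p (w.1, w.2 i)
    exact hp.comp (measurable_fst.prodMk ((measurable_pi_apply i).comp measurable_snd))
  · show Measurable fun w : A.X × (ℕ → Y) => w.2 i
    exact (measurable_pi_apply i).comp measurable_snd

lemma mp_coord (i : ℕ) : MeasurePreserving (fun w : A.X × (ℕ → Y) => (w.1, w.2 i))
    (A.μ.prod (powν ν)) (A.μ.prod ν) :=
  (MeasurePreserving.id A.μ).prod (measurePreserving_eval_infinitePi (fun _ : ℕ => ν) i)

lemma jmap_comm {S : Sys} {p : A.X × Y → S.X} (hp : IsFactorMap (prodId A Y ν) S p) :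
    ∀ᵐ w ∂(A.μ.prod (powν ν)), jmap ν S p ((prodId A (ℕ → Y) (powν ν)).T w)
      = piMap (fam ν S) (jmap ν S p w) := by
  have h1 : ∀ᵐ w ∂(A.μ.prod (powν ν)), ∀ i : ℕ,
      p ((prodId A Y ν).T (w.1, w.2 i)) = S.T (p (w.1, w.2 i)) := by
    rw [ae_all_iff]
    intro i
    exact (mp_coord ν i).quasiMeasurePreserving.ae hp.comm
  filter_upwards [h1] with w hw
  funext i
  rcases i with i | i
  · exact hw i
  · rfl

lemma jmap_inv {S : Sys} {p : A.X × Y → S.X} (hp : IsFactorMap (prodId A Y ν) S p) :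
    MeasurePreserving (piMap (fam ν S)) ((A.μ.prod (powν ν)).map (jmap ν S p))
      ((A.μ.prod (powν ν)).map (jmap ν S p)) := by
  have hm := measurable_jmap (A := A) ν (S := S) hp.mp.measurable
  refine ⟨(piMap (fam ν S)).measurable, ?_⟩
  rw [Measure.map_map (piMap (fam ν S)).measurable hm]
  have h1 : piMap (fam ν S) ∘ jmap ν S p =ᵐ[A.μ.prod (powν ν)]
      jmap ν S p ∘ (prodId A (ℕ → Y) (powν ν)).T :=
    (jmap_comm ν hp).mono fun w hw => hw.symm
  have h4 : Measure.map (jmap ν S p ∘ (prodId A (ℕ → Y) (powν ν)).T) (A.μ.prod (powν ν))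
      = Measure.map (jmap ν S p)
        (Measure.map (prodId A (ℕ → Y) (powν ν)).T (A.μ.prod (powν ν))) :=
    (Measure.map_map hm (prodId A (ℕ → Y) (powν ν)).T.measurable).symm
  have h2 : Measure.map (prodId A (ℕ → Y) (powν ν)).T (A.μ.prod (powν ν))
      = A.μ.prod (powν ν) := (prodId A (ℕ → Y) (powν ν)).mp.map_eq
  rw [Measure.map_congr h1]
  exact h4.trans (congrArg (Measure.map (jmap ν S p)) h2)

/-- the joining -/
noncomputable def jSys {S : Sys} {p : A.X × Y → S.X} (hp : IsFactorMap (prodId A Y ν) S p) : Sys :=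
  haveI : IsProbabilityMeasure ((A.μ.prod (powν ν)).map (jmap ν S p)) :=
    Measure.isProbabilityMeasure_map (measurable_jmap ν hp.mp.measurable).aemeasurable
  piSys (fam ν S) ((A.μ.prod (powν ν)).map (jmap ν S p)) (jmap_inv ν hp)

include hF in
lemma jSys_mem {S : Sys} (hS : F S) {p : A.X × Y → S.X}
    (hp : IsFactorMap (prodId A Y ν) S p) : F (jSys ν hp) := by
  have hm := measurable_jmap (A := A) ν (S := S) hp.mp.measurable
  have : IsProbabilityMeasure ((A.μ.prod (powν ν)).map (jmap ν S p)) :=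
    Measure.isProbabilityMeasure_map hm.aemeasurable
  refine hF.joining (ℕ ⊕ ℕ) (fam ν S) _ (jmap_inv ν hp) ?_ ?_
  · rintro (i | i)
    · exact hS
    · exact hF.identity Y ν
  · rintro (i | i)
    · rw [Measure.map_map (measurable_pi_apply _) hm]
      have h1 := (hp.mp.comp (mp_coord (A := A) ν i)).map_eq
      exact h1
    · rw [Measure.map_map (measurable_pi_apply _) hm]
      have h1 : MeasurePreserving (fun w : A.X × (ℕ → Y) => w.2 i) (A.μ.prod (powν ν)) ν :=
        (measurePreserving_eval_infinitePi (fun _ : ℕ => ν) i).comp measurePreserving_snd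
      exact h1.map_eq

lemma jSys_factor {S : Sys} {p : A.X × Y → S.X} (hp : IsFactorMap (prodId A Y ν) S p) :
    IsFactorMap (prodId A (ℕ → Y) (powν ν)) (jSys ν hp) (jmap ν S p) :=
  ⟨⟨measurable_jmap ν hp.mp.measurable, rfl⟩, jmap_comm ν hp⟩

lemma fst_factor (A : Sys) {Y : Type} [MeasurableSpace Y]
    [StandardBorelSpace Y] (ν : Measure Y) [IsProbabilityMeasure ν] :
    IsFactorMap (prodId A Y ν) A Prod.fst :=
  ⟨measurePreserving_fst, Eventually.of_forall fun _ => rfl⟩

lemma snd_factor (A : Sys) {Y : Type} [MeasurableSpace Y]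
    [StandardBorelSpace Y] (ν : Measure Y) [IsProbabilityMeasure ν] :
    IsFactorMap (prodId A Y ν) (idSys Y ν) Prod.snd :=
  ⟨measurePreserving_snd (μ := A.μ) (ν := ν), Eventually.of_forall fun _ => rfl⟩

/-- the slice function -/
noncomputable def slice {S : Sys} (p : A.X × Y → S.X) (C : Set S.X) (D : Set Y) : A.X → ℝ :=
  fun x => ∫ y in D, (p ⁻¹' C).indicator (fun _ => (1 : ℝ)) (x, y) ∂ν

lemma stronglyMeasurable_slice {S : Sys} {p : A.X × Y → S.X} (hp : Measurable p) {C : Set S.X}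
    (hC : MeasurableSet C) (D : Set Y) : StronglyMeasurable (slice ν p C D) :=
  StronglyMeasurable.integral_prod_right' (ν := ν.restrict D)
    ((measurable_const.indicator (hp hC)).stronglyMeasurable)

/-- the function of the joining that recovers the slice function -/
noncomputable def recov {S : Sys} (C : Set S.X) (D : Set Y) (z : ∀ i : ℕ ⊕ ℕ, (fam ν S i).X) : ℝ :=
  limsup (fun N : ℕ => (∑ i ∈ Finset.range N,
    (C.indicator (fun _ => (1 : ℝ)) (z (Sum.inl i)) *
      D.indicator (fun _ => (1 : ℝ)) (z (Sum.inr i)))) / (N : ℝ)) atTop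

lemma measurable_recov {S : Sys} {C : Set S.X} (hC : MeasurableSet C) {D : Set Y}
    (hD : MeasurableSet D) : Measurable (recov (S := S) ν C D) := by
  refine Measurable.limsup fun N => ?_
  refine Measurable.div_const ?_ _
  refine Finset.measurable_sum _ fun i _ => ?_
  refine Measurable.mul ?_ ?_
  · have h1 : Measurable (C.indicator (fun _ => (1 : ℝ))) := measurable_const.indicator hC
    have h2 : Measurable (fun z : (∀ i : ℕ ⊕ ℕ, (fam ν S i).X) => z (Sum.inl i)) :=
      measurable_pi_apply (Sum.inl i)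
    exact h1.comp h2
  · have h1 : Measurable (D.indicator (fun _ => (1 : ℝ))) := measurable_const.indicator hD
    have h2 : Measurable (fun z : (∀ i : ℕ ⊕ ℕ, (fam ν S i).X) => z (Sum.inr i)) :=
      measurable_pi_apply (Sum.inr i)
    exact h1.comp h2

lemma slice_eq_recov {S : Sys} {p : A.X × Y → S.X} (hp : Measurable p) {C : Set S.X}
    (hC : MeasurableSet C) {D : Set Y} (hD : MeasurableSet D) :
    ∀ᵐ w ∂(A.μ.prod (powν ν)), slice ν p C D w.1 = recov ν C D (jmap ν S p w) := by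
  rw [Measure.ae_prod_iff_ae_ae]
  · refine Eventually.of_forall fun x => ?_
    have hm : Measurable fun y => C.indicator (fun _ => (1 : ℝ)) (p (x, y)) *
        D.indicator (fun _ => (1 : ℝ)) y :=
      ((measurable_const.indicator hC).comp (hp.comp measurable_prodMk_left)).mul
        (measurable_const.indicator hD)
    have hb : ∀ y, |C.indicator (fun _ => (1 : ℝ)) (p (x, y)) *
        D.indicator (fun _ => (1 : ℝ)) y| ≤ 1 := by
      intro y
      by_cases h1 : p (x, y) ∈ C <;> by_cases h2 : y ∈ D <;> simp [h1, h2]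
    filter_upwards [lln ν hm hb] with y hy
    have h3 := hy.limsup_eq
    show slice ν p C D x = limsup (fun N : ℕ => (∑ i ∈ Finset.range N,
      (C.indicator (fun _ => (1 : ℝ)) (p (x, y i)) *
        D.indicator (fun _ => (1 : ℝ)) (y i))) / (N : ℝ)) atTop
    rw [h3, slice, ← integral_indicator hD]
    congr 1
    funext y'
    by_cases h1 : p (x, y') ∈ C <;> by_cases h2 : y' ∈ D <;> simp [h1, h2]
  · exact measurableSet_eq_fun ((stronglyMeasurable_slice ν hp hC D).measurable.comp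
      measurable_fst) ((measurable_recov ν hC hD).comp (measurable_jmap ν hp))

include hF in
/-- the slice functions are measurable with respect to the largest factor in the class -/
lemma slice_alg {S' : Sys} {p' : A.X → S'.X}
    (h𝒜 : ∀ ℬ : Set (Set A.X), IsFactorAlgIn F A ℬ →
      ∀ B ∈ ℬ, MeasurableSet[factorAlg A.μ p'] B) {S : Sys} (hS : F S)
    {p : A.X × Y → S.X} (hp : IsFactorMap (prodId A Y ν) S p) {C : Set S.X}
    (hC : MeasurableSet C) {D : Set Y} (hD : MeasurableSet D) :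
    StronglyMeasurable[factorAlg A.μ p'] (slice ν p C D) := by
  have hG := (stronglyMeasurable_slice (A := A) ν hp.mp.measurable hC D).measurable
  have h1 : F (genSys A (slice ν p C D) hG) :=
    common_factor hF (jSys_mem hF ν hS hp) (fst_factor A (powν ν)) (jSys_factor ν hp) hG
      (measurable_recov ν hC hD) (slice_eq_recov ν hp.mp.measurable hC hD)
  have h2 := h𝒜 _ (isFactorAlgIn_factorAlg h1 (genSys_factor A _ hG))
  apply Measurable.stronglyMeasurable
  intro E hE
  apply h2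
  refine ⟨hG hE, (fun z : ℤ → ℝ => z 0) ⁻¹' E, measurable_pi_apply 0 hE, ?_⟩
  have : (slice ν p C D) ⁻¹' E =
      (itin A.T (slice ν p C D)) ⁻¹' ((fun z : ℤ → ℝ => z 0) ⁻¹' E) := by
    ext x
    simp [itin, pw_zero]
  rw [this]
  exact Filter.EventuallyEq.rfl

include hF in
/-- **Main theorem.** -/
theorem main (𝒜 : Set (Set A.X)) (h𝒜 : IsLargestAlg F A 𝒜)
    (ℬ : Set (Set (A.X × Y))) (hℬ : IsLargestAlg F (prodId A Y ν) ℬ) :
    ℬ = prodAlg (A.μ.prod ν) 𝒜 := by
  obtain ⟨⟨S', hS', p', hp', h𝒜eq⟩, h𝒜max⟩ := h𝒜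
  obtain ⟨⟨S, hS, p, hp, hℬeq⟩, hℬmax⟩ := hℬ
  have hmem : ∀ B, B ∈ 𝒜 ↔ MeasurableSet[factorAlg A.μ p'] B := by
    intro B; rw [h𝒜eq]; rfl
  have hmemB : ∀ B, B ∈ ℬ ↔ MeasurableSet[factorAlg (A.μ.prod ν) p] B := by
    intro B; rw [hℬeq]; rfl
  have hgen : MeasurableSpace.generateFrom
      {R : Set (A.X × Y) | ∃ E ∈ 𝒜, ∃ D : Set Y, MeasurableSet D ∧ R = E ×ˢ D}
      = (factorAlg A.μ p').prod inferInstance := by
    refine Eq.trans ?_ (@generateFrom_prod A.X Y (factorAlg A.μ p') _)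
    congr 1
    ext R
    constructor
    · rintro ⟨E, hE, D, hD, rfl⟩
      exact ⟨E, (hmem E).1 hE, D, hD, rfl⟩
    · rintro ⟨E, hE, D, hD, rfl⟩
      exact ⟨E, (hmem E).2 hE, D, hD, rfl⟩
  have hle : factorAlg A.μ p' ≤ A.ms := fun s hs => hs.1
  apply Set.Subset.antisymm
  · intro B hB
    rw [hℬeq] at hB
    obtain ⟨hB1, C, hC, hBC⟩ := hB
    refine ⟨hB1, ?_⟩
    obtain ⟨C', hC', hpC⟩ := exists_prod_alg A.μ ν hle (hp.mp.measurable hC)
      fun D hD => slice_alg hF ν
        (fun ℬ' hℬ' B hB => (hmem B).1 (h𝒜max ℬ' hℬ' hB)) hS hp hC hD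
    refine ⟨C', hBC.trans hpC, ?_⟩
    rw [hgen]
    exact hC'
  · rintro B ⟨hB, C, hBC, hC⟩
    have hle2 : MeasurableSpace.generateFrom
      {R : Set (A.X × Y) | ∃ E ∈ 𝒜, ∃ D : Set Y, MeasurableSet D ∧ R = E ×ˢ D}
        ≤ factorAlg (A.μ.prod ν) p := by
      apply MeasurableSpace.generateFrom_le
      rintro R ⟨E, hE, D, hD, rfl⟩
      have h1 : (Prod.fst : A.X × Y → A.X) ⁻¹' E ∈ ℬ := by
        rw [h𝒜eq] at hE
        obtain ⟨hE1, C', hC', hEC⟩ := hE
        have hfac : IsFactorMap (prodId A Y ν) S' (p' ∘ Prod.fst) :=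
          ⟨hp'.mp.comp (measurePreserving_fst (μ := A.μ) (ν := ν)),
            (measurePreserving_fst (μ := A.μ) (ν := ν)).quasiMeasurePreserving.ae hp'.comm⟩
        apply hℬmax _ (isFactorAlgIn_factorAlg hS' hfac)
        refine ⟨measurable_fst hE1, C', hC', ?_⟩
        exact (measurePreserving_fst (μ := A.μ) (ν := ν)).quasiMeasurePreserving.ae hEC
      have h2 : (Prod.snd : A.X × Y → Y) ⁻¹' D ∈ ℬ := by
        apply hℬmax _ (isFactorAlgIn_factorAlg (hF.identity Y ν) (snd_factor A ν))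
        exact ⟨measurable_snd hD, D, hD, EventuallyEq.rfl⟩
      exact MeasurableSet.inter ((hmemB _).1 h1) ((hmemB _).1 h2)
    obtain ⟨hC1, E, hE, hCE⟩ := hle2 C hC
    rw [hℬeq]
    exact ⟨hB, E, hE, hBC.trans hCE⟩

end

end Pool.Agent.V11104.CC
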