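import Mathlib
import Pool.Agent.V11104.CCDefs
import Pool.Agent.V11104.CC2

/-!
# Existence of the largest factor in a characteristic class
-/

set_option autoImplicit false
set_option linter.unusedSectionVars false

open MeasureTheory Filter Topology ProbabilityTheory

namespace Pool.Agent.V11104.CC

/-- A family of measurable sets of a probability space with separable measure algebra has a
countable dense subfamily. -/
lemma exists_countable_dense {X : Type} [MeasurableSpace X] [StandardBorelSpace X] (μ : Measure X)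
    [IsProbabilityMeasure μ] (𝒢 : Set (Set X)) (h𝒢 : ∀ B ∈ 𝒢, MeasurableSet B) :
    ∃ 𝒟 : Set (Set X), 𝒟 ⊆ 𝒢 ∧ 𝒟.Countable ∧ ∀ B ∈ 𝒢, ∀ ε : ℝ, 0 < ε → ∃ D ∈ 𝒟,
      μ.real (symmDiff B D) < ε := by
  let Φ : 𝒢 → Lp ℝ 1 μ := fun B =>
    indicatorConstLp 1 (h𝒢 B.1 B.2) (measure_ne_top μ _) (1 : ℝ)
  have hone : Fact ((1 : ENNReal) ≠ ⊤) := ⟨ENNReal.one_ne_top⟩
  have hscs : SecondCountableTopology (Lp ℝ 1 μ) := inferInstance
  have hsep : TopologicalSpace.IsSeparable (Set.range Φ) :=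
    (TopologicalSpace.isSeparable_univ_iff.2 inferInstance).mono (Set.subset_univ _)
  obtain ⟨t, hts, htc, htd⟩ := hsep.exists_countable_dense_subset
  have hchoose : ∀ i : t, ∃ B : 𝒢, Φ B = i.1 := fun i => hts i.2
  choose b hb using hchoose
  refine ⟨Set.range fun i => (b i : Set X), ?_, ?_, ?_⟩
  · rintro _ ⟨i, rfl⟩; exact (b i).2
  · have := htc.to_subtype
    exact Set.countable_range _
  · intro B hB ε hε
    have h1 : Φ ⟨B, hB⟩ ∈ closure t := htd ⟨_, rfl⟩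
    obtain ⟨y, hy, hyd⟩ := Metric.mem_closure_iff.1 h1 ε hε
    refine ⟨_, ⟨⟨y, hy⟩, rfl⟩, ?_⟩
    have hby : Φ (b ⟨y, hy⟩) = y := hb ⟨y, hy⟩
    rw [← hby] at hyd
    simp only [Φ] at hyd
    rw [dist_indicatorConstLp_eq_norm, norm_indicatorConstLp one_ne_zero ENNReal.one_ne_top] at hyd
    simpa using hyd

theorem exists_largest {F : Sys → Prop} (hF : IsCharClass F) (A : Sys) :
    ∃ 𝒜 : Set (Set A.X), IsLargestAlg F A 𝒜 := by
  set 𝒢 : Set (Set A.X) := {B | MeasurableSet B ∧ ∃ S : Sys, F S ∧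
    ∃ p : A.X → S.X, IsFactorMap A S p ∧ ∃ C : Set S.X, MeasurableSet C ∧ B =ᵐ[A.μ] p ⁻¹' C}
    with h𝒢def
  obtain ⟨𝒟, h𝒟𝒢, h𝒟c, h𝒟d⟩ := exists_countable_dense A.μ 𝒢 fun B hB => hB.1
  have := h𝒟c.to_subtype
  have hch : ∀ D : 𝒟, ∃ S : Sys, F S ∧ ∃ p : A.X → S.X, IsFactorMap A S p ∧
      ∃ C : Set S.X, MeasurableSet C ∧ D.1 =ᵐ[A.μ] p ⁻¹' C := fun D => (h𝒟𝒢 D.2).2
  choose S hS p hp C hC hDC using hch
  set Q : A.X → ∀ D : 𝒟, (S D).X := fun x D => p D x with hQ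
  have hQm : Measurable Q := measurable_pi_lambda _ fun D => (hp D).mp.measurable
  have hQc : ∀ᵐ x ∂A.μ, Q (A.T x) = piMap S (Q x) := by
    have h1 : ∀ᵐ x ∂A.μ, ∀ D : 𝒟, p D (A.T x) = (S D).T (p D x) := by
      rw [ae_all_iff]; exact fun D => (hp D).comm
    filter_upwards [h1] with x hx
    funext D
    exact hx D
  have : IsProbabilityMeasure (A.μ.map Q) := Measure.isProbabilityMeasure_map hQm.aemeasurable
  have hinv : MeasurePreserving (piMap S) (A.μ.map Q) (A.μ.map Q) := by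
    refine ⟨(piMap S).measurable, ?_⟩
    rw [Measure.map_map (piMap S).measurable hQm]
    have h1 : piMap S ∘ Q =ᵐ[A.μ] Q ∘ A.T := hQc.mono fun x hx => hx.symm
    rw [Measure.map_congr h1, ← Measure.map_map hQm A.T.measurable, A.mp.map_eq]
  have hJ : F (piSys S (A.μ.map Q) hinv) := by
    refine hF.joining _ S _ hinv hS fun D => ?_
    rw [Measure.map_map (measurable_pi_apply _) hQm]
    exact (hp D).mp.map_eq
  have hfac : IsFactorMap A (piSys S (A.μ.map Q) hinv) Q := ⟨⟨hQm, rfl⟩, hQc⟩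
  refine ⟨_, isFactorAlgIn_factorAlg hJ hfac, ?_⟩
  rintro ℬ ⟨S', hS', p', hp', rfl⟩ B ⟨hB1, C', hC', hBC'⟩
  refine ⟨hB1, ?_⟩
  have hBG : B ∈ 𝒢 := ⟨hB1, S', hS', p', hp', C', hC', hBC'⟩
  have hap : ∀ k : ℕ, ∃ D : 𝒟, A.μ.real (symmDiff B D.1) < (1 / 2 : ℝ) ^ k := by
    intro k
    obtain ⟨D, hD, hlt⟩ := h𝒟d B hBG ((1 / 2 : ℝ) ^ k) (by positivity)
    exact ⟨⟨D, hD⟩, hlt⟩
  choose D hD using hap
  -- Borel-Cantelli
  have hsum : ∑' k, A.μ (symmDiff B (D k).1) ≠ ⊤ := by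
    have h1 : ∀ k, A.μ (symmDiff B (D k).1) ≤ ENNReal.ofReal ((1 / 2 : ℝ) ^ k) := by
      intro k
      have h2 : A.μ (symmDiff B (D k).1) = ENNReal.ofReal (A.μ.real (symmDiff B (D k).1)) := by
        rw [Measure.real, ENNReal.ofReal_toReal (measure_ne_top _ _)]
      rw [h2]
      exact ENNReal.ofReal_le_ofReal (hD k).le
    refine ne_top_of_le_ne_top ?_ (ENNReal.tsum_le_tsum h1)
    rw [← ENNReal.ofReal_tsum_of_nonneg (fun k => by positivity) summable_geometric_two]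
    exact ENNReal.ofReal_ne_top
  have hbc := ae_eventually_notMem hsum
  have hall : ∀ᵐ x ∂A.μ, ∀ k : ℕ, (x ∈ (D k).1 ↔ p (D k) x ∈ C (D k)) := by
    rw [ae_all_iff]
    intro k
    filter_upwards [hDC (D k)] with x hx
    exact iff_of_eq hx
  refine ⟨⋂ n : ℕ, ⋃ k ≥ n, (fun z : ∀ D : 𝒟, (S D).X => z (D k)) ⁻¹' (C (D k)), ?_, ?_⟩
  · refine MeasurableSet.iInter fun n => MeasurableSet.iUnion fun k => MeasurableSet.iUnion fun _ =>
      measurable_pi_apply (D k) (hC (D k))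
  · filter_upwards [hbc, hall] with x hx1 hx2
    apply propext
    show x ∈ B ↔ Q x ∈ ⋂ n : ℕ, ⋃ k ≥ n, (fun z : ∀ D : 𝒟, (S D).X => z (D k)) ⁻¹' (C (D k))
    simp only [Set.mem_iInter, Set.mem_iUnion, Set.mem_preimage, exists_prop]
    obtain ⟨N, hN⟩ := eventually_atTop.1 hx1
    have hN' : ∀ k ≥ N, (x ∈ B ↔ x ∈ (D k).1) := by
      intro k hk
      have := hN k hk
      rw [Set.mem_symmDiff] at this
      tauto
    constructor
    · intro hxB n
      refine ⟨max n N, le_max_left _ _, ?_⟩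
      exact (hx2 _).1 ((hN' _ (le_max_right _ _)).1 hxB)
    · intro h
      obtain ⟨k, hk, hkC⟩ := h N
      exact (hN' k hk).2 ((hx2 k).2 hkC)

end Pool.Agent.V11104.CC
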