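import Mathlib
import Pool.Agent.W765.Sta4

/-!
# A relative version of Furstenberg's theorem for measures

`lam` is a measure on `Ω × 𝕋` which is invariant under `(ω, x) ↦ (σ ω, q x)` and `(ω, x) ↦ (ω, p x)`.
-/

set_option autoImplicit false

open MeasureTheory Filter Topology Set TopologicalSpace
open scoped ENNReal

namespace Pool.Agent.V11104.RF

open Pool.Agent.H705R2 Pool.Agent.W765.Sta

variable {Ω : Type*} [MeasurableSpace Ω]

/-- the marginal -/
noncomputable def Pm (lam : Measure (Ω × Circ)) : Measure Ω := lam.map Prod.fst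

/-- the measure of the part over `V` -/
noncomputable def PV (lam : Measure (Ω × Circ)) (V : Set Circ) : Measure Ω :=
  (lam.restrict (univ ×ˢ V)).map Prod.fst

lemma PV_apply (lam : Measure (Ω × Circ)) {V : Set Circ} {B : Set Ω}
    (hB : MeasurableSet B) : PV lam V B = lam (B ×ˢ V) := by
  unfold PV
  rw [Measure.map_apply measurable_fst hB, Measure.restrict_apply (measurable_fst hB)]
  congr 1
  ext z
  simp

lemma Pm_apply (lam : Measure (Ω × Circ)) {B : Set Ω} (hB : MeasurableSet B) :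
    Pm lam B = lam (B ×ˢ univ) := by
  unfold Pm
  rw [Measure.map_apply measurable_fst hB]
  congr 1
  ext z
  simp

lemma PV_ac (lam : Measure (Ω × Circ)) (V : Set Circ) : PV lam V ≪ Pm lam := by
  refine Measure.AbsolutelyContinuous.mk fun B hB h0 => ?_
  rw [Pm_apply lam hB] at h0
  rw [PV_apply lam hB]
  exact measure_mono_null (prod_mono_right (subset_univ _)) h0

instance (lam : Measure (Ω × Circ)) [IsFiniteMeasure lam] : IsFiniteMeasure (Pm lam) := by
  unfold Pm; infer_instance

instance (lam : Measure (Ω × Circ)) [IsFiniteMeasure lam] (V : Set Circ) :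
    IsFiniteMeasure (PV lam V) := by
  unfold PV; infer_instance

/-- the largest set over which `V` is not charged -/
noncomputable def NN (lam : Measure (Ω × Circ)) (V : Set Circ) : Set Ω :=
  {ω | (PV lam V).rnDeriv (Pm lam) ω = 0}

lemma meas_NN (lam : Measure (Ω × Circ)) (V : Set Circ) : MeasurableSet (NN lam V) :=
  (Measure.measurable_rnDeriv _ _) (measurableSet_singleton 0)

lemma lam_NN (lam : Measure (Ω × Circ)) [IsFiniteMeasure lam] (V : Set Circ) :
    lam (NN lam V ×ˢ V) = 0 := by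
  rw [← PV_apply lam (meas_NN lam V), ← Measure.setLIntegral_rnDeriv (PV_ac lam V)]
  rw [setLIntegral_congr_fun (g := fun _ => 0) (meas_NN lam V) (fun ω hω => hω)]
  simp

lemma max_NN (lam : Measure (Ω × Circ)) [IsFiniteMeasure lam] (V : Set Circ) {B : Set Ω}
    (hB : MeasurableSet B) (h0 : lam (B ×ˢ V) = 0) : Pm lam (B \ NN lam V) = 0 := by
  rw [← PV_apply lam hB, ← Measure.setLIntegral_rnDeriv (PV_ac lam V),
    lintegral_eq_zero_iff (Measure.measurable_rnDeriv _ _)] at h0
  have h1 := (ae_restrict_iff' hB).1 h0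
  rw [ae_iff] at h1
  refine measure_mono_null ?_ h1
  rintro ω ⟨h2, h3⟩
  simp only [mem_ofPred_eq, Classical.not_imp]
  exact ⟨h2, h3⟩

/-- the fibres of the support, for a sequence of open sets -/
def FF (lam : Measure (Ω × Circ)) (V : ℕ → Set Circ) (ω : Ω) : Set Circ :=
  {x | ∀ n, x ∈ V n → ω ∉ NN lam (V n)}

lemma isClosed_FF (lam : Measure (Ω × Circ)) {V : ℕ → Set Circ} (hV : ∀ n, IsOpen (V n)) (ω : Ω) :
    IsClosed (FF lam V ω) := by
  have : FF lam V ω = ⋂ n, {x | x ∈ V n → ω ∉ NN lam (V n)} := by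
    ext x; simp [FF]
  rw [this]
  refine isClosed_iInter fun n => ?_
  by_cases h : ω ∈ NN lam (V n)
  · have : {x | x ∈ V n → ω ∉ NN lam (V n)} = (V n)ᶜ := by
      ext x; simp [h]
    rw [this]
    exact (hV n).isClosed_compl
  · have : {x | x ∈ V n → ω ∉ NN lam (V n)} = univ := by
      ext x; simp [h]
    rw [this]
    exact isClosed_univ

lemma hit_FF (lam : Measure (Ω × Circ)) {V : ℕ → Set Circ} (hV : ∀ n, IsOpen (V n)) :
    Hit (FF lam V) := by
  classical
  refine hit_of_closed fun C hC => ?_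
  rw [← MeasurableSet.compl_iff]
  have : {ω | (FF lam V ω ∩ C).Nonempty}ᶜ =
      ⋃ s : Finset ℕ, ⋃ _ : C ⊆ ⋃ n ∈ s, V n, ⋂ n ∈ s, NN lam (V n) := by
    ext ω
    simp only [mem_compl_iff, mem_ofPred_eq, mem_iUnion, mem_iInter, exists_prop,
      Set.not_nonempty_iff_eq_empty]
    constructor
    · intro h
      have hcov : C ⊆ ⋃ n, (if ω ∈ NN lam (V n) then V n else ∅) := by
        intro x hx
        by_contra hcon
        have hxF : x ∈ FF lam V ω := by
          intro n hn hω
          apply hcon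
          rw [mem_iUnion]
          exact ⟨n, by rw [if_pos hω]; exact hn⟩
        have : x ∈ FF lam V ω ∩ C := ⟨hxF, hx⟩
        rw [h] at this
        exact this
      obtain ⟨t, ht⟩ := hC.isCompact.elim_finite_subcover _ (fun n => by
        split_ifs
        · exact hV n
        · exact isOpen_empty) hcov
      refine ⟨t.filter fun n => ω ∈ NN lam (V n), ?_, ?_⟩
      · intro x hx
        obtain ⟨n, hn⟩ := mem_iUnion.1 (ht hx)
        obtain ⟨hnt, hn⟩ := mem_iUnion.1 hn
        by_cases hω : ω ∈ NN lam (V n)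
        · rw [if_pos hω] at hn
          exact mem_iUnion₂.2 ⟨n, Finset.mem_filter.2 ⟨hnt, hω⟩, hn⟩
        · rw [if_neg hω] at hn
          exact absurd hn (notMem_empty _)
      · intro n hn
        exact (Finset.mem_filter.1 hn).2
    · rintro ⟨s, hs, hω⟩
      rw [eq_empty_iff_forall_notMem]
      rintro x ⟨hxF, hxC⟩
      obtain ⟨n, hns, hn⟩ := mem_iUnion₂.1 (hs hxC)
      exact hxF n hn (hω n hns)
  rw [this]
  refine MeasurableSet.iUnion fun s => MeasurableSet.iUnion fun _ => ?_
  exact MeasurableSet.biInter s.countable_toSet fun n _ => meas_NN lam (V n)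

/-- the random support is finite or everything -/
theorem supp {p q : ℕ} (hp : 2 ≤ p) (hq : 2 ≤ q) (h : MulIndep p q) {σ : Ω → Ω}
    {lam : Measure (Ω × Circ)} [IsProbabilityMeasure lam]
    (h1 : MeasurePreserving (fun z : Ω × Circ => (σ z.1, q • z.2)) lam lam)
    (h2 : MeasurePreserving (fun z : Ω × Circ => (z.1, p • z.2)) lam lam)
    {V : ℕ → Set Circ} (hVo : ∀ n, IsOpen (V n))
    (hsub : ∀ (x : Circ) (W : Set Circ), IsOpen W → x ∈ W → ∃ n, x ∈ V n ∧ V n ⊆ W) :
    (∀ᵐ ω ∂(Pm lam), (FF lam V ω).Finite ∨ FF lam V ω = univ) ∧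
      (∀ᵐ ω ∂(Pm lam), ∀ x ∈ FF lam V ω, p • x ∈ FF lam V ω) ∧
      ∀ᵐ z ∂lam, z.2 ∈ FF lam V z.1 := by
  have hPP : IsProbabilityMeasure (Pm lam) := by
    unfold Pm
    exact Measure.isProbabilityMeasure_map measurable_fst.aemeasurable
  have hσm : Measurable σ := by
    have := (measurable_fst.comp h1.measurable).comp (measurable_prodMk_right (y := (0 : Circ)))
    exact this
  have hσ : MeasurePreserving σ (Pm lam) (Pm lam) := by
    refine ⟨hσm, ?_⟩
    ext A hA
    rw [Measure.map_apply hσm hA, Pm_apply lam (hσm hA), Pm_apply lam hA]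
    have h4 := h1.measure_preimage (s := A ×ˢ univ) (hA.prod MeasurableSet.univ).nullMeasurableSet
    rw [← h4]
    congr 1
  have hp' : ∀ᵐ ω ∂(Pm lam), ∀ x ∈ FF lam V ω, p • x ∈ FF lam V ω := by
    have e1 : ∀ᵐ ω ∂(Pm lam), ∀ n m : ℕ, V m ⊆ (fun x : Circ => p • x) ⁻¹' (V n) →
        ω ∈ NN lam (V n) → ω ∈ NN lam (V m) := by
      rw [ae_all_iff]; intro n
      rw [ae_all_iff]; intro m
      by_cases hnm : V m ⊆ (fun x : Circ => p • x) ⁻¹' (V n)
      · have h4 : lam (NN lam (V n) ×ˢ V m) = 0 := by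
          refine measure_mono_null (prod_mono_right hnm) ?_
          have h5 := h2.measure_preimage (s := NN lam (V n) ×ˢ V n)
            ((meas_NN lam (V n)).prod (hVo n).measurableSet).nullMeasurableSet
          rw [lam_NN] at h5
          exact h5
        have h6 := max_NN lam (V m) (meas_NN lam (V n)) h4
        rw [ae_iff]
        refine measure_mono_null ?_ h6
        intro ω hω
        simp only [mem_ofPred_eq, Classical.not_imp] at hω
        exact ⟨hω.2.1, hω.2.2⟩
      · exact Eventually.of_forall fun ω h4 => absurd h4 hnm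
    filter_upwards [e1] with ω hω x hx n hn hωn
    obtain ⟨m, hxm, hm⟩ := hsub x _ ((hVo n).preimage (continuous_nsmul p)) hn
    exact hx m hxm (hω n m hm hωn)
  have hq' : ∀ᵐ ω ∂(Pm lam), ∀ x ∈ FF lam V ω, q • x ∈ FF lam V (σ ω) := by
    have e1 : ∀ᵐ ω ∂(Pm lam), ∀ n m : ℕ, V m ⊆ (fun x : Circ => q • x) ⁻¹' (V n) →
        σ ω ∈ NN lam (V n) → ω ∈ NN lam (V m) := by
      rw [ae_all_iff]; intro n
      rw [ae_all_iff]; intro m
      by_cases hnm : V m ⊆ (fun x : Circ => q • x) ⁻¹' (V n)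
      · have h4 : lam ((σ ⁻¹' NN lam (V n)) ×ˢ V m) = 0 := by
          refine measure_mono_null (prod_mono_right hnm) ?_
          have h5 := h1.measure_preimage (s := NN lam (V n) ×ˢ V n)
            ((meas_NN lam (V n)).prod (hVo n).measurableSet).nullMeasurableSet
          rw [lam_NN] at h5
          exact h5
        have h6 := max_NN lam (V m) (hσm (meas_NN lam (V n))) h4
        rw [ae_iff]
        refine measure_mono_null ?_ h6
        intro ω hω
        simp only [mem_ofPred_eq, Classical.not_imp] at hω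
        exact ⟨hω.2.1, hω.2.2⟩
      · exact Eventually.of_forall fun ω h4 => absurd h4 hnm
    filter_upwards [e1] with ω hω x hx n hn hωn
    obtain ⟨m, hxm, hm⟩ := hsub x _ ((hVo n).preimage (continuous_nsmul q)) hn
    exact hx m hxm (hω n m hm hωn)
  have key := stationary_ae hp hq h hσ (F := FF lam V) (isClosed_FF lam hVo) (hit_FF lam hVo) hp' hq'
  -- points of the support
  have hsupp : ∀ᵐ z ∂lam, z.2 ∈ FF lam V z.1 := by
    have : ∀ᵐ z ∂lam, ∀ n, z.2 ∈ V n → z.1 ∉ NN lam (V n) := by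
      rw [ae_all_iff]; intro n
      rw [ae_iff]
      refine measure_mono_null ?_ (lam_NN lam (V n))
      intro z hz
      simp only [mem_ofPred_eq, Classical.not_imp, not_not] at hz
      exact ⟨hz.2, hz.1⟩
    exact this
  exact ⟨key, hp', hsupp⟩

theorem base {p q : ℕ} (hp : 2 ≤ p) (hq : 2 ≤ q) (h : MulIndep p q) {σ : Ω → Ω}
    {lam : Measure (Ω × Circ)} [IsProbabilityMeasure lam]
    (h1 : MeasurePreserving (fun z : Ω × Circ => (σ z.1, q • z.2)) lam lam)
    (h2 : MeasurePreserving (fun z : Ω × Circ => (z.1, p • z.2)) lam lam)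
    (h3 : ∀ᵐ z ∂lam, ¬ IsOfFinAddOrder z.2) {B : Set Ω} (hB : MeasurableSet B) {U : Set Circ}
    (hU : IsOpen U) (hUne : U.Nonempty) (h0 : lam (B ×ˢ U) = 0) : lam (B ×ˢ univ) = 0 := by
  obtain ⟨b, hbc, hbe, hb⟩ := exists_countable_basis Circ
  have hbn : b.Nonempty := by
    by_contra hcon
    rw [not_nonempty_iff_eq_empty] at hcon
    obtain ⟨V, hV, -⟩ := hb.exists_subset_of_mem_open (mem_univ (0 : Circ)) isOpen_univ
    rw [hcon] at hV
    exact hV
  obtain ⟨V, hVb⟩ := hbc.exists_eq_range hbn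
  have hVo : ∀ n, IsOpen (V n) := fun n => hb.isOpen (hVb ▸ mem_range_self n)
  have hVne : ∀ n, (V n).Nonempty := fun n => by
    rw [nonempty_iff_ne_empty]
    intro hcon
    apply hbe
    rw [hVb, ← hcon]
    exact mem_range_self n
  have hsub : ∀ (x : Circ) (W : Set Circ), IsOpen W → x ∈ W → ∃ n, x ∈ V n ∧ V n ⊆ W := by
    intro x W hW hx
    obtain ⟨v, hv, hxv, hvW⟩ := hb.exists_subset_of_mem_open hx hW
    rw [hVb] at hv
    obtain ⟨n, rfl⟩ := hv
    exact ⟨n, hxv, hvW⟩
  obtain ⟨key, hp', hsupp⟩ := supp hp hq h h1 h2 hVo hsub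
  have hfull : ∀ᵐ z ∂lam, FF lam V z.1 = univ := by
    have k1 : ∀ᵐ z ∂lam, (FF lam V z.1).Finite ∨ FF lam V z.1 = univ := by
      have hq1 : Measure.QuasiMeasurePreserving Prod.fst lam (Pm lam) :=
        ⟨measurable_fst, Measure.AbsolutelyContinuous.rfl⟩
      exact hq1.ae key
    have k2 : ∀ᵐ z ∂lam, ∀ x ∈ FF lam V z.1, p • x ∈ FF lam V z.1 := by
      have hq1 : Measure.QuasiMeasurePreserving Prod.fst lam (Pm lam) :=
        ⟨measurable_fst, Measure.AbsolutelyContinuous.rfl⟩
      exact hq1.ae hp'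
    filter_upwards [k1, k2, hsupp, h3] with z e1 e2 e3 e4
    rcases e1 with e1 | e1
    · exact absurd e1 (infinite_of_inv hp e2 e3 e4)
    · exact e1
  obtain ⟨u, hu⟩ := hUne
  obtain ⟨n, -, hn⟩ := hsub u U hU hu
  have h4 : lam (B ×ˢ V n) = 0 := measure_mono_null (prod_mono_right hn) h0
  have h5 := max_NN lam (V n) hB h4
  have h6 : Pm lam (NN lam (V n)) = 0 := by
    rw [Pm_apply lam (meas_NN lam (V n))]
    rw [ae_iff] at hfull
    refine measure_mono_null ?_ hfull
    rintro z ⟨hz, -⟩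
    simp only [mem_ofPred_eq]
    intro hcon
    obtain ⟨v, hv⟩ := hVne n
    have h7 : v ∈ FF lam V z.1 := by rw [hcon]; exact mem_univ v
    exact h7 n hv hz
  rw [← Pm_apply lam hB]
  refine measure_mono_null ?_ (measure_union_null h5 h6)
  intro ω hω
  by_cases h7 : ω ∈ NN lam (V n)
  · right; exact h7
  · left; exact ⟨hω, h7⟩

end Pool.Agent.V11104.RF
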