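import Mathlib
import Pool.Agent.V11104.RF1

set_option autoImplicit false

open MeasureTheory Filter Topology Set TopologicalSpace ProbabilityTheory
open scoped ENNReal

namespace Pool.Agent.V11104.RF

open Pool.Agent.H705R2 Pool.Agent.W765.Sta

variable {Ω : Type*} [MeasurableSpace Ω]

lemma tor_smul {m : ℕ} (hm : 0 < m) (x : Circ) : IsOfFinAddOrder (m • x) ↔ IsOfFinAddOrder x := by
  constructor
  · intro h
    rw [isOfFinAddOrder_iff_nsmul_eq_zero] at h ⊢
    obtain ⟨k, hk, hk0⟩ := h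
    exact ⟨k * m, Nat.mul_pos hk hm, by rw [mul_smul]; exact hk0⟩
  · intro h
    exact h.nsmul

lemma meas_tor : MeasurableSet {x : Circ | ¬ IsOfFinAddOrder x} := by
  have : {x : Circ | ¬ IsOfFinAddOrder x} = {x : Circ | IsOfFinAddOrder x}ᶜ := rfl
  rw [this]
  exact torsion_countable.measurableSet.compl

/-- The relative form of Furstenberg's theorem for measures. -/
theorem rel {p q : ℕ} (hp : 2 ≤ p) (hq : 2 ≤ q) (h : MulIndep p q) {σ : Ω → Ω}
    {lam : Measure (Ω × Circ)} [IsProbabilityMeasure lam]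
    (h1 : MeasurePreserving (fun z : Ω × Circ => (σ z.1, q • z.2)) lam lam)
    (h2 : MeasurePreserving (fun z : Ω × Circ => (z.1, p • z.2)) lam lam)
    {B : Set Ω} (hB : MeasurableSet B) {U : Set Circ}
    (hU : IsOpen U) (hUne : U.Nonempty)
    (h0 : lam (B ×ˢ (U \ {x | IsOfFinAddOrder x})) = 0) :
    lam (B ×ˢ {x | ¬ IsOfFinAddOrder x}) = 0 := by
  classical
  set E : Set (Ω × Circ) := univ ×ˢ {x | ¬ IsOfFinAddOrder x} with hE
  have hEm : MeasurableSet E := MeasurableSet.univ.prod meas_tor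
  by_cases hc : lam E = 0
  · exact measure_mono_null (prod_mono_left (subset_univ _)) hc
  have hEt : lam E ≠ ⊤ := measure_ne_top _ _
  set lam' : Measure (Ω × Circ) := (lam E)⁻¹ • lam.restrict E with hlam'
  have hprob : IsProbabilityMeasure lam' := by
    refine ⟨?_⟩
    rw [hlam', Measure.smul_apply, Measure.restrict_apply_univ, smul_eq_mul]
    exact ENNReal.inv_mul_cancel hc hEt
  have e1 : (fun z : Ω × Circ => (σ z.1, q • z.2)) ⁻¹' E = E := by
    ext z
    simp only [hE, mem_preimage, mem_prod, mem_univ, true_and, mem_ofPred_eq]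
    rw [tor_smul (by omega)]
  have e2 : (fun z : Ω × Circ => (z.1, p • z.2)) ⁻¹' E = E := by
    ext z
    simp only [hE, mem_preimage, mem_prod, mem_univ, true_and, mem_ofPred_eq]
    rw [tor_smul (by omega)]
  have h1' : MeasurePreserving (fun z : Ω × Circ => (σ z.1, q • z.2)) lam' lam' := by
    have := h1.restrict_preimage hEm
    rw [e1] at this
    exact this.smul_measure _
  have h2' : MeasurePreserving (fun z : Ω × Circ => (z.1, p • z.2)) lam' lam' := by
    have := h2.restrict_preimage hEm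
    rw [e2] at this
    exact this.smul_measure _
  have h3' : ∀ᵐ z ∂lam', ¬ IsOfFinAddOrder z.2 := by
    have : ∀ᵐ z ∂(lam.restrict E), ¬ IsOfFinAddOrder z.2 := by
      rw [ae_restrict_iff' hEm]
      exact Eventually.of_forall fun z hz => hz.2
    rw [hlam']
    exact Measure.ae_smul_measure this _
  have h0' : lam' (B ×ˢ U) = 0 := by
    rw [hlam', Measure.smul_apply, Measure.restrict_apply (hB.prod hU.measurableSet)]
    have : B ×ˢ U ∩ E = B ×ˢ (U \ {x | IsOfFinAddOrder x}) := by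
      ext z
      simp only [hE, mem_inter_iff, mem_prod, mem_univ, true_and, mem_ofPred_eq, Set.mem_sdiff]
      tauto
    rw [this, h0, smul_zero]
  have key := base hp hq h h1' h2' h3' hB hU hUne h0'
  rw [hlam', Measure.smul_apply, Measure.restrict_apply (hB.prod MeasurableSet.univ),
    smul_eq_mul, mul_eq_zero] at key
  rcases key with key | key
  · exact absurd (ENNReal.inv_eq_zero.1 key) hEt
  · have : B ×ˢ (univ : Set Circ) ∩ E = B ×ˢ {x | ¬ IsOfFinAddOrder x} := by
      ext z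
      simp only [hE, mem_inter_iff, mem_prod, mem_univ, true_and, and_true, mem_ofPred_eq]
    rw [this] at key
    exact key

lemma prod_inv {p : ℕ} {P : Measure Ω} [IsProbabilityMeasure P] {κ : Kernel Ω Circ}
    [IsMarkovKernel κ] (h2 : ∀ᵐ ω ∂P, MeasurePreserving (fun x : Circ => p • x) (κ ω) (κ ω)) :
    MeasurePreserving (fun z : Ω × Circ => (z.1, p • z.2)) (P ⊗ₘ κ) (P ⊗ₘ κ) := by
  have hpm : Measurable (fun x : Circ => p • x) := (continuous_nsmul p).measurable
  have hmm : Measurable (fun z : Ω × Circ => (z.1, p • z.2)) :=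
    measurable_fst.prodMk (hpm.comp measurable_snd)
  refine ⟨hmm, ?_⟩
  ext s hs
  rw [Measure.map_apply hmm hs, Measure.compProd_apply (hmm hs), Measure.compProd_apply hs]
  refine lintegral_congr_ae ?_
  filter_upwards [h2] with ω hω
  exact hω.measure_preimage (measurable_prodMk_left hs).nullMeasurableSet

/-- The version for kernels. -/
theorem ker {p q : ℕ} (hp : 2 ≤ p) (hq : 2 ≤ q) (h : MulIndep p q) {σ : Ω → Ω}
    {P : Measure Ω} [IsProbabilityMeasure P] {κ : Kernel Ω Circ} [IsMarkovKernel κ]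
    (h1 : MeasurePreserving (fun z : Ω × Circ => (σ z.1, q • z.2)) (P ⊗ₘ κ) (P ⊗ₘ κ))
    (h2 : ∀ᵐ ω ∂P, MeasurePreserving (fun x : Circ => p • x) (κ ω) (κ ω)) :
    ∀ᵐ ω ∂P, κ ω {x | ¬ IsOfFinAddOrder x} = 0 ∨
      ∀ U : Set Circ, IsOpen U → U.Nonempty → 0 < κ ω (U \ {x | IsOfFinAddOrder x}) := by
  have h2' := prod_inv (p := p) h2
  obtain ⟨b, hbc, hbe, hb⟩ := exists_countable_basis Circ
  have key : ∀ V ∈ b, ∀ᵐ ω ∂P, κ ω {x | ¬ IsOfFinAddOrder x} = 0 ∨
      0 < κ ω (V \ {x | IsOfFinAddOrder x}) := by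
    intro V hV
    have hVo : IsOpen V := hb.isOpen hV
    have hVne : V.Nonempty := by
      rw [nonempty_iff_ne_empty]
      intro hcon
      exact hbe (hcon ▸ hV)
    have hVm : MeasurableSet (V \ {x : Circ | IsOfFinAddOrder x}) :=
      hVo.measurableSet.diff torsion_countable.measurableSet
    set B : Set Ω := {ω | κ ω (V \ {x | IsOfFinAddOrder x}) = 0} with hBdef
    have hBm : MeasurableSet B := (κ.measurable_coe hVm) (measurableSet_singleton 0)
    have h0 : (P ⊗ₘ κ) (B ×ˢ (V \ {x | IsOfFinAddOrder x})) = 0 := by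
      rw [Measure.compProd_apply_prod hBm hVm,
        setLIntegral_congr_fun (g := fun _ => 0) hBm (fun ω hω => hω)]
      simp
    have h3 := rel hp hq h h1 h2' hBm hVo hVne h0
    rw [Measure.compProd_apply_prod hBm meas_tor,
      lintegral_eq_zero_iff (κ.measurable_coe meas_tor)] at h3
    have h4 := (ae_restrict_iff' hBm).1 h3
    filter_upwards [h4] with ω hω
    by_cases hωB : ω ∈ B
    · left; exact hω hωB
    · right; exact pos_iff_ne_zero.2 hωB
  have key' : ∀ᵐ ω ∂P, ∀ V ∈ b, κ ω {x | ¬ IsOfFinAddOrder x} = 0 ∨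
      0 < κ ω (V \ {x | IsOfFinAddOrder x}) := (ae_ball_iff hbc).2 key
  filter_upwards [key'] with ω hω
  by_cases hc : κ ω {x | ¬ IsOfFinAddOrder x} = 0
  · left; exact hc
  · right
    intro U hU hUne
    obtain ⟨u, hu⟩ := hUne
    obtain ⟨V, hV, -, hVU⟩ := hb.exists_subset_of_mem_open hu hU
    rcases hω V hV with h5 | h5
    · exact absurd h5 hc
    · exact h5.trans_le (measure_mono (sdiff_subset_sdiff_left hVU))

/-- The support is finite or everything. -/
theorem ker_supp {p q : ℕ} (hp : 2 ≤ p) (hq : 2 ≤ q) (h : MulIndep p q) {σ : Ω → Ω}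
    {P : Measure Ω} [IsProbabilityMeasure P] {κ : Kernel Ω Circ} [IsMarkovKernel κ]
    (h1 : MeasurePreserving (fun z : Ω × Circ => (σ z.1, q • z.2)) (P ⊗ₘ κ) (P ⊗ₘ κ))
    (h2 : ∀ᵐ ω ∂P, MeasurePreserving (fun x : Circ => p • x) (κ ω) (κ ω)) :
    ∀ᵐ ω ∂P, (∃ A : Set Circ, A.Finite ∧ (∀ x ∈ A, IsOfFinAddOrder x) ∧ κ ω Aᶜ = 0) ∨
      ∀ U : Set Circ, IsOpen U → U.Nonempty → 0 < κ ω U := by
  have h2' := prod_inv (p := p) h2
  obtain ⟨b, hbc, hbe, hb⟩ := exists_countable_basis Circ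
  have hbn : b.Nonempty := by
    by_contra hcon
    rw [not_nonempty_iff_eq_empty] at hcon
    obtain ⟨V, hV, -⟩ := hb.exists_subset_of_mem_open (mem_univ (0 : Circ)) isOpen_univ
    rw [hcon] at hV
    exact hV
  obtain ⟨V, hVb⟩ := hbc.exists_eq_range hbn
  have hVo : ∀ n, IsOpen (V n) := fun n => hb.isOpen (hVb ▸ mem_range_self n)
  have hsub : ∀ (x : Circ) (W : Set Circ), IsOpen W → x ∈ W → ∃ n, x ∈ V n ∧ V n ⊆ W := by
    intro x W hW hx
    obtain ⟨v, hv, hxv, hvW⟩ := hb.exists_subset_of_mem_open hx hW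
    rw [hVb] at hv
    obtain ⟨n, rfl⟩ := hv
    exact ⟨n, hxv, hvW⟩
  obtain ⟨key, hp', hsupp⟩ := supp hp hq h h1 h2' hVo hsub
  have hP : Pm (P ⊗ₘ κ) = P := Measure.fst_compProd P κ
  rw [hP] at key hp'
  have e1 := Measure.ae_ae_of_ae_compProd hsupp
  have e2 : ∀ᵐ ω ∂P, ∀ n, κ ω (V n) = 0 → ω ∈ NN (P ⊗ₘ κ) (V n) := by
    rw [ae_all_iff]; intro n
    have hBm : MeasurableSet {ω | κ ω (V n) = 0} :=
      (κ.measurable_coe (hVo n).measurableSet) (measurableSet_singleton 0)
    have h0 : (P ⊗ₘ κ) ({ω | κ ω (V n) = 0} ×ˢ V n) = 0 := by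
      rw [Measure.compProd_apply_prod hBm (hVo n).measurableSet,
        setLIntegral_congr_fun (g := fun _ => 0) hBm (fun ω hω => hω)]
      simp
    have h3 := max_NN (P ⊗ₘ κ) (V n) hBm h0
    rw [hP] at h3
    rw [ae_iff]
    refine measure_mono_null ?_ h3
    intro ω hω
    simp only [mem_ofPred_eq, Classical.not_imp] at hω
    exact ⟨hω.1, hω.2⟩
  filter_upwards [key, hp', e1, e2] with ω k1 k2 k3 k4
  rcases k1 with k1 | k1
  · left
    refine ⟨FF (P ⊗ₘ κ) V ω, k1, fun x hx => ?_, ?_⟩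
    · by_contra hcon
      exact infinite_of_inv hp k2 hx hcon k1
    · rw [ae_iff] at k3
      exact k3
  · right
    rintro U hU ⟨u, hu⟩
    obtain ⟨n, hun, hn⟩ := hsub u U hU hu
    refine pos_iff_ne_zero.2 fun hcon => ?_
    have h4 : κ ω (V n) = 0 := measure_mono_null hn hcon
    have h5 : u ∈ FF (P ⊗ₘ κ) V ω := by rw [k1]; exact mem_univ u
    exact h5 n hun (k4 n h4)

end Pool.Agent.V11104.RF
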