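import Mathlib
import Pool.Agent.W765.Uni

/-!
# The compact space of probability measures on the circle, with its Borel sets
-/

set_option autoImplicit false

open MeasureTheory Filter Topology Set TopologicalSpace
open scoped ENNReal

namespace Pool.Agent.V11104.UD

open Pool.Agent.H705R2 Pool.Agent.W765.Sta Pool.Agent.W765.KB Pool.Agent.W765.Det

/-- the space of probability measures on the circle -/
def PM : Type := ProbabilityMeasure Circ

noncomputable instance : TopologicalSpace PM := inferInstanceAs (TopologicalSpace (ProbabilityMeasure Circ))
instance : CompactSpace PM := inferInstanceAs (CompactSpace (ProbabilityMeasure Circ))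
instance : MetrizableSpace PM := inferInstanceAs (MetrizableSpace (ProbabilityMeasure Circ))
instance : T2Space PM := inferInstance
noncomputable instance : MeasurableSpace PM := borel PM
instance : BorelSpace PM := ⟨rfl⟩
instance : HasOuterApproxClosed PM := by
  let _ := metrizableSpaceMetric PM
  infer_instance

/-- the underlying measure -/
def ms (m : PM) : Measure Circ := ((show ProbabilityMeasure Circ from m) : Measure Circ)

instance (m : PM) : IsProbabilityMeasure (ms m) := by
  unfold ms; infer_instance

/-- the image under `x ↦ a x` -/
noncomputable def push (a : ℕ) (m : PM) : PM :=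
  (show ProbabilityMeasure Circ from m).map (f := fun x : Circ => a • x)
    (continuous_nsmul a).measurable.aemeasurable

lemma continuous_push (a : ℕ) : Continuous (push a) :=
  ProbabilityMeasure.continuous_map (continuous_nsmul a)

lemma ms_push (a : ℕ) (m : PM) : ms (push a m) = (ms m).map (fun x : Circ => a • x) := rfl

lemma ms_push_apply (a : ℕ) (m : PM) {A : Set Circ} (hA : MeasurableSet A) :
    ms (push a m) A = ms m {x | a • x ∈ A} := by
  rw [ms_push, Measure.map_apply (continuous_nsmul a).measurable hA]; rfl

lemma ms_inj {m m' : PM} (h : ms m = ms m') : m = m' := Subtype.ext h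

lemma ms_iter (q : ℕ) (i : ℕ) (m : PM) :
    ms ((push q)^[i] m) = (ms m).map (fun x : Circ => q ^ i • x) := by
  induction i generalizing m with
  | zero => simp
  | succ i ih =>
    rw [Function.iterate_succ_apply, ih, ms_push, Measure.map_map
      (continuous_nsmul _).measurable (continuous_nsmul _).measurable]
    congr 1
    funext x
    simp only [Function.comp, pow_succ, mul_smul]

lemma ms_iter_apply (q : ℕ) (i : ℕ) (m : PM) {A : Set Circ} (hA : MeasurableSet A) :
    ms ((push q)^[i] m) A = ms m {x | q ^ i • x ∈ A} := by
  rw [ms_iter, Measure.map_apply (continuous_nsmul _).measurable hA]; rfl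

/-- small mass on an open set is a closed condition -/
lemma isClosed_le {G : Set Circ} (hG : IsOpen G) (c : ℝ≥0∞) : IsClosed {m : PM | ms m G ≤ c} := by
  rw [isClosed_iff_ultrafilter]
  intro m u hu hmem
  have key : ∀ (v : Filter (ProbabilityMeasure Circ)) (m' : ProbabilityMeasure Circ), v.NeBot →
      v ≤ 𝓝 m' → (∀ᶠ x : ProbabilityMeasure Circ in v, (x : Measure Circ) G ≤ c) → (m' : Measure Circ) G ≤ c := by
    intro v m' hv h1 h2
    have hlim : Tendsto (fun x : ProbabilityMeasure Circ => x) v (𝓝 m') := h1
    have h1 := ProbabilityMeasure.le_liminf_measure_open_of_tendsto hlim hG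
    refine le_trans h1 ?_
    refine (Filter.liminf_le_liminf (v := fun _ => c) (h2.mono fun L hL => hL)).trans ?_
    simp
  exact key (u : Filter PM) m u.neBot hu hmem

/-- large mass on a closed set is a closed condition -/
lemma isClosed_ge {C : Set Circ} (hC : IsClosed C) (c : ℝ≥0∞) (hc : c ≤ 1) :
    IsClosed {m : PM | c ≤ ms m C} := by
  have : {m : PM | c ≤ ms m C} = {m : PM | ms m Cᶜ ≤ 1 - c} := by
    ext m
    simp only [mem_ofPred_eq]
    rw [prob_compl_eq_one_sub hC.measurableSet]
    constructor
    · intro h; exact tsub_le_tsub_left h 1
    · intro h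
      have h1 : ms m C ≤ 1 := prob_le_one
      have h2 := tsub_le_tsub_left h 1
      rw [ENNReal.sub_sub_cancel ENNReal.one_ne_top hc,
        ENNReal.sub_sub_cancel ENNReal.one_ne_top h1] at h2
      exact h2
  rw [this]
  exact isClosed_le hC.isOpen_compl _

/-- invariance under `x ↦ p x` is a closed condition -/
lemma isClosed_fix (p : ℕ) : IsClosed {m : PM | push p m = m} :=
  isClosed_eq (continuous_push p) continuous_id

lemma push_comm (a b : ℕ) (m : PM) : push a (push b m) = push b (push a m) := by
  apply ms_inj
  rw [ms_push, ms_push, ms_push, ms_push, Measure.map_map (continuous_nsmul _).measurable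
    (continuous_nsmul _).measurable, Measure.map_map (continuous_nsmul _).measurable
    (continuous_nsmul _).measurable]
  congr 1
  funext x
  simp only [Function.comp]
  exact smul_comm _ _ _

lemma iter_fix {p q : ℕ} {m : PM} (h : push p m = m) (i : ℕ) :
    push p ((push q)^[i] m) = (push q)^[i] m := by
  induction i with
  | zero => simpa using h
  | succ i ih => rw [Function.iterate_succ_apply', push_comm, ih]

end Pool.Agent.V11104.UD
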