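import Mathlib
import Pool.Agent.V11104.UD1

/-!
# The exceptional finite sets
-/

set_option autoImplicit false

open MeasureTheory Filter Topology Set TopologicalSpace
open scoped ENNReal

namespace Pool.Agent.V11104.UD

open Pool.Agent.H705R2 Pool.Agent.W765.Sta Pool.Agent.W765.KB Pool.Agent.W765.Det

/-- points with few images under multiplication by powers of `p` -/
def FF (p L : ℕ) : Set Circ := {x | ∃ i j : ℕ, i < j ∧ j ≤ L ∧ p ^ i • x = p ^ j • x}

/-- the points of `FF p L` of order coprime to `r` -/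
def FC (p L r : ℕ) : Set Circ := {x | x ∈ FF p L ∧ 0 < addOrderOf x ∧ (addOrderOf x).Coprime r}

lemma finite_eq {a b : ℕ} (h : a < b) : {x : Circ | a • x = b • x}.Finite := by
  refine (AddCircle.finite_torsion (1 : ℝ) (n := b - a) (by omega)).subset ?_
  intro x hx
  have hx' : a • x = b • x := hx
  have h1 : (b - a) • x + a • x = a • x := by
    rw [← add_smul, Nat.sub_add_cancel h.le, hx']
  simpa using h1

lemma FF_finite {p : ℕ} (hp : 2 ≤ p) (L : ℕ) : (FF p L).Finite := by
  have : FF p L ⊆ ⋃ i ∈ Finset.range (L + 1), ⋃ j ∈ Finset.range (L + 1),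
      {x : Circ | i < j ∧ p ^ i • x = p ^ j • x} := by
    rintro x ⟨i, j, h1, h2, h3⟩
    simp only [mem_iUnion, Finset.mem_range, mem_ofPred_eq, exists_prop]
    exact ⟨i, by omega, j, by omega, h1, h3⟩
  refine Set.Finite.subset (Finset.finite_toSet _ |>.biUnion fun i _ =>
    (Finset.finite_toSet _).biUnion fun j _ => ?_) this
  by_cases h : i < j
  · refine (finite_eq (Nat.pow_lt_pow_right (by omega : 1 < p) h)).subset ?_
    rintro x ⟨-, hx⟩; exact hx
  · convert Set.finite_empty
    ext x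
    simp [h]

lemma FF_smul {p L : ℕ} (a : ℕ) {x : Circ} (hx : x ∈ FF p L) : a • x ∈ FF p L := by
  obtain ⟨i, j, h1, h2, h3⟩ := hx
  refine ⟨i, j, h1, h2, ?_⟩
  rw [smul_comm, h3, smul_comm]

lemma order_smul_dvd (a : ℕ) (x : Circ) : addOrderOf (a • x) ∣ addOrderOf x := by
  rw [addOrderOf_dvd_iff_nsmul_eq_zero, smul_comm, addOrderOf_nsmul_eq_zero, smul_zero]

lemma FC_smul {p L r : ℕ} (a : ℕ) {x : Circ} (hx : x ∈ FC p L r) : a • x ∈ FC p L r := by
  refine ⟨FF_smul a hx.1, ?_, Nat.Coprime.of_dvd_left (order_smul_dvd a x) hx.2.2⟩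
  exact Nat.pos_of_dvd_of_pos (order_smul_dvd a x) hx.2.1

lemma FC_finite {p : ℕ} (hp : 2 ≤ p) (L r : ℕ) : (FC p L r).Finite :=
  (FF_finite hp L).subset fun _ hx => hx.1

/-- the points of `FF p L` are eventually mapped to points of order coprime to `r` -/
lemma FF_to_FC_one {p r : ℕ} (hp : 2 ≤ p) (hr : 2 ≤ r) (L : ℕ) {x : Circ} (hx : x ∈ FF p L) :
    ∃ k, r ^ k • x ∈ FC p L r := by
  have hfin := FF_finite hp L
  have : Finite (FF p L) := hfin.to_subtype
  obtain ⟨k, l, hkl, he⟩ := Finite.exists_ne_map_eq_of_infinite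
    (fun k : ℕ => (⟨r ^ k • x, FF_smul _ hx⟩ : FF p L))
  have he' : r ^ k • x = r ^ l • x := congrArg Subtype.val he
  wlog hlt : k < l generalizing k l
  · exact this l k hkl.symm he.symm he'.symm (by omega)
  refine ⟨k, FF_smul _ hx, ?_⟩
  have h1 : addOrderOf (r ^ k • x) ∣ r ^ (l - k) - 1 := by
    rw [addOrderOf_dvd_iff_nsmul_eq_zero]
    have h2 : (r ^ (l - k) - 1) • (r ^ k • x) + r ^ k • x = r ^ k • x := by
      have h3 : r ^ (l - k) - 1 + 1 = r ^ (l - k) := Nat.sub_add_cancel (Nat.one_le_pow _ _ (by omega))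
      calc (r ^ (l - k) - 1) • (r ^ k • x) + r ^ k • x
          = (r ^ (l - k) - 1 + 1) • (r ^ k • x) := by rw [add_smul, one_smul]
        _ = r ^ l • x := by rw [h3, ← mul_smul, ← pow_add, Nat.sub_add_cancel hlt.le]
        _ = r ^ k • x := he'.symm
    simpa using h2
  have hm : 1 ≤ l - k := by omega
  have h4 : 2 ≤ r ^ (l - k) := le_trans hr (Nat.le_self_pow (by omega) r)
  refine ⟨Nat.pos_of_dvd_of_pos h1 (by omega), Nat.Coprime.of_dvd_left h1 ?_⟩
  have h5 : (r ^ (l - k) - 1).Coprime (r ^ (l - k)) := by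
    have := Nat.coprime_self_sub_right (n := r ^ (l - k)) (m := 1) (by omega)
    have h6 : (r ^ (l - k)).Coprime (r ^ (l - k) - 1) := by
      rw [this]; exact Nat.coprime_one_right _
    exact h6.symm
  exact (Nat.coprime_pow_right_iff (by omega) _ _).1 h5

lemma FF_to_FC {p r : ℕ} (hp : 2 ≤ p) (hr : 2 ≤ r) (L : ℕ) :
    ∃ k, ∀ x ∈ FF p L, r ^ k • x ∈ FC p L r := by
  have h1 : ∀ x : Circ, ∃ k, x ∈ FF p L → r ^ k • x ∈ FC p L r := by
    intro x
    by_cases hx : x ∈ FF p L
    · obtain ⟨k, hk⟩ := FF_to_FC_one hp hr L hx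
      exact ⟨k, fun _ => hk⟩
    · exact ⟨0, fun h => absurd h hx⟩
  choose k hk using h1
  obtain ⟨K, hK⟩ := ((FF_finite hp L).image k).bddAbove
  refine ⟨K, fun x hx => ?_⟩
  have h2 : k x ≤ K := hK (mem_image_of_mem _ hx)
  have h3 : r ^ K • x = r ^ (K - k x) • (r ^ k x • x) := by
    rw [← mul_smul, ← pow_add, Nat.sub_add_cancel h2]
  rw [h3]
  exact FC_smul _ (hk x hx)

/-- invariant sets with at most `L` points lie in `FF p L` -/
lemma sub_FF {p L : ℕ} {S : Set Circ} (hS : ∀ x ∈ S, p • x ∈ S) (hcard : S.encard < L) :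
    S ⊆ FF p L := by
  intro x hx
  have hfin : S.Finite := Set.encard_lt_top_iff.1 (hcard.trans_le le_top)
  have hmem : ∀ i : ℕ, p ^ i • x ∈ S := by
    intro i
    induction i with
    | zero => simpa using hx
    | succ i ih => rw [pow_succ, mul_comm, mul_smul]; exact hS _ ih
  have hc : hfin.toFinset.card < (Finset.range L).card := by
    rw [Finset.card_range]
    rw [hfin.encard_eq_coe_toFinset_card] at hcard
    exact_mod_cast hcard
  obtain ⟨i, hi, j, hj, hij, he⟩ := Finset.exists_ne_map_eq_of_card_lt_of_maps_to hc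
    (f := fun i : ℕ => p ^ i • x) (fun i _ => by simpa using hmem i)
  rw [Finset.mem_range] at hi hj
  rcases lt_or_gt_of_ne hij with h | h
  · exact ⟨i, j, h, by omega, he⟩
  · exact ⟨j, i, h, by omega, he.symm⟩

/-- the support of an invariant measure is invariant -/
lemma supp_inv {p : ℕ} {m : PM} (h : push p m = m) {x : Circ} (hx : x ∈ (ms m).support) :
    p • x ∈ (ms m).support := by
  rw [Measure.mem_support_iff_forall] at hx ⊢
  intro V hV
  have hcont : ContinuousAt (fun x : Circ => p • x) x := (continuous_nsmul p).continuousAt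
  obtain ⟨W, hWV, hWo, hW⟩ := mem_nhds_iff.1 hV
  have h1 := hx _ (hcont.preimage_mem_nhds (hWo.mem_nhds hW))
  have h2 := ms_push_apply p m hWo.measurableSet
  rw [h] at h2
  refine lt_of_lt_of_le ?_ (measure_mono hWV)
  rw [h2]
  exact h1

lemma supp_full (m : PM) : ms m ((ms m).support)ᶜ = 0 :=
  Measure.support_mem_ae

lemma supp_null {m : PM} {U : Set Circ} (hU : IsOpen U) (h0 : ms m U = 0) {x : Circ}
    (hx : x ∈ (ms m).support) : x ∉ U := by
  intro hxU
  rw [Measure.mem_support_iff_forall] at hx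
  exact (hx U (hU.mem_nhds hxU)).ne' h0

/-- the support as a compact set -/
noncomputable def sK (m : PM) : Hyp :=
  ⟨⟨(ms m).support, Measure.isClosed_support.isCompact⟩, by
    by_contra hne
    have h1 : (ms m).support = ∅ := not_nonempty_iff_eq_empty.1 hne
    have h2 := supp_full m
    rw [h1, compl_empty, measure_univ] at h2
    exact one_ne_zero h2⟩

lemma coe_sK (m : PM) : ((sK m : Hyp) : Set Circ) = (ms m).support := rfl

/-- if `q ^ j` times the support is small then the image is carried by `FF p L` -/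
lemma small_supp {p q L j : ℕ} {m : PM} (h : push p m = m)
    (hc : ((fun x : Circ => q ^ j • x) '' (ms m).support).encard < L) :
    ms ((push q)^[j] m) (FF p L)ᶜ = 0 := by
  have h1 : (fun x : Circ => q ^ j • x) '' (ms m).support ⊆ FF p L := by
    refine sub_FF ?_ hc
    rintro _ ⟨x, hx, rfl⟩
    refine ⟨p • x, supp_inv h hx, ?_⟩
    exact smul_comm _ _ _
  have h2 : ((fun x : Circ => q ^ j • x) '' (ms m).support).Finite :=
    Set.encard_lt_top_iff.1 (hc.trans_le le_top)
  have h3 : ms ((push q)^[j] m) ((fun x : Circ => q ^ j • x) '' (ms m).support)ᶜ = 0 := by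
    rw [ms_iter_apply _ _ _ h2.measurableSet.compl]
    refine measure_mono_null ?_ (supp_full m)
    intro x hx hxs
    exact hx ⟨x, hxs, rfl⟩
  exact measure_mono_null (compl_subset_compl.2 h1) h3

end Pool.Agent.V11104.UD
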