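import Mathlib
import Pool.Agent.V11104.UD2

/-!
# The uniform dichotomy
-/

set_option autoImplicit false

open MeasureTheory Filter Topology Set TopologicalSpace
open scoped ENNReal

namespace Pool.Agent.V11104.UD

open Pool.Agent.H705R2 Pool.Agent.W765.Sta Pool.Agent.W765.KB Pool.Agent.W765.Det

open Classical in
lemma emp_compl_le {X : Type*} [MeasurableSpace X] {f : X → X} {x : X} {s n : ℕ} {B : Set X}
    (hB : MeasurableSet B) (hn : 0 < n) {δ : ℝ}
    (h : δ * n ≤ (((Finset.range n).filter (fun i => f^[s + i] x ∈ B)).card : ℝ)) :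
    emp f x s n Bᶜ ≤ ENNReal.ofReal (1 - δ) := by
  rw [emp_apply hB.compl]
  have h3 := Finset.card_filter_add_card_filter_not (s := Finset.range n)
    (fun i => f^[s + i] x ∈ B)
  rw [Finset.card_range] at h3
  simp only [Set.mem_compl_iff]
  set a := ((Finset.range n).filter (fun i => f^[s + i] x ∈ B)).card with ha
  set b := ((Finset.range n).filter (fun i => ¬ f^[s + i] x ∈ B)).card with hb
  have hnR : (0 : ℝ) < n := by exact_mod_cast hn
  have h6 : (b : ℝ) / n ≤ 1 - δ := by
    have h7 : (a : ℝ) + b = n := by exact_mod_cast h3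
    rw [div_le_iff₀ hnR]; nlinarith
  calc ((n : ENNReal))⁻¹ * b = ENNReal.ofReal ((b : ℝ) / n) := by
        rw [ENNReal.ofReal_div_of_pos hnR, ENNReal.ofReal_natCast, ENNReal.ofReal_natCast,
          ENNReal.div_eq_inv_mul]
    _ ≤ ENNReal.ofReal (1 - δ) := ENNReal.ofReal_le_ofReal h6

open Classical in
/-- the mass of a set is bounded by the maximal frequency of visits -/
lemma mass_le {X : Type*} [MeasurableSpace X] {P : Measure X} [IsProbabilityMeasure P] {f : X → X}
    (hf : MeasurePreserving f P P) {B : Set X} (hB : MeasurableSet B) {n : ℕ} (hn : 0 < n) {δ : ℝ}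
    (h : ∀ᵐ x ∂P, (((Finset.range n).filter (fun i => f^[i] x ∈ B)).card : ℝ) ≤ δ * n) :
    P B ≤ ENNReal.ofReal δ := by
  have hnR : (0 : ℝ) < n := by exact_mod_cast hn
  have h1 : (n : ℝ≥0∞) * P B = ∫⁻ x, ∑ i ∈ Finset.range n, B.indicator 1 (f^[i] x) ∂P := by
    rw [lintegral_finsetSum]
    · have h2 : ∀ i ∈ Finset.range n, ∫⁻ x, B.indicator (1 : X → ℝ≥0∞) (f^[i] x) ∂P = P B := by
        intro i _
        have h3 := (hf.iterate i).lintegral_comp (f := B.indicator (1 : X → ℝ≥0∞))
          (measurable_one.indicator hB)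
        rw [h3, lintegral_indicator_one hB]
      rw [Finset.sum_congr rfl h2, Finset.sum_const, Finset.card_range, nsmul_eq_mul]
    · intro i _
      exact (measurable_one.indicator hB).comp (hf.iterate i).measurable
  have h4 : ∫⁻ x, ∑ i ∈ Finset.range n, B.indicator (1 : X → ℝ≥0∞) (f^[i] x) ∂P ≤
      ∫⁻ _, ENNReal.ofReal (δ * n) ∂P := by
    refine lintegral_mono_ae ?_
    filter_upwards [h] with x hx
    have h5 : ∑ i ∈ Finset.range n, B.indicator (1 : X → ℝ≥0∞) (f^[i] x) =
        (((Finset.range n).filter (fun i => f^[i] x ∈ B)).card : ℝ≥0∞) := by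
      rw [Finset.card_filter]
      push_cast
      refine Finset.sum_congr rfl fun i _ => ?_
      simp [indicator]
    rw [h5, ← ENNReal.ofReal_natCast]
    exact ENNReal.ofReal_le_ofReal hx
  rw [← h1, lintegral_const, measure_univ, mul_one, mul_comm δ,
    ENNReal.ofReal_mul hnR.le, ENNReal.ofReal_natCast] at h4
  exact (ENNReal.mul_le_mul_iff_right (by exact_mod_cast hn.ne') (ENNReal.natCast_ne_top n)).1 h4

open Classical in
theorem main {p q : ℕ} (hp : 2 ≤ p) (hq : 2 ≤ q) (h : MulIndep p q) {U : Set Circ}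
    (hU : IsOpen U) (hUne : U.Nonempty) {δ : ℝ} (hδ : 0 < δ) :
    ∃ F : Set Circ, F.Finite ∧ (∀ x ∈ F, p • x ∈ F ∧ q • x ∈ F) ∧
      (∀ x ∈ F, 0 < addOrderOf x ∧ (addOrderOf x).Coprime (p * q)) ∧
      ∀ V : Set Circ, IsOpen V → F ⊆ V → ∀ η : ℝ, 0 < η →
        ∃ c : ℝ, 0 < c ∧ ∃ N : ℕ, ∀ m : PM, push p m = m → ∀ s n : ℕ, N ≤ n →
          (((Finset.range n).filter (fun i => ms ((push q)^[s + i] m) U < ENNReal.ofReal c ∧
            ENNReal.ofReal η < ms ((push q)^[s + i] m) Vᶜ)).card : ℝ) ≤ δ * n := by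
  obtain ⟨M, hM⟩ := uniform hp hq h hU hUne (half_pos hδ)
  set F : Set Circ := FC p M (p * q) with hF
  have hr : 2 ≤ p * q := by nlinarith
  have hFfin : F.Finite := FC_finite hp M (p * q)
  refine ⟨F, hFfin, fun x hx => ⟨FC_smul p hx, FC_smul q hx⟩, fun x hx => hx.2, ?_⟩
  intro V hV hFV η hη
  by_contra hcon
  push Not at hcon
  choose m hm s n hn hcard using fun k : ℕ => hcon (1 / ((k : ℝ) + 1)) (by positivity) (k + 1)
  have hn0 : ∀ L, 0 < n L := fun L => by have := hn L; omega
  have hnt : Tendsto n atTop atTop :=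
    tendsto_atTop_mono (fun L => by have := hn L; simp only [id]; omega) tendsto_id
  have hδ1 : δ < 1 := by
    have h1 := hcard 0
    have h2 : (((Finset.range (n 0)).filter (fun i => ms ((push q)^[s 0 + i] (m 0)) U <
        ENNReal.ofReal (1 / (((0 : ℕ) : ℝ) + 1)) ∧
        ENNReal.ofReal η < ms ((push q)^[s 0 + i] (m 0)) Vᶜ)).card : ℝ) ≤ n 0 := by
      have := Finset.card_filter_le (Finset.range (n 0)) (fun i => ms ((push q)^[s 0 + i] (m 0)) U <
        ENNReal.ofReal (1 / (((0 : ℕ) : ℝ) + 1)) ∧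
        ENNReal.ofReal η < ms ((push q)^[s 0 + i] (m 0)) Vᶜ)
      rw [Finset.card_range] at this
      exact_mod_cast this
    have h3 := h1.trans_le h2
    have h4 : (0 : ℝ) < n 0 := by exact_mod_cast hn0 0
    by_contra h5
    push Not at h5
    nlinarith
  obtain ⟨P, hP, hPi, hPG⟩ := kb2 (continuous_push q) m s n hnt hn0
  -- invariance under `p`
  have hfix : ∀ᵐ μ : PM ∂P, push p μ = μ := by
    rw [ae_iff]
    refine le_antisymm (hPG _ (isClosed_fix p).isOpen_compl 0 (Eventually.of_forall fun L => ?_))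
      zero_le
    rw [emp_eq_zero (isClosed_fix p).isOpen_compl.measurableSet]
    intro i hi
    exact hi (iter_fix (hm L) _)
  -- the bad sets
  set e : ℝ≥0∞ := min (ENNReal.ofReal η) 1 with he
  have he0 : 0 < e := lt_min (ENNReal.ofReal_pos.2 hη) one_pos
  set B : ℕ → Set PM := fun j => {μ | ms μ U ≤ ENNReal.ofReal (1 / ((j : ℝ) + 1))} ∩
    {μ | e ≤ ms μ Vᶜ} with hB
  have hBc : ∀ j, IsClosed (B j) := fun j =>
    (isClosed_le hU _).inter (isClosed_ge hV.isClosed_compl e (min_le_right _ _))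
  have hBanti : Antitone B := by
    intro i j hij μ hμ
    refine ⟨le_trans hμ.1 (ENNReal.ofReal_le_ofReal ?_), hμ.2⟩
    have : (i : ℝ) ≤ j := by exact_mod_cast hij
    exact one_div_le_one_div_of_le (by positivity) (by linarith)
  have hBm : ∀ j, ENNReal.ofReal δ ≤ P (B j) := by
    intro j
    have h1 : P (B j)ᶜ ≤ ENNReal.ofReal (1 - δ) := by
      refine hPG _ (hBc j).isOpen_compl _ ?_
      filter_upwards [eventually_ge_atTop j] with k hk
      refine emp_compl_le (hBc j).measurableSet (hn0 k) ((hcard k).le.trans ?_)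
      have hsub : (Finset.range (n k)).filter (fun i => ms ((push q)^[s k + i] (m k)) U <
          ENNReal.ofReal (1 / ((k : ℝ) + 1)) ∧
          ENNReal.ofReal η < ms ((push q)^[s k + i] (m k)) Vᶜ) ⊆
          (Finset.range (n k)).filter (fun i => (push q)^[s k + i] (m k) ∈ B j) := by
        intro i hi
        rw [Finset.mem_filter] at hi ⊢
        refine ⟨hi.1, hBanti hk ⟨hi.2.1.le, (min_le_left _ _).trans hi.2.2.le⟩⟩
      have h9 := Finset.card_le_card hsub
      refine Nat.cast_le.2 ?_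
      convert h9
    rw [prob_compl_eq_one_sub (hBc j).measurableSet] at h1
    have h2 : P (B j) ≤ 1 := prob_le_one
    have h3 := tsub_le_tsub_left h1 1
    rw [ENNReal.sub_sub_cancel ENNReal.one_ne_top h2] at h3
    refine le_trans ?_ h3
    rw [← ENNReal.ofReal_one, ← ENNReal.ofReal_sub _ (by linarith)]
    exact ENNReal.ofReal_le_ofReal (by linarith)
  have hBi : ENNReal.ofReal δ ≤ P (⋂ j, B j) := by
    rw [hBanti.measure_iInter (fun j => (hBc j).measurableSet.nullMeasurableSet)
      ⟨0, measure_ne_top _ _⟩]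
    exact le_iInf hBm
  have hBi' : ∀ μ ∈ ⋂ j, B j, ms μ U = 0 ∧ 0 < ms μ Vᶜ := by
    intro μ hμ
    rw [mem_iInter] at hμ
    refine ⟨?_, he0.trans_le (hμ 0).2⟩
    refine le_antisymm (ge_of_tendsto' (x := atTop) (f := fun j : ℕ =>
      ENNReal.ofReal (1 / ((j : ℝ) + 1))) ?_ fun j => (hμ j).1) zero_le
    have := ENNReal.tendsto_ofReal (tendsto_one_div_add_atTop_nhds_zero_nat (𝕜 := ℝ))
    simpa using this
  -- forward invariance of the exceptional set
  have hfwd : ∀ (j : ℕ) (μ : PM), ms μ Fᶜ = 0 → ms ((push q)^[j] μ) Fᶜ = 0 := by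
    intro j μ h0
    rw [ms_iter_apply _ _ _ hFfin.measurableSet.compl]
    refine measure_mono_null ?_ h0
    intro x hx hxF
    exact hx (FC_smul _ hxF)
  have hback : ∀ᵐ μ : PM ∂P, ∀ j : ℕ, ms ((push q)^[j] μ) Fᶜ = 0 → ms μ Fᶜ = 0 := by
    rw [ae_all_iff]
    intro j
    set D : Set PM := {μ | ms μ Fᶜ ≤ 0} with hD
    have hDm : MeasurableSet D := (isClosed_le hFfin.isClosed.isOpen_compl 0).measurableSet
    have h1 : D ⊆ (push q)^[j] ⁻¹' D := by
      intro μ hμ
      have : ms μ Fᶜ = 0 := le_antisymm hμ zero_le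
      exact (hfwd j μ this).le
    have h2 : P ((push q)^[j] ⁻¹' D) = P D :=
      (hPi.iterate j).measure_preimage hDm.nullMeasurableSet
    have h3 : P ((push q)^[j] ⁻¹' D \ D) = 0 := by
      rw [measure_sdiff h1 hDm.nullMeasurableSet (measure_ne_top _ _), h2, tsub_self]
    rw [ae_iff]
    refine measure_mono_null ?_ h3
    intro μ hμ
    simp only [mem_ofPred_eq, Classical.not_imp] at hμ
    refine ⟨hμ.1.le, fun h4 => hμ.2 (le_antisymm h4 zero_le)⟩
  obtain ⟨k0, hk0⟩ := FF_to_FC (r := p * q) hp hr M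
  have hcount : ∀ᵐ μ : PM ∂P, (((Finset.range (M + 1)).filter
      (fun i => (push q)^[i] μ ∈ ⋂ j, B j)).card : ℝ) ≤ δ / 2 * ((M + 1 : ℕ) : ℝ) := by
    filter_upwards [hfix, hback] with μ h1 h2
    by_cases h3 : ms μ Fᶜ = 0
    · have h4 : (Finset.range (M + 1)).filter (fun i => (push q)^[i] μ ∈ ⋂ j, B j) = ∅ := by
        refine Finset.filter_false_of_mem fun i _ hi => ?_
        have h5 := (hBi' _ hi).2
        have h6 := hfwd i μ h3
        exact h5.ne' (measure_mono_null (compl_subset_compl.2 hFV) h6)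
      rw [h4]
      simp only [Finset.card_empty, Nat.cast_zero]
      positivity
    · have h4 : ∀ j : ℕ, (M : ℕ∞) ≤ ((fun x : Circ => q ^ j • x) '' ((sK μ : Hyp) : Set Circ)).encard := by
        intro j
        by_contra h5
        push Not at h5
        rw [coe_sK] at h5
        have h6 := small_supp h1 h5
        refine h3 (h2 (k0 + j) ?_)
        have h7 : (push p)^[k0] ((push q)^[j] μ) = (push q)^[j] μ := by
          have h8 := iter_fix (q := q) h1 j
          exact Function.IsFixedPt.iterate h8 k0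
        rw [Function.iterate_add_apply, ← h7, ms_iter_apply _ _ _ hFfin.measurableSet.compl]
        have h9 : MeasurableSet {x : Circ | q ^ k0 • x ∈ Fᶜ} :=
          (continuous_nsmul (q ^ k0)).measurable hFfin.measurableSet.compl
        rw [ms_iter_apply _ _ _ h9]
        refine measure_mono_null ?_ h6
        intro x hx hxF
        refine hx ?_
        have h10 := hk0 x hxF
        rw [mul_pow, mul_comm (p ^ k0), mul_smul] at h10
        exact h10
      refine le_trans ?_ (hM (sK μ) (fun x hx => supp_inv h1 hx) h4 0 (M + 1) (by omega))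
      have hsub : (Finset.range (M + 1)).filter (fun i => (push q)^[i] μ ∈ ⋂ j, B j) ⊆
          (Finset.range (M + 1)).filter
            (fun i => ∀ x ∈ ((sK μ : Hyp) : Set Circ), q ^ (0 + i) • x ∉ U) := by
        intro i hi
        rw [Finset.mem_filter] at hi ⊢
        refine ⟨hi.1, fun x hx hxU => ?_⟩
        have h5 := (hBi' _ hi.2).1
        rw [ms_iter_apply _ _ _ hU.measurableSet] at h5
        rw [zero_add] at hxU
        exact supp_null (hU.preimage (continuous_nsmul (q ^ i))) h5 hx hxU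
      exact_mod_cast Finset.card_le_card hsub
  have hBim : MeasurableSet (⋂ j, B j) := MeasurableSet.iInter fun j => (hBc j).measurableSet
  have h1 := mass_le hPi hBim (Nat.succ_pos M) hcount
  have h2 := hBi.trans h1
  rw [ENNReal.ofReal_le_ofReal_iff (by positivity)] at h2
  linarith

end Pool.Agent.V11104.UD
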