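import Mathlib

/-!
# A factor map between subshifts without a continuous compensation function

`X` consists of the binary sequences, the sequences with exactly one symbol `2`, and, for every
`n ≥ 1`, the orbit of the periodic sequence in which the concatenation of all binary words of length
`n` is followed by one symbol `2`.  The factor map sends `0, 1` to `0` and `2` to `1`.
-/

set_option autoImplicit false

namespace Pool.Agent.V11104.CF

open Finset

/-- The shift. -/
def S : (ℤ → ℕ) → (ℤ → ℕ) := fun z m => z (m + 1)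

lemma S_iter (j : ℕ) (x : ℤ → ℕ) : S^[j] x = fun m => x (m + j) := by
  induction j generalizing x with
  | zero => simp
  | succ j ih =>
    rw [Function.iterate_succ_apply, ih]
    funext m
    simp only [S]
    congr 1
    push_cast
    ring

/-- The period. -/
def p (n : ℕ) : ℕ := n * 2 ^ n + 1

lemma p_pos (n : ℕ) : 0 < p n := by unfold p; omega

lemma lt_p (n : ℕ) : n < p n := by
  unfold p
  have : 1 ≤ 2 ^ n := Nat.one_le_two_pow
  nlinarith

lemma p_strictMono : StrictMono p := by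
  apply strictMono_nat_of_lt_succ
  intro n
  unfold p
  have : 2 ^ (n + 1) = 2 * 2 ^ n := by ring
  have h1 : 1 ≤ 2 ^ n := Nat.one_le_two_pow
  rw [this]
  nlinarith

/-- The periodic sequences of the big subshift. -/
def per (n : ℕ) : ℤ → ℕ := fun i =>
  if (p n : ℤ) ∣ i then 2
  else (Nat.testBit (((i % (p n : ℤ)).toNat - 1) / n) (((i % (p n : ℤ)).toNat - 1) % n)).toNat

/-- The periodic sequences of the small subshift. -/
def q (n : ℕ) : ℤ → ℕ := fun i => if (p n : ℤ) ∣ i then 1 else 0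

lemma per_lt (n : ℕ) (i : ℤ) : per n i < 3 := by
  unfold per
  split_ifs
  · norm_num
  · have := Bool.toNat_le (Nat.testBit (((i % (p n : ℤ)).toNat - 1) / n) (((i % (p n : ℤ)).toNat - 1) % n))
    omega

lemma per_eq_two (n : ℕ) (i : ℤ) : per n i = 2 ↔ (p n : ℤ) ∣ i := by
  unfold per
  split_ifs with h
  · simp [h]
  · have := Bool.toNat_le (Nat.testBit (((i % (p n : ℤ)).toNat - 1) / n) (((i % (p n : ℤ)).toNat - 1) % n))
    constructor
    · intro h'; omega
    · intro h'; exact absurd h' h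

lemma q_eq_one (n : ℕ) (i : ℤ) : q n i = 1 ↔ (p n : ℤ) ∣ i := by
  unfold q
  split_ifs with h <;> simp [h]

lemma q_lt (n : ℕ) (i : ℤ) : q n i < 2 := by
  unfold q; split_ifs <;> norm_num

lemma per_add (n : ℕ) (i : ℤ) : per n (i + p n) = per n i := by
  unfold per
  have h1 : ((p n : ℤ) ∣ i + p n) ↔ ((p n : ℤ) ∣ i) := by
    constructor
    · intro h; exact (Int.dvd_add_left (dvd_refl _)).1 h
    · intro h; exact dvd_add h (dvd_refl _)
  have h2 : (i + (p n : ℤ)) % (p n : ℤ) = i % (p n : ℤ) := by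
    simp
  simp only [h1, h2]

lemma per_add_mul (n : ℕ) (i : ℤ) (k : ℤ) : per n (i + k * p n) = per n i := by
  unfold per
  have h1 : ((p n : ℤ) ∣ i + k * p n) ↔ ((p n : ℤ) ∣ i) := by
    constructor
    · intro h; exact (Int.dvd_add_left (Dvd.intro_left k rfl)).1 h
    · intro h; exact dvd_add h (Dvd.intro_left k rfl)
  have h2 : (i + k * (p n : ℤ)) % (p n : ℤ) = i % (p n : ℤ) := by
    simp
  simp only [h1, h2]

/-- The factor map. -/
def fac : (ℤ → ℕ) → (ℤ → ℕ) := fun x i => if x i = 2 then 1 else 0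

lemma fac_per (n : ℕ) (a : ℤ) : fac (fun i => per n (i - a)) = fun i => q n (i - a) := by
  funext i
  simp only [fac, q, per_eq_two]

/-- The big subshift. -/
def X : Set (ℤ → ℕ) := {x | (∀ i, x i < 3) ∧ ∀ a b, a < b → x a = 2 → x b = 2 →
  ∃ n : ℕ, 1 ≤ n ∧ (p n : ℤ) ≤ b - a ∧ x = fun i => per n (i - a)}

/-- The small subshift. -/
def Y : Set (ℤ → ℕ) := {y | (∀ i, y i < 2) ∧ ∀ a b, a < b → y a = 1 → y b = 1 →
  ∃ n : ℕ, 1 ≤ n ∧ (p n : ℤ) ≤ b - a ∧ y = fun i => q n (i - a)}

lemma per_mem (n : ℕ) (hn : 1 ≤ n) (c : ℤ) : (fun i => per n (i - c)) ∈ X := by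
  refine ⟨fun i => per_lt n _, fun a b hab ha hb => ?_⟩
  rw [per_eq_two] at ha hb
  obtain ⟨u, hu⟩ := ha
  obtain ⟨v, hv⟩ := hb
  refine ⟨n, hn, ?_, ?_⟩
  · have h1 : b - a = (p n : ℤ) * (v - u) := by
      have : b - a = (b - c) - (a - c) := by ring
      rw [this, hu, hv]; ring
    have h2 : 0 < (p n : ℤ) * (v - u) := by rw [← h1]; omega
    have h3 : 0 < (p n : ℤ) := by exact_mod_cast p_pos n
    have h4 : 0 < v - u := by
      by_contra h
      have : (p n : ℤ) * (v - u) ≤ 0 := mul_nonpos_of_nonneg_of_nonpos h3.le (by omega)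
      omega
    rw [h1]
    nlinarith
  · funext i
    have : i - c = (i - a) + u * (p n : ℤ) := by
      have : i - c = (i - a) + (a - c) := by ring
      rw [this, hu]; ring
    rw [this, per_add_mul]

lemma q_mem (n : ℕ) (hn : 1 ≤ n) (c : ℤ) : (fun i => q n (i - c)) ∈ Y := by
  refine ⟨fun i => q_lt n _, fun a b hab ha hb => ?_⟩
  rw [q_eq_one] at ha hb
  have hX := (per_mem n hn c).2 a b hab ((per_eq_two n _).2 ha) ((per_eq_two n _).2 hb)
  obtain ⟨m, hm, h1, h2⟩ := hX
  refine ⟨m, hm, h1, ?_⟩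
  have := congrArg fac h2
  rwa [fac_per, fac_per] at this

lemma X_closed : IsClosed X := by
  have : X = (⋂ i : ℤ, {x : ℤ → ℕ | x i < 3}) ∩ ⋂ a : ℤ, ⋂ b : ℤ, ⋂ _ : a < b,
      ({x : ℤ → ℕ | x a ≠ 2} ∪ {x | x b ≠ 2} ∪
        ((fun n : ℕ => fun i => per n (i - a)) '' {n : ℕ | 1 ≤ n ∧ (p n : ℤ) ≤ b - a})) := by
    ext x
    simp only [X, Set.mem_ofPred_eq, Set.mem_inter_iff, Set.mem_iInter, Set.mem_union, Set.mem_image]
    constructor
    · rintro ⟨h1, h2⟩
      refine ⟨h1, fun a b hab => ?_⟩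
      rcases Classical.em (x a = 2) with ha | ha
      · rcases Classical.em (x b = 2) with hb | hb
        · obtain ⟨n, hn, h3, h4⟩ := h2 a b hab ha hb
          exact Or.inr ⟨n, ⟨hn, h3⟩, h4.symm⟩
        · exact Or.inl (Or.inr hb)
      · exact Or.inl (Or.inl ha)
    · rintro ⟨h1, h2⟩
      refine ⟨h1, fun a b hab ha hb => ?_⟩
      rcases h2 a b hab with (h | h) | ⟨n, ⟨hn, h3⟩, h4⟩
      · exact absurd ha h
      · exact absurd hb h
      · exact ⟨n, hn, h3, h4.symm⟩
  rw [this]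
  have hc : ∀ (i : ℤ) (A : Set ℕ), IsClosed {x : ℤ → ℕ | x i ∈ A} := fun i A =>
    (isClosed_discrete A).preimage (continuous_apply i)
  refine IsClosed.inter (isClosed_iInter fun i => hc i (Set.Iio 3)) ?_
  refine isClosed_iInter fun a => isClosed_iInter fun b => isClosed_iInter fun _ => ?_
  refine IsClosed.union (IsClosed.union (hc a {2}ᶜ) (hc b {2}ᶜ)) ?_
  refine (Set.Finite.image _ ?_).isClosed
  refine Set.Finite.subset (Set.finite_Iio ((b - a).toNat)) ?_
  rintro n ⟨_, hn⟩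
  have := lt_p n
  simp only [Set.mem_Iio]
  omega

lemma Y_closed : IsClosed Y := by
  have : Y = (⋂ i : ℤ, {x : ℤ → ℕ | x i < 2}) ∩ ⋂ a : ℤ, ⋂ b : ℤ, ⋂ _ : a < b,
      ({x : ℤ → ℕ | x a ≠ 1} ∪ {x | x b ≠ 1} ∪
        ((fun n : ℕ => fun i => q n (i - a)) '' {n : ℕ | 1 ≤ n ∧ (p n : ℤ) ≤ b - a})) := by
    ext x
    simp only [Y, Set.mem_ofPred_eq, Set.mem_inter_iff, Set.mem_iInter, Set.mem_union, Set.mem_image]
    constructor
    · rintro ⟨h1, h2⟩
      refine ⟨h1, fun a b hab => ?_⟩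
      rcases Classical.em (x a = 1) with ha | ha
      · rcases Classical.em (x b = 1) with hb | hb
        · obtain ⟨n, hn, h3, h4⟩ := h2 a b hab ha hb
          exact Or.inr ⟨n, ⟨hn, h3⟩, h4.symm⟩
        · exact Or.inl (Or.inr hb)
      · exact Or.inl (Or.inl ha)
    · rintro ⟨h1, h2⟩
      refine ⟨h1, fun a b hab ha hb => ?_⟩
      rcases h2 a b hab with (h | h) | ⟨n, ⟨hn, h3⟩, h4⟩
      · exact absurd ha h
      · exact absurd hb h
      · exact ⟨n, hn, h3, h4.symm⟩
  rw [this]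
  have hc : ∀ (i : ℤ) (A : Set ℕ), IsClosed {x : ℤ → ℕ | x i ∈ A} := fun i A =>
    (isClosed_discrete A).preimage (continuous_apply i)
  refine IsClosed.inter (isClosed_iInter fun i => hc i (Set.Iio 2)) ?_
  refine isClosed_iInter fun a => isClosed_iInter fun b => isClosed_iInter fun _ => ?_
  refine IsClosed.union (IsClosed.union (hc a {1}ᶜ) (hc b {1}ᶜ)) ?_
  refine (Set.Finite.image _ ?_).isClosed
  refine Set.Finite.subset (Set.finite_Iio ((b - a).toNat)) ?_
  rintro n ⟨_, hn⟩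
  have := lt_p n
  simp only [Set.mem_Iio]
  omega

lemma X_shift (x : ℤ → ℕ) : x ∈ X ↔ (fun m : ℤ => x (m + 1)) ∈ X := by
  constructor
  · rintro ⟨h1, h2⟩
    refine ⟨fun i => h1 _, fun a b hab ha hb => ?_⟩
    obtain ⟨n, hn, h3, h4⟩ := h2 (a + 1) (b + 1) (by omega) ha hb
    refine ⟨n, hn, by omega, ?_⟩
    funext i
    rw [h4]
    simp
  · rintro ⟨h1, h2⟩
    refine ⟨fun i => ?_, fun a b hab ha hb => ?_⟩
    · have := h1 (i - 1)
      simpa using this
    · obtain ⟨n, hn, h3, h4⟩ := h2 (a - 1) (b - 1) (by omega) (by simpa using ha) (by simpa using hb)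
      refine ⟨n, hn, by omega, ?_⟩
      funext i
      have := congrFun h4 (i - 1)
      simpa using this

lemma Y_shift (x : ℤ → ℕ) : x ∈ Y ↔ (fun m : ℤ => x (m + 1)) ∈ Y := by
  constructor
  · rintro ⟨h1, h2⟩
    refine ⟨fun i => h1 _, fun a b hab ha hb => ?_⟩
    obtain ⟨n, hn, h3, h4⟩ := h2 (a + 1) (b + 1) (by omega) ha hb
    refine ⟨n, hn, by omega, ?_⟩
    funext i
    rw [h4]
    simp
  · rintro ⟨h1, h2⟩
    refine ⟨fun i => ?_, fun a b hab ha hb => ?_⟩
    · have := h1 (i - 1)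
      simpa using this
    · obtain ⟨n, hn, h3, h4⟩ := h2 (a - 1) (b - 1) (by omega) (by simpa using ha) (by simpa using hb)
      refine ⟨n, hn, by omega, ?_⟩
      funext i
      have := congrFun h4 (i - 1)
      simpa using this

lemma fac_cont : Continuous fac := by
  refine continuous_pi fun i => ?_
  exact (continuous_of_discreteTopology (f := fun v : ℕ => if v = 2 then 1 else 0)).comp
    (continuous_apply i)

lemma fac_maps : Set.MapsTo fac X Y := by
  rintro x ⟨h1, h2⟩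
  refine ⟨fun i => ?_, fun a b hab ha hb => ?_⟩
  · simp only [fac]; split_ifs <;> norm_num
  · have ha' : x a = 2 := by
      by_contra h; simp [fac, h] at ha
    have hb' : x b = 2 := by
      by_contra h; simp [fac, h] at hb
    obtain ⟨n, hn, h3, h4⟩ := h2 a b hab ha' hb'
    refine ⟨n, hn, h3, ?_⟩
    rw [h4, fac_per]

lemma fac_surj : Set.SurjOn fac X Y := by
  rintro y ⟨h1, h2⟩
  rcases Classical.em (∃ a b, a < b ∧ y a = 1 ∧ y b = 1) with ⟨a, b, hab, ha, hb⟩ | h
  · obtain ⟨n, hn, h3, h4⟩ := h2 a b hab ha hb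
    refine ⟨fun i => per n (i - a), per_mem n hn a, ?_⟩
    rw [fac_per, h4]
  · refine ⟨fun i => 2 * y i, ⟨fun i => ?_, fun a b hab ha hb => ?_⟩, ?_⟩
    · have := h1 i
      show 2 * y i < 3
      omega
    · have ha' : 2 * y a = 2 := ha
      have hb' : 2 * y b = 2 := hb
      exact absurd ⟨a, b, hab, by omega, by omega⟩ h
    · funext i
      have := h1 i
      simp only [fac]
      split_ifs <;> omega

lemma X_compact : IsCompact X := by
  have h : IsCompact (Set.univ.pi fun _ : ℤ => (Set.Iio 3 : Set ℕ)) :=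
    isCompact_univ_pi fun _ => (Set.finite_Iio 3).isCompact
  refine h.of_isClosed_subset X_closed ?_
  rintro x ⟨h1, _⟩ i _
  exact h1 i

lemma iter_mem {x : ℤ → ℕ} (hx : x ∈ X) (j : ℕ) : S^[j] x ∈ X := by
  induction j with
  | zero => simpa using hx
  | succ j ih =>
    rw [Function.iterate_succ_apply']
    exact (X_shift _).1 ih

lemma iter_memY {x : ℤ → ℕ} (hx : x ∈ Y) (j : ℕ) : S^[j] x ∈ Y := by
  induction j with
  | zero => simpa using hx
  | succ j ih =>
    rw [Function.iterate_succ_apply']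
    exact (Y_shift _).1 ih

lemma fac_iter (x : ℤ → ℕ) (j : ℕ) : fac (S^[j] x) = S^[j] (fac x) := by
  rw [S_iter, S_iter]
  rfl

end Pool.Agent.V11104.CF
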