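import Mathlib
import Pool.Agent.V11104.CF1

/-!
# Partition sums
-/

set_option autoImplicit false

namespace Pool.Agent.V11104.CF

open Finset

/-- The weight of a point. -/
noncomputable def wt (g : (ℤ → ℕ) → ℝ) (n : ℕ) (x : ℤ → ℕ) : ℝ :=
  Real.exp (∑ j ∈ Finset.range n, g (S^[j] x))

/-- The partition sum. -/
noncomputable def Z (A : Set (ℤ → ℕ)) (g : (ℤ → ℕ) → ℝ) (n : ℕ) : ℝ :=
  ∑ w : Fin n → Fin 3, sSup (wt g n '' {x : ℤ → ℕ | x ∈ A ∧ ∀ i : Fin n, x ((i : ℕ) : ℤ) = ((w i : ℕ))})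

lemma wt_pos (g : (ℤ → ℕ) → ℝ) (n : ℕ) (x : ℤ → ℕ) : 0 < wt g n x := Real.exp_pos _

lemma wt_le (g : (ℤ → ℕ) → ℝ) (n : ℕ) (x : ℤ → ℕ) (B : ℝ) (h : ∀ j < n, g (S^[j] x) ≤ B) :
    wt g n x ≤ Real.exp (n * B) := by
  unfold wt
  apply Real.exp_le_exp.2
  calc ∑ j ∈ Finset.range n, g (S^[j] x) ≤ ∑ _j ∈ Finset.range n, B :=
        Finset.sum_le_sum fun j hj => h j (Finset.mem_range.1 hj)
    _ = n * B := by simp

lemma sSup_nonneg' (A : Set (ℤ → ℕ)) (g : (ℤ → ℕ) → ℝ) (n : ℕ) (w : Fin n → Fin 3) :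
    0 ≤ sSup (wt g n '' {x : ℤ → ℕ | x ∈ A ∧ ∀ i : Fin n, x ((i : ℕ) : ℤ) = ((w i : ℕ))}) := by
  apply Real.sSup_nonneg
  rintro _ ⟨x, _, rfl⟩
  exact (wt_pos g n x).le

/-- Lower bound by the points of pairwise different words. -/
lemma Z_ge {ι : Type*} (A : Set (ℤ → ℕ)) (g : (ℤ → ℕ) → ℝ) (n : ℕ) (B : ℝ)
    (hB : ∀ x ∈ A, ∀ j : ℕ, g (S^[j] x) ≤ B) (s : Finset ι) (pt : ι → (ℤ → ℕ))
    (w : ι → (Fin n → Fin 3)) (hpt : ∀ b ∈ s, pt b ∈ A)
    (hw : ∀ b ∈ s, ∀ i : Fin n, pt b ((i : ℕ) : ℤ) = (w b i : ℕ))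
    (hinj : Set.InjOn w (s : Set ι)) :
    ∑ b ∈ s, wt g n (pt b) ≤ Z A g n := by
  classical
  unfold Z
  calc ∑ b ∈ s, wt g n (pt b) ≤ ∑ b ∈ s, sSup (wt g n '' {x : ℤ → ℕ | x ∈ A ∧
        ∀ i : Fin n, x ((i : ℕ) : ℤ) = ((w b i : ℕ))}) := by
        refine Finset.sum_le_sum fun b hb => ?_
        refine le_csSup ⟨Real.exp (n * B), ?_⟩ ⟨pt b, ⟨hpt b hb, hw b hb⟩, rfl⟩
        rintro _ ⟨x, ⟨hx, _⟩, rfl⟩
        exact wt_le g n x B fun j _ => hB x hx j
    _ = ∑ u ∈ s.image w, sSup (wt g n '' {x : ℤ → ℕ | x ∈ A ∧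
        ∀ i : Fin n, x ((i : ℕ) : ℤ) = ((u i : ℕ))}) := by
        rw [Finset.sum_image hinj]
    _ ≤ _ := by
        apply Finset.sum_le_sum_of_subset_of_nonneg (Finset.subset_univ _)
        intro u _ _
        exact sSup_nonneg' A g n u

/-- The bits of a word. -/
def bits (n : ℕ) (b : ℕ) : Fin n → Fin 3 := fun i =>
  ⟨(Nat.testBit b i).toNat, by have := Bool.toNat_le (Nat.testBit b i); omega⟩

lemma bits_inj (n : ℕ) : Set.InjOn (bits n) (Finset.range (2 ^ n) : Set ℕ) := by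
  intro b hb c hc h
  simp only [Finset.coe_range, Set.mem_Iio] at hb hc
  apply Nat.eq_of_testBit_eq
  intro i
  rcases lt_or_ge i n with hi | hi
  · have := congrArg Fin.val (congrFun h ⟨i, hi⟩)
    simp only [bits] at this
    revert this
    cases Nat.testBit b i <;> cases Nat.testBit c i <;> simp
  · have h2 : 2 ^ n ≤ 2 ^ i := Nat.pow_le_pow_right (by norm_num) hi
    rw [Nat.testBit_lt_two_pow (lt_of_lt_of_le hb h2), Nat.testBit_lt_two_pow (lt_of_lt_of_le hc h2)]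

/-- The point of the periodic orbit which starts with the word number `b`. -/
def blk (n b : ℕ) : ℤ → ℕ := fun i => per n (i - (-(1 + n * b : ℤ)))

lemma blk_mem (n b : ℕ) (hn : 1 ≤ n) : blk n b ∈ X := per_mem n hn _

lemma blk_word (n b : ℕ) (hb : b < 2 ^ n) (i : Fin n) : blk n b ((i : ℕ) : ℤ) = (bits n b i : ℕ) := by
  have hi := i.2
  have hlt : 1 + n * b + (i : ℕ) < p n := by
    unfold p
    have : n * b + n ≤ n * 2 ^ n := by
      calc n * b + n = n * (b + 1) := by ring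
        _ ≤ n * 2 ^ n := Nat.mul_le_mul_left _ hb
    omega
  have h1 : ((i : ℕ) : ℤ) - (-(1 + n * b : ℤ)) = ((1 + n * b + (i : ℕ) : ℕ) : ℤ) := by
    push_cast; ring
  have h2 : (((1 + n * b + (i : ℕ) : ℕ) : ℤ) % (p n : ℤ)).toNat = 1 + n * b + (i : ℕ) := by
    rw [← Int.natCast_mod, Int.toNat_natCast, Nat.mod_eq_of_lt hlt]
  have h3 : ¬ ((p n : ℤ) ∣ ((1 + n * b + (i : ℕ) : ℕ) : ℤ)) := by
    rw [Int.natCast_dvd_natCast]
    intro h
    have := Nat.le_of_dvd (by omega) h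
    omega
  have h4 : 1 + n * b + (i : ℕ) - 1 = n * b + (i : ℕ) := by omega
  have h5 : (n * b + (i : ℕ)) / n = b := by
    rw [Nat.mul_add_div (by omega), Nat.div_eq_of_lt hi]; rfl
  have h6 : (n * b + (i : ℕ)) % n = i := by
    rw [Nat.mul_add_mod, Nat.mod_eq_of_lt hi]
  unfold blk per
  rw [h1, if_neg h3, h2, h4, h5, h6]
  rfl

lemma sum_range_mul' (f : ℕ → ℝ) (n m : ℕ) :
    ∑ i ∈ Finset.range (n * m), f i = ∑ b ∈ Finset.range m, ∑ j ∈ Finset.range n, f (n * b + j) := by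
  induction m with
  | zero => simp
  | succ m ih =>
    rw [Finset.sum_range_succ, ← ih, Nat.mul_succ, Finset.sum_range_add]

/-- The total of a function over the periodic orbit. -/
noncomputable def tot (F : (ℤ → ℕ) → ℝ) (n : ℕ) : ℝ := ∑ r ∈ Finset.range (p n), F (S^[r] (per n))

lemma blk_iter (n b j : ℕ) : S^[j] (blk n b) = S^[n * b + j + 1] (per n) := by
  rw [S_iter, S_iter]
  funext m
  simp only [blk]
  congr 1
  push_cast
  ring

lemma tot_eq (F : (ℤ → ℕ) → ℝ) (n : ℕ) :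
    tot F n = ∑ b ∈ Finset.range (2 ^ n), ∑ j ∈ Finset.range n, F (S^[j] (blk n b)) + F (per n) := by
  unfold tot p
  rw [Finset.sum_range_succ', sum_range_mul' (fun i => F (S^[i + 1] (per n)))]
  simp [blk_iter]

/-- Step C. -/
lemma Z_lower (F : (ℤ → ℕ) → ℝ) (B : ℝ) (hB : ∀ x ∈ X, |F x| ≤ B) (n : ℕ) (hn : 1 ≤ n)
    (ht : 0 ≤ tot F n) : (2 : ℝ) ^ n * Real.exp (-B) ≤ Z X F n := by
  have hB0 : 0 ≤ B := le_trans (abs_nonneg _) (hB _ (blk_mem n 0 hn))
  have h1 : ∑ b ∈ Finset.range (2 ^ n), wt F n (blk n b) ≤ Z X F n := by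
    refine Z_ge X F n B (fun x hx j => (le_abs_self _).trans (hB _ (iter_mem hx j)))
      (Finset.range (2 ^ n)) (blk n) (bits n) (fun b _ => blk_mem n b hn)
      (fun b hb i => blk_word n b (Finset.mem_range.1 hb) i) (bits_inj n)
  refine le_trans ?_ h1
  set s : ℕ → ℝ := fun b => ∑ j ∈ Finset.range n, F (S^[j] (blk n b)) with hs
  set N : ℝ := (2 : ℝ) ^ n with hN
  have hNpos : 1 ≤ N := one_le_pow₀ (by norm_num)
  have hsum : -B ≤ ∑ b ∈ Finset.range (2 ^ n), s b := by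
    have h2 := tot_eq F n
    have h3 : |F (per n)| ≤ B := by
      have := hB _ (per_mem n hn 0)
      simpa using this
    have h4 := (abs_le.1 h3).2
    rw [hs]
    linarith
  set mu : ℝ := (∑ b ∈ Finset.range (2 ^ n), s b) / N with hmu
  have hmu' : -B ≤ mu := by
    rw [hmu, le_div_iff₀ (by linarith)]
    nlinarith
  have h5 : ∀ b, Real.exp mu * (1 + (s b - mu)) ≤ wt F n (blk n b) := by
    intro b
    have : wt F n (blk n b) = Real.exp mu * Real.exp (s b - mu) := by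
      rw [← Real.exp_add]; unfold wt; congr 1; rw [hs]; ring
    rw [this]
    apply mul_le_mul_of_nonneg_left _ (Real.exp_pos _).le
    have := Real.add_one_le_exp (s b - mu)
    linarith
  have h6 : ∑ b ∈ Finset.range (2 ^ n), Real.exp mu * (1 + (s b - mu)) = N * Real.exp mu := by
    rw [← Finset.mul_sum, Finset.sum_add_distrib, Finset.sum_sub_distrib]
    have : ∑ b ∈ Finset.range (2 ^ n), s b = mu * N := by
      rw [hmu]; field_simp
    rw [this]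
    simp only [Finset.sum_const, Finset.card_range, nsmul_eq_mul, Nat.cast_pow, Nat.cast_ofNat]
    rw [← hN]
    ring
  calc N * Real.exp (-B) ≤ N * Real.exp mu := by
        apply mul_le_mul_of_nonneg_left _ (by linarith)
        exact Real.exp_le_exp.2 hmu'
    _ = ∑ b ∈ Finset.range (2 ^ n), Real.exp mu * (1 + (s b - mu)) := h6.symm
    _ ≤ _ := Finset.sum_le_sum fun b _ => h5 b

end Pool.Agent.V11104.CF
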