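import Mathlib
import Pool.Agent.V11104.CF2

/-!
# Words of the small subshift and the potential which sees one periodic orbit
-/

set_option autoImplicit false

namespace Pool.Agent.V11104.CF

open Finset

/-- The words of the small subshift. -/
def W (m : ℕ) (ab : ℕ × ℕ) : Fin m → Fin 3 := fun i =>
  if (i : ℕ) = ab.1 ∨ (ab.1 < (i : ℕ) ∧ ab.1 < ab.2 ∧ ab.2 < m ∧ (ab.2 - ab.1) ∣ ((i : ℕ) - ab.1))
  then 1 else 0

lemma word_eq {m : ℕ} {y : ℤ → ℕ} (hy : y ∈ Y) {w : Fin m → Fin 3}
    (hw : ∀ i : Fin m, y ((i : ℕ) : ℤ) = (w i : ℕ)) :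
    ∃ ab ∈ Finset.range (m + 1) ×ˢ Finset.range (m + 1), W m ab = w := by
  classical
  obtain ⟨h1, h2⟩ := hy
  -- it is enough to compare the positions of the ones
  have key : ∀ ab : ℕ × ℕ, (∀ i : ℕ, i < m → ((y (i : ℤ) = 1) ↔
      (i = ab.1 ∨ (ab.1 < i ∧ ab.1 < ab.2 ∧ ab.2 < m ∧ (ab.2 - ab.1) ∣ (i - ab.1))))) → W m ab = w := by
    intro ab h
    funext i
    have h3 := h i i.2
    have h4 := hw i
    have h5 := h1 ((i : ℕ) : ℤ)
    apply Fin.ext
    rw [← h4]
    simp only [W]
    split_ifs with hc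
    · have := h3.2 hc
      simp [this]
    · have : y ((i : ℕ) : ℤ) ≠ 1 := fun h' => hc (h3.1 h')
      have h6 : y ((i : ℕ) : ℤ) = 0 := by omega
      simp [h6]
  rcases Classical.em (∃ i : ℕ, i < m ∧ y (i : ℤ) = 1) with hA | hA
  · set a := Nat.find hA with ha
    have ha1 : a < m ∧ y (a : ℤ) = 1 := Nat.find_spec hA
    have ha2 : ∀ i : ℕ, i < a → ¬ (i < m ∧ y (i : ℤ) = 1) := fun i hi => Nat.find_min hA hi
    rcases Classical.em (∃ i : ℕ, a < i ∧ i < m ∧ y (i : ℤ) = 1) with hB | hB
    · set b := Nat.find hB with hb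
      have hb1 : a < b ∧ b < m ∧ y (b : ℤ) = 1 := Nat.find_spec hB
      have hb2 : ∀ i : ℕ, i < b → ¬ (a < i ∧ i < m ∧ y (i : ℤ) = 1) := fun i hi => Nat.find_min hB hi
      obtain ⟨n, hn, h3, h4⟩ := h2 a b (by exact_mod_cast hb1.1) ha1.2 hb1.2.2
      have hpn : p n = b - a := by
        have h5 : y ((a + p n : ℕ) : ℤ) = 1 := by
          rw [h4]
          show q n (((a + p n : ℕ) : ℤ) - a) = 1
          rw [q_eq_one]
          push_cast
          simp
        have h6 := p_pos n
        by_contra hne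
        exact hb2 (a + p n) (by omega) ⟨by omega, by omega, h5⟩
      refine ⟨(a, b), by simp; omega, key (a, b) ?_⟩
      intro i hi
      have h7 : y (i : ℤ) = 1 ↔ (p n : ℤ) ∣ ((i : ℤ) - a) := by
        rw [h4]
        show q n ((i : ℤ) - a) = 1 ↔ _
        rw [q_eq_one]
      rcases lt_trichotomy i a with h | h | h
      · have h8 : ¬ (y (i : ℤ) = 1) := fun h' => ha2 i h ⟨hi, h'⟩
        simp only [h8, false_iff, not_or]
        constructor
        · show i ≠ a
          omega
        · rintro ⟨h9, _⟩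
          have : a < i := h9
          omega
      · subst h
        simp [ha1.2]
      · rw [h7]
        have h9 : ((i : ℤ) - a) = ((i - a : ℕ) : ℤ) := by omega
        rw [h9, Int.natCast_dvd_natCast, hpn]
        constructor
        · intro h10
          exact Or.inr ⟨h, hb1.1, hb1.2.1, h10⟩
        · rintro (h10 | ⟨_, _, _, h10⟩)
          · exact absurd h10 (by show ¬ (i = a); omega)
          · exact h10
    · refine ⟨(a, m), by simp; omega, key (a, m) ?_⟩
      intro i hi
      constructor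
      · intro h'
        rcases lt_trichotomy i a with h | h | h
        · exact absurd ⟨hi, h'⟩ (ha2 i h)
        · exact Or.inl h
        · exact absurd ⟨i, h, hi, h'⟩ hB
      · rintro (h | ⟨_, _, h, _⟩)
        · have h10 : i = a := h
          rw [h10]; exact ha1.2
        · exact absurd h (lt_irrefl _)
  · refine ⟨(m, m), by simp, key (m, m) ?_⟩
    intro i hi
    constructor
    · intro h'
      exact absurd ⟨i, hi, h'⟩ hA
    · rintro (h | ⟨_, _, h, _⟩)
      · have h10 : i = m := h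
        omega
      · exact absurd h (lt_irrefl _)

/-- Step A. -/
lemma Z_zero_le (m : ℕ) : Z Y (fun _ => 0) m ≤ ((m : ℝ) + 1) ^ 2 := by
  classical
  have h1 : ∀ w : Fin m → Fin 3, sSup (wt (fun _ => 0) m '' {x : ℤ → ℕ | x ∈ Y ∧
      ∀ i : Fin m, x ((i : ℕ) : ℤ) = ((w i : ℕ))}) ≤
      if w ∈ (Finset.range (m + 1) ×ˢ Finset.range (m + 1)).image (W m) then (1 : ℝ) else 0 := by
    intro w
    rcases Classical.em (∃ y ∈ Y, ∀ i : Fin m, y ((i : ℕ) : ℤ) = (w i : ℕ)) with ⟨y, hy, hyw⟩ | h
    · obtain ⟨ab, hab, he⟩ := word_eq hy hyw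
      rw [if_pos (Finset.mem_image.2 ⟨ab, hab, he⟩)]
      apply Real.sSup_le _ (by norm_num)
      rintro _ ⟨x, _, rfl⟩
      simp [wt]
    · have : {x : ℤ → ℕ | x ∈ Y ∧ ∀ i : Fin m, x ((i : ℕ) : ℤ) = ((w i : ℕ))} = ∅ := by
        ext x
        simp only [Set.mem_ofPred_eq, Set.mem_empty_iff_false, iff_false]
        rintro ⟨hx, hxw⟩
        exact h ⟨x, hx, hxw⟩
      rw [this, Set.image_empty, Real.sSup_empty]
      split_ifs <;> norm_num
  unfold Z
  calc _ ≤ ∑ w : Fin m → Fin 3,
        (if w ∈ (Finset.range (m + 1) ×ˢ Finset.range (m + 1)).image (W m) then (1 : ℝ) else 0) :=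
        Finset.sum_le_sum fun w _ => h1 w
    _ = (((Finset.range (m + 1) ×ˢ Finset.range (m + 1)).image (W m)).card : ℝ) := by
        rw [Finset.sum_ite_mem, Finset.univ_inter]
        simp
    _ ≤ (((Finset.range (m + 1) ×ˢ Finset.range (m + 1))).card : ℝ) := by
        exact_mod_cast Finset.card_image_le
    _ = _ := by
        rw [Finset.card_product]
        simp
        ring

/-- The sequences which show one complete period of the periodic orbit number `n`. -/
def U (n : ℕ) : Set (ℤ → ℕ) := {y | ∃ a ∈ Finset.range (p n), y (a : ℤ) = 1 ∧ y ((a : ℤ) + p n) = 1 ∧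
  ∀ i ∈ Finset.Ioo 0 (p n), y ((a : ℤ) + (i : ℕ)) ≠ 1}

lemma U_clopen (n : ℕ) : IsClopen (U n) := by
  have : U n = ⋃ a ∈ Finset.range (p n), ({y : ℤ → ℕ | y (a : ℤ) = 1} ∩
      ({y : ℤ → ℕ | y ((a : ℤ) + p n) = 1} ∩ ⋂ i ∈ Finset.Ioo 0 (p n), {y : ℤ → ℕ | y ((a : ℤ) + (i : ℕ)) ≠ 1})) := by
    ext y
    simp only [U, Set.mem_ofPred_eq, Set.mem_iUnion, Set.mem_inter_iff, Set.mem_iInter, exists_prop]
  rw [this]
  have hc : ∀ (i : ℤ) (A : Set ℕ), IsClopen {x : ℤ → ℕ | x i ∈ A} := fun i A =>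
    (isClopen_discrete A).preimage (continuous_apply i)
  refine isClopen_biUnion_finset fun a _ => ?_
  refine (hc _ {1}).inter ((hc _ {1}).inter ?_)
  exact isClopen_biInter_finset fun i _ => hc _ {1}ᶜ

lemma mem_U_orbit (n : ℕ) (c : ℤ) : fac (fun i => per n (i - c)) ∈ U n := by
  rw [fac_per]
  have hp := p_pos n
  have hp' : (0 : ℤ) < p n := by exact_mod_cast hp
  refine ⟨(c % (p n : ℤ)).toNat, ?_, ?_, ?_, ?_⟩
  · have h1 := Int.emod_lt_of_pos c hp'
    have h2 := Int.emod_nonneg c hp'.ne'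
    simp only [Finset.mem_range]
    omega
  · rw [q_eq_one, Int.toNat_of_nonneg (Int.emod_nonneg c hp'.ne')]
    have : c % (p n : ℤ) - c = -((p n : ℤ) * (c / (p n : ℤ))) := by
      have := Int.mul_ediv_add_emod c (p n : ℤ)
      linarith
    rw [this]
    exact (Dvd.intro _ rfl).neg_right
  · rw [q_eq_one, Int.toNat_of_nonneg (Int.emod_nonneg c hp'.ne')]
    have : c % (p n : ℤ) + p n - c = (p n : ℤ) * (1 - (c / (p n : ℤ))) := by
      have := Int.mul_ediv_add_emod c (p n : ℤ)
      linarith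
    rw [this]
    exact Dvd.intro _ rfl
  · intro i hi h
    rw [q_eq_one, Int.toNat_of_nonneg (Int.emod_nonneg c hp'.ne')] at h
    have h1 : (p n : ℤ) ∣ (i : ℤ) := by
      have h2 : c % (p n : ℤ) + (i : ℕ) - c = (i : ℤ) + -((p n : ℤ) * (c / (p n : ℤ))) := by
        have := Int.mul_ediv_add_emod c (p n : ℤ)
        linarith
      rw [h2] at h
      exact (Int.dvd_add_left ((Dvd.intro _ rfl).neg_right)).1 h
    rw [Int.natCast_dvd_natCast] at h1
    simp only [Finset.mem_Ioo] at hi
    have := Nat.le_of_dvd hi.1 h1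
    omega

lemma orbit_of_mem_U {n : ℕ} {x : ℤ → ℕ} (hx : x ∈ X) (h : fac x ∈ U n) :
    ∃ c : ℤ, x = fun i => per n (i - c) := by
  obtain ⟨a, _, h1, h2, h3⟩ := h
  have e1 : x (a : ℤ) = 2 := by
    by_contra h'; simp [fac, h'] at h1
  have e2 : x ((a : ℤ) + p n) = 2 := by
    by_contra h'; simp [fac, h'] at h2
  have hp := p_pos n
  obtain ⟨m, hm, h4, h5⟩ := hx.2 a (a + p n) (by omega) e1 e2
  have h6 : p m = p n := by
    by_contra hne
    have h7 : p m ∈ Finset.Ioo 0 (p n) := by
      have := p_pos m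
      simp only [Finset.mem_Ioo]
      omega
    apply h3 (p m) h7
    rw [h5, fac_per]
    show q m ((a : ℤ) + (p m : ℕ) - a) = 1
    rw [q_eq_one]
    simp
  have h7 : m = n := p_strictMono.injective h6
  subst h7
  exact ⟨a, h5⟩

lemma orbit_iter {n : ℕ} {x : ℤ → ℕ} (j : ℕ) :
    (∃ c : ℤ, S^[j] x = fun i => per n (i - c)) ↔ (∃ c : ℤ, x = fun i => per n (i - c)) := by
  constructor
  · rintro ⟨c, hc⟩
    refine ⟨c + j, ?_⟩
    funext i
    rw [S_iter] at hc
    have := congrFun hc (i - j)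
    simp only [sub_add_cancel] at this
    rw [this]
    congr 1
    ring
  · rintro ⟨c, hc⟩
    refine ⟨c - j, ?_⟩
    rw [S_iter, hc]
    funext i
    show per n (i + j - c) = per n (i - (c - j))
    congr 1
    ring

open Classical in
/-- The potential. -/
noncomputable def pot (n : ℕ) (t : ℝ) : (ℤ → ℕ) → ℝ := fun y => if y ∈ U n then 0 else -t

lemma pot_cont (n : ℕ) (t : ℝ) : Continuous (pot n t) := by
  classical
  unfold pot
  refine Continuous.if ?_ continuous_const continuous_const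
  intro y hy
  have : frontier (U n) = ∅ := (U_clopen n).frontier_eq
  rw [show {a | a ∈ U n} = U n from rfl, this] at hy
  exact absurd hy (Set.notMem_empty _)

lemma sum_period (F : (ℤ → ℕ) → ℝ) (n : ℕ) (c : ℤ) :
    ∑ j ∈ Finset.range (p n), F (fun m => per n (m + j + c)) = tot F n := by
  have hstep : ∀ c : ℤ, ∑ j ∈ Finset.range (p n), F (fun m => per n (m + j + (c + 1))) =
      ∑ j ∈ Finset.range (p n), F (fun m => per n (m + j + c)) := by
    intro c
    have h1 := Finset.sum_range_succ' (fun j => F (fun m => per n (m + j + c))) (p n)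
    have h2 := Finset.sum_range_succ (fun j => F (fun m => per n (m + j + c))) (p n)
    rw [h1] at h2
    have h3 : F (fun m => per n (m + ((0 : ℕ) : ℤ) + c)) = F (fun m => per n (m + (p n : ℤ) + c)) := by
      congr 1
      funext m
      have := per_add n (m + c)
      have e : m + (p n : ℤ) + c = m + c + p n := by ring
      rw [e, this]
      simp
    have h4 : ∑ j ∈ Finset.range (p n), F (fun m => per n (m + j + (c + 1))) =
        ∑ j ∈ Finset.range (p n), F (fun m => per n (m + ((j + 1 : ℕ) : ℤ) + c)) := by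
      refine Finset.sum_congr rfl fun j _ => ?_
      congr 1
      funext m
      congr 1
      push_cast
      ring
    rw [h4]
    linarith
  have h0 : ∑ j ∈ Finset.range (p n), F (fun m => per n (m + j + 0)) = tot F n := by
    unfold tot
    refine Finset.sum_congr rfl fun j _ => ?_
    rw [S_iter]
    simp
  induction c using Int.induction_on with
  | zero => exact h0
  | succ k ih => rw [hstep]; exact ih
  | pred k ih =>
    have := hstep (-(k : ℤ) - 1)
    rw [sub_add_cancel] at this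
    rw [← this]; exact ih

lemma sum_periods (F : (ℤ → ℕ) → ℝ) (n k : ℕ) (c : ℤ) :
    ∑ j ∈ Finset.range (p n * k), F (S^[j] (fun i => per n (i - c))) = k * tot F n := by
  rw [sum_range_mul' (fun j => F (S^[j] (fun i => per n (i - c))))]
  have : ∀ b ∈ Finset.range k, ∑ j ∈ Finset.range (p n), F (S^[p n * b + j] (fun i => per n (i - c))) =
      tot F n := by
    intro b _
    rw [← sum_period F n ((p n * b : ℕ) - c)]
    refine Finset.sum_congr rfl fun j _ => ?_
    rw [S_iter]
    congr 1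
    funext m
    congr 1
    push_cast
    ring
  rw [Finset.sum_congr rfl this]
  simp

end Pool.Agent.V11104.CF
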