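import Mathlib
import Pool.Agent.V11104.CF3

/-!
# The totals over the periodic orbits are nonnegative, and the contradiction
-/

set_option autoImplicit false

namespace Pool.Agent.V11104.CF

open Finset Filter

/-- The potential on the big subshift. -/
noncomputable def gg (F φ : (ℤ → ℕ) → ℝ) : (ℤ → ℕ) → ℝ := fun x => φ (fac x) + F x

lemma ZY_pot_ge (n : ℕ) (hn : 1 ≤ n) (t : ℝ) (ht : 0 ≤ t) (m : ℕ) : 1 ≤ Z Y (pot n t) m := by
  have h := Z_ge Y (pot n t) m 0 (fun y _ j => ?_) (Finset.univ : Finset Unit) (fun _ => q n)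
    (fun _ i => ⟨q n ((i : ℕ) : ℤ), by have := q_lt n ((i : ℕ) : ℤ); omega⟩) (fun _ _ => ?_) (fun _ _ i => rfl) ?_
  · simp only [Finset.univ_unique, Finset.sum_singleton] at h
    refine le_trans ?_ h
    unfold wt
    have : ∀ j ∈ Finset.range m, pot n t (S^[j] (q n)) = 0 := by
      intro j _
      have h1 := mem_U_orbit n (-(j : ℤ))
      rw [fac_per] at h1
      have h2 : S^[j] (q n) = fun i => q n (i - (-(j : ℤ))) := by
        rw [S_iter]; funext i; simp
      rw [h2]
      unfold pot
      rw [if_pos h1]
    rw [Finset.sum_congr rfl this]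
    simp
  · unfold pot
    split_ifs
    · exact le_refl _
    · linarith
  · have := q_mem n hn 0
    simpa using this
  · intro a _ b _ _
    rfl

open Classical in
lemma ZX_pot_le (F : (ℤ → ℕ) → ℝ) (B : ℝ) (hB : ∀ x ∈ X, |F x| ≤ B) (n : ℕ) (k : ℕ) (t : ℝ) :
    Z X (gg F (pot n t)) (p n * k) ≤ (p n : ℝ) * Real.exp (k * tot F n) +
      (3 : ℝ) ^ (p n * k) * Real.exp ((p n * k : ℕ) * (B - t)) := by
  set M := p n * k with hM
  set wd : ℕ → (Fin M → Fin 3) := fun a i => ⟨per n (((i : ℕ) : ℤ) - a), per_lt n _⟩ with hwd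
  have h1 : ∀ w : Fin M → Fin 3, sSup (wt (gg F (pot n t)) M '' {x : ℤ → ℕ | x ∈ X ∧
      ∀ i : Fin M, x ((i : ℕ) : ℤ) = ((w i : ℕ))}) ≤
      (if w ∈ (Finset.range (p n)).image wd then Real.exp (k * tot F n) else 0) +
        Real.exp ((M : ℕ) * (B - t)) := by
    intro w
    apply Real.sSup_le
    · rintro _ ⟨x, ⟨hx, hw⟩, rfl⟩
      rcases Classical.em (∃ c : ℤ, x = fun i => per n (i - c)) with ⟨c, hc⟩ | hno
      · have hp' : (0 : ℤ) < p n := by exact_mod_cast p_pos n
        have hmem : w ∈ (Finset.range (p n)).image wd := by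
          refine Finset.mem_image.2 ⟨(c % (p n : ℤ)).toNat, ?_, ?_⟩
          · have h1 := Int.emod_lt_of_pos c hp'
            have h2 := Int.emod_nonneg c hp'.ne'
            simp only [Finset.mem_range]
            omega
          · funext i
            apply Fin.ext
            rw [← hw i, hc]
            show per n (((i : ℕ) : ℤ) - ((c % (p n : ℤ)).toNat : ℤ)) = per n (((i : ℕ) : ℤ) - c)
            rw [Int.toNat_of_nonneg (Int.emod_nonneg c hp'.ne')]
            have : ((i : ℕ) : ℤ) - c % (p n : ℤ) = (((i : ℕ) : ℤ) - c) + (c / (p n : ℤ)) * (p n : ℤ) := by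
              have := Int.mul_ediv_add_emod c (p n : ℤ)
              linarith
            rw [this, per_add_mul]
        rw [if_pos hmem]
        have : wt (gg F (pot n t)) M x = Real.exp (k * tot F n) := by
          unfold wt
          congr 1
          rw [← sum_periods F n k c, ← hM, ← hc]
          refine Finset.sum_congr rfl fun j _ => ?_
          unfold gg
          have h2 : fac (S^[j] x) ∈ U n := by
            obtain ⟨c', hc'⟩ := (orbit_iter (n := n) (x := x) j).2 ⟨c, hc⟩
            rw [hc']
            exact mem_U_orbit n c'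
          unfold pot
          rw [if_pos h2, zero_add]
        rw [this]
        have := Real.exp_pos ((M : ℕ) * (B - t))
        linarith
      · have h3 : wt (gg F (pot n t)) M x ≤ Real.exp ((M : ℕ) * (B - t)) := by
          apply wt_le
          intro j _
          unfold gg pot
          have h4 : fac (S^[j] x) ∉ U n := by
            intro h
            exact hno ((orbit_iter (n := n) (x := x) j).1 (orbit_of_mem_U (iter_mem hx j) h))
          rw [if_neg h4]
          have := (abs_le.1 (hB _ (iter_mem hx j))).2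
          linarith
        refine h3.trans ?_
        have : 0 ≤ (if w ∈ (Finset.range (p n)).image wd then Real.exp (k * tot F n) else 0) := by
          split_ifs
          · exact (Real.exp_pos _).le
          · exact le_refl _
        linarith
    · have : 0 ≤ (if w ∈ (Finset.range (p n)).image wd then Real.exp (k * tot F n) else 0) := by
        split_ifs
        · exact (Real.exp_pos _).le
        · exact le_refl _
      have h2 := Real.exp_pos ((M : ℕ) * (B - t))
      linarith
  unfold Z
  refine (Finset.sum_le_sum fun w _ => h1 w).trans ?_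
  rw [Finset.sum_add_distrib]
  apply add_le_add
  · rw [Finset.sum_ite_mem, Finset.univ_inter, Finset.sum_const, nsmul_eq_mul]
    apply mul_le_mul_of_nonneg_right _ (Real.exp_pos _).le
    have : ((Finset.range (p n)).image wd).card ≤ p n := by
      refine Finset.card_image_le.trans ?_
      simp
    exact_mod_cast this
  · simp

lemma Z_pos (F : (ℤ → ℕ) → ℝ) (g : (ℤ → ℕ) → ℝ) (B : ℝ) (hB : ∀ x ∈ X, g x ≤ B) (m : ℕ) :
    0 < Z X g m := by
  have h := Z_ge X g m B (fun x hx j => hB _ (iter_mem hx j)) (Finset.univ : Finset Unit)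
    (fun _ => (fun i => per 1 (i - 0)))
    (fun _ i => ⟨per 1 (((i : ℕ) : ℤ) - 0), per_lt 1 _⟩) (fun _ _ => per_mem 1 le_rfl 0) (fun _ _ i => rfl)
    (by intro a _ b _ _; rfl)
  simp only [Finset.univ_unique, Finset.sum_singleton] at h
  exact lt_of_lt_of_le (wt_pos _ _ _) h

/-- The contradiction. -/
theorem no_comp (F : (ℤ → ℕ) → ℝ) (hF : ContinuousOn F X)
    (h : ∀ φ : (ℤ → ℕ) → ℝ, ContinuousOn φ Y → ∃ L : ℝ,
      Tendsto (fun n : ℕ => Real.log (Z Y φ n) / (n : ℝ)) atTop (nhds L) ∧
      Tendsto (fun n : ℕ => Real.log (Z X (gg F φ) n) / (n : ℝ)) atTop (nhds L)) : False := by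
  obtain ⟨B0, hB0⟩ := X_compact.exists_bound_of_continuousOn hF
  set B := max B0 0 with hBdef
  have hB : ∀ x ∈ X, |F x| ≤ B := fun x hx => (hB0 x hx).trans (le_max_left _ _)
  have hBn : 0 ≤ B := le_max_right _ _
  -- Step B
  have hB1 : ∀ n : ℕ, 1 ≤ n → 0 ≤ tot F n := by
    intro n hn
    by_contra hneg
    push Not at hneg
    set t := B + Real.log 3 + 1 with ht
    have hlog3 : 0 < Real.log 3 := Real.log_pos (by norm_num)
    obtain ⟨L, hL1, hL2⟩ := h (pot n t) (pot_cont n t).continuousOn
    have hLnn : 0 ≤ L := by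
      refine ge_of_tendsto' hL1 fun m => ?_
      exact div_nonneg (Real.log_nonneg (ZY_pot_ge n hn t (by rw [ht]; linarith) m)) (Nat.cast_nonneg _)
    have hP : (0 : ℝ) < p n := by exact_mod_cast p_pos n
    -- the subsequence
    have hsub : Tendsto (fun k : ℕ => p n * k) atTop atTop :=
      tendsto_id.const_mul_atTop' (p_pos n)
    have hL3 := hL2.comp hsub
    set c := min (-(tot F n) / p n) 1 with hc
    have hcpos : 0 < c := lt_min (div_pos (by linarith) hP) one_pos
    have hup : ∀ k : ℕ, 1 ≤ k → Real.log (Z X (gg F (pot n t)) (p n * k)) / ((p n * k : ℕ) : ℝ) ≤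
        Real.log (p n + 1) / ((p n * k : ℕ) : ℝ) - c := by
      intro k hk
      have hM : (0 : ℝ) < ((p n * k : ℕ) : ℝ) := by
        exact_mod_cast Nat.mul_pos (p_pos n) hk
      have h1 := ZX_pot_le F B hB n k t
      have h2 : (k : ℝ) * tot F n ≤ -c * ((p n * k : ℕ) : ℝ) := by
        have : c ≤ -(tot F n) / p n := min_le_left _ _
        rw [le_div_iff₀ hP] at this
        push_cast
        have hk0 : (0 : ℝ) ≤ k := Nat.cast_nonneg _
        nlinarith
      have h3 : (3 : ℝ) ^ (p n * k) * Real.exp ((p n * k : ℕ) * (B - t)) ≤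
          Real.exp (-c * ((p n * k : ℕ) : ℝ)) := by
        have e : (3 : ℝ) ^ (p n * k) = Real.exp (((p n * k : ℕ) : ℝ) * Real.log 3) := by
          rw [Real.exp_nat_mul, Real.exp_log (by norm_num)]
        rw [e, ← Real.exp_add]
        apply Real.exp_le_exp.2
        have : c ≤ 1 := min_le_right _ _
        rw [ht]
        nlinarith
      have h4 : Z X (gg F (pot n t)) (p n * k) ≤ (p n + 1) * Real.exp (-c * ((p n * k : ℕ) : ℝ)) := by
        have := Real.exp_le_exp.2 h2
        nlinarith [Real.exp_pos (-c * ((p n * k : ℕ) : ℝ))]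
      have h5 : 0 < Z X (gg F (pot n t)) (p n * k) := by
        refine Z_pos F _ B (fun x hx => ?_) _
        unfold gg pot
        have := (abs_le.1 (hB _ hx)).2
        split_ifs
        · linarith
        · rw [ht]; linarith
      have h6 := Real.log_le_log h5 h4
      rw [Real.log_mul (by positivity) (Real.exp_pos _).ne', Real.log_exp] at h6
      rw [div_le_iff₀ hM]
      have : (Real.log (p n + 1) / ((p n * k : ℕ) : ℝ) - c) * ((p n * k : ℕ) : ℝ) =
          Real.log (p n + 1) - c * ((p n * k : ℕ) : ℝ) := by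
        field_simp
      rw [this]
      linarith
    have hlim : Tendsto (fun k : ℕ => Real.log (p n + 1) / ((p n * k : ℕ) : ℝ) - c) atTop (nhds (0 - c)) := by
      apply Tendsto.sub_const
      apply Tendsto.div_atTop tendsto_const_nhds
      exact tendsto_natCast_atTop_atTop.comp hsub
    have := le_of_tendsto_of_tendsto hL3 hlim (by
      filter_upwards [eventually_ge_atTop 1] with k hk
      exact hup k hk)
    linarith
  -- the zero potential
  obtain ⟨L, hL1, hL2⟩ := h (fun _ => 0) continuousOn_const
  have hLle : L ≤ 0 := by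
    have hlim : Tendsto (fun m : ℕ => 2 * (Real.log ((m : ℝ) + 1) / m)) atTop (nhds (2 * 0)) := by
      apply Tendsto.const_mul
      have h1 : Tendsto (fun x : ℝ => Real.log x / x) atTop (nhds 0) := by
        have := Real.isLittleO_log_id_atTop.tendsto_div_nhds_zero
        simpa using this
      have h2 : Tendsto (fun m : ℕ => Real.log ((m : ℝ) + 1) / ((m : ℝ) + 1)) atTop (nhds 0) := by
        have h3 : Tendsto (fun m : ℕ => (m : ℝ) + 1) atTop atTop :=
          tendsto_atTop_add_const_right _ _ tendsto_natCast_atTop_atTop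
        exact h1.comp h3
      have h4 : Tendsto (fun m : ℕ => 1 + 1 / (m : ℝ)) atTop (nhds (1 + 0)) :=
        tendsto_const_nhds.add tendsto_one_div_atTop_nhds_zero_nat
      have h5 := h2.mul h4
      rw [zero_mul] at h5
      refine h5.congr' ?_
      filter_upwards [eventually_ge_atTop 1] with m hm
      have : (0 : ℝ) < m := by exact_mod_cast hm
      field_simp
    rw [mul_zero] at hlim
    refine le_of_tendsto_of_tendsto hL1 hlim ?_
    filter_upwards [eventually_ge_atTop 1] with m hm
    have hm' : (0 : ℝ) < m := by exact_mod_cast hm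
    have h1 := Z_zero_le m
    have h2 : 0 ≤ Z Y (fun _ => 0) m := Finset.sum_nonneg fun w _ => sSup_nonneg' _ _ _ _
    have h3 : Real.log (Z Y (fun _ => 0) m) ≤ 2 * Real.log ((m : ℝ) + 1) := by
      rcases h2.eq_or_lt with h0 | h0
      · rw [← h0, Real.log_zero]
        have := Real.log_nonneg (show (1 : ℝ) ≤ (m : ℝ) + 1 by linarith)
        linarith
      · have := Real.log_le_log h0 h1
        rw [Real.log_pow] at this
        exact_mod_cast this
    rw [← mul_div_assoc]
    exact div_le_div_of_nonneg_right h3 hm'.le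
  have hLge : Real.log 2 ≤ L := by
    have hlim : Tendsto (fun m : ℕ => Real.log 2 - B / (m : ℝ)) atTop (nhds (Real.log 2 - 0)) :=
      tendsto_const_nhds.sub (tendsto_const_div_atTop_nhds_zero_nat B)
    rw [sub_zero] at hlim
    refine le_of_tendsto_of_tendsto hlim hL2 ?_
    filter_upwards [eventually_ge_atTop 1] with m hm
    have hm' : (0 : ℝ) < m := by exact_mod_cast hm
    have h1 := Z_lower F B hB m hm (hB1 m hm)
    have e : gg F (fun _ => 0) = F := by
      funext x; simp [gg]
    rw [e]
    have h2 := Real.log_le_log (by positivity) h1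
    rw [Real.log_mul (by positivity) (Real.exp_pos _).ne', Real.log_exp, Real.log_pow] at h2
    rw [le_div_iff₀ hm']
    have : (Real.log 2 - B / (m : ℝ)) * m = m * Real.log 2 - B := by
      field_simp
    rw [this]
    linarith
  have : 0 < Real.log 2 := Real.log_pos (by norm_num)
  linarith

end Pool.Agent.V11104.CF
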