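import Mathlib

/-!
# A chain of counters with sublinear flow of information

`u k s` is the state (an integer modulo 4) of the column at distance `k` from the source at the
half-time `s`.  The column `2 j` is the column `j` with time slowed down by the factor `4`, the column
`2 j + 1` rotates as long as the column `2 j` is in the state `2`, and rests otherwise.
-/

set_option autoImplicit false

namespace Pool.Agent.V11104.SR

/-- The state of the column at distance `k` from the source at the half-time `s`. -/
def u : ℕ → ℤ → ℤ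
  | 0, _ => 2
  | (k + 1), s => if k % 2 = 1 then u ((k + 1) / 2) (s / 4)
      else if u k s = 2 then ((s + 1) / 2 + k) % 4 else 0
termination_by k => k
decreasing_by all_goals omega

lemma u_zero (s : ℤ) : u 0 s = 2 := by rw [u]

lemma u_even (j : ℕ) (s : ℤ) : u (2 * j) s = u j (s / 4) := by
  rcases Nat.eq_zero_or_pos j with h | h
  · subst h; simp [u_zero]
  · obtain ⟨i, rfl⟩ : ∃ i, j = i + 1 := ⟨j - 1, by omega⟩
    have e : 2 * (i + 1) = (2 * i + 1) + 1 := by ring
    rw [e, u, if_pos (by omega)]
    congr 1
    omega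

lemma u_odd (j : ℕ) (s : ℤ) : u (2 * j + 1) s =
    if u (2 * j) s = 2 then ((s + 1) / 2 + 2 * (j : ℤ)) % 4 else 0 := by
  rw [u, if_neg (by omega)]
  push_cast
  rfl

lemma u_odd' (j : ℕ) (s : ℤ) : u (2 * j + 1) s =
    if u j (s / 4) = 2 then ((s + 1) / 2 + 2 * (j : ℤ)) % 4 else 0 := by
  rw [u_odd, u_even]

lemma u_range (k : ℕ) : ∀ s, 0 ≤ u k s ∧ u k s < 4 := by
  induction k using Nat.strong_induction_on with
  | _ k ih =>
    intro s
    rcases Nat.even_or_odd' k with ⟨j, rfl | rfl⟩
    · rcases Nat.eq_zero_or_pos j with h | h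
      · subst h; simp [u_zero]
      · rw [u_even]; exact ih j (by omega) _
    · rw [u_odd']
      split_ifs
      · omega
      · omega

/-- The local rule. -/
theorem rule (k : ℕ) : ∀ s : ℤ, u (k + 1) (s + 1) =
    if (2 : ℤ) ∣ (k - s) ∧ u k s = 2 then (u (k + 1) s + 1) % 4 else u (k + 1) s := by
  induction k using Nat.strong_induction_on with
  | _ k ih =>
    intro s
    rcases Nat.even_or_odd' k with ⟨j, rfl | rfl⟩
    · -- an odd column
      rw [u_odd' j (s + 1), u_odd' j s, u_even]
      rcases Classical.em ((4 : ℤ) ∣ s + 1) with h4 | h4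
      · obtain ⟨s1, hs1⟩ := h4
        have e1 : (s + 1) / 4 = s1 := by omega
        have e2 : s / 4 = s1 - 1 := by omega
        rw [e1, e2]
        rcases Nat.eq_zero_or_pos j with h | h
        · subst h
          rw [u_zero, u_zero]
          simp only [if_true, and_true]
          rw [if_neg (by omega)]
          omega
        · obtain ⟨i, rfl⟩ : ∃ i, j = i + 1 := ⟨j - 1, by omega⟩
          have hi := ih i (by omega) (s1 - 1)
          rw [sub_add_cancel] at hi
          have hr := u_range (i + 1) (s1 - 1)
          rw [hi]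
          rw [if_neg (c := (2 : ℤ) ∣ ((2 * (i + 1) : ℕ) : ℤ) - s ∧ u (i + 1) (s1 - 1) = 2) (by omega)]
          rcases Classical.em ((2 : ℤ) ∣ (i : ℤ) - (s1 - 1) ∧ u i (s1 - 1) = 2) with hc | hc
          · have h0 : ((s + 1 + 1) / 2 + 2 * ((i + 1 : ℕ) : ℤ)) % 4 = 0 := by
              obtain ⟨hc1, _⟩ := hc
              push_cast
              omega
            have h1 : ((s + 1) / 2 + 2 * ((i + 1 : ℕ) : ℤ)) % 4 = 0 := by
              obtain ⟨hc1, _⟩ := hc
              push_cast
              omega
            rw [h0, h1]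
            simp
          · rw [if_neg hc]
            have h1 : (s + 1 + 1) / 2 = (s + 1) / 2 := by omega
            rw [h1]
      · have e1 : (s + 1) / 4 = s / 4 := by omega
        rw [e1]
        rcases Classical.em (u j (s / 4) = 2) with h | h
        · rw [if_pos h, if_pos h]
          split_ifs with h2
          · push_cast at h2
            omega
          · have : ¬ (2 : ℤ) ∣ ((2 * j : ℕ) : ℤ) - s := fun h' => h2 ⟨h', h⟩
            push_cast at this
            omega
        · rw [if_neg h, if_neg h, if_neg (fun h' => h h'.2)]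
    · -- an even column
      have e : 2 * j + 1 + 1 = 2 * (j + 1) := by ring
      rw [e, u_even, u_even, u_odd']
      rcases Classical.em ((4 : ℤ) ∣ s + 1) with h4 | h4
      · obtain ⟨s1, hs1⟩ := h4
        have e1 : (s + 1) / 4 = s1 := by omega
        have e2 : s / 4 = s1 - 1 := by omega
        rw [e1, e2]
        have hj := ih j (by omega) (s1 - 1)
        rw [sub_add_cancel] at hj
        rw [hj]
        rcases Classical.em (u j (s1 - 1) = 2) with h | h
        · rw [if_pos h]
          rcases Classical.em ((2 : ℤ) ∣ (j : ℤ) - (s1 - 1)) with h2 | h2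
          · rw [if_pos ⟨h2, h⟩, if_pos]
            constructor
            · push_cast; omega
            · omega
          · rw [if_neg (fun h' => h2 h'.1), if_neg]
            rintro ⟨_, h3⟩
            omega
        · rw [if_neg h, if_neg (fun h' => h h'.2), if_neg]
          rintro ⟨_, h3⟩
          omega
      · have e1 : (s + 1) / 4 = s / 4 := by omega
        rw [e1, if_neg]
        rintro ⟨h1, h2⟩
        split_ifs at h2
        · push_cast at h1
          omega
        · omega

/-- Inactive windows. -/
theorem inactive (m : ℕ) : ∀ (K : ℕ) (s : ℤ),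
    (∀ i : ℕ, 1 ≤ i → i ≤ 3 * 2 ^ m - 1 → u (K - i) s ≠ 2) →
    ∀ n : ℕ, n ≤ 4 ^ m + 1 → u K (s + n) = u K s := by
  induction m with
  | zero =>
    intro K s h n hn
    have h1 := h 1 (by norm_num) (by norm_num)
    have h2 := h 2 (by norm_num) (by norm_num)
    have hK : 3 ≤ K := by
      by_contra hlt
      have : K - 2 = 0 := by omega
      rw [this, u_zero] at h2
      exact h2 rfl
    obtain ⟨k, rfl⟩ : ∃ k, K = k + 2 := ⟨K - 2, by omega⟩
    have e1 : k + 2 - 1 = k + 1 := by omega
    have e2 : k + 2 - 2 = k := by omega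
    rw [e1] at h1
    rw [e2] at h2
    have r1 := rule (k + 1) s
    rw [if_neg (fun h' => h1 h'.2)] at r1
    have r2 := rule k s
    rw [if_neg (fun h' => h2 h'.2)] at r2
    have r3 := rule (k + 1) (s + 1)
    rw [r2, if_neg (fun h' => h1 h'.2)] at r3
    have hn' : n = 0 ∨ n = 1 ∨ n = 2 := by norm_num at hn; omega
    rcases hn' with rfl | rfl | rfl
    · simp
    · exact_mod_cast r1
    · have e : s + ((2 : ℕ) : ℤ) = s + 1 + 1 := by push_cast; ring
      rw [e]
      exact r3.trans r1
  | succ m ih =>
    intro K s h n hn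
    have hpow : 2 ^ (m + 1) = 2 * 2 ^ m := by ring
    have hpow4 : 4 ^ (m + 1) = 4 * 4 ^ m := by ring
    have hp1 : 1 ≤ 2 ^ m := Nat.one_le_two_pow
    obtain ⟨n', hn'⟩ : ∃ n' : ℕ, (s + n) / 4 = s / 4 + n' := ⟨((s + n) / 4 - s / 4).toNat, by omega⟩
    have hn'2 : n' ≤ 4 ^ m + 1 := by omega
    rcases Nat.even_or_odd' K with ⟨J, rfl | rfl⟩
    · rw [u_even, u_even, hn']
      refine ih J (s / 4) (fun i hi1 hi2 => ?_) n' hn'2
      rw [← u_even]
      have := h (2 * i) (by omega) (by omega)
      have e : 2 * (J - i) = 2 * J - 2 * i := by omega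
      rw [e]; exact this
    · have hJ : u J (s / 4) ≠ 2 := by
        have := h 1 le_rfl (by omega)
        rw [← u_even]
        exact this
      have hJ2 : u J (s / 4 + n') = u J (s / 4) := by
        refine ih J (s / 4) (fun i hi1 hi2 => ?_) n' hn'2
        rw [← u_even]
        have := h (2 * i + 1) (by omega) (by omega)
        have e : 2 * (J - i) = 2 * J + 1 - (2 * i + 1) := by omega
        rw [e]; exact this
      rw [u_odd', u_odd', hn', hJ2, if_neg hJ, if_neg hJ]

lemma odd_nonzero {j : ℕ} {s : ℤ} (h : u (2 * j + 1) s ≠ 0) : u (2 * j) s = 2 := by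
  rw [u_odd] at h
  by_contra h2
  rw [if_neg h2] at h
  exact h rfl

/-- No four consecutive columns are in the state `2`. -/
lemma no_four (c : ℕ) (s : ℤ) (h0 : u c s = 2) (h1 : u (c + 1) s = 2) (h2 : u (c + 2) s = 2)
    (h3 : u (c + 3) s = 2) : False := by
  rcases Nat.even_or_odd' c with ⟨j, rfl | rfl⟩
  · have e : 2 * j + 3 = 2 * (j + 1) + 1 := by ring
    rw [u_odd] at h1
    rw [e, u_odd] at h3
    push_cast at h3
    split_ifs at h1 h3
    all_goals omega
  · have e : 2 * j + 1 + 2 = 2 * (j + 1) + 1 := by ring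
    rw [u_odd] at h0
    rw [e, u_odd] at h2
    push_cast at h2
    split_ifs at h0 h2
    all_goals omega

end Pool.Agent.V11104.SR
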