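import Mathlib
import Pool.Agent.V11104.SR1

/-!
# Equal windows have equal futures for a superlinear time
-/

set_option autoImplicit false

namespace Pool.Agent.V11104.SR

/-- If the parities are swapped, then equal windows are (almost) at rest. -/
lemma swapped {K K' : ℕ} {s s' : ℤ} {r : ℕ} (hK : r < K) (hK' : r < K')
    (hpar : ¬ (2 : ℤ) ∣ (K : ℤ) - K') (h : ∀ i ≤ r, u (K - i) s = u (K' - i) s') (i : ℕ)
    (hi : i + 4 ≤ r) : u (K - i) s = 0 := by
  -- one step: a nonzero value at `i` forces the value `2` at `i + 1`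
  have step : ∀ i : ℕ, i + 1 ≤ r → u (K - i) s ≠ 0 → u (K - (i + 1)) s = 2 := by
    intro i hi hne
    rcases Nat.even_or_odd' (K - i) with ⟨j, hj | hj⟩
    · -- the column of the second point is odd
      have hodd : ∃ j', K' - i = 2 * j' + 1 := ⟨(K' - i) / 2, by omega⟩
      obtain ⟨j', hj'⟩ := hodd
      have h1 : u (2 * j' + 1) s' ≠ 0 := by
        rw [← hj', ← h i (by omega)]; exact hne
      have h2 := odd_nonzero h1
      have e : K' - (i + 1) = 2 * j' := by omega
      rw [h (i + 1) hi, e]; exact h2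
    · have h1 : u (2 * j + 1) s ≠ 0 := by rw [← hj]; exact hne
      have h2 := odd_nonzero h1
      have e : K - (i + 1) = 2 * j := by omega
      rw [e]; exact h2
  by_contra hne
  have h1 := step i (by omega) hne
  have h2 := step (i + 1) (by omega) (by rw [h1]; norm_num)
  have h3 := step (i + 2) (by omega) (by rw [show i + 2 = i + 1 + 1 from rfl, h2]; norm_num)
  have h4 := step (i + 3) (by omega) (by rw [show i + 3 = i + 2 + 1 from rfl, h3]; norm_num)
  have e1 : K - (i + 1) = (K - (i + 4)) + 3 := by omega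
  have e2 : K - (i + 1 + 1) = (K - (i + 4)) + 2 := by omega
  have e3 : K - (i + 2 + 1) = (K - (i + 4)) + 1 := by omega
  have e4 : K - (i + 3 + 1) = K - (i + 4) := by omega
  rw [e1] at h1
  rw [e2] at h2
  rw [e3] at h3
  rw [e4] at h4
  exact no_four _ s h4 h3 h2 h1

/-- Equal windows have equal futures. -/
theorem future (m : ℕ) : ∀ (K K' : ℕ) (s s' : ℤ), 8 * 2 ^ m - 1 < K → 8 * 2 ^ m - 1 < K' →
    (2 : ℤ) ∣ ((K : ℤ) - s) - ((K' : ℤ) - s') →
    (∀ i : ℕ, i ≤ 8 * 2 ^ m - 1 → u (K - i) s = u (K' - i) s') →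
    ∀ n : ℕ, n ≤ 4 ^ m + 1 → u K (s + n) = u K' (s' + n) := by
  induction m with
  | zero =>
    intro K K' s s' hK hK' hd h n hn
    norm_num at hK hK' hn h
    obtain ⟨k, rfl⟩ : ∃ k, K = k + 2 := ⟨K - 2, by omega⟩
    obtain ⟨k', rfl⟩ : ∃ k', K' = k' + 2 := ⟨K' - 2, by omega⟩
    have h0 : u (k + 2) s = u (k' + 2) s' := h 0 (by norm_num)
    have h1 : u (k + 1) s = u (k' + 1) s' := by
      have := h 1 (by norm_num)
      have e1 : k + 2 - 1 = k + 1 := by omega
      have e2 : k' + 2 - 1 = k' + 1 := by omega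
      rwa [e1, e2] at this
    have h2 : u k s = u k' s' := by
      have := h 2 (by norm_num)
      have e1 : k + 2 - 2 = k := by omega
      have e2 : k' + 2 - 2 = k' := by omega
      rwa [e1, e2] at this
    have r1 := rule (k + 1) s
    have r1' := rule (k' + 1) s'
    have r2 := rule k s
    have r2' := rule k' s'
    have r3 := rule (k + 1) (s + 1)
    have r3' := rule (k' + 1) (s' + 1)
    have c1 : ((2 : ℤ) ∣ (((k + 1 : ℕ) : ℤ) - s)) ↔ ((2 : ℤ) ∣ (((k' + 1 : ℕ) : ℤ) - s')) := by
      push_cast at hd ⊢; omega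
    have c2 : ((2 : ℤ) ∣ ((k : ℤ) - s)) ↔ ((2 : ℤ) ∣ ((k' : ℤ) - s')) := by
      push_cast at hd; omega
    have c3 : ((2 : ℤ) ∣ (((k + 1 : ℕ) : ℤ) - (s + 1))) ↔ ((2 : ℤ) ∣ (((k' + 1 : ℕ) : ℤ) - (s' + 1))) := by
      push_cast at hd ⊢; omega
    have a1 : u (k + 2) (s + 1) = u (k' + 2) (s' + 1) := by
      show u (k + 1 + 1) (s + 1) = u (k' + 1 + 1) (s' + 1)
      rw [r1, r1', h1]
      simp only [c1]
      have h0' : u (k + 1 + 1) s = u (k' + 1 + 1) s' := h0
      rw [h0']
    have a2 : u (k + 1) (s + 1) = u (k' + 1) (s' + 1) := by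
      rw [r2, r2', h1, h2]
      simp only [c2]
    have a3 : u (k + 2) (s + 1 + 1) = u (k' + 2) (s' + 1 + 1) := by
      show u (k + 1 + 1) (s + 1 + 1) = u (k' + 1 + 1) (s' + 1 + 1)
      rw [r3, r3', a2]
      simp only [c3]
      have a1' : u (k + 1 + 1) (s + 1) = u (k' + 1 + 1) (s' + 1) := a1
      rw [a1']
    have hn' : n = 0 ∨ n = 1 ∨ n = 2 := by omega
    rcases hn' with rfl | rfl | rfl
    · simpa using h0
    · exact_mod_cast a1
    · have e : s + ((2 : ℕ) : ℤ) = s + 1 + 1 := by push_cast; ring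
      have e' : s' + ((2 : ℕ) : ℤ) = s' + 1 + 1 := by push_cast; ring
      rw [e, e']
      exact a3
  | succ m ih =>
    intro K K' s s' hK hK' hd h n hn
    have hpow : 2 ^ (m + 1) = 2 * 2 ^ m := by ring
    have hpow4 : 4 ^ (m + 1) = 4 * 4 ^ m := by ring
    have hp1 : 1 ≤ 2 ^ m := Nat.one_le_two_pow
    rcases Classical.em ((2 : ℤ) ∣ (K : ℤ) - K') with hpar | hpar
    swap
    · -- swapped parities
      have z1 : ∀ i : ℕ, i + 4 ≤ 8 * 2 ^ (m + 1) - 1 → u (K - i) s = 0 :=
        fun i hi => swapped hK hK' hpar h i hi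
      have z2 : ∀ i : ℕ, i + 4 ≤ 8 * 2 ^ (m + 1) - 1 → u (K' - i) s' = 0 := fun i hi => by
        rw [← h i (by omega)]; exact z1 i hi
      have i1 := inactive (m + 1) K s (fun i hi1 hi2 => by rw [z1 i (by omega)]; norm_num) n hn
      have i2 := inactive (m + 1) K' s' (fun i hi1 hi2 => by rw [z2 i (by omega)]; norm_num) n hn
      rw [i1, i2]
      have := h 0 (by omega)
      simpa using this
    · rcases Classical.em (∀ i : ℕ, 1 ≤ i → i ≤ 3 * 2 ^ (m + 1) - 1 → u (K - i) s ≠ 2) with hina | hact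
      · have i1 := inactive (m + 1) K s hina n hn
        have i2 := inactive (m + 1) K' s' (fun i hi1 hi2 => by
          rw [← h i (by omega)]; exact hina i hi1 hi2) n hn
        rw [i1, i2]
        have := h 0 (by omega)
        simpa using this
      · -- an active even column
        have hact' : ∃ i : ℕ, 1 ≤ i ∧ i ≤ 3 * 2 ^ (m + 1) ∧ (∃ j, K - i = 2 * j) ∧ u (K - i) s = 2 := by
          push Not at hact
          obtain ⟨i, hi1, hi2, hi3⟩ := hact
          rcases Nat.even_or_odd' (K - i) with ⟨j, hj | hj⟩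
          · exact ⟨i, hi1, by omega, ⟨j, hj⟩, hi3⟩
          · refine ⟨i + 1, by omega, by omega, ⟨j, by omega⟩, ?_⟩
            have e : K - (i + 1) = 2 * j := by omega
            rw [e]
            apply odd_nonzero
            rw [← hj, hi3]
            norm_num
        obtain ⟨i, hi1, hi2, ⟨j, hj⟩, hi3⟩ := hact'
        obtain ⟨j', hj'⟩ : ∃ j', K' - i = 2 * j' := ⟨(K' - i) / 2, by omega⟩
        have hi4 : u (K' - i) s' = 2 := by rw [← h i (by omega)]; exact hi3
        -- the left neighbours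
        have hl := h (i - 1) (by omega)
        have e1 : K - (i - 1) = 2 * j + 1 := by omega
        have e2 : K' - (i - 1) = 2 * j' + 1 := by omega
        rw [e1, e2, u_odd, u_odd, ← hj, ← hj', if_pos hi3, if_pos hi4] at hl
        have hs4 : (4 : ℤ) ∣ s - s' := by omega
        have hs8 : (2 : ℤ) ∣ (s / 4 - s' / 4) - ((j : ℤ) - j') := by omega
        -- the next level
        have key : ∀ J J' : ℕ, 8 * 2 ^ m - 1 < J → 8 * 2 ^ m - 1 < J' →
            (2 : ℤ) ∣ ((J : ℤ) - J') - ((j : ℤ) - j') →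
            (∀ i : ℕ, i ≤ 8 * 2 ^ m - 1 → u (2 * (J - i)) s = u (2 * (J' - i)) s') →
            ∀ n' : ℕ, n' ≤ 4 ^ m + 1 → u J (s / 4 + n') = u J' (s' / 4 + n') := by
          intro J J' hJ hJ' hJJ hw n' hn'
          refine ih J J' (s / 4) (s' / 4) hJ hJ' (by omega) (fun i hi => ?_) n' hn'
          have := hw i hi
          rwa [u_even, u_even] at this
        obtain ⟨n', hn'⟩ : ∃ n' : ℕ, (s + n) / 4 = s / 4 + n' :=
          ⟨((s + n) / 4 - s / 4).toNat, by omega⟩
        have hn'2 : n' ≤ 4 ^ m + 1 := by omega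
        have hn'3 : (s' + n) / 4 = s' / 4 + n' := by omega
        rcases Nat.even_or_odd' K with ⟨J, hJ | hJ⟩
        · obtain ⟨J', hJ'⟩ : ∃ J', K' = 2 * J' := ⟨K' / 2, by omega⟩
          subst hJ hJ'
          rw [u_even, u_even, hn', hn'3]
          refine key J J' (by omega) (by omega) (by push_cast at *; omega) (fun i hi => ?_) n' hn'2
          have := h (2 * i) (by omega)
          have e1 : 2 * J - 2 * i = 2 * (J - i) := by omega
          have e2 : 2 * J' - 2 * i = 2 * (J' - i) := by omega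
          rwa [e1, e2] at this
        · obtain ⟨J', hJ'⟩ : ∃ J', K' = 2 * J' + 1 := ⟨K' / 2, by omega⟩
          subst hJ hJ'
          have hk := key J J' (by omega) (by omega) (by push_cast at *; omega) (fun i hi => by
            have := h (2 * i + 1) (by omega)
            have e1 : 2 * J + 1 - (2 * i + 1) = 2 * (J - i) := by omega
            have e2 : 2 * J' + 1 - (2 * i + 1) = 2 * (J' - i) := by omega
            rwa [e1, e2] at this) n' hn'2
          rw [u_odd', u_odd', hn', hn'3, hk]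
          have hJJ : (2 : ℤ) ∣ ((J : ℤ) - J') - ((j : ℤ) - j') := by push_cast at *; omega
          have e3 : ((s + n + 1) / 2 + 2 * (J : ℤ)) % 4 = ((s' + n + 1) / 2 + 2 * (J' : ℤ)) % 4 := by
            omega
          rw [e3]

/-- Columns which agree together with everything on the right have the same future. -/
theorem determined (s s' : ℤ) (hs : (2 : ℤ) ∣ s - s') (K : ℕ) (h : ∀ k ≤ K, u k s = u k s') (n : ℕ) :
    ∀ k ≤ K, u k (s + n) = u k (s' + n) := by
  induction n with
  | zero => simpa using h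
  | succ n ih =>
    intro k hk
    rcases Nat.eq_zero_or_pos k with h0 | h0
    · subst h0; simp [u_zero]
    · obtain ⟨l, rfl⟩ : ∃ l, k = l + 1 := ⟨k - 1, by omega⟩
      have e : s + ((n + 1 : ℕ) : ℤ) = (s + n) + 1 := by push_cast; ring
      have e' : s' + ((n + 1 : ℕ) : ℤ) = (s' + n) + 1 := by push_cast; ring
      rw [e, e', rule, rule, ih l (by omega), ih (l + 1) hk]
      have c : ((2 : ℤ) ∣ ((l : ℤ) - (s + n))) ↔ ((2 : ℤ) ∣ ((l : ℤ) - (s' + n))) := by omega
      simp only [c]

end Pool.Agent.V11104.SR
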