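import Mathlib
import Pool.Agent.V11104.SR2

/-!
# The one-sided subshift and its automorphism
-/

set_option autoImplicit false

namespace Pool.Agent.V11104.SR

/-- A symbol with a parity and a state. -/
def mk (p : Fin 2) (v : Fin 4) : Fin 9 := ⟨4 * p.val + v.val, by omega⟩

/-- The local rule: cells of parity `c` move one step if the right neighbour is of the other parity
and in the state `2`. -/
def upd (c : Fin 2) (a b : Fin 9) : Fin 9 :=
  if a.val / 4 = c.val ∧ b.val % 4 = 2 ∧ b.val < 8 ∧ b.val / 4 ≠ c.val then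
    Fin.ofNat 9 (4 * c.val + (a.val % 4 + 1) % 4) else a

/-- The inverse of the local rule. -/
def dnd (c : Fin 2) (a b : Fin 9) : Fin 9 :=
  if a.val / 4 = c.val ∧ b.val % 4 = 2 ∧ b.val < 8 ∧ b.val / 4 ≠ c.val then
    Fin.ofNat 9 (4 * c.val + (a.val % 4 + 3) % 4) else a

set_option maxRecDepth 100000 in
lemma dnd_upd : ∀ (c : Fin 2) (a b d : Fin 9), dnd c (upd c a b) (upd c b d) = a := by decide +kernel

set_option maxRecDepth 100000 in
lemma upd_dnd : ∀ (c : Fin 2) (a b d : Fin 9), upd c (dnd c a b) (dnd c b d) = a := by decide +kernel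

set_option maxRecDepth 100000 in
lemma upd_mk : ∀ (c p q : Fin 2) (v w : Fin 4), upd c (mk p v) (mk q w) =
    if p = c ∧ w = 2 ∧ q ≠ c then mk c (v + 1) else mk p v := by decide +kernel

lemma upd_blank : ∀ (c : Fin 2) (a : Fin 9), upd c a 8 = a := by decide +kernel

/-- A half step. -/
def hs (c : Fin 2) (x : ℕ → Fin 9) : ℕ → Fin 9 := fun i => upd c (x i) (x (i + 1))

/-- The inverse of a half step. -/
def hb (c : Fin 2) (x : ℕ → Fin 9) : ℕ → Fin 9 := fun i => dnd c (x i) (x (i + 1))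

lemma hb_hs (c : Fin 2) (x : ℕ → Fin 9) : hb c (hs c x) = x := by
  funext i
  exact dnd_upd c _ _ _

lemma hs_hb (c : Fin 2) (x : ℕ → Fin 9) : hs c (hb c x) = x := by
  funext i
  exact upd_dnd c _ _ _

/-- The automorphism. -/
def f (x : ℕ → Fin 9) : ℕ → Fin 9 := hs 0 (hs 1 x)

/-- Its inverse. -/
def g (x : ℕ → Fin 9) : ℕ → Fin 9 := hb 1 (hb 0 x)

lemma g_f (x : ℕ → Fin 9) : g (f x) = x := by
  unfold f g
  rw [hb_hs, hb_hs]

lemma f_g (x : ℕ → Fin 9) : f (g x) = x := by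
  unfold f g
  rw [hs_hb, hs_hb]

/-- The symbol of a column. -/
def sym (k : ℕ) (s : ℤ) : Fin 9 := mk ⟨k % 2, Nat.mod_lt _ (by norm_num)⟩
  ⟨(u k s).toNat, by have := u_range k s; omega⟩

/-- The rows. -/
def P (N : ℕ) (s : ℤ) : ℕ → Fin 9 := fun i => if i < N then sym (N - 1 - i) s else 8

lemma sym_step (c : Fin 2) (s : ℤ) (hc : (2 : ℤ) ∣ (s + 1) - (c.val : ℤ)) (l : ℕ) :
    upd c (sym (l + 1) s) (sym l s) = sym (l + 1) (s + 1) := by
  have hl := u_range l s
  have hl1 := u_range (l + 1) s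
  have hr := rule l s
  have hc2 := c.2
  unfold sym
  rw [upd_mk]
  rcases Classical.em ((2 : ℤ) ∣ (l : ℤ) - s ∧ u l s = 2) with h | h
  · rw [if_pos h] at hr
    rw [if_pos]
    · unfold mk
      apply Fin.ext
      simp only [hr, Fin.val_add]
      obtain ⟨h1, _⟩ := h
      have e : ((1 : Fin 4) : ℕ) = 1 := rfl
      rw [e]
      omega
    · obtain ⟨h1, h2⟩ := h
      refine ⟨?_, ?_, ?_⟩
      · apply Fin.ext
        show (l + 1) % 2 = c.val
        omega
      · apply Fin.ext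
        show (u l s).toNat = 2
        omega
      · intro h3
        have := congrArg Fin.val h3
        have h4 : l % 2 = c.val := this
        omega
  · rw [if_neg h] at hr
    rw [if_neg]
    · unfold mk
      apply Fin.ext
      simp only [hr]
    · rintro ⟨h1, h2, _⟩
      apply h
      have h1' : (l + 1) % 2 = c.val := congrArg Fin.val h1
      have h2' : (u l s).toNat = 2 := congrArg Fin.val h2
      constructor
      · omega
      · omega

lemma sym_zero (s s' : ℤ) : sym 0 s = sym 0 s' := by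
  unfold sym
  simp only [u_zero]

lemma hs_P (c : Fin 2) (s : ℤ) (hc : (2 : ℤ) ∣ (s + 1) - (c.val : ℤ)) (N : ℕ) :
    hs c (P N s) = P N (s + 1) := by
  funext i
  simp only [hs, P]
  rcases lt_trichotomy (i + 1) N with h | h | h
  · rw [if_pos (by omega), if_pos h, if_pos (by omega)]
    obtain ⟨l, hl⟩ : ∃ l, N - 1 - i = l + 1 := ⟨N - 1 - i - 1, by omega⟩
    have hl2 : N - 1 - (i + 1) = l := by omega
    rw [hl, hl2]
    exact sym_step c s hc l
  · rw [if_pos (by omega), if_neg (by omega), if_pos (by omega), upd_blank]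
    have : N - 1 - i = 0 := by omega
    rw [this]
    exact sym_zero _ _
  · rw [if_neg (by omega), if_neg (by omega), if_neg (by omega), upd_blank]

lemma f_P (N : ℕ) (t : ℤ) : f (P N (2 * t)) = P N (2 * (t + 1)) := by
  unfold f
  rw [hs_P 1 (2 * t) (by simp), hs_P 0 (2 * t + 1) (by
    simp only [Fin.val_zero, Nat.cast_zero, sub_zero]; omega)]
  congr 1
  ring

lemma f_iter_P (N : ℕ) (t : ℤ) (n : ℕ) : f^[n] (P N (2 * t)) = P N (2 * (t + n)) := by
  induction n generalizing t with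
  | zero => simp
  | succ n ih =>
    rw [Function.iterate_succ_apply, f_P, ih]
    congr 1
    push_cast
    ring

lemma g_P (N : ℕ) (t : ℤ) : g (P N (2 * t)) = P N (2 * (t - 1)) := by
  have := f_P N (t - 1)
  rw [sub_add_cancel] at this
  rw [← this, g_f]

lemma f_local (x y : ℕ → Fin 9) (m : ℕ) (h : ∀ i < m + 2, x i = y i) : ∀ i < m, f x i = f y i := by
  intro i hi
  simp only [f, hs]
  rw [h i (by omega), h (i + 1) (by omega), h (i + 1 + 1) (by omega)]

lemma g_local (x y : ℕ → Fin 9) (m : ℕ) (h : ∀ i < m + 2, x i = y i) : ∀ i < m, g x i = g y i := by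
  intro i hi
  simp only [g, hb]
  rw [h i (by omega), h (i + 1) (by omega), h (i + 1 + 1) (by omega)]

lemma f_iter_local (n : ℕ) : ∀ (x y : ℕ → Fin 9) (m : ℕ), (∀ i < m + 2 * n, x i = y i) →
    ∀ i < m, f^[n] x i = f^[n] y i := by
  induction n with
  | zero => intro x y m h i hi; exact h i (by omega)
  | succ n ih =>
    intro x y m h i hi
    rw [Function.iterate_succ_apply, Function.iterate_succ_apply]
    refine ih (f x) (f y) m (fun j hj => ?_) i hi
    exact f_local x y (m + 2 * n) (fun l hl => h l (by omega)) j hj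

/-- The one-sided subshift. -/
def X : Set (ℕ → Fin 9) := {x | ∀ m : ℕ, ∃ (N : ℕ) (t : ℤ), ∀ i < m, x i = P N (2 * t) i}

lemma P_mem (N : ℕ) (t : ℤ) : P N (2 * t) ∈ X := fun _ => ⟨N, t, fun _ _ => rfl⟩

lemma X_closed (x : ℕ → Fin 9) (h : ∀ m : ℕ, ∃ y ∈ X, ∀ i < m, y i = x i) : x ∈ X := by
  intro m
  obtain ⟨y, hy, hyx⟩ := h m
  obtain ⟨N, t, hNt⟩ := hy m
  exact ⟨N, t, fun i hi => by rw [← hyx i hi]; exact hNt i hi⟩

lemma P_shift (N : ℕ) (s : ℤ) (i : ℕ) : P N s (i + 1) = P (N - 1) s i := by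
  simp only [P]
  rcases lt_or_ge (i + 1) N with h | h
  · rw [if_pos h, if_pos (by omega)]
    congr 1
    omega
  · rw [if_neg (by omega), if_neg (by omega)]

lemma X_shift (x : ℕ → Fin 9) (hx : x ∈ X) : (fun i => x (i + 1)) ∈ X := by
  intro m
  obtain ⟨N, t, h⟩ := hx (m + 1)
  refine ⟨N - 1, t, fun i hi => ?_⟩
  rw [← P_shift]
  exact h (i + 1) (by omega)

lemma f_maps : Set.MapsTo f X X := by
  intro x hx m
  obtain ⟨N, t, h⟩ := hx (m + 2)
  refine ⟨N, t + 1, fun i hi => ?_⟩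
  rw [← f_P]
  exact f_local _ _ m h i hi

lemma g_maps : Set.MapsTo g X X := by
  intro x hx m
  obtain ⟨N, t, h⟩ := hx (m + 2)
  refine ⟨N, t - 1, fun i hi => ?_⟩
  rw [← g_P]
  exact g_local _ _ m h i hi

/-- Reading a window. -/
lemma sym_inj {k k' : ℕ} {s s' : ℤ} (h : sym k s = sym k' s') : k % 2 = k' % 2 ∧ u k s = u k' s' := by
  have h1 := congrArg Fin.val h
  have hu := u_range k s
  have hu' := u_range k' s'
  simp only [sym, mk] at h1
  constructor
  · omega
  · omega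

lemma sym_ne_blank (k : ℕ) (s : ℤ) : sym k s ≠ 8 := by
  intro h
  have h1 := congrArg Fin.val h
  have hu := u_range k s
  simp only [sym, mk] at h1
  have : ((8 : Fin 9) : ℕ) = 8 := rfl
  rw [this] at h1
  omega

/-- Windows of the rows determine the future. -/
theorem window (m : ℕ) (N N' : ℕ) (t t' : ℤ) (h : ∀ i ≤ 8 * 2 ^ m, P N (2 * t) i = P N' (2 * t') i)
    (n : ℕ) (hn : 2 * n ≤ 4 ^ m) : P N (2 * (t + n)) 0 = P N' (2 * (t' + n)) 0 := by
  have hp1 : 1 ≤ 2 ^ m := Nat.one_le_two_pow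
  -- nonblank positions correspond
  have hb : ∀ i ≤ 8 * 2 ^ m, (i < N ↔ i < N') := by
    intro i hi
    have := h i hi
    simp only [P] at this
    constructor
    · intro h1
      by_contra h2
      rw [if_pos h1, if_neg h2] at this
      exact sym_ne_blank _ _ this
    · intro h1
      by_contra h2
      rw [if_neg h2, if_pos h1] at this
      exact sym_ne_blank _ _ this.symm
  rcases Nat.eq_zero_or_pos N with h0 | h0
  · have h0' : N' = 0 := by
      by_contra hne
      have := (hb 0 (by omega)).2 (by omega)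
      omega
    subst h0 h0'
    simp [P]
  have h0' : 0 < N' := (hb 0 (by omega)).1 h0
  simp only [P, if_pos h0, if_pos h0']
  -- the parities and values agree
  have hv : ∀ i ≤ 8 * 2 ^ m, i < N → (N - 1 - i) % 2 = (N' - 1 - i) % 2 ∧
      u (N - 1 - i) (2 * t) = u (N' - 1 - i) (2 * t') := by
    intro i hi hiN
    have := h i hi
    simp only [P] at this
    rw [if_pos hiN, if_pos ((hb i hi).1 hiN)] at this
    exact sym_inj this
  have hpar := (hv 0 (by omega) h0).1
  simp only [Nat.sub_zero] at hpar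
  have key : u (N - 1) (2 * (t + n)) = u (N' - 1) (2 * (t' + n)) := by
    rcases lt_or_ge (8 * 2 ^ m) N with hbig | hsmall
    · have hbig' : 8 * 2 ^ m < N' := (hb _ le_rfl).1 hbig
      have e : 2 * (t + n) = 2 * t + ((2 * n : ℕ) : ℤ) := by push_cast; ring
      have e' : 2 * (t' + n) = 2 * t' + ((2 * n : ℕ) : ℤ) := by push_cast; ring
      rw [e, e']
      refine future m (N - 1) (N' - 1) (2 * t) (2 * t') (by omega) (by omega) (by omega) (fun i hi => ?_)
        (2 * n) (by omega)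
      exact (hv i (by omega) (by omega)).2
    · have hN : N' = N := by
        rcases lt_trichotomy N' N with h1 | h1 | h1
        · have := (hb N' (by omega)).1 h1
          omega
        · exact h1
        · have := (hb N (by omega)).2 h1
          omega
      subst hN
      have := determined (2 * t) (2 * t') (by omega) (N' - 1) (fun k hk => by
        have := (hv (N' - 1 - k) (by omega) (by omega)).2
        have e : N' - 1 - (N' - 1 - k) = k := by omega
        rwa [e] at this) (2 * n) (N' - 1) le_rfl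
      have e : 2 * (t + n) = 2 * t + ((2 * n : ℕ) : ℤ) := by push_cast; ring
      have e' : 2 * (t' + n) = 2 * t' + ((2 * n : ℕ) : ℤ) := by push_cast; ring
      rw [e, e']
      exact this
  simp only [sym, Nat.sub_zero, key, hpar]

/-- The radius of the iterates. -/
theorem radius (m : ℕ) (n : ℕ) (hn : 2 * n ≤ 4 ^ m) (x y : ℕ → Fin 9) (hx : x ∈ X) (hy : y ∈ X)
    (h : ∀ i ≤ 8 * 2 ^ m, x i = y i) : f^[n] x 0 = f^[n] y 0 := by
  obtain ⟨N, t, hN⟩ := hx (8 * 2 ^ m + 1 + 2 * n)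
  obtain ⟨N', t', hN'⟩ := hy (8 * 2 ^ m + 1 + 2 * n)
  have e1 : f^[n] x 0 = f^[n] (P N (2 * t)) 0 :=
    f_iter_local n x _ 1 (fun i hi => hN i (by omega)) 0 (by norm_num)
  have e2 : f^[n] y 0 = f^[n] (P N' (2 * t')) 0 :=
    f_iter_local n y _ 1 (fun i hi => hN' i (by omega)) 0 (by norm_num)
  rw [e1, e2, f_iter_P, f_iter_P]
  refine window m N N' t t' (fun i hi => ?_) n hn
  rw [← hN i (by omega), ← hN' i (by omega)]
  exact h i hi

/-- At time zero all columns except the source are at rest. -/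
lemma u_rest (k : ℕ) (hk : 1 ≤ k) : u k 0 = 0 := by
  induction k using Nat.strong_induction_on with
  | _ k ih =>
    rcases Nat.even_or_odd' k with ⟨j, rfl | rfl⟩
    · rw [u_even]
      exact ih j (by omega) (by omega)
    · rw [u_odd']
      rcases Nat.eq_zero_or_pos j with h | h
      · subst h; simp
      · have := ih j (by omega) h
        have e : (0 : ℤ) / 4 = 0 := by norm_num
        rw [e, this]
        simp

lemma u_pow (m k : ℕ) (s : ℤ) : u (2 ^ m * k) (4 ^ m * s) = u k s := by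
  induction m with
  | zero => simp
  | succ m ih =>
    have e : 2 ^ (m + 1) * k = 2 * (2 ^ m * k) := by ring
    rw [e, u_even]
    have e2 : (4 : ℤ) ^ (m + 1) * s / 4 = 4 ^ m * s := by
      have : (4 : ℤ) ^ (m + 1) * s = 4 * (4 ^ m * s) := by ring
      rw [this]
      omega
    rw [e2, ih]

/-- The radii are unbounded. -/
theorem unbounded (R : ℕ) : ∃ n : ℕ, ∃ x ∈ X, ∃ y ∈ X, (∀ i ≤ R, x i = y i) ∧ f^[n] x 0 ≠ f^[n] y 0 := by
  obtain ⟨m, hm⟩ : ∃ m : ℕ, R + 1 < 2 ^ (m + 1) := ⟨R + 1, by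
    calc R + 1 < 2 ^ (R + 1) := Nat.lt_two_pow_self
      _ ≤ 2 ^ (R + 1 + 1) := Nat.pow_le_pow_right (by norm_num) (by omega)⟩
  have hpow : 2 ^ (m + 1) = 2 * 2 ^ m := by ring
  refine ⟨2 * 4 ^ m, P (2 ^ (m + 1) * 1 + 1) (2 * 0), P_mem _ _, P (2 ^ (m + 1) * 3 + 1) (2 * 0), P_mem _ _, ?_, ?_⟩
  · intro i hi
    simp only [P]
    rw [if_pos (by omega), if_pos (by omega)]
    unfold sym
    have e1 : u (2 ^ (m + 1) * 1 + 1 - 1 - i) (2 * 0) = 0 := by
      rw [mul_zero]; exact u_rest _ (by omega)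
    have e2 : u (2 ^ (m + 1) * 3 + 1 - 1 - i) (2 * 0) = 0 := by
      rw [mul_zero]; exact u_rest _ (by omega)
    have e3 : (2 ^ (m + 1) * 1 + 1 - 1 - i) % 2 = (2 ^ (m + 1) * 3 + 1 - 1 - i) % 2 := by
      omega
    simp only [e1, e2, e3]
  · rw [f_iter_P, f_iter_P]
    intro h
    simp only [P] at h
    rw [if_pos (by omega), if_pos (by omega)] at h
    have h1 := (sym_inj h).2
    have e : (2 : ℤ) * (0 + ((2 * 4 ^ m : ℕ) : ℤ)) = 4 ^ (m + 1) * 1 := by push_cast; ring
    have e1 : 2 ^ (m + 1) * 1 + 1 - 1 - 0 = 2 ^ (m + 1) * 1 := by omega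
    have e2 : 2 ^ (m + 1) * 3 + 1 - 1 - 0 = 2 ^ (m + 1) * 3 := by omega
    rw [e, e1, e2, u_pow, u_pow] at h1
    have a1 : u 1 1 = 1 := by
      have := u_odd' 0 1
      simpa [u_zero] using this
    have a3 : u 3 1 = 0 := by
      have h3 := u_odd' 1 1
      have e4 : (1 : ℤ) / 4 = 0 := by norm_num
      rw [e4, u_rest 1 le_rfl] at h3
      simpa using h3
    rw [a1, a3] at h1
    norm_num at h1

/-- The radii grow sublinearly. -/
theorem sublinear (ε : ℝ) (hε : 0 < ε) : ∃ N : ℕ, ∀ n ≥ N, ∃ r : ℕ, (r : ℝ) ≤ ε * n ∧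
    ∀ x ∈ X, ∀ y ∈ X, (∀ i ≤ r, x i = y i) → f^[n] x 0 = f^[n] y 0 := by
  obtain ⟨N, hN⟩ := exists_nat_gt (512 / ε ^ 2)
  refine ⟨N + 1, fun n hn => ?_⟩
  set l := Nat.log 4 (2 * n) with hl
  have hn0 : 2 * n ≠ 0 := by omega
  have h1 : 4 ^ l ≤ 2 * n := Nat.pow_log_le_self 4 hn0
  have h2 : 2 * n < 4 ^ (l + 1) := Nat.lt_pow_succ_log_self (by norm_num) _
  refine ⟨8 * 2 ^ (l + 1), ?_, fun x hx y hy h => radius (l + 1) n h2.le x y hx hy h⟩
  have h3 : ((8 * 2 ^ (l + 1) : ℕ) : ℝ) ^ 2 ≤ 512 * n := by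
    have e : ((8 * 2 ^ (l + 1) : ℕ) : ℝ) ^ 2 = 256 * ((4 ^ l : ℕ) : ℝ) := by
      push_cast
      have : (4 : ℝ) ^ l = (2 ^ l) ^ 2 := by
        rw [← pow_mul, mul_comm, pow_mul]; norm_num
      rw [this, pow_succ]
      ring
    rw [e]
    have : ((4 ^ l : ℕ) : ℝ) ≤ ((2 * n : ℕ) : ℝ) := by exact_mod_cast h1
    push_cast at this ⊢
    linarith
  have hnN : (512 : ℝ) / ε ^ 2 ≤ n := by
    have : (N : ℝ) ≤ n := by exact_mod_cast (by omega : N ≤ n)
    linarith
  have h4 : (512 : ℝ) * n ≤ (ε * n) ^ 2 := by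
    rw [div_le_iff₀ (by positivity)] at hnN
    have hn' : (0 : ℝ) ≤ n := Nat.cast_nonneg _
    nlinarith
  have h5 : ((8 * 2 ^ (l + 1) : ℕ) : ℝ) ^ 2 ≤ (ε * n) ^ 2 := h3.trans h4
  exact (abs_le_of_sq_le_sq' h5 (by positivity)).2

end Pool.Agent.V11104.SR
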